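import Pool.Agent.Helper35.AM.Lv

/-!
# Bar-invariant elements and products in the lattices
-/

/- PROOF HINTS (conventions: see Df.lean)
Lv, Lv2: coordinates in the basis C. bar acts on C.repr by invert (bar C = C), see KL/Tf.lean (up) and eq_zero_of_bar in KL/Laurent.lean.
 Lat T n = Lat C n: lat_cmp in KL/Tri.lean with T_sub_C_neg / C_T. mem_II_of_bar: C.repr(bar x) z = invert(C.repr x z); so for light z the coordinate is invert-invariant and of
 degree <= -1, hence 0. congr_up: x - up(ld 0 x) in LL(-1) by LL_of_ld + ld_up. mul_LL: expand both factors in the basis C; terms with a heavy factor are in II.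
-/

namespace Pool.Agent.Helper35.AM

open Pool.Agent.Helper35.KL

section lv2

variable {B : Type} {M : CoxeterMatrix B} {L : M.Group → ℤ} {H : Type} [Ring H] [Algebra LP H]
variable {D : KLD M L H} {hv : M.Group → Prop}

private theorem lv2_repr_bar (x : H) (z : M.Group) :
    D.C.repr (D.bar x) z = LaurentPolynomial.invert (D.C.repr x z) := by
  classical
  have h3 : x ∈ Submodule.span LP (Set.range D.C) := D.C.mem_span x
  refine Submodule.span_induction
    (p := fun x _ => D.C.repr (D.bar x) z = LaurentPolynomial.invert (D.C.repr x z))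
    ?_ ?_ ?_ ?_ h3
  · rintro _ ⟨y, rfl⟩
    rw [D.bar_C, Module.Basis.repr_self, Finsupp.single_apply]
    split_ifs
    · rw [map_one]
    · rw [map_zero]
  · rw [map_zero, map_zero, Finsupp.zero_apply, map_zero]
  · intro a b _ _ ha hb
    rw [map_add, map_add, map_add, Finsupp.add_apply, Finsupp.add_apply, map_add, ha, hb]
  · intro a b _ hb
    rw [D.bar_smul, map_smul, map_smul, Finsupp.smul_apply, Finsupp.smul_apply, hb,
      smul_eq_mul, smul_eq_mul, map_mul]

theorem up_LL (t : M.Group →₀ ℤ) : D.up t ∈ LL D hv 0 := by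
  rw [mem_LL]
  intro z _
  rw [D.repr_up]
  exact (Dle.one le_rfl).zsmul _

theorem ld_up {t : M.Group →₀ ℤ} (h : ∀ z, t z ≠ 0 → ¬ hv z) : ld D hv 0 (D.up t) = t := by
  classical
  ext z
  rw [ld_apply]
  split_ifs with hz
  · by_contra hne
    exact h z (Ne.symm hne) hz
  · rw [D.repr_up, cf_zsmul, cf_one, if_pos rfl, mul_one]

theorem ld_supp {n : ℤ} {x : H} {z : M.Group} (h : ld D hv n x z ≠ 0) : ¬ hv z :=
  fun hz => h (ld_hv n x hz)

theorem II_bar {x : H} (h : x ∈ II D hv) : D.bar x ∈ II D hv := by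
  rw [mem_II] at h ⊢
  intro z hz
  rw [lv2_repr_bar, h z hz, map_zero]

theorem bar_up_sub (t : M.Group →₀ ℤ) : D.bar (D.up t) - D.up t ∈ II D hv := by
  rw [D.bar_up, sub_self]
  exact Submodule.zero_mem _

/-- The lattice argument. -/
theorem mem_II_of_bar {x : H} (hx : x ∈ LL D hv (-1)) (hb : D.bar x - x ∈ II D hv) :
    x ∈ II D hv := by
  rw [mem_II] at hb ⊢
  rw [mem_LL] at hx
  intro z hz
  have h1 := hb z hz
  rw [map_sub, Finsupp.sub_apply, lv2_repr_bar, sub_eq_zero] at h1
  exact eq_zero_of_bar (hx z hz) h1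

theorem congr_of_bar {x y : H} (hx : D.bar x - x ∈ II D hv) (hy : D.bar y - y ∈ II D hv)
    (h : x - y ∈ LL D hv (-1)) : x - y ∈ II D hv := by
  refine mem_II_of_bar h ?_
  have h1 : D.bar (x - y) - (x - y) = (D.bar x - x) - (D.bar y - y) := by
    rw [map_sub]
    abel
  rw [h1]
  exact Submodule.sub_mem _ hx hy

theorem congr_up {x : H} (h0 : x ∈ LL D hv 0) (hb : D.bar x - x ∈ II D hv) :
    x - D.up (ld D hv 0 x) ∈ II D hv := by
  refine congr_of_bar hb (bar_up_sub _) ?_
  have h1 : x - D.up (ld D hv 0 x) ∈ LL D hv 0 := AddSubgroup.sub_mem _ h0 (up_LL _)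
  have h2 : ld D hv 0 (x - D.up (ld D hv 0 x)) = 0 := by
    rw [map_sub, ld_up (fun z hz => ld_supp hz), sub_self]
  have h3 := LL_of_ld h1 h2
  rwa [zero_sub] at h3

theorem Idl.II_mulL (hI : Idl D hv) (y : H) {x : H} (hx : x ∈ II D hv) : y * x ∈ II D hv := by
  rw [II] at hx
  refine Submodule.span_induction (p := fun x _ => y * x ∈ II D hv) ?_ ?_ ?_ ?_ hx
  · rintro _ ⟨w, hw, rfl⟩
    exact hI.mulL w hw y
  · rw [mul_zero]
    exact Submodule.zero_mem _
  · intro a b _ _ ha hb
    rw [mul_add]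
    exact Submodule.add_mem _ ha hb
  · intro a b _ hb
    rw [mul_smul_comm]
    exact Submodule.smul_mem _ _ hb

theorem Idl.II_mulR (hI : Idl D hv) (y : H) {x : H} (hx : x ∈ II D hv) : x * y ∈ II D hv := by
  rw [II] at hx
  refine Submodule.span_induction (p := fun x _ => x * y ∈ II D hv) ?_ ?_ ?_ ?_ hx
  · rintro _ ⟨w, hw, rfl⟩
    exact hI.mulR w hw y
  · rw [zero_mul]
    exact Submodule.zero_mem _
  · intro a b _ _ ha hb
    rw [add_mul]
    exact Submodule.add_mem _ ha hb
  · intro a b _ hb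
    rw [smul_mul_assoc]
    exact Submodule.smul_mem _ _ hb

theorem II_fl (h : ∀ w, hv w → hv w⁻¹) {x : H} (hx : x ∈ II D hv) : D.fl x ∈ II D hv := by
  rw [mem_II] at hx ⊢
  intro z hz
  rw [D.repr_C_fl]
  refine hx _ fun hz' => hz ?_
  have h1 := h _ hz'
  rwa [inv_inv] at h1

theorem LL_fl (h : ∀ w, hv w → hv w⁻¹) {n : ℤ} {x : H} (hx : x ∈ LL D hv n) :
    D.fl x ∈ LL D hv n := by
  rw [mem_LL] at hx ⊢
  intro z hz
  rw [D.repr_C_fl]
  refine hx _ fun hz' => hz ?_
  have h1 := h _ hz'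
  rwa [inv_inv] at h1

/-- Products of elements of the lattices. -/
theorem mul_LL (hI : Idl D hv) {k : ℤ} (hk : ∀ x y, D.C x * D.C y ∈ LL D hv k) {m n : ℤ}
    {x y : H} (hx : x ∈ LL D hv m) (hy : y ∈ LL D hv n) : x * y ∈ LL D hv (m + n + k) := by
  rw [mem_LL] at hx hy
  rw [← D.C.linearCombination_repr x, ← D.C.linearCombination_repr y,
    Finsupp.linearCombination_apply, Finsupp.linearCombination_apply, Finsupp.sum, Finsupp.sum,
    Finset.sum_mul_sum]
  refine AddSubgroup.sum_mem _ fun u _ => AddSubgroup.sum_mem _ fun v _ => ?_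
  rw [smul_mul_assoc, mul_smul_comm, smul_smul]
  by_cases hu : hv u
  · exact II_LL (Submodule.smul_mem _ _ (hI.mulR u hu _)) _
  · by_cases hv' : hv v
    · exact II_LL (Submodule.smul_mem _ _ (hI.mulL v hv' _)) _
    · exact smul_LL ((hx u hu).mul (hy v hv')) (hk u v)

/-- The filtration by the lattices. -/
noncomputable def LfC (D : KLD M L H) (hv : M.Group → Prop) : Lf D hv (M.Group →₀ ℤ) where
  Lam := LL D hv
  ld := ld D hv
  mono := LL_mono
  lt := ld_lt
  smul := smul_LL
  ldsmul := ld_smul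
  mem := fun h n => II_LL h n

end lv2

end Pool.Agent.Helper35.AM
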