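import Pool.Agent.Helper35.AM.Ac2

/-!
# The syllables of an element
-/

/- PROOF HINTS (conventions: see Df.lean)
Oc. OccL: w = x u r (x in XR PI n W_i, g = x u not in W_I, r in XL(P i)). Suppose w = p1 g1 r1 (group j, g1 not in W_I, la g1 >= N) (w in W_I is impossible:
 par_of_mul). If p1 = 1: j = i by one_sideL and g1 = g by XL_unique. If p1 <> 1: p1 not in W_I (XR_unique), casesL: p1 = g0 r0 (group l, g0 not in W_I,
 r0 in XL(P l)). g0 = x0 u0. w = x0 (u0 r0 g1 r1), all reduced (len_three). Let u2 R2 = u0 r0 g1 r1 be the decomposition for W_l. The W_l-part of w is x0 u2 not in W_I,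
 so l = i by one_sideL. u2 is in W_I: if r0 <> 1: r0 has W_{!i}-part k' not in W_I (splitL), and r0 g1 r1 = k'(rest) with the W_{!i}-part k'·.. not in W_I;
 one_sideL; if r0 = 1: p1 = g0 in W_i n XR PI, u0 = 1, j <> i (p1 in XR(P j), p1 <> 1), so g1 r1 has the W_{!i}-part g1 not in W_I; one_sideL again. Now w = (x0 u2) R2 with R2 in XL(P i),
 so x u = x0 u2, r = R2 (XL_unique), x = x0, u = u2 (XR_unique for PI) and u r = (u0 r0) g1 r1 with u0 r0 = x0^-1 p1 a suffix of p1, in XR(P j): Occ.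
 Occ_mem_iff: g = p1 g1 r1 reduced => p1, g1, r1 in W_i, la g1 <= la g by hmono twice. Occ_diff: p = 1 = r: trivial; p <> 1: p = p'k (splitR),
 (p', k u, r) is a syllable with la(k u) >= la u; r <> 1 similar. OccR from OccL by inverses (Occ_inv).
-/

namespace Pool.Agent.Helper35.AM

open Pool.Agent.Helper35.KL

section oc

variable {B : Type} {M : CoxeterMatrix B} {P : Bool → Set B} (hA : Am M P) {la : M.Group → ℕ}
variable (hinv : ∀ i, ∀ z ∈ par M (P i), la z⁻¹ = la z)
variable (hmono : ∀ i, ∀ x ∈ par M (P i), ∀ y ∈ par M (P i),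
  len M (x * y) = len M x + len M y → la x ≤ la (x * y) ∧ la y ≤ la (x * y))

theorem Occ_mono {N N' : ℕ} (h : N ≤ N') {w : M.Group} (hw : Occ M P la N' w) :
    Occ M P la N w := by
  rcases hw with ⟨h1, h2⟩ | ⟨i, p, hp, g, hg, hg', r, hr, hw, hN⟩
  · exact Or.inl ⟨h1, h.trans h2⟩
  · exact Or.inr ⟨i, p, hp, g, hg, hg', r, hr, hw, h.trans hN⟩

include hA in
theorem Occ_zero (w : M.Group) : Occ M P la 0 w := by
  rcases casesR hA w with h | ⟨i, p, hp, g, hg, hg', hw⟩
  · exact Or.inl ⟨h, Nat.zero_le _⟩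
  · exact Or.inr ⟨i, p, hp, g, hg, hg', 1, one_mem_XL, by rw [mul_one]; exact hw,
      Nat.zero_le _⟩

include hinv in
theorem Occ_inv {N : ℕ} {w : M.Group} (hw : Occ M P la N w) : Occ M P la N w⁻¹ := by
  rcases hw with ⟨h1, h2⟩ | ⟨i, p, hp, g, hg, hg', r, hr, hw, hN⟩
  · refine Or.inl ⟨inv_mem h1, ?_⟩
    rw [hinv true w (par_mono (PI_sub true) h1)]
    exact h2
  · refine Or.inr ⟨i, r⁻¹, inv_mem_XR.2 hr, g⁻¹, inv_mem hg, ?_, p⁻¹, inv_mem_XL.2 hp, ?_, ?_⟩
    · intro h
      exact hg' (by simpa using inv_mem h)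
    · rw [hw]
      group
    · rw [hinv i g hg]
      exact hN

theorem Occ_of_mem {N : ℕ} {i : Bool} {g : M.Group} (hg : g ∈ par M (P i)) (h : N ≤ la g) :
    Occ M P la N g := by
  by_cases h1 : g ∈ par M (PI P)
  · exact Or.inl ⟨h1, h⟩
  · exact Or.inr ⟨i, 1, one_mem_XR, g, hg, h1, 1, one_mem_XL, by rw [one_mul, mul_one], h⟩

include hA hmono in
theorem Occ_diff {N : ℕ} {i : Bool} {p u r : M.Group} (hp : p ∈ XR M (P i))
    (hu : u ∈ par M (PI P)) (hr : r ∈ XL M (P (!i))) (h : N ≤ la u) :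
    Occ M P la N (p * u * r) := by
  by_cases hp1 : p = 1
  · by_cases hr1 : r = 1
    · rw [hp1, hr1, one_mul, mul_one]
      exact Occ_of_mem (i := i) (par_mono (PI_sub i) hu) h
    · obtain ⟨k, hk, r', hr', hkX, hkI, hrk, -, -⟩ := splitL hA hr hr1
      rw [Bool.not_not] at hk hr'
      have hu' : u ∈ par M (P i) := par_mono (PI_sub i) hu
      refine Or.inr ⟨i, 1, one_mem_XR, u * k, mul_mem hu' hk, ?_, r', hr', ?_, ?_⟩
      · intro h2
        exact hkI (by simpa using mul_mem (inv_mem hu) h2)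
      · rw [hp1, hrk]
        group
      · exact h.trans (hmono i u hu' k hk (len_mul_XL hu hkX)).1
  · obtain ⟨p', hp', k, hk, hkX, hkI, hpk, -, -⟩ := splitR hA hp hp1
    have hu' : u ∈ par M (P (!i)) := par_mono (PI_sub (!i)) hu
    refine Or.inr ⟨!i, p', hp', k * u, mul_mem hk hu', ?_, r, hr, ?_, ?_⟩
    · intro h2
      exact hkI (by simpa using mul_mem h2 (inv_mem hu))
    · rw [hpk]
      group
    · exact h.trans (hmono (!i) k hk u hu' (len_XR_mul hkX hu)).2

include hA hmono in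
/-- The value of an element of one of the two groups. -/
theorem Occ_mem_iff {N : ℕ} {i : Bool} {g : M.Group} (hg : g ∈ par M (P i)) :
    Occ M P la N g ↔ N ≤ la g := by
  refine ⟨?_, fun h => Occ_of_mem hg h⟩
  rintro (⟨-, h⟩ | ⟨j, p, hp, g1, hg1, hg1', r, hr, hw, hN⟩)
  · exact h
  · have h3 := len_three hA hp hg1 hg1' hr
    have h2 : len M (p * g1) = len M p + len M g1 := len_XR_mul hp hg1
    have h4 : len M (p * g1 * r) = len M (p * g1) + len M r := by rw [h3, h2]
    rw [hw] at hg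
    obtain ⟨h5, h6⟩ := par_of_mul h4 hg
    obtain ⟨h7, h8⟩ := par_of_mul h2 h5
    rw [hw]
    exact (hN.trans (hmono i p h7 g1 h8 h2).2).trans (hmono i _ h5 r h6 h4).1

/-- The first syllable of a product. -/
private theorem Oc_first {i : Bool} {a y k R : M.Group} (ha : a ∈ par M (P i))
    (ha' : a ∉ par M (PI P)) (h : len M (a * y) = len M a + len M y) (hk : k ∈ par M (P i))
    (hR : R ∈ XL M (P i)) (hy : y = k * R) : a * k ∉ par M (PI P) := by
  intro h1
  have h2 : len M (a * k * R) = len M (a * k) + len M R := len_mul_XL (mul_mem ha hk) hR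
  have h3 : len M y = len M k + len M R := by rw [hy]; exact len_mul_XL hk hR
  have h4 : a * y = a * k * R := by rw [hy, mul_assoc]
  have h5 : len M (a * k) = len M a + len M k := by
    rw [h4, h2, h3] at h
    omega
  exact ha' (par_of_mul h5 h1).1

include hA hmono in
/-- Removing the first syllable. -/
theorem OccL {N : ℕ} {i : Bool} {x u r : M.Group} (hx : x ∈ XR M (PI P)) (hx' : x ∈ par M (P i))
    (hu : u ∈ par M (PI P)) (h1 : x * u ∉ par M (PI P)) (hr : r ∈ XL M (P i))
    (h : Occ M P la N (x * u * r)) : N ≤ la (x * u) ∨ Occ M P la N (u * r) := by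
  have hu' : u ∈ par M (P i) := par_mono (PI_sub i) hu
  have hxu : x * u ∈ par M (P i) := mul_mem hx' hu'
  rcases h with ⟨h2, -⟩ | ⟨j, p1, hp1, g1, hg1, hg1', r1, hr1, hw, hN⟩
  · exact absurd (par_of_mul (len_mul_XL hxu hr) h2).1 h1
  by_cases hp : p1 = 1
  · rw [hp, one_mul] at hw
    by_cases hj : j = i
    · subst hj
      left
      rw [(XL_unique hxu hg1 hr hr1 hw).1]
      exact hN
    · have hj' : j = !i := by
        cases i <;> cases j <;> simp_all
      subst hj'
      exact (one_sideL hA hxu hr hg1 hr1 hw h1 hg1').elim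
  -- the first factor is not trivial
  rcases casesL hA p1 with h3 | ⟨l, g0, hg0, hg0', r0, hr0, hpr⟩
  · have := XR_unique hp1 (one_mem_XR (P := P j)) (one_mem (par M (P j)))
      (par_mono (PI_sub j) h3) (by rw [mul_one, one_mul])
    exact absurd this.1 hp
  obtain ⟨x0, hx0, u0, hu0, hxu0⟩ := exists_XR (PI P) g0
  have hu0l : u0 ∈ par M (P l) := par_mono (PI_sub l) hu0
  have hx0l : x0 ∈ par M (P l) := by
    have : x0 = g0 * u0⁻¹ := by rw [hxu0]; group
    rw [this]
    exact mul_mem hg0 (inv_mem hu0l)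
  have hx0' : x0 ∉ par M (PI P) := by
    intro h4
    exact hg0' (by rw [hxu0]; exact mul_mem h4 hu0)
  -- the lengths
  have l1 := len_three hA hp1 hg1 hg1' hr1
  have l2 : len M p1 = len M g0 + len M r0 := by rw [hpr]; exact len_mul_XL hg0 hr0
  have l3 : len M g0 = len M x0 + len M u0 := by rw [hxu0]; exact len_XR_mul hx0 hu0
  have l4 : len M (u0 * r0) = len M u0 + len M r0 := by
    have a1 : len M (x0 * (u0 * r0)) ≤ len M x0 + len M (u0 * r0) :=
      M.toCoxeterSystem.length_mul_le _ _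
    have a2 : len M (u0 * r0) ≤ len M u0 + len M r0 := M.toCoxeterSystem.length_mul_le _ _
    have a3 : x0 * (u0 * r0) = p1 := by rw [hpr, hxu0]; group
    rw [a3] at a1
    omega
  have l5 : len M (u0 * r0 * g1 * r1) = len M u0 + len M r0 + len M g1 + len M r1 := by
    have a1 : len M (x0 * (u0 * r0 * g1 * r1)) ≤ len M x0 + len M (u0 * r0 * g1 * r1) :=
      M.toCoxeterSystem.length_mul_le _ _
    have a2 : len M (u0 * r0 * g1 * r1) ≤ len M (u0 * r0 * g1) + len M r1 :=
      M.toCoxeterSystem.length_mul_le _ _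
    have a4 : len M (u0 * r0 * g1) ≤ len M (u0 * r0) + len M g1 :=
      M.toCoxeterSystem.length_mul_le _ _
    have a3 : x0 * (u0 * r0 * g1 * r1) = p1 * g1 * r1 := by rw [hpr, hxu0]; group
    rw [a3] at a1
    omega
  have l6 : len M (x0 * (u0 * r0 * g1 * r1)) = len M x0 + len M (u0 * r0 * g1 * r1) := by
    have a3 : x0 * (u0 * r0 * g1 * r1) = p1 * g1 * r1 := by rw [hpr, hxu0]; group
    rw [a3, l1, l5]
    omega
  obtain ⟨u2, hu2, R2, hR2, hz⟩ := exists_XL (P l) (u0 * r0 * g1 * r1)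
  have hx02 : x0 * u2 ∉ par M (PI P) := Oc_first hx0l hx0' l6 hu2 hR2 hz
  have hw2 : x * u * r = x0 * u2 * R2 := by
    rw [hw, mul_assoc x0, ← hz, hpr, hxu0]
    group
  have hli : l = i := by
    by_contra hli
    have hl' : l = !i := by
      cases i <;> cases l <;> simp_all
    subst hl'
    exact one_sideL hA hxu hr (mul_mem hx0l hu2) hR2 hw2 h1 hx02
  subst hli
  obtain ⟨e1, e2⟩ := XL_unique hxu (mul_mem hx0l hu2) hr hR2 hw2
  have hu2' : u2 ∈ par M (PI P) := by
    by_contra hu2'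
    by_cases hr01 : r0 = 1
    · have hp1l : p1 ∈ par M (P l) := by
        rw [hpr, hr01, mul_one]
        exact hg0
      have hjl : j ≠ l := by
        intro hjl
        subst hjl
        exact hp (XR_unique hp1 (one_mem_XR (P := P j)) (one_mem (par M (P j)))
          hp1l (by rw [mul_one, one_mul])).1
      have hj' : j = !l := by
        cases l <;> cases j <;> simp_all
      subst hj'
      have hu01 : u0 = 1 := by
        have hh : x0 * u0 = p1 * 1 := by rw [hpr, hr01, hxu0]; group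
        exact (XR_unique hx0 (XR_mono (PI_sub (!l)) hp1) hu0 (one_mem _) hh).2
      have hz2 : u2 * R2 = g1 * r1 := by
        rw [← hz, hr01, hu01, one_mul, one_mul]
      exact one_sideL hA hu2 hR2 hg1 hr1 hz2 hu2' hg1'
    · obtain ⟨k, hk, r', hr', hkX, hkI, hrk, hlen, -⟩ := splitL hA hr0 hr01
      have huk : u0 * k ∈ par M (P (!l)) := mul_mem (par_mono (PI_sub (!l)) hu0) hk
      have huk' : u0 * k ∉ par M (PI P) := by
        intro h4
        exact hkI (by simpa using mul_mem (inv_mem hu0) h4)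
      obtain ⟨k3, hk3, R3, hR3, hz3⟩ := exists_XL (P (!l)) (r' * g1 * r1)
      have hz4 : u0 * r0 * g1 * r1 = u0 * k * (r' * g1 * r1) := by
        rw [hrk]
        group
      have l7 : len M (u0 * k * (r' * g1 * r1)) = len M (u0 * k) + len M (r' * g1 * r1) := by
        have a1 : len M (u0 * k * (r' * g1 * r1)) ≤ len M (u0 * k) + len M (r' * g1 * r1) :=
          M.toCoxeterSystem.length_mul_le _ _
        have a2 : len M (r' * g1 * r1) ≤ len M (r' * g1) + len M r1 :=
          M.toCoxeterSystem.length_mul_le _ _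
        have a4 : len M (r' * g1) ≤ len M r' + len M g1 :=
          M.toCoxeterSystem.length_mul_le _ _
        have a5 : len M (u0 * k) ≤ len M u0 + len M k :=
          M.toCoxeterSystem.length_mul_le _ _
        rw [← hz4] at a1 ⊢
        omega
      have h5 : u0 * k * k3 ∉ par M (PI P) := Oc_first huk huk' l7 hk3 hR3 hz3
      have h6 : u2 * R2 = u0 * k * k3 * R3 := by
        rw [← hz, hz4, hz3]
        group
      exact one_sideL hA hu2 hR2 (mul_mem huk hk3) hR3 h6 hu2' h5
  obtain ⟨e3, e4⟩ := XR_unique hx hx0 hu hu2' e1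
  right
  have hsuf : u0 * r0 ∈ XR M (P j) := by
    have a3 : x0 * (u0 * r0) = p1 := by rw [hpr, hxu0]; group
    refine XR_suf (x := x0) ?_ (by rw [a3]; exact hp1)
    rw [a3, l4]
    omega
  refine Or.inr ⟨j, u0 * r0, hsuf, g1, hg1, hg1', r1, hr1, ?_, hN⟩
  rw [e4, e2, ← hz]

include hA hinv hmono in
/-- Removing the last syllable. -/
theorem OccR {N : ℕ} {i : Bool} {y v p : M.Group} (hy : y ∈ XL M (PI P)) (hy' : y ∈ par M (P i))
    (hv : v ∈ par M (PI P)) (h1 : v * y ∉ par M (PI P)) (hp : p ∈ XR M (P i))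
    (h : Occ M P la N (p * (v * y))) : N ≤ la (v * y) ∨ Occ M P la N (p * v) := by
  have hvy : v * y ∈ par M (P i) := mul_mem (par_mono (PI_sub i) hv) hy'
  have h2 : Occ M P la N (y⁻¹ * v⁻¹ * p⁻¹) := by
    have := Occ_inv hinv h
    rwa [mul_inv_rev, mul_inv_rev] at this
  have h3 : y⁻¹ * v⁻¹ ∉ par M (PI P) := by
    intro h4
    rw [← mul_inv_rev] at h4
    exact h1 (by simpa using inv_mem h4)
  rcases OccL hA hmono (inv_mem_XR.2 hy) (inv_mem hy') (inv_mem hv) h3 (inv_mem_XL.2 hp) h2 with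
    h4 | h4
  · left
    rwa [← mul_inv_rev, hinv i _ hvy] at h4
  · right
    have := Occ_inv hinv h4
    rwa [mul_inv_rev, inv_inv, inv_inv] at this

end oc

end Pool.Agent.Helper35.AM
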