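import Pool.Agent.Helper35.AM.Lq
import Pool.Agent.Helper35.AM.Oc
import Pool.Agent.Helper35.AM.Lv2

/-!
# The standing assumptions
-/

/- PROOF HINTS (conventions: see Df.lean)
Aa. T_three/T_diff: T_mul with len_three/len_diff, len_XR_mul. bdd: N = max of the bounds + 1.
-/

namespace Pool.Agent.Helper35.AM

open Pool.Agent.Helper35.KL

section aa

variable {B : Type} {M : CoxeterMatrix B} {L : M.Group → ℤ} {H : Type} [Ring H] [Algebra LP H]

/-- The standing assumptions: an amalgam of two parabolic subgroups with P1-P15. -/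
structure Dat (D : KLD M L H) (P : Bool → Set B) (la : M.Group → ℕ) : Prop where
  am : Am M P
  wt : IsWeight M L
  loc : ∀ i, Loc D (P i) la

variable {D : KLD M L H} {P : Bool → Set B} {la : M.Group → ℕ} (hD : Dat D P la)

include hD in
theorem Dat.locI : Loc D (PI P) la := loc_sub D (PI_sub true) (hD.loc true)

include hD in
theorem Dat.hinv : ∀ i, ∀ z ∈ par M (P i), la z⁻¹ = la z := fun i => (hD.loc i).lainv

include hD in
theorem Dat.hmono : ∀ i, ∀ x ∈ par M (P i), ∀ y ∈ par M (P i),
    len M (x * y) = len M x + len M y → la x ≤ la (x * y) ∧ la y ≤ la (x * y) :=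
  fun i _ hx _ hy h => la_mul D (hD.loc i) hx hy h

include hD in
/-- The values of `la` are bounded; there are no elements with large syllables. -/
theorem Dat.bdd : ∃ N : ℕ, ∀ w, ¬ Occ M P la N w := by
  obtain ⟨N1, h1⟩ := (hD.loc true).bdd
  obtain ⟨N2, h2⟩ := (hD.loc false).bdd
  have key : ∀ i, ∀ z ∈ par M (P i), la z ≤ max N1 N2 := by
    intro i z hz
    cases i with
    | true => exact (h1 z hz).trans (le_max_left _ _)
    | false => exact (h2 z hz).trans (le_max_right _ _)
  refine ⟨max N1 N2 + 1, fun w hw => ?_⟩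
  rcases hw with ⟨hw, h⟩ | ⟨i, p, _, g, hg, _, r, _, _, h⟩
  · have := key true w (par_mono (PI_sub true) hw)
    omega
  · have := key i g hg
    omega

include hD in
theorem Dat.T_three {i : Bool} {p g r : M.Group} (hp : p ∈ XR M (P i)) (hg : g ∈ par M (P i))
    (hg' : g ∉ par M (PI P)) (hr : r ∈ XL M (P i)) :
    D.T p * D.T g * D.T r = D.T (p * g * r) := by
  have h1 := len_XR_mul hp hg
  have h2 := len_three hD.am hp hg hg' hr
  rw [← D.T_mul _ _ h1, ← D.T_mul _ _ (by rw [h2, h1])]

include hD in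
theorem Dat.T_diff {i : Bool} {p u r : M.Group} (hp : p ∈ XR M (P i)) (hu : u ∈ par M (PI P))
    (hr : r ∈ XL M (P (!i))) : D.T p * D.T u * D.T r = D.T (p * u * r) := by
  have h1 := len_XR_mul hp (par_mono (PI_sub i) hu)
  have h2 := len_diff hD.am hp hu hr
  rw [← D.T_mul _ _ h1, ← D.T_mul _ _ (by rw [h2, h1])]

end aa

end Pool.Agent.Helper35.AM
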