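import Pool.Agent.Helper35.AM.Aa

/-!
# The degrees of the products `T p * C g * T r`
-/

/- PROOF HINTS (conventions: see Df.lean)
Aa2. hv = Occ N, F = LfC, kappa = N-1, T0 = 0 (T_w in LL 0). A_low and A_high together by strong induction on len p + len r: A_low at (p,r): p in XR(P i), r in XL(P j) (XR_or, XL_or). If j = !i:
 T_pC_uT_r = sum p_{v,u} T_{pvr} in LL 0 (T_diff). If j = i and p = 1 or r = 1: same with !i. Else p = p'k1, r = k2r' (splitR, splitL): T_pC_uT_r = T_{p'}(T_k1C_uT_k2)T_{r'}, expand the middle in C_c, c in W_{!i}; Dle(la c - la u)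
 by L1a; la c < N: A_high for (p',r'); la c >= N: Occ N c, ideal. A_high at (p,r) from A_low at the same (p,r): R1_mem.
 TT_LL: x = p v, y = u r (XR PI, XL PI): T_xT_y = T_p(T_vT_u)T_r, T_vT_u = sum_{w in W_I} (Dle (la w)) C_w (TT_lead); A_low. CC_LL: C_x in Lat T 0.
-/

namespace Pool.Agent.Helper35.AM

open Pool.Agent.Helper35.KL

section aa2

variable {B : Type} {M : CoxeterMatrix B} {L : M.Group → ℤ} {H : Type} [Ring H] [Algebra LP H]
variable {D : KLD M L H} {P : Bool → Set B} {la : M.Group → ℕ} (hD : Dat D P la)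
variable {N : ℕ} (hI : Idl D (Occ M P la N))

omit [Ring H] [Algebra LP H] in
private theorem Aa2_exp {W A : Type} [Ring A] [Algebra LP A] (b : Module.Basis W LP A)
    (G : AddSubgroup A) {x p r : A} (h : ∀ w, b.repr x w • (p * b w * r) ∈ G) :
    p * x * r ∈ G := by
  have h1 : p * x * r = ∑ w ∈ (b.repr x).support, b.repr x w • (p * b w * r) := by
    conv_lhs => rw [← b.linearCombination_repr x]
    rw [Finsupp.linearCombination_apply, Finsupp.sum, Finset.mul_sum, Finset.sum_mul]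
    refine Finset.sum_congr rfl fun w _ => ?_
    rw [mul_smul_comm, smul_mul_assoc]
  rw [h1]
  exact AddSubgroup.sum_mem _ fun w _ => h w

private theorem Aa2_C_Lat (D : KLD M L H) (w : M.Group) : D.C w ∈ Lat D.T 0 := by
  have h1 : D.C w = (D.C w - D.T w) + D.T w := by abel
  rw [h1]
  exact AddSubgroup.add_mem _ (Lat_mono _ (by norm_num) (D.C_sub_T_neg w)) (basis_mem_Lat _ _)

include hD in
private theorem Aa2_diff {i : Bool} {p r u : M.Group} {hv : M.Group → Prop}
    (hp : p ∈ XR M (P i)) (hr : r ∈ XL M (P (!i))) (hu : u ∈ par M (PI P)) :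
    D.T p * D.C u * D.T r ∈ LL D hv 0 := by
  refine Aa2_exp D.T _ fun w => ?_
  by_cases hw : w ∈ par M (PI P)
  · rw [hD.T_diff hp hw hr]
    have h1 := smul_LL (hv := hv) (Aa2_C_Lat D u w) (T_LL (D := D) (p * w * r))
    rwa [add_zero] at h1
  · rw [(mem_HQ D).1 (C_mem_HQ D hu) w hw, zero_smul]
    exact AddSubgroup.zero_mem _

include hI in
private theorem Aa2_heavy {p r : H} {a : LP} {c : M.Group} (h : Occ M P la N c) (n : ℤ) :
    a • (p * D.C c * r) ∈ LL D (Occ M P la N) n :=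
  II_LL (Submodule.smul_mem _ _ (hI.II_mulR _ (hI.II_mulL _ (C_mem_II h)))) n

include hD hI in
private theorem Aa2_main (n : ℕ) : ∀ {p r : M.Group}, len M p + len M r = n →
    (∀ u, p ∈ XR M (PI P) → r ∈ XL M (PI P) → u ∈ par M (PI P) → la u < N →
      D.T p * D.C u * D.T r ∈ LL D (Occ M P la N) ((N : ℤ) - 1 - la u)) ∧
    (∀ i c, p ∈ XR M (P i) → r ∈ XL M (P i) → c ∈ par M (P i) → la c < N →
      D.T p * D.C c * D.T r ∈ LL D (Occ M P la N) ((N : ℤ) - 1 - la c)) := by
  induction n using Nat.strong_induction_on with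
  | _ n ih =>
  intro p r hn
  have hlow : ∀ u, p ∈ XR M (PI P) → r ∈ XL M (PI P) → u ∈ par M (PI P) → la u < N →
      D.T p * D.C u * D.T r ∈ LL D (Occ M P la N) ((N : ℤ) - 1 - la u) := by
    intro u hp hr hu huN
    have hdiff : ∀ i, p ∈ XR M (P i) → r ∈ XL M (P (!i)) →
        D.T p * D.C u * D.T r ∈ LL D (Occ M P la N) ((N : ℤ) - 1 - la u) :=
      fun i h1 h2 => LL_mono (by omega) (Aa2_diff hD h1 h2 hu)
    obtain ⟨i, hi⟩ := XR_or hD.am hp
    obtain ⟨j, hj⟩ := XL_or hD.am hr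
    by_cases hij : j = !i
    · subst hij
      exact hdiff i hi hj
    have hij' : j = i := by
      cases i <;> cases j <;> simp_all
    subst hij'
    by_cases h1 : p = 1
    · subst h1
      exact hdiff (!j) one_mem_XR (by rwa [Bool.not_not])
    by_cases h2 : r = 1
    · subst h2
      exact hdiff j hi one_mem_XL
    obtain ⟨p', hp', k1, hk1, hk1x, hk1n, hpe, hpl, hpl'⟩ := splitR hD.am hi h1
    obtain ⟨k2, hk2, r', hr', hk2x, hk2n, hre, hrl, hrl'⟩ := splitL hD.am hj h2
    have e1 : D.T p = D.T p' * D.T k1 := by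
      rw [hpe]
      exact D.T_mul _ _ (by rw [← hpe]; exact hpl)
    have e2 : D.T r = D.T k2 * D.T r' := by
      rw [hre]
      exact D.T_mul _ _ (by rw [← hre]; exact hrl)
    have e3 : D.T p * D.C u * D.T r = D.T p' * (D.T k1 * D.C u * D.T k2) * D.T r' := by
      rw [e1, e2]
      simp only [mul_assoc]
    rw [e3]
    refine Aa2_exp D.C _ fun c => ?_
    by_cases hc : c ∈ par M (P (!j))
    · have h3 := L1a D (PI_sub (!j)) (hD.loc (!j)) hk1x hk1 hk2x hk2 hu hc
      by_cases hcN : la c < N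
      · have h4 := (ih (len M p' + len M r') (by omega) rfl).2 (!j) c hp' hr' hc hcN
        have h5 := smul_LL h3 h4
        have h6 : ((la c : ℤ) - la u) + ((N : ℤ) - 1 - la c) = (N : ℤ) - 1 - la u := by ring
        rwa [h6] at h5
      · exact Aa2_heavy hI (Occ_of_mem hc (not_lt.1 hcN)) _
    · have h3 : D.T k1 * D.C u * D.T k2 ∈ HQ D (P (!j)) :=
        mul_mem_HQ D (mul_mem_HQ D (T_mem_HQ D hk1) (HQ_mono D (PI_sub (!j)) (C_mem_HQ D hu)))
          (T_mem_HQ D hk2)
      rw [(mem_HQ_C D).1 h3 c hc, zero_smul]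
      exact AddSubgroup.zero_mem _
  refine ⟨hlow, ?_⟩
  intro i c hp hr hc hcN
  exact R1_mem D (LfC D (Occ M P la N)) (PI_sub i) (hD.loc i) hI (N := N) (κ := (N : ℤ) - 1)
    (T0 := 0) (fun g hg h => Occ_of_mem hg h) (fun m hm => by omega)
    (fun g hg hg' => ⟨hD.T_three hp hg hg' hr, T_LL _⟩)
    (fun u hu huN => hlow u (XR_mono (PI_sub i) hp) (XL_mono (PI_sub i) hr) hu huN) hc hcN

include hD hI in
/-- The degrees of the products, for elements of the intersection. -/
theorem A_low {p r u : M.Group} (hp : p ∈ XR M (PI P)) (hr : r ∈ XL M (PI P))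
    (hu : u ∈ par M (PI P)) (huN : la u < N) :
    D.T p * D.C u * D.T r ∈ LL D (Occ M P la N) ((N : ℤ) - 1 - la u) :=
  (Aa2_main hD hI _ rfl).1 u hp hr hu huN

include hD hI in
/-- The degrees of the products, for elements of one of the two groups. -/
theorem A_high {i : Bool} {p r c : M.Group} (hp : p ∈ XR M (P i)) (hr : r ∈ XL M (P i))
    (hc : c ∈ par M (P i)) (hcN : la c < N) :
    D.T p * D.C c * D.T r ∈ LL D (Occ M P la N) ((N : ℤ) - 1 - la c) :=
  (Aa2_main hD hI _ rfl).2 i c hp hr hc hcN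

include hD hI in
/-- The degrees of the products of two elements of the standard basis. -/
theorem TT_LL (x y : M.Group) : D.T x * D.T y ∈ LL D (Occ M P la N) ((N : ℤ) - 1) := by
  obtain ⟨p, hp, v, hv, rfl⟩ := exists_XR (M := M) (PI P) x
  obtain ⟨u, hu, r, hr, rfl⟩ := exists_XL (M := M) (PI P) y
  rw [D.T_mul p v (len_XR_mul hp hv), D.T_mul u r (len_mul_XL hu hr)]
  have e1 : D.T p * D.T v * (D.T u * D.T r) = D.T p * (D.T v * D.T u) * D.T r := by
    simp only [mul_assoc]
  rw [e1]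
  refine Aa2_exp D.C _ fun c => ?_
  by_cases hc : c ∈ par M (PI P)
  · by_cases hcN : la c < N
    · have h3 := (TT_lead D hD.locI hv hu hc).1
      have h5 := smul_LL h3 (A_low hD hI hp hr hc hcN)
      have h6 : (la c : ℤ) + ((N : ℤ) - 1 - la c) = (N : ℤ) - 1 := by ring
      rwa [h6] at h5
    · exact Aa2_heavy hI (Occ_of_mem (i := true) (par_mono (PI_sub true) hc) (not_lt.1 hcN)) _
  · rw [(mem_HQ_C D).1 (mul_mem_HQ D (T_mem_HQ D hv) (T_mem_HQ D hu)) c hc, zero_smul]
    exact AddSubgroup.zero_mem _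

include hD hI in
theorem CC_LL (x y : M.Group) : D.C x * D.C y ∈ LL D (Occ M P la N) ((N : ℤ) - 1) := by
  have h1 : ∀ w, D.T w * D.C y * 1 ∈ LL D (Occ M P la N) ((N : ℤ) - 1) := by
    intro w
    refine Aa2_exp D.T _ fun v => ?_
    rw [mul_one]
    have h2 := smul_LL (Aa2_C_Lat D y v) (TT_LL hD hI w v)
    rwa [zero_add] at h2
  have h3 : 1 * D.C x * D.C y ∈ LL D (Occ M P la N) ((N : ℤ) - 1) := by
    refine Aa2_exp D.T _ fun w => ?_
    rw [one_mul]
    have h4 := h1 w
    rw [mul_one] at h4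
    have h2 := smul_LL (Aa2_C_Lat D x w) h4
    rwa [zero_add] at h2
  rwa [one_mul] at h3

end aa2

end Pool.Agent.Helper35.AM
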