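import Pool.Agent.Helper35.AM.Cy

/-!
# Reduced decompositions in an amalgam
-/

/- PROOF HINTS (conventions: see Df.lean)
Ac. (A: Am M P.)  XR_or: if p has right descents b in P true\PI, c in P false\PI then M b c = 0, no_twoR. XR_both: 1 is the only element without
 descents (cover). splitR: p = p'k for P(!i) (exists_XR), k in XR PI as suffix; k in W_I => k = 1 (XR_unique for PI) => p in XR(P(!i)), XR_both => p = 1.
 len_three: induction on len r (all i, p, g at once). r = 1: len_XR_mul. r <> 1: g = x u (x in XR PI, u in W_I; x in W_i, x <> 1). q := p x is in XR(P(!i)): b in PI: x b is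
 longer, len_XR_mul; b not in P i: x has a right descent s in P i\PI, so p x has it too (len(p x s) = len p + len(x s)), and no_twoR. r has a left descent
 t not in P i. u r = k r' (k in W_{!i}, r' in XL(P(!i))), k not in W_I: else r = (u^-1 k) r' in XL PI gives r = r' in XL(P(!i)), but t is a descent. r = (u^-1k) r', so
 len r' < len r. p g r = q k r' and IH; lengths: len k + len r' = len(u r) = len u + len r.
 len_diff: r = 1 ok. Else r has a left descent in P i \ PI; u r = g R (g in W_i, R in XL(P i)), g not in W_I as before; len_three (p in XR(P i)).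
-/

namespace Pool.Agent.Helper35.AM

open Pool.Agent.Helper35.KL

section ac

variable {B : Type} {M : CoxeterMatrix B} {P : Bool → Set B}

theorem PI_sub (i : Bool) : PI P ⊆ P i := by
  intro b hb
  cases i
  · exact hb.2
  · exact hb.1

theorem mem_PI {b : B} (i : Bool) (h1 : b ∈ P i) (h2 : b ∈ P (!i)) : b ∈ PI P := by
  cases i
  · exact ⟨h2, h1⟩
  · exact ⟨h1, h2⟩

/-- An element of both parabolic subgroups is in the intersection. -/
theorem mem_par_PI {w : M.Group} (i : Bool) (h1 : w ∈ par M (P i)) (h2 : w ∈ par M (P (!i))) :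
    w ∈ par M (PI P) := by
  cases i
  · exact mem_par_inter h2 h1
  · exact mem_par_inter h1 h2

private theorem Ac_mem_univ (w : M.Group) : w ∈ par M (Set.univ : Set B) := by
  induction w using len_induction with
  | h1 => exact one_mem _
  | hs b w _ ih => exact mul_mem (sm_mem_par (Set.mem_univ b)) ih

private theorem Ac_descR {w : M.Group} (h1 : w ≠ 1) :
    ∃ b : B, len M (w * sm M b) + 1 = len M w := by
  obtain ⟨b, -, hb⟩ := exists_descR (Ac_mem_univ w) h1
  exact ⟨b, hb⟩

private theorem Ac_descL {w : M.Group} (h1 : w ≠ 1) :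
    ∃ b : B, len M (sm M b * w) + 1 = len M w := by
  obtain ⟨b, -, hb⟩ := exists_descL (Ac_mem_univ w) h1
  exact ⟨b, hb⟩

private theorem Ac_XR_par {Q : Set B} {w : M.Group} (h1 : w ∈ XR M Q) (h2 : w ∈ par M Q) :
    w = 1 := by
  by_contra h
  obtain ⟨b, hb, hb2⟩ := exists_descR h2 h
  have := h1 b hb
  omega

variable (hA : Am M P)

include hA in
private theorem Ac_cover (i : Bool) (b : B) : b ∈ P i ∨ b ∈ P (!i) := by
  cases i
  · exact (hA.cover b).symm
  · exact hA.cover b

include hA in
theorem Am.inf' {b c : B} (i : Bool) (hb : b ∈ P i) (hb' : b ∉ PI P) (hc : c ∈ P (!i))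
    (hc' : c ∉ PI P) : M b c = 0 := by
  have h1 : b ∉ P (!i) := fun h => hb' (mem_PI i hb h)
  have h2 : c ∉ P i := fun h => hc' (mem_PI i h hc)
  cases i
  · rw [M.symmetric]
    exact hA.inf c b hc h2 hb h1
  · exact hA.inf b c hb h1 hc h2

include hA in
theorem XR_or {p : M.Group} (hp : p ∈ XR M (PI P)) : ∃ i, p ∈ XR M (P i) := by
  by_contra hcon
  push Not at hcon
  have h1 := hcon true
  have h2 := hcon false
  simp only [XR, Set.mem_ofPred_eq, not_forall] at h1 h2
  obtain ⟨b, hb, hb2⟩ := h1
  obtain ⟨c, hc, hc2⟩ := h2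
  have hb' : b ∉ PI P := fun h => hb2 (hp b h)
  have hc' : c ∉ PI P := fun h => hc2 (hp c h)
  exact no_twoR (hA.inf' true hb hb' hc hc') hb2 hc2

include hA in
theorem XL_or {r : M.Group} (hr : r ∈ XL M (PI P)) : ∃ i, r ∈ XL M (P i) := by
  by_contra hcon
  push Not at hcon
  have h1 := hcon true
  have h2 := hcon false
  simp only [XL, Set.mem_ofPred_eq, not_forall] at h1 h2
  obtain ⟨b, hb, hb2⟩ := h1
  obtain ⟨c, hc, hc2⟩ := h2
  have hb' : b ∉ PI P := fun h => hb2 (hr b h)
  have hc' : c ∉ PI P := fun h => hc2 (hr c h)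
  exact no_twoL (hA.inf' true hb hb' hc hc') hb2 hc2

include hA in
theorem XR_both {p : M.Group} (i : Bool) (h1 : p ∈ XR M (P i)) (h2 : p ∈ XR M (P (!i))) :
    p = 1 := by
  by_contra h
  obtain ⟨b, hb⟩ := Ac_descR h
  rcases Ac_cover hA i b with h3 | h3
  · have := h1 b h3
    omega
  · have := h2 b h3
    omega

include hA in
theorem XL_both {r : M.Group} (i : Bool) (h1 : r ∈ XL M (P i)) (h2 : r ∈ XL M (P (!i))) :
    r = 1 := by
  by_contra h
  obtain ⟨b, hb⟩ := Ac_descL h
  rcases Ac_cover hA i b with h3 | h3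
  · have := h1 b h3
    omega
  · have := h2 b h3
    omega

include hA in
/-- The last syllable. -/
theorem splitR {i : Bool} {p : M.Group} (hp : p ∈ XR M (P i)) (h1 : p ≠ 1) :
    ∃ p' ∈ XR M (P (!i)), ∃ k ∈ par M (P (!i)), k ∈ XR M (PI P) ∧ k ∉ par M (PI P) ∧
      p = p' * k ∧ len M p = len M p' + len M k ∧ len M p' < len M p := by
  obtain ⟨p', hp', k, hk, rfl⟩ := exists_XR (P (!i)) p
  have hl := len_XR_mul hp' hk
  have hkX : k ∈ XR M (PI P) := XR_suf hl (XR_mono (PI_sub i) hp)
  have hkP : k ∉ par M (PI P) := by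
    intro h
    have hk1 : k = 1 := Ac_XR_par hkX h
    subst hk1
    rw [mul_one] at hp h1
    exact h1 (XR_both hA i hp hp')
  refine ⟨p', hp', k, hk, hkX, hkP, rfl, hl, ?_⟩
  have h2 : len M k ≠ 0 := by
    intro h
    rw [len_eq_zero] at h
    exact hkP (h ▸ one_mem _)
  omega

include hA in
/-- The first syllable. -/
theorem splitL {i : Bool} {r : M.Group} (hr : r ∈ XL M (P i)) (h1 : r ≠ 1) :
    ∃ k ∈ par M (P (!i)), ∃ r' ∈ XL M (P (!i)), k ∈ XL M (PI P) ∧ k ∉ par M (PI P) ∧
      r = k * r' ∧ len M r = len M k + len M r' ∧ len M r' < len M r := by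
  obtain ⟨p', hp', k, hk, hkX, hkP, h2, h3, h4⟩ := splitR hA (p := r⁻¹) (inv_mem_XR.2 hr)
    (fun h => h1 (inv_eq_one.1 h))
  rw [len_inv] at h3 h4
  refine ⟨k⁻¹, inv_mem hk, p'⁻¹, inv_mem_XL.2 hp', inv_mem_XL.2 hkX,
    fun h => hkP (inv_mem_iff.1 h), ?_, ?_, ?_⟩
  · rw [← mul_inv_rev, ← h2, inv_inv]
  · rw [len_inv, len_inv]
    omega
  · rw [len_inv]
    exact h4

include hA in
theorem len_three {i : Bool} {p g r : M.Group} (hp : p ∈ XR M (P i)) (hg : g ∈ par M (P i))
    (hg' : g ∉ par M (PI P)) (hr : r ∈ XL M (P i)) :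
    len M (p * g * r) = len M p + len M g + len M r := by
  obtain ⟨n, hn⟩ : ∃ n, n = len M r := ⟨_, rfl⟩
  induction n using Nat.strong_induction_on generalizing i p g r with
  | _ n ih =>
    by_cases h1 : r = 1
    · subst h1
      rw [mul_one, len_one, len_XR_mul hp hg, add_zero]
    · have hIi : par M (PI P) ≤ par M (P i) := par_mono (PI_sub i)
      have hIi' : par M (PI P) ≤ par M (P (!i)) := par_mono (PI_sub (!i))
      obtain ⟨x, hx, u, hu, rfl⟩ := exists_XR (PI P) g
      have hxi : x ∈ par M (P i) := by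
        have h2 := mul_mem hg (inv_mem (hIi hu))
        rwa [mul_inv_cancel_right] at h2
      have hx1 : x ≠ 1 := by
        intro h
        subst h
        rw [one_mul] at hg'
        exact hg' hu
      have hq : p * x ∈ XR M (P (!i)) := by
        intro b hb
        by_cases hbI : b ∈ PI P
        · have h2 := hx b hbI
          have h3 : x * sm M b ∈ par M (P i) := mul_mem hxi (sm_mem_par (PI_sub i hbI))
          rw [mul_assoc, len_XR_mul hp h3, len_XR_mul hp hxi, h2, add_assoc]
        · by_contra hcon
          obtain ⟨s, hs, hs2⟩ := exists_descR hxi hx1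
          have hsI : s ∉ PI P := by
            intro h
            have := hx s h
            omega
          have h3 : x * sm M s ∈ par M (P i) := mul_mem hxi (sm_mem_par hs)
          have h4 : len M (p * x * sm M s) ≠ len M (p * x) + 1 := by
            rw [mul_assoc, len_XR_mul hp h3, len_XR_mul hp hxi]
            omega
          exact no_twoR (hA.inf' i hs hsI hb hbI) h4 hcon
      obtain ⟨t, ht⟩ := Ac_descL h1
      have hti : t ∉ P i := by
        intro h
        have := hr t h
        omega
      have hti' : t ∈ P (!i) := (Ac_cover hA i t).resolve_left hti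
      obtain ⟨k, hk, r', hr', hkr⟩ := exists_XL (P (!i)) (u * r)
      have hr2 : r = (u⁻¹ * k) * r' := by
        rw [mul_assoc, ← hkr, inv_mul_cancel_left]
      have hkI : k ∉ par M (PI P) := by
        intro h
        have h2 : (1 : M.Group) * r = (u⁻¹ * k) * r' := by rw [one_mul]; exact hr2
        have h3 := (XL_unique (one_mem _) (mul_mem (inv_mem hu) h) (XL_mono (PI_sub i) hr)
          (XL_mono (PI_sub (!i)) hr') h2).2
        rw [← h3] at hr'
        have := hr' t hti'
        omega
      have hlr : len M r = len M (u⁻¹ * k) + len M r' := by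
        conv_lhs => rw [hr2]
        exact len_mul_XL (mul_mem (inv_mem (hIi' hu)) hk) hr'
      have hne : len M (u⁻¹ * k) ≠ 0 := by
        intro h
        rw [len_eq_zero] at h
        have h2 : k = u := by
          rw [inv_mul_eq_one] at h
          exact h.symm
        exact hkI (h2 ▸ hu)
      have hlt : len M r' < n := by omega
      have h5 := ih (len M r') hlt hq hk hkI hr' rfl
      have h6 : p * (x * u) * r = p * x * k * r' := by
        rw [mul_assoc (p * x), ← hkr]
        simp only [mul_assoc]
      have h7 : len M k + len M r' = len M u + len M r := by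
        rw [← len_mul_XL hk hr', ← hkr, len_mul_XL (hIi hu) hr]
      rw [h6, h5, len_XR_mul hp hxi, len_XR_mul hx hu]
      omega

include hA in
theorem len_diff {i : Bool} {p u r : M.Group} (hp : p ∈ XR M (P i)) (hu : u ∈ par M (PI P))
    (hr : r ∈ XL M (P (!i))) : len M (p * u * r) = len M p + len M u + len M r := by
  have hIi : par M (PI P) ≤ par M (P i) := par_mono (PI_sub i)
  have hIi' : par M (PI P) ≤ par M (P (!i)) := par_mono (PI_sub (!i))
  by_cases h1 : r = 1
  · subst h1
    rw [mul_one, len_one, len_XR_mul hp (hIi hu), add_zero]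
  · obtain ⟨t, ht⟩ := Ac_descL h1
    have hti : t ∉ P (!i) := by
      intro h
      have := hr t h
      omega
    have hti' : t ∈ P i := (Ac_cover hA i t).resolve_right hti
    obtain ⟨g, hg, R, hR, hgR⟩ := exists_XL (P i) (u * r)
    have hr2 : r = (u⁻¹ * g) * R := by
      rw [mul_assoc, ← hgR, inv_mul_cancel_left]
    have hgI : g ∉ par M (PI P) := by
      intro h
      have h2 : (1 : M.Group) * r = (u⁻¹ * g) * R := by rw [one_mul]; exact hr2
      have h3 := (XL_unique (one_mem _) (mul_mem (inv_mem hu) h) (XL_mono (PI_sub (!i)) hr)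
        (XL_mono (PI_sub i) hR) h2).2
      rw [← h3] at hR
      have := hR t hti'
      omega
    have h5 := len_three hA hp hg hgI hR
    have h6 : p * u * r = p * g * R := by
      rw [mul_assoc, hgR, mul_assoc]
    have h7 : len M g + len M R = len M u + len M r := by
      rw [← len_mul_XL hg hR, ← hgR, len_mul_XL (hIi' hu) hr]
    rw [h6, h5]
    omega

end ac

end Pool.Agent.Helper35.AM
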