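import Pool.Agent.Helper35.AM.Ac

/-!
# The syllables at the ends of an element of an amalgam
-/

/- PROOF HINTS (conventions: see Df.lean)
Ac2. one_sideL: w = g r = g' r'. w = v w', v in W_I, w' in XL PI. v^-1 g <> 1 is in W_i: it has a left descent s in P i, it is a left descent of w' = (v^-1 g) r,
 so s not in PI; same for t in P(!i); no_twoL. two_cases: x = p u, y = v r with p in XR PI, r in XL PI; p in XR(P i), r in XL(P j); j = !i: first case; if j = i and p = 1
 or r = 1 again first case (1 is in XR(P(!i))); else splitR/splitL: x = p'(k u), y = (v k2) r', second case with !i.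
-/

namespace Pool.Agent.Helper35.AM

open Pool.Agent.Helper35.KL

section ac2

variable {B : Type} {M : CoxeterMatrix B} {P : Bool → Set B} (hA : Am M P)

include hA in
private theorem Ac2_desc {i : Bool} {g r v w' : M.Group} (hg : g ∈ par M (P i))
    (hr : r ∈ XL M (P i)) (hv : v ∈ par M (PI P)) (hw' : w' ∈ XL M (PI P))
    (h : v * w' = g * r) (h1 : g ∉ par M (PI P)) :
    ∃ s ∈ P i, s ∉ PI P ∧ len M (sm M s * w') ≠ len M w' + 1 := by
  have hIi : par M (PI P) ≤ par M (P i) := par_mono (PI_sub i)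
  have hvg : v⁻¹ * g ∈ par M (P i) := mul_mem (inv_mem (hIi hv)) hg
  have hne : v⁻¹ * g ≠ 1 := by
    intro h2
    rw [inv_mul_eq_one] at h2
    exact h1 (h2 ▸ hv)
  obtain ⟨s, hs, hs2⟩ := exists_descL hvg hne
  have hw2 : w' = v⁻¹ * g * r := by
    rw [mul_assoc, ← h, inv_mul_cancel_left]
  have h3 : len M (sm M s * w') = len M (sm M s * (v⁻¹ * g)) + len M r := by
    rw [hw2, ← mul_assoc]
    exact len_mul_XL (mul_mem (sm_mem_par hs) hvg) hr
  have h4 : len M w' = len M (v⁻¹ * g) + len M r := by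
    conv_lhs => rw [hw2]
    exact len_mul_XL hvg hr
  refine ⟨s, hs, fun hsI => ?_, by omega⟩
  have := hw' s hsI
  omega

include hA in
/-- The first syllable is in one of the two groups only. -/
theorem one_sideL {i : Bool} {g g' r r' : M.Group} (hg : g ∈ par M (P i)) (hr : r ∈ XL M (P i))
    (hg' : g' ∈ par M (P (!i))) (hr' : r' ∈ XL M (P (!i))) (h : g * r = g' * r')
    (h1 : g ∉ par M (PI P)) (h2 : g' ∉ par M (PI P)) : False := by
  obtain ⟨v, hv, w', hw', h3⟩ := exists_XL (PI P) (g * r)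
  obtain ⟨s, hs, hsI, hs2⟩ := Ac2_desc hA hg hr hv hw' h3.symm h1
  obtain ⟨t, ht, htI, ht2⟩ := Ac2_desc hA hg' hr' hv hw' (h3.symm.trans h) h2
  exact no_twoL (hA.inf' i hs hsI ht htI) hs2 ht2

include hA in
theorem one_sideR {i : Bool} {g g' p p' : M.Group} (hg : g ∈ par M (P i)) (hp : p ∈ XR M (P i))
    (hg' : g' ∈ par M (P (!i))) (hp' : p' ∈ XR M (P (!i))) (h : p * g = p' * g')
    (h1 : g ∉ par M (PI P)) (h2 : g' ∉ par M (PI P)) : False := by
  refine one_sideL hA (i := i) (g := g⁻¹) (g' := g'⁻¹) (r := p⁻¹) (r' := p'⁻¹) (inv_mem hg)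
    (inv_mem_XL.2 hp) (inv_mem hg') (inv_mem_XL.2 hp') ?_ (fun h3 => h1 (inv_mem_iff.1 h3))
    (fun h3 => h2 (inv_mem_iff.1 h3))
  rw [← mul_inv_rev, ← mul_inv_rev, h]

private theorem Ac2_notmem {k u : M.Group} (hk : k ∉ par M (PI P)) (hu : u ∈ par M (PI P)) :
    k * u ∉ par M (PI P) := by
  intro h
  have h2 := mul_mem h (inv_mem hu)
  rw [mul_inv_cancel_right] at h2
  exact hk h2

private theorem Ac2_notmem' {k u : M.Group} (hk : k ∉ par M (PI P)) (hu : u ∈ par M (PI P)) :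
    u * k ∉ par M (PI P) := by
  intro h
  have h2 := mul_mem (inv_mem hu) h
  rw [inv_mul_cancel_left] at h2
  exact hk h2

include hA in
theorem casesR (w : M.Group) : w ∈ par M (PI P) ∨
    ∃ i, ∃ p ∈ XR M (P i), ∃ g ∈ par M (P i), g ∉ par M (PI P) ∧ w = p * g := by
  obtain ⟨p, hp, u, hu, rfl⟩ := exists_XR (PI P) w
  by_cases h1 : p = 1
  · left
    rw [h1, one_mul]
    exact hu
  · right
    obtain ⟨i, hi⟩ := XR_or hA hp
    obtain ⟨p', hp', k, hk, -, hkP, rfl, -, -⟩ := splitR hA hi h1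
    exact ⟨!i, p', hp', k * u, mul_mem hk (par_mono (PI_sub (!i)) hu), Ac2_notmem hkP hu,
      mul_assoc _ _ _⟩

include hA in
theorem casesL (w : M.Group) : w ∈ par M (PI P) ∨
    ∃ i, ∃ g ∈ par M (P i), g ∉ par M (PI P) ∧ ∃ r ∈ XL M (P i), w = g * r := by
  rcases casesR hA w⁻¹ with h | ⟨i, p, hp, g, hg, hgI, h⟩
  · left
    exact inv_mem_iff.1 h
  · right
    refine ⟨i, g⁻¹, inv_mem hg, fun h2 => hgI (inv_mem_iff.1 h2), p⁻¹, inv_mem_XL.2 hp, ?_⟩
    rw [← mul_inv_rev, ← h, inv_inv]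

include hA in
/-- Two elements: the end of the first and the start of the second are in different groups, or in
the same group. -/
theorem two_cases (x y : M.Group) :
    (∃ i, ∃ p ∈ XR M (P i), ∃ u ∈ par M (PI P), ∃ v ∈ par M (PI P), ∃ r ∈ XL M (P (!i)),
      x = p * u ∧ y = v * r) ∨
    (∃ i, ∃ p ∈ XR M (P i), ∃ g ∈ par M (P i), g ∉ par M (PI P) ∧
      ∃ g' ∈ par M (P i), g' ∉ par M (PI P) ∧ ∃ r ∈ XL M (P i), x = p * g ∧ y = g' * r) := by
  obtain ⟨p, hp, u, hu, rfl⟩ := exists_XR (PI P) x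
  obtain ⟨v, hv, r, hr, rfl⟩ := exists_XL (PI P) y
  obtain ⟨i, hi⟩ := XR_or hA hp
  obtain ⟨j, hj⟩ := XL_or hA hr
  by_cases hij : j = i
  · subst hij
    by_cases h1 : p = 1
    · left
      refine ⟨!j, p, ?_, u, hu, v, hv, r, ?_, rfl, rfl⟩
      · rw [h1]
        exact one_mem_XR
      · rw [Bool.not_not]
        exact hj
    · by_cases h2 : r = 1
      · left
        refine ⟨j, p, hi, u, hu, v, hv, r, ?_, rfl, rfl⟩
        rw [h2]
        exact one_mem_XL
      · right
        obtain ⟨p', hp', k, hk, -, hkP, rfl, -, -⟩ := splitR hA hi h1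
        obtain ⟨k2, hk2, r', hr', -, hk2P, rfl, -, -⟩ := splitL hA hj h2
        have hI : par M (PI P) ≤ par M (P (!j)) := par_mono (PI_sub (!j))
        exact ⟨!j, p', hp', k * u, mul_mem hk (hI hu), Ac2_notmem hkP hu, v * k2,
          mul_mem (hI hv) hk2, Ac2_notmem' hk2P hv, r', hr', mul_assoc _ _ _,
          (mul_assoc _ _ _).symm⟩
  · left
    have hj' : j = !i := by
      cases i <;> cases j <;> simp_all
    subst hj'
    exact ⟨i, p, hi, u, hu, v, hv, r, hj, rfl, rfl⟩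

end ac2

end Pool.Agent.Helper35.AM
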