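import Pool.Agent.Helper35.AM.Lv2

/-!
# Left and right multiplication, coefficients of a given degree
-/

/- PROOF HINTS (conventions: see Df.lean)
Ap. psi, phi = left/right multiplication by C_b, coefficients of degree n, in the basis C; see KL/Gr.lean (phi_C, sum_phi, P15n). psi_II: w heavy: C_bC_w in II, so h b w z = 0 for light z.
-/

namespace Pool.Agent.Helper35.AM

open Pool.Agent.Helper35.KL

section ps

variable {B : Type} {M : CoxeterMatrix B} {L : M.Group → ℤ} {H : Type} [Ring H] [Algebra LP H]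
variable (D : KLD M L H) (hv : M.Group → Prop)

/-- Left multiplication by `C b`, coefficients of degree `n`. -/
noncomputable def psi (n : ℤ) (b : M.Group) : H →ₗ[LP] H :=
  D.C.constr LP fun g => ∑ c ∈ (D.C.repr (D.C b * D.C g)).support,
    (D.h b g c).coeff n • D.C c

private theorem Ap_psi_C (n : ℤ) (b g : M.Group) : psi D n b (D.C g) =
    ∑ c ∈ (D.C.repr (D.C b * D.C g)).support, (D.h b g c).coeff n • D.C c := by
  rw [psi, Module.Basis.constr_basis]

theorem repr_psi_C (n : ℤ) (b g y : M.Group) :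
    D.C.repr (psi D n b (D.C g)) y = (D.h b g y).coeff n • (1 : LP) := by
  classical
  rw [Ap_psi_C, map_sum, Finsupp.finsetSum_apply]
  have h1 : ∀ c, D.C.repr ((D.h b g c).coeff n • D.C c) y =
      if c = y then (D.h b g y).coeff n • (1 : LP) else 0 := by
    intro c
    rw [map_zsmul, Finsupp.smul_apply, Module.Basis.repr_self, Finsupp.single_apply]
    split_ifs with h2
    · rw [h2]
    · rw [smul_zero]
  rw [Finset.sum_congr rfl fun c _ => h1 c, Finset.sum_ite_eq']
  split_ifs with h2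
  · rfl
  · have h3 : D.h b g y = 0 := Finsupp.notMem_support_iff.1 h2
    rw [h3, cf_zero, zero_smul]

theorem psi_fl (n : ℤ) (b : M.Group) (x : H) : D.fl (D.phi n b x) = psi D n b⁻¹ (D.fl x) := by
  have h1 : D.fl.comp (D.phi n b) = (psi D n b⁻¹).comp D.fl := by
    refine D.C.ext fun g => ?_
    rw [LinearMap.comp_apply, LinearMap.comp_apply, KLD.fl_C]
    apply D.C.repr.injective
    ext1 y
    rw [KLD.repr_C_fl, KLD.repr_phi_C, repr_psi_C, KLD.h_inv, inv_inv]
  exact LinearMap.congr_fun h1 x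

private theorem Ap_sum_gen (f : ℤ → H →ₗ[LP] H) (F : H →ₗ[LP] H)
    (h : ∀ g, ∃ S₀ : Finset ℤ, ∀ S : Finset ℤ, S₀ ⊆ S →
      ∑ n ∈ S, qq n • f n (D.C g) = F (D.C g)) (x : H) :
    ∃ S₀ : Finset ℤ, ∀ S : Finset ℤ, S₀ ⊆ S → ∑ n ∈ S, qq n • f n x = F x := by
  classical
  have hx : x ∈ Submodule.span LP (Set.range D.C) := by
    rw [D.C.span_eq]
    exact Submodule.mem_top
  refine Submodule.span_induction (p := fun (x : H) _ => ∃ S₀ : Finset ℤ, ∀ S : Finset ℤ,
    S₀ ⊆ S → ∑ n ∈ S, qq n • f n x = F x) ?_ ?_ ?_ ?_ hx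
  · rintro _ ⟨g, rfl⟩
    exact h g
  · refine ⟨∅, fun S _ => ?_⟩
    simp only [map_zero, smul_zero, Finset.sum_const_zero]
  · rintro y z _ _ ⟨S1, h1⟩ ⟨S2, h2⟩
    refine ⟨S1 ∪ S2, fun S hS => ?_⟩
    rw [map_add, ← h1 S (Finset.union_subset_iff.1 hS).1, ← h2 S (Finset.union_subset_iff.1 hS).2,
      ← Finset.sum_add_distrib]
    refine Finset.sum_congr rfl fun n _ => ?_
    rw [map_add, smul_add]
  · rintro a y _ ⟨S1, h1⟩
    refine ⟨S1, fun S hS => ?_⟩
    rw [map_smul, ← h1 S hS, Finset.smul_sum]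
    refine Finset.sum_congr rfl fun n _ => ?_
    rw [map_smul, smul_comm]

theorem phi_sum (b : M.Group) (x : H) : ∃ S₀ : Finset ℤ, ∀ S : Finset ℤ, S₀ ⊆ S →
    ∑ n ∈ S, qq n • D.phi n b x = x * D.C b := by
  have h := Ap_sum_gen D (fun n => D.phi n b) (LinearMap.mulRight LP (D.C b)) (fun g => by
    obtain ⟨S₀, hS⟩ := D.sum_phi b g
    refine ⟨S₀, fun S h => ?_⟩
    rw [LinearMap.mulRight_apply]
    exact hS S h) x
  simpa only [LinearMap.mulRight_apply] using h

/-- The sum over the degrees. -/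
theorem psi_sum (b : M.Group) (x : H) : ∃ S₀ : Finset ℤ, ∀ S : Finset ℤ, S₀ ⊆ S →
    ∑ n ∈ S, qq n • psi D n b x = D.C b * x := by
  obtain ⟨S₀, hS⟩ := phi_sum D b⁻¹ (D.fl x)
  refine ⟨S₀, fun S h => ?_⟩
  have h1 := congrArg D.fl (hS S h)
  rw [KLD.fl_mul, KLD.fl_C, inv_inv, KLD.fl_fl, map_sum] at h1
  rw [← h1]
  refine Finset.sum_congr rfl fun n _ => ?_
  rw [map_smul, psi_fl, inv_inv, KLD.fl_fl]

theorem bar_psi_up (n : ℤ) (b : M.Group) (t : M.Group →₀ ℤ) :
    D.bar (psi D n b (D.up t)) = psi D n b (D.up t) := by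
  rw [KLD.up_eq, map_sum, map_sum]
  refine Finset.sum_congr rfl fun z _ => ?_
  rw [map_zsmul, map_zsmul, Ap_psi_C, map_sum]
  congr 1
  refine Finset.sum_congr rfl fun c _ => ?_
  rw [map_zsmul, D.bar_C]

variable {D hv} (hI : Idl D hv)

include hI in
theorem psi_II (n : ℤ) (b : M.Group) {x : H} (hx : x ∈ II D hv) : psi D n b x ∈ II D hv := by
  refine Submodule.span_induction (p := fun (x : H) _ => psi D n b x ∈ II D hv) ?_ ?_ ?_ ?_ hx
  · rintro _ ⟨w, hw, rfl⟩
    rw [Ap_psi_C]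
    refine Submodule.sum_mem _ fun c hc => ?_
    refine (II D hv).toAddSubgroup.zsmul_mem ?_ _
    refine C_mem_II ?_
    by_contra h
    exact Finsupp.mem_support_iff.1 hc (mem_II.1 (hI.mulL w hw (D.C b)) c h)
  · rw [map_zero]
    exact Submodule.zero_mem _
  · intro y z _ _ hy hz
    rw [map_add]
    exact Submodule.add_mem _ hy hz
  · intro a y _ hy
    rw [map_smul]
    exact Submodule.smul_mem _ _ hy

include hI in
theorem phi_II (n : ℤ) (b : M.Group) {x : H} (hx : x ∈ II D hv) : D.phi n b x ∈ II D hv := by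
  refine Submodule.span_induction (p := fun (x : H) _ => D.phi n b x ∈ II D hv) ?_ ?_ ?_ ?_ hx
  · rintro _ ⟨w, hw, rfl⟩
    rw [KLD.phi_C]
    refine Submodule.sum_mem _ fun c hc => ?_
    refine (II D hv).toAddSubgroup.zsmul_mem ?_ _
    refine C_mem_II ?_
    by_contra h
    exact Finsupp.mem_support_iff.1 hc (mem_II.1 (hI.mulR w hw (D.C b)) c h)
  · rw [map_zero]
    exact Submodule.zero_mem _
  · intro y z _ _ hy hz
    rw [map_add]
    exact Submodule.add_mem _ hy hz
  · intro a y _ hy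
    rw [map_smul]
    exact Submodule.smul_mem _ _ hy

include hI in
theorem psi_LL (n : ℤ) (b : M.Group) {m : ℤ} {x : H} (hx : x ∈ LL D hv m) :
    psi D n b x ∈ LL D hv m := by
  have h1 : psi D n b x = ∑ w ∈ (D.C.repr x).support, D.C.repr x w • psi D n b (D.C w) := by
    conv_lhs => rw [← D.C.linearCombination_repr x]
    rw [Finsupp.linearCombination_apply, Finsupp.sum, map_sum]
    refine Finset.sum_congr rfl fun w _ => ?_
    rw [map_smul]
  rw [h1]
  refine AddSubgroup.sum_mem _ fun w _ => ?_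
  by_cases hw : hv w
  · exact II_LL (Submodule.smul_mem _ _ (psi_II hI n b (C_mem_II hw))) m
  · have h2 : psi D n b (D.C w) ∈ LL D hv 0 := by
      rw [mem_LL]
      intro z _
      rw [repr_psi_C]
      exact Dle.zsmul (Dle.one le_rfl) _
    have h3 := smul_LL (mem_LL.1 hx w hw) h2
    rwa [add_zero] at h3

end ps

end Pool.Agent.Helper35.AM
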