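import Pool.Agent.Helper35.AM.Gp2
import Pool.Agent.Helper35.AM.Lv2

/-!
# Homomorphisms from the left ideals
-/

/- PROOF HINTS (conventions: see Df.lean)
Th. Define Tht: on the basis dl: T_pC_g -> if la g = k then T_p eta(g) else 0. (1) Tht(t x) - t Tht(x) in II for x in LI(Sk k): x = T_pC_g; t T_p = sum T_{p'}T_{g1}, Tht(T_{p'}T_{g1}C_g) = T_{p'} Le eta(T_{g1}C_g) and
 T_{g1} eta(g) - Le eta(T_{g1}C_g) in II by AdmL.mul (T_{g1} in the span of the C_b, b in W_P). (2) bar Tht(x) - Tht(bar x) in II: x = T_pC_g, bar(T_p) eta(g) vs Tht(bar(T_p)C_g), (1) for C_g = T_1C_g. (3) C_{pg} = T_pC_g + NegL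
 (C_sub_NegL, S = Sk k) so Tht(C_{pg}) - T_p eta(g) in LL(-1) (lam), and Tht(C_{pg}) is bar-invariant mod II: so Tht(C_{pg}) - Xf p g in II (congr_of_bar / congr_up). For la g > k: Tht(C_{pg}) = 0 (S = Sk (k+1)).
 (4) t Xf p g = t Tht(C_{pg}) = Tht(t C_{pg}) = sum_z (t C_{pg})_z Tht(C_z), z = p'g', la g' >= k (LI_repr) = Xi(t C_{pg}) mod II. Compare KL/Th.lean (Adm, Tht, Cor), the same argument.
-/

namespace Pool.Agent.Helper35.AM

open Pool.Agent.Helper35.KL

section th

variable {B : Type} {M : CoxeterMatrix B} {L : M.Group → ℤ} {H : Type} [Ring H] [Algebra LP H]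
variable (D : KLD M L H) (hv : M.Group → Prop) {P : Set B} {la : M.Group → ℕ} {k : ℕ}

/-- The image of `C (p * g)`. -/
noncomputable def Xf (η : M.Group → H) (p g : M.Group) : H :=
  D.up (ld D hv 0 (D.T p * η g))

open scoped Classical in
/-- The linear map that sends `C (p * g)` to `X p g` if `la g = k`. -/
noncomputable def Xi (P : Set B) (la : M.Group → ℕ) (k : ℕ) (X : M.Group → M.Group → H) :
    H →ₗ[LP] H :=
  D.C.constr LP fun w => if la (xp P w) = k then X (xr P w) (xp P w) else 0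

theorem Xi_C (X : M.Group → M.Group → H) {p g : M.Group} (hp : p ∈ XR M P) (hg : g ∈ par M P)
    (hk : la g = k) : Xi D P la k X (D.C (p * g)) = X p g := by
  rw [Xi, Module.Basis.constr_basis, xp_mul hp hg, xr_mul hp hg, if_pos hk]

theorem Xi_C_ne (X : M.Group → M.Group → H) {p g : M.Group} (hp : p ∈ XR M P)
    (hg : g ∈ par M P) (hk : la g ≠ k) : Xi D P la k X (D.C (p * g)) = 0 := by
  rw [Xi, Module.Basis.constr_basis, xp_mul hp hg, if_neg hk]

open scoped Classical in
/-- The linear map that sends `T p * C g` to `T p * η g` if `la g = k`. -/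
noncomputable def Tht (P : Set B) (la : M.Group → ℕ) (k : ℕ) (η : M.Group → H) :
    H →ₗ[LP] H :=
  (dl D P).constr LP fun w => if la (xp P w) = k then D.T (xr P w) * η (xp P w) else 0

theorem Tht_TC (η : M.Group → H) {p g : M.Group} (hp : p ∈ XR M P) (hg : g ∈ par M P)
    (hk : la g = k) : Tht D P la k η (D.T p * D.C g) = D.T p * η g := by
  rw [← dl_mul D hp hg, Tht, Module.Basis.constr_basis, xp_mul hp hg, xr_mul hp hg, if_pos hk]

theorem Tht_TC_ne (η : M.Group → H) {p g : M.Group} (hp : p ∈ XR M P) (hg : g ∈ par M P)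
    (hk : la g ≠ k) : Tht D P la k η (D.T p * D.C g) = 0 := by
  rw [← dl_mul D hp hg, Tht, Module.Basis.constr_basis, xp_mul hp hg, if_neg hk]

private theorem Th_Le_C (η : M.Group → H) {g : M.Group} (hg : g ∈ par M P) (hk : la g = k) :
    Le D P la k η (D.C g) = η g := by
  rw [Le, Module.Basis.constr_basis, if_pos ⟨hg, hk⟩]

private theorem Th_Le_C_ne (η : M.Group → H) {g : M.Group} (hk : la g ≠ k) :
    Le D P la k η (D.C g) = 0 := by
  rw [Le, Module.Basis.constr_basis, if_neg fun h => hk h.2]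

private theorem Th_Tp (η : M.Group → H) {p : M.Group} (hp : p ∈ XR M P) {y : H}
    (hy : y ∈ HQ D P) : Tht D P la k η (D.T p * y) = D.T p * Le D P la k η y := by
  refine HQ_induction D (p := fun y => Tht D P la k η (D.T p * y) = D.T p * Le D P la k η y)
    ?_ ?_ ?_ ?_ hy
  · intro w hw
    by_cases hk : la w = k
    · rw [Tht_TC D η hp hw hk, Th_Le_C D η hw hk]
    · rw [Tht_TC_ne D η hp hw hk, Th_Le_C_ne D η hk, mul_zero]
  · rw [mul_zero, map_zero, map_zero, mul_zero]
  · intro x y hx hy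
    rw [mul_add, map_add, map_add, mul_add, hx, hy]
  · intro a x hx
    rw [mul_smul_comm, map_smul, map_smul, mul_smul_comm, hx]

private theorem Th_LI_succ (η : M.Group → H) {x : H} (hx : x ∈ LI D P (Sk M P la (k + 1))) :
    Tht D P la k η x = 0 := by
  have h : LI D P (Sk M P la (k + 1)) ≤ LinearMap.ker (Tht D P la k η) := by
    rw [LI, Submodule.span_le]
    rintro _ ⟨p, hp, g, hg, rfl⟩
    rw [SetLike.mem_coe, LinearMap.mem_ker]
    refine Tht_TC_ne D η hp hg.1 ?_
    have := hg.2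
    omega
  exact h hx

variable {D hv} in
private theorem Th_mulT {η : M.Group → H} (h : AdmL D hv P la k η) {g : M.Group}
    (hg : g ∈ par M P) (hk : la g = k) {x : H} (hx : x ∈ HQ D P) :
    x * η g - Le D P la k η (x * D.C g) ∈ II D hv := by
  refine HQ_induction D (p := fun x => x * η g - Le D P la k η (x * D.C g) ∈ II D hv)
    ?_ ?_ ?_ ?_ hx
  · intro b hb
    exact h.mul b hb g hg hk
  · rw [zero_mul, zero_mul, map_zero, sub_zero]
    exact Submodule.zero_mem _
  · intro x y hx hy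
    rw [add_mul, add_mul, map_add, add_sub_add_comm]
    exact Submodule.add_mem _ hx hy
  · intro a x hx
    rw [smul_mul_assoc, smul_mul_assoc, map_smul, ← smul_sub]
    exact Submodule.smul_mem _ _ hx

variable {D hv} in
private theorem Th_tC (hI : Idl D hv) {η : M.Group → H} (h : AdmL D hv P la k η) {g : M.Group}
    (hg : g ∈ par M P) (hk : la g = k) (t : H) :
    Tht D P la k η (t * D.C g) - t * η g ∈ II D hv := by
  refine Submodule.span_induction (p := fun t _ => Tht D P la k η (t * D.C g) - t * η g ∈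
    II D hv) ?_ ?_ ?_ ?_ (D.T.mem_span t)
  · rintro _ ⟨w, rfl⟩
    obtain ⟨p, hp, u, hu, rfl⟩ := exists_XR P w
    have h1 : D.T u * D.C g ∈ HQ D P := mul_mem_HQ D (T_mem_HQ D hu) (C_mem_HQ D hg)
    have h2 := Th_mulT h hg hk (T_mem_HQ D hu)
    have h3 := hI.II_mulL (D.T p) h2
    rw [D.T_mul p u (len_XR_mul hp hu), mul_assoc, Th_Tp D η hp h1, mul_assoc, ← mul_sub]
    rw [← neg_sub, mul_neg] at h3
    exact (Submodule.neg_mem_iff _).1 h3
  · rw [zero_mul, zero_mul, map_zero, sub_zero]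
    exact Submodule.zero_mem _
  · intro x y _ _ hx hy
    rw [add_mul, add_mul, map_add, add_sub_add_comm]
    exact Submodule.add_mem _ hx hy
  · intro a x _ hx
    rw [smul_mul_assoc, smul_mul_assoc, map_smul, ← smul_sub]
    exact Submodule.smul_mem _ _ hx

private theorem Th_TC_succ (hP : Loc D P la) {p g : M.Group} (hp : p ∈ XR M P)
    (hg : g ∈ par M P) (hk : k < la g) (t : H) :
    t * (D.T p * D.C g) ∈ LI D P (Sk M P la (k + 1)) :=
  LI_mul D (clL_Sk D hP (k + 1)) t (TC_mem_LI D hp ⟨hg, hk⟩)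

variable {D hv} in
private theorem Th_mul (hI : Idl D hv) (hP : Loc D P la) {η : M.Group → H}
    (h : AdmL D hv P la k η) (t : H) {x : H} (hx : x ∈ LI D P (Sk M P la k)) :
    Tht D P la k η (t * x) - t * Tht D P la k η x ∈ II D hv := by
  refine Submodule.span_induction (p := fun x _ => Tht D P la k η (t * x) -
    t * Tht D P la k η x ∈ II D hv) ?_ ?_ ?_ ?_ hx
  · rintro _ ⟨p, hp, g, hg, rfl⟩
    rcases eq_or_lt_of_le hg.2 with hk | hk
    · rw [Tht_TC D η hp hg.1 hk.symm, ← mul_assoc, ← mul_assoc]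
      exact Th_tC hI h hg.1 hk.symm _
    · rw [Tht_TC_ne D η hp hg.1 hk.ne', Th_LI_succ D η (Th_TC_succ D hP hp hg.1 hk t), mul_zero,
        sub_zero]
      exact Submodule.zero_mem _
  · rw [mul_zero, map_zero, mul_zero, sub_zero]
    exact Submodule.zero_mem _
  · intro x y _ _ hx hy
    rw [mul_add, map_add, map_add, mul_add, add_sub_add_comm]
    exact Submodule.add_mem _ hx hy
  · intro a x _ hx
    rw [mul_smul_comm, map_smul, map_smul, mul_smul_comm, ← smul_sub]
    exact Submodule.smul_mem _ _ hx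

variable {D hv} in
private theorem Th_bar (hI : Idl D hv) (hP : Loc D P la) {η : M.Group → H}
    (h : AdmL D hv P la k η) {x : H} (hx : x ∈ LI D P (Sk M P la k)) :
    D.bar (Tht D P la k η x) - Tht D P la k η (D.bar x) ∈ II D hv := by
  refine Submodule.span_induction (p := fun x _ => D.bar (Tht D P la k η x) -
    Tht D P la k η (D.bar x) ∈ II D hv) ?_ ?_ ?_ ?_ hx
  · rintro _ ⟨p, hp, g, hg, rfl⟩
    rcases eq_or_lt_of_le hg.2 with hk | hk
    · rw [Tht_TC D η hp hg.1 hk.symm, map_mul, map_mul, D.bar_C]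
      have h1 := Th_tC hI h hg.1 hk.symm (D.bar (D.T p))
      have h2 := hI.II_mulL (D.bar (D.T p)) (h.bar g hg.1 hk.symm)
      have e : D.bar (D.T p) * D.bar (η g) - Tht D P la k η (D.bar (D.T p) * D.C g) =
          D.bar (D.T p) * (D.bar (η g) - η g) -
          (Tht D P la k η (D.bar (D.T p) * D.C g) - D.bar (D.T p) * η g) := by
        rw [mul_sub]
        abel
      rw [e]
      exact Submodule.sub_mem _ h2 h1
    · have h1 := Th_LI_succ D η (Th_TC_succ D hP (p := 1) one_mem_XR hg.1 hk (D.bar (D.T p)))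
      rw [D.T_one, one_mul] at h1
      rw [Tht_TC_ne D η hp hg.1 hk.ne', map_zero, map_mul, D.bar_C, h1, sub_zero]
      exact Submodule.zero_mem _
  · rw [map_zero, map_zero, map_zero, sub_zero]
    exact Submodule.zero_mem _
  · intro x y _ _ hx hy
    rw [map_add, map_add, map_add, map_add, add_sub_add_comm]
    exact Submodule.add_mem _ hx hy
  · intro a x _ hx
    rw [map_smul, D.bar_smul, D.bar_smul, map_smul, ← smul_sub]
    exact Submodule.smul_mem _ _ hx

private theorem Th_C_mem (hP : Loc D P la) {n : ℕ} {p g : M.Group} (hp : p ∈ XR M P)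
    (hg : g ∈ par M P) (hk : n ≤ la g) : D.C (p * g) ∈ LI D P (Sk M P la n) := by
  have hS : g ∈ Sk M P la n := ⟨hg, hk⟩
  have h1 := NegL_le_LI D (C_sub_NegL D (clL_Sk D hP n) hp hS)
  have h2 := Submodule.add_mem _ h1 (TC_mem_LI D hp hS)
  rwa [sub_add_cancel] at h2

variable (hI : Idl D hv) (hP : Loc D P la) (hin : ∀ c ∈ par M P, k < la c → hv c)

variable {D hv}

include hI hP hin in
theorem AdmL.Tht_C {η : M.Group → H} (h : AdmL D hv P la k η) {p g : M.Group}
    (hp : p ∈ XR M P) (hg : g ∈ par M P) (hk : la g = k) :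
    Tht D P la k η (D.C (p * g)) - Xf D hv η p g ∈ II D hv := by
  have hS : g ∈ Sk M P la k := ⟨hg, hk.ge⟩
  have hC := Th_C_mem D hP hp hg hk.ge
  have h1 : NegL D P (Sk M P la k) (len M p) ≤
      AddSubgroup.comap (Tht D P la k η).toAddMonoidHom (LL D hv (-1)) := by
    rw [NegL, AddSubgroup.closure_le]
    rintro _ ⟨a, p', hp', g', hg', ha, -, rfl⟩
    change Tht D P la k η (a • (D.T p' * D.C g')) ∈ LL D hv (-1)
    rw [map_smul]
    rcases eq_or_lt_of_le hg'.2 with hk' | hk'
    · rw [Tht_TC D η hp' hg'.1 hk'.symm]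
      have h2 := smul_LL ha (h.lam p' hp' g' hg'.1 hk'.symm)
      rwa [add_zero] at h2
    · rw [Tht_TC_ne D η hp' hg'.1 hk'.ne', smul_zero]
      exact AddSubgroup.zero_mem _
  have h2 : Tht D P la k η (D.C (p * g)) - D.T p * η g ∈ LL D hv (-1) := by
    have h3 : Tht D P la k η (D.C (p * g) - D.T p * D.C g) ∈ LL D hv (-1) :=
      h1 (C_sub_NegL D (clL_Sk D hP k) hp hS)
    rwa [map_sub, Tht_TC D η hp hg hk] at h3
  have h3 := h.lam p hp g hg hk
  have h4 : Tht D P la k η (D.C (p * g)) ∈ LL D hv 0 := by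
    have h5 := AddSubgroup.add_mem _ (LL_mono (show (-1 : ℤ) ≤ 0 by norm_num) h2) h3
    rwa [sub_add_cancel] at h5
  have h5 : D.bar (Tht D P la k η (D.C (p * g))) - Tht D P la k η (D.C (p * g)) ∈ II D hv := by
    have h6 := Th_bar hI hP h hC
    rwa [D.bar_C] at h6
  have h6 := congr_up h4 h5
  have h7 : ld D hv 0 (Tht D P la k η (D.C (p * g))) = ld D hv 0 (D.T p * η g) := by
    apply ld_congr
    rw [zero_sub]
    exact h2
  rw [h7] at h6
  exact h6

include hI hP hin in
/-- The structure constants of the left ideal act on the images of the `C (p * g)`. -/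
theorem AdmL.mulX {η : M.Group → H} (h : AdmL D hv P la k η) {p g : M.Group}
    (hp : p ∈ XR M P) (hg : g ∈ par M P) (hk : la g = k) (t : H) :
    t * Xf D hv η p g - Xi D P la k (Xf D hv η) (t * D.C (p * g)) ∈ II D hv := by
  have hC := Th_C_mem D hP hp hg hk.ge
  have h5 : ∀ x ∈ LI D P (Sk M P la k),
      Tht D P la k η x - Xi D P la k (Xf D hv η) x ∈ II D hv := by
    intro x hx
    rw [LI_eq D (clL_Sk D hP k)] at hx
    refine Submodule.span_induction (p := fun x _ => Tht D P la k η x -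
      Xi D P la k (Xf D hv η) x ∈ II D hv) ?_ ?_ ?_ ?_ hx
    · rintro _ ⟨p', hp', g', hg', rfl⟩
      rcases eq_or_lt_of_le hg'.2 with hk' | hk'
      · rw [Xi_C D _ hp' hg'.1 hk'.symm]
        exact AdmL.Tht_C hI hP hin h hp' hg'.1 hk'.symm
      · rw [Xi_C_ne D _ hp' hg'.1 hk'.ne', Th_LI_succ D η (Th_C_mem D hP hp' hg'.1 hk'), sub_zero]
        exact Submodule.zero_mem _
    · rw [map_zero, map_zero, sub_zero]
      exact Submodule.zero_mem _
    · intro x y _ _ hx hy
      rw [map_add, map_add, add_sub_add_comm]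
      exact Submodule.add_mem _ hx hy
    · intro a x _ hx
      rw [map_smul, map_smul, ← smul_sub]
      exact Submodule.smul_mem _ _ hx
  have h1 := h5 _ (LI_mul D (clL_Sk D hP k) t hC)
  have h2 := Th_mul hI hP h t hC
  have h3 := hI.II_mulL t (AdmL.Tht_C hI hP hin h hp hg hk)
  have e : t * Xf D hv η p g - Xi D P la k (Xf D hv η) (t * D.C (p * g)) =
      (Tht D P la k η (t * D.C (p * g)) - Xi D P la k (Xf D hv η) (t * D.C (p * g))) -
      (Tht D P la k η (t * D.C (p * g)) - t * Tht D P la k η (D.C (p * g))) -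
      t * (Tht D P la k η (D.C (p * g)) - Xf D hv η p g) := by
    rw [mul_sub]
    abel
  rw [e]
  exact Submodule.sub_mem _ (Submodule.sub_mem _ h1 h2) h3

end th

end Pool.Agent.Helper35.AM
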