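import Pool.Agent.Helper35.AM.Ap
import Pool.Agent.Helper35.AM.Th

/-!
# Right multiplication by elements of the parabolic subgroups
-/

/- PROOF HINTS (conventions: see Df.lean)
Ap2. eta(g) = Le (fun g' => C g') (phi m b (C g)) is AdmL: mul is Loc.p15 (compare Adm.et in KL/Gr.lean: Le_et, Le_congr), bar: integer combination of C's, lam: T_pC_{g'} in LL 0. Xf eta p g - OmL p g in II where OmL p g =
 Le (fun g' => C(p g')) (phi m b (C g)) (T_pC_g' - C_{pg'} in LL(-1), congr_of_bar). Then mulX: t OmL p g = Xi OmL (t C_{pg}) mod II. Also (Th) with Tht: sum_m q^m Tht_{eta_m}(x) = x C_b mod II for x in LI(Sk k) (generators T_pC_g: sum_phi), so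
 E_left: C_{pg}C_b = sum_m q^m OmL_m p g = Le(..)(C_gC_b) mod II; compare GRf in KL/Gr.lean. phi_mul: by E_left the degree-m part: phi m b (C_{pg}) - OmL m p g in II for la g = k; for la g > k C_{pg} is in II (LI(Sk(k+1)) is in II) and
 phi_II. So phi m b (t C_{pg}) = Xi OmL(t C_{pg}) = t OmL p g = t phi m b (C_{pg}) mod II.  (Th.lean exports Tht, Tht_TC, Tht_TC_ne, AdmL.Tht_C: Tht(C_{pg}) = Xf p g mod II.)
-/

namespace Pool.Agent.Helper35.AM

open Pool.Agent.Helper35.KL

section ap2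

variable {B : Type} {M : CoxeterMatrix B} {L : M.Group → ℤ} {H : Type} [Ring H] [Algebra LP H]
variable {D : KLD M L H} {hv : M.Group → Prop} {P : Set B} {la : M.Group → ℕ} {k : ℕ}

private theorem ap2_Le_C (η : M.Group → H) {g : M.Group} (hg : g ∈ par M P) (hk : la g = k) :
    Le D P la k η (D.C g) = η g := by
  rw [Le, Module.Basis.constr_basis, if_pos ⟨hg, hk⟩]

private theorem ap2_Le_C_ne (η : M.Group → H) {g : M.Group} (h : ¬ (g ∈ par M P ∧ la g = k)) :
    Le D P la k η (D.C g) = 0 := by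
  rw [Le, Module.Basis.constr_basis, if_neg h]

/-- The span of the `C c` with `c` in the parabolic subgroup and `la c ≥ k`. -/
private noncomputable def ap2G (D : KLD M L H) (P : Set B) (la : M.Group → ℕ) (k : ℕ) :
    Submodule LP H := Submodule.span LP (D.C '' {c | c ∈ par M P ∧ k ≤ la c})

private theorem ap2_mem_G {x : H} : x ∈ ap2G D P la k ↔
    ∀ c, D.C.repr x c ≠ 0 → c ∈ par M P ∧ k ≤ la c := by
  rw [ap2G, Module.Basis.mem_span_image]
  constructor
  · intro h c hc
    exact h (Finsupp.mem_support_iff.2 hc)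
  · intro h c hc
    exact h c (Finsupp.mem_support_iff.1 hc)

private theorem ap2_C_G {g : M.Group} (hg : g ∈ par M P) (hk : k ≤ la g) :
    D.C g ∈ ap2G D P la k := Submodule.subset_span ⟨g, ⟨hg, hk⟩, rfl⟩

private theorem ap2_Le_zero (η : M.Group → H) {x : H}
    (h : ∀ g ∈ par M P, la g = k → D.C.repr x g = 0) : Le D P la k η x = 0 := by
  have h1 : x ∈ Submodule.span LP (D.C '' {c | ¬ (c ∈ par M P ∧ la c = k)}) := by
    rw [Module.Basis.mem_span_image]
    intro c hc h2
    exact Finsupp.mem_support_iff.1 hc (h c h2.1 h2.2)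
  have h2 : Submodule.span LP (D.C '' {c | ¬ (c ∈ par M P ∧ la c = k)}) ≤
      LinearMap.ker (Le D P la k η) := by
    rw [Submodule.span_le]
    rintro _ ⟨w, hw, rfl⟩
    rw [SetLike.mem_coe, LinearMap.mem_ker, ap2_Le_C_ne η hw]
  exact h2 h1

private theorem ap2_Le_congr (η : M.Group → H) {x y : H}
    (h : ∀ g ∈ par M P, la g = k → D.C.repr x g = D.C.repr y g) :
    Le D P la k η x = Le D P la k η y := by
  rw [← sub_eq_zero, ← map_sub]
  refine ap2_Le_zero η fun g hg hk => ?_
  rw [map_sub, Finsupp.sub_apply, h g hg hk, sub_self]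

private theorem ap2_Le_phi (η : M.Group → H) (m : ℤ) (b g : M.Group) :
    Le D P la k η (D.phi m b (D.C g)) = ∑ c ∈ (D.C.repr (D.C g * D.C b)).support,
      (D.h g b c).coeff m • Le D P la k η (D.C c) := by
  rw [KLD.phi_C, map_sum]
  exact Finset.sum_congr rfl fun c _ => map_zsmul _ _ _

/-- The images of the coefficients of degree `m` of `C g * C b`. -/
private noncomputable def ap2et (D : KLD M L H) (P : Set B) (la : M.Group → ℕ) (k : ℕ) (m : ℤ)
    (b g : M.Group) : H := Le D P la k (fun c => D.C c) (D.phi m b (D.C g))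

/-- The same, translated by `p`. -/
private noncomputable def ap2Om (D : KLD M L H) (P : Set B) (la : M.Group → ℕ) (k : ℕ) (m : ℤ)
    (b p g : M.Group) : H := Le D P la k (fun c => D.C (p * c)) (D.phi m b (D.C g))

private theorem ap2_bar_Om (m : ℤ) (b p g : M.Group) :
    D.bar (ap2Om D P la k m b p g) = ap2Om D P la k m b p g := by
  rw [ap2Om, ap2_Le_phi, map_sum]
  refine Finset.sum_congr rfl fun c _ => ?_
  rw [map_zsmul]
  congr 1
  by_cases h : c ∈ par M P ∧ la c = k
  · rw [ap2_Le_C _ h.1 h.2, D.bar_C]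
  · rw [ap2_Le_C_ne _ h, map_zero]

private theorem ap2_et_eq (m : ℤ) (b g : M.Group) :
    ap2et D P la k m b g = ap2Om D P la k m b 1 g := by
  rw [ap2et, ap2Om]
  simp only [one_mul]

variable (hI : Idl D hv) (hP : Loc D P la) (hin : ∀ c ∈ par M P, k < la c → hv c)

include hP in
private theorem ap2_mulL {x g : M.Group} (hx : x ∈ par M P) (hg : g ∈ par M P) (hk : k ≤ la g) :
    D.C x * D.C g ∈ ap2G D P la k := by
  rw [ap2_mem_G]
  intro c hc
  exact ⟨h_mem D hx hg hc, le_trans hk (hP.p4 x hx g hg c hc).2⟩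

include hP in
private theorem ap2_mulR {x g : M.Group} (hx : x ∈ par M P) (hg : g ∈ par M P) (hk : k ≤ la g) :
    D.C g * D.C x ∈ ap2G D P la k := by
  rw [ap2_mem_G]
  intro c hc
  exact ⟨h_mem D hg hx hc, le_trans hk (hP.p4 g hg x hx c hc).1⟩

include hP in
private theorem ap2_mulGL {b : M.Group} (hb : b ∈ par M P) {x : H} (hx : x ∈ ap2G D P la k) :
    D.C b * x ∈ ap2G D P la k := by
  refine Submodule.span_induction (p := fun (x : H) _ => D.C b * x ∈ ap2G D P la k)
    ?_ ?_ ?_ ?_ hx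
  · rintro _ ⟨c, hc, rfl⟩
    exact ap2_mulL hP hb hc.1 hc.2
  · rw [mul_zero]
    exact Submodule.zero_mem _
  · intro x y _ _ h1 h2
    rw [mul_add]
    exact Submodule.add_mem _ h1 h2
  · intro a x _ h1
    rw [mul_smul_comm]
    exact Submodule.smul_mem _ _ h1

include hP in
private theorem ap2_phi_G (m : ℤ) {b g : M.Group} (hb : b ∈ par M P) (hg : g ∈ par M P)
    (hk : k ≤ la g) : D.phi m b (D.C g) ∈ ap2G D P la k := by
  rw [KLD.phi_C]
  refine Submodule.sum_mem _ fun c hc => ?_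
  refine (ap2G D P la k).toAddSubgroup.zsmul_mem ?_ _
  have h1 := (ap2_mem_G).1 (ap2_mulR (D := D) (k := k) hP hb hg hk) c
    (Finsupp.mem_support_iff.1 hc)
  exact ap2_C_G h1.1 h1.2

private theorem ap2_Le_G1 (η : M.Group → H) {x : H} (hx : x ∈ ap2G D P la (k + 1)) :
    Le D P la k η x = 0 := by
  refine ap2_Le_zero η fun g hg hk => ?_
  by_contra hne
  have := ((ap2_mem_G).1 hx g hne).2
  omega

include hin in
private theorem ap2_Le_self {x : H} (hx : x ∈ ap2G D P la k) :
    x - Le D P la k (fun c => D.C c) x ∈ II D hv := by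
  refine Submodule.span_induction (p := fun (x : H) _ =>
    x - Le D P la k (fun c => D.C c) x ∈ II D hv) ?_ ?_ ?_ ?_ hx
  · rintro _ ⟨c, hc, rfl⟩
    by_cases h1 : la c = k
    · rw [ap2_Le_C _ hc.1 h1, sub_self]
      exact Submodule.zero_mem _
    · rw [ap2_Le_C_ne _ fun h => h1 h.2, sub_zero]
      exact C_mem_II (hin c hc.1 (lt_of_le_of_ne hc.2 (Ne.symm h1)))
  · rw [map_zero, sub_zero]
    exact Submodule.zero_mem _
  · intro a b _ _ ha hb
    rw [map_add, add_sub_add_comm]
    exact Submodule.add_mem _ ha hb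
  · intro a b _ hb
    rw [map_smul, ← smul_sub]
    exact Submodule.smul_mem _ _ hb

include hP in
private theorem ap2_Le_et (m : ℤ) {b : M.Group} (hb : b ∈ par M P) {x : H}
    (hx : x ∈ ap2G D P la k) : Le D P la k (ap2et D P la k m b) x =
      Le D P la k (fun c => D.C c) (D.phi m b x) := by
  refine Submodule.span_induction (p := fun (x : H) _ => Le D P la k (ap2et D P la k m b) x =
      Le D P la k (fun c => D.C c) (D.phi m b x)) ?_ ?_ ?_ ?_ hx
  · rintro _ ⟨c, hc, rfl⟩
    by_cases h1 : la c = k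
    · rw [ap2_Le_C _ hc.1 h1, ap2et]
    · rw [ap2_Le_C_ne _ fun h => h1 h.2, ap2_Le_G1 _ (ap2_phi_G hP m hb hc.1
        (lt_of_le_of_ne hc.2 (Ne.symm h1)))]
  · simp only [map_zero]
  · intro a b _ _ ha hb
    simp only [map_add]
    rw [ha, hb]
  · intro a b _ hb
    simp only [map_smul]
    rw [hb]

include hI hP hin in
private theorem ap2_mulG {x : M.Group} (hx : x ∈ par M P) {y : H} (hy : y ∈ ap2G D P la k) :
    D.C x * Le D P la k (fun c => D.C c) y - Le D P la k (fun c => D.C c) (D.C x * y) ∈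
      II D hv := by
  have h1 := ap2_Le_self hin hy
  have h2 := ap2_Le_self hin (ap2_mulGL hP hx hy)
  have h3 := hI.II_mulL (D.C x) h1
  have h4 := Submodule.sub_mem _ h2 h3
  have h5 : D.C x * Le D P la k (fun c => D.C c) y - Le D P la k (fun c => D.C c) (D.C x * y) =
      D.C x * y - Le D P la k (fun c => D.C c) (D.C x * y) -
        D.C x * (y - Le D P la k (fun c => D.C c) y) := by
    rw [mul_sub]
    abel
  rw [h5]
  exact h4

include hP in
private theorem ap2_NegL_LL {n : ℕ}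
    (h : ∀ p ∈ XR M P, len M p < n → ∀ g ∈ par M P, D.T p * D.C g ∈ LL D hv 0) {x : H}
    (hx : x ∈ NegL D P (Sk M P la 0) n) : x ∈ LL D hv (-1) := by
  refine (AddSubgroup.closure_le (LL D hv (-1))).2 ?_ hx
  rintro _ ⟨a, p, hp, g, hg, ha, hl, rfl⟩
  have h1 := smul_LL ha (h p hp hl g hg.1)
  rwa [add_zero] at h1

include hP in
private theorem ap2_TC {p : M.Group} (hp : p ∈ XR M P) {g : M.Group} (hg : g ∈ par M P) :
    D.T p * D.C g ∈ LL D hv 0 ∧ D.C (p * g) - D.T p * D.C g ∈ LL D hv (-1) := by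
  have key : ∀ n : ℕ, ∀ p ∈ XR M P, len M p < n → ∀ g ∈ par M P,
      D.T p * D.C g ∈ LL D hv 0 ∧ D.C (p * g) - D.T p * D.C g ∈ LL D hv (-1) := by
    intro n
    induction n with
    | zero =>
      intro p _ h
      omega
    | succ n ih =>
      intro p hp hl g hg
      have h1 : D.C (p * g) - D.T p * D.C g ∈ LL D hv (-1) := by
        refine ap2_NegL_LL (n := len M p) hP (fun p' hp' hl' g' hg' =>
          (ih p' hp' (by omega) g' hg').1) ?_
        exact C_sub_NegL D (clL_Sk D hP 0) hp ⟨hg, Nat.zero_le _⟩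
      refine ⟨?_, h1⟩
      have h2 : D.T p * D.C g = D.C (p * g) - (D.C (p * g) - D.T p * D.C g) := by abel
      rw [h2]
      exact AddSubgroup.sub_mem _ (C_LL _) (LL_mono (by norm_num) h1)
  exact key (len M p + 1) p hp (Nat.lt_succ_self _) g hg

include hP in
private theorem ap2_T_et (m : ℤ) (b : M.Group) {p g : M.Group} (hp : p ∈ XR M P) :
    D.T p * ap2et D P la k m b g ∈ LL D hv 0 ∧
      D.T p * ap2et D P la k m b g - ap2Om D P la k m b p g ∈ LL D hv (-1) := by
  rw [ap2et, ap2Om, ap2_Le_phi, ap2_Le_phi, Finset.mul_sum]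
  constructor
  · refine AddSubgroup.sum_mem _ fun c _ => ?_
    rw [mul_smul_comm]
    refine AddSubgroup.zsmul_mem _ ?_ _
    by_cases h : c ∈ par M P ∧ la c = k
    · rw [ap2_Le_C _ h.1 h.2]
      exact (ap2_TC hP hp h.1).1
    · rw [ap2_Le_C_ne _ h, mul_zero]
      exact AddSubgroup.zero_mem _
  · rw [← Finset.sum_sub_distrib]
    refine AddSubgroup.sum_mem _ fun c _ => ?_
    rw [mul_smul_comm, ← smul_sub]
    refine AddSubgroup.zsmul_mem _ ?_ _
    by_cases h : c ∈ par M P ∧ la c = k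
    · rw [ap2_Le_C _ h.1 h.2, ap2_Le_C _ h.1 h.2]
      have h1 := AddSubgroup.neg_mem _ (ap2_TC (hv := hv) hP hp h.1 (D := D)).2
      rwa [neg_sub] at h1
    · rw [ap2_Le_C_ne _ h, ap2_Le_C_ne _ h, mul_zero, sub_zero]
      exact AddSubgroup.zero_mem _

include hI hP hin in
private theorem ap2_adm (m : ℤ) {b : M.Group} (hb : b ∈ par M P) :
    AdmL D hv P la k (ap2et D P la k m b) where
  mul x hx g hg hk := by
    rw [ap2_Le_et hP m hb (ap2_mulL hP hx hg hk.ge)]
    have h1 : Le D P la k (fun c => D.C c) (D.phi m b (D.C x * D.C g)) =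
        Le D P la k (fun c => D.C c) (D.C x * D.phi m b (D.C g)) := by
      refine ap2_Le_congr _ fun y hy hyk => ?_
      rw [hP.p15 m x hx b hb g hg y hy (by rw [hk, hyk])]
    rw [h1]
    exact ap2_mulG hI hP hin hx (ap2_phi_G hP m hb hg hk.ge)
  bar g _ _ := by
    rw [ap2_et_eq, ap2_bar_Om, sub_self]
    exact Submodule.zero_mem _
  lam p hp g _ _ := (ap2_T_et hP m b hp).1

include hP in
private theorem ap2_Xf (m : ℤ) (b : M.Group) {p g : M.Group} (hp : p ∈ XR M P) :
    Xf D hv (ap2et D P la k m b) p g - ap2Om D P la k m b p g ∈ II D hv := by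
  obtain ⟨h1, h2⟩ := ap2_T_et (D := D) (hv := hv) (k := k) hP m b hp (g := g)
  refine congr_of_bar ?_ ?_ ?_
  · exact bar_up_sub _
  · rw [ap2_bar_Om, sub_self]
    exact Submodule.zero_mem _
  · rw [Xf]
    set y := D.T p * ap2et D P la k m b g with hy
    have h3 : y - D.up (ld D hv 0 y) ∈ LL D hv (-1) := by
      have h4 := LL_of_ld (AddSubgroup.sub_mem _ h1 (up_LL (D := D) (ld D hv 0 y)))
        (by rw [map_sub, ld_up fun z hz => ld_supp hz, sub_self])
      rwa [zero_sub] at h4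
    have h5 := AddSubgroup.sub_mem _ h2 h3
    have h6 : D.up (ld D hv 0 y) - ap2Om D P la k m b p g =
        y - ap2Om D P la k m b p g - (y - D.up (ld D hv 0 y)) := by abel
    rw [h6]
    exact h5

include hP in
private theorem ap2_C_LI {p g : M.Group} (hp : p ∈ XR M P) (hg : g ∈ par M P) (hk : k ≤ la g) :
    D.C (p * g) ∈ LI D P (Sk M P la k) := by
  have h1 := NegL_le_LI D (C_sub_NegL D (clL_Sk D hP k) hp (show g ∈ Sk M P la k from ⟨hg, hk⟩))
  have h2 := Submodule.add_mem _ h1 (TC_mem_LI D hp (show g ∈ Sk M P la k from ⟨hg, hk⟩))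
  rwa [sub_add_cancel] at h2

include hI hin in
private theorem ap2_LI_II {x : H} (hx : x ∈ LI D P (Sk M P la (k + 1))) : x ∈ II D hv := by
  refine (Submodule.span_le.2 ?_ : LI D P (Sk M P la (k + 1)) ≤ II D hv) hx
  rintro _ ⟨p, _, g, hg, rfl⟩
  exact hI.II_mulL _ (C_mem_II (hin g hg.1 hg.2))

include hI hP hin in
private theorem ap2_sum {b : M.Group} (hb : b ∈ par M P) {x : H}
    (hx : x ∈ LI D P (Sk M P la k)) :
    ∃ S₀ : Finset ℤ, ∀ S : Finset ℤ, S₀ ⊆ S → x * D.C b -
      ∑ n ∈ S, qq n • Tht D P la k (ap2et D P la k n b) x ∈ II D hv := by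
  classical
  refine Submodule.span_induction (p := fun (x : H) _ => ∃ S₀ : Finset ℤ, ∀ S : Finset ℤ,
    S₀ ⊆ S → x * D.C b -
      ∑ n ∈ S, qq n • Tht D P la k (ap2et D P la k n b) x ∈ II D hv) ?_ ?_ ?_ ?_ hx
  · rintro _ ⟨p, hp, g, hg, rfl⟩
    by_cases hk : la g = k
    · obtain ⟨S₀, hS⟩ := D.sum_phi b g
      refine ⟨S₀, fun S hS' => ?_⟩
      have h6 : ∀ n ∈ S, qq n • Tht D P la k (ap2et D P la k n b) (D.T p * D.C g) =
          D.T p * Le D P la k (fun c => D.C c) (qq n • D.phi n b (D.C g)) := by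
        intro n _
        rw [Tht_TC D _ hp hg.1 hk, ap2et, map_smul, mul_smul_comm]
      rw [Finset.sum_congr rfl h6, ← Finset.mul_sum, ← map_sum, hS S hS', mul_assoc, ← mul_sub]
      exact hI.II_mulL _ (ap2_Le_self hin (ap2_mulR hP hb hg.1 hg.2))
    · refine ⟨∅, fun S _ => ?_⟩
      rw [Finset.sum_eq_zero fun n _ => by rw [Tht_TC_ne D _ hp hg.1 hk, smul_zero], sub_zero]
      refine hI.II_mulR _ (hI.II_mulL _ (C_mem_II (hin g hg.1 ?_)))
      exact lt_of_le_of_ne hg.2 (Ne.symm hk)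
  · refine ⟨∅, fun S _ => ?_⟩
    rw [Finset.sum_eq_zero fun n _ => by rw [map_zero, smul_zero], sub_zero, zero_mul]
    exact Submodule.zero_mem _
  · rintro x y _ _ ⟨S1, h1⟩ ⟨S2, h2⟩
    refine ⟨S1 ∪ S2, fun S hS => ?_⟩
    have h3 := Submodule.add_mem _ (h1 S (Finset.union_subset_iff.1 hS).1)
      (h2 S (Finset.union_subset_iff.1 hS).2)
    simp only [map_add, smul_add, Finset.sum_add_distrib, add_mul]
    rwa [add_sub_add_comm]
  · rintro a x _ ⟨S1, h1⟩
    refine ⟨S1, fun S hS => ?_⟩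
    have h3 := Submodule.smul_mem _ a (h1 S hS)
    rw [smul_sub, Finset.smul_sum] at h3
    simp only [map_smul, smul_mul_assoc]
    have h4 : ∀ n ∈ S, qq n • a • Tht D P la k (ap2et D P la k n b) x =
        a • qq n • Tht D P la k (ap2et D P la k n b) x :=
      fun n _ => smul_comm _ _ _
    rw [Finset.sum_congr rfl h4]
    exact h3

include hI hP hin in
/-- Right multiplication by an element of the parabolic subgroup. -/
theorem E_left {b : M.Group} (hb : b ∈ par M P) {p g : M.Group} (hp : p ∈ XR M P)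
    (hg : g ∈ par M P) (hk : la g = k) :
    D.C (p * g) * D.C b - Le D P la k (fun g' => D.C (p * g')) (D.C g * D.C b) ∈ II D hv := by
  classical
  obtain ⟨S1, h1⟩ := ap2_sum hI hP hin hb (ap2_C_LI (D := D) hP hp hg hk.ge)
  obtain ⟨S2, h2⟩ := D.sum_phi b g
  have h3 := h1 (S1 ∪ S2) Finset.subset_union_left
  have h4 := h2 (S1 ∪ S2) Finset.subset_union_right
  have h5 : ∑ n ∈ S1 ∪ S2, (qq n • Tht D P la k (ap2et D P la k n b) (D.C (p * g)) -
      qq n • ap2Om D P la k n b p g) ∈ II D hv := by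
    refine Submodule.sum_mem _ fun n _ => ?_
    rw [← smul_sub]
    refine Submodule.smul_mem _ _ ?_
    have h6 := Submodule.add_mem _ ((ap2_adm hI hP hin n hb).Tht_C hI hP hin hp hg hk)
      (ap2_Xf (hv := hv) (k := k) (g := g) hP n b hp (D := D))
    rwa [sub_add_sub_cancel] at h6
  have h6 : Le D P la k (fun g' => D.C (p * g')) (D.C g * D.C b) =
      ∑ n ∈ S1 ∪ S2, qq n • ap2Om D P la k n b p g := by
    rw [← h4, map_sum]
    refine Finset.sum_congr rfl fun n _ => ?_
    rw [map_smul, ap2Om]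
  rw [Finset.sum_sub_distrib, ← h6] at h5
  have h7 := Submodule.add_mem _ h3 h5
  rwa [sub_add_sub_cancel] at h7

include hI hP hin in
/-- The coefficients of degree `m` of `C (p * g) * C b`. -/
private theorem ap2_phi_Om (m : ℤ) {b : M.Group} (hb : b ∈ par M P) {p g : M.Group}
    (hp : p ∈ XR M P) (hg : g ∈ par M P) (hk : la g = k) :
    D.phi m b (D.C (p * g)) - ap2Om D P la k m b p g ∈ II D hv := by
  classical
  rw [mem_II]
  intro z hz
  have h1 := mem_II.1 (E_left hI hP hin hb hp hg hk) z hz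
  rw [map_sub, Finsupp.sub_apply, sub_eq_zero] at h1 ⊢
  set e : M.Group → ℤ := fun c => if (c ∈ par M P ∧ la c = k) ∧ p * c = z then 1 else 0 with he
  have h2 : ∀ c, D.C.repr (Le D P la k (fun c => D.C (p * c)) (D.C c)) z = e c • (1 : LP) := by
    intro c
    by_cases h : c ∈ par M P ∧ la c = k
    · rw [ap2_Le_C _ h.1 h.2, Module.Basis.repr_self, Finsupp.single_apply]
      by_cases h' : p * c = z
      · rw [if_pos h', he]
        simp only
        rw [if_pos ⟨h, h'⟩, one_smul]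
      · rw [if_neg h', he]
        simp only
        rw [if_neg fun h'' => h' h''.2, zero_smul]
    · rw [ap2_Le_C_ne _ h, map_zero, Finsupp.zero_apply, he]
      simp only
      rw [if_neg fun h'' => h h''.1, zero_smul]
  have h3 : D.h (p * g) b z = ∑ c ∈ (D.C.repr (D.C g * D.C b)).support, e c • D.h g b c := by
    rw [KLD.h, h1]
    conv_lhs => rw [D.C_mul_eq g b]
    rw [map_sum, map_sum, Finsupp.finsetSum_apply]
    refine Finset.sum_congr rfl fun c _ => ?_
    rw [map_smul, map_smul, Finsupp.smul_apply, h2, smul_eq_mul, mul_smul_comm, mul_one]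
  rw [KLD.repr_phi_C, h3, ap2Om, ap2_Le_phi, map_sum, Finsupp.finsetSum_apply, cf_sum,
    Finset.sum_smul]
  refine Finset.sum_congr rfl fun c _ => ?_
  rw [map_zsmul, Finsupp.smul_apply, h2, cf_zsmul, smul_smul, mul_comm]

private theorem ap2_Xi_sub {X Y : M.Group → M.Group → H}
    (h : ∀ p ∈ XR M P, ∀ g ∈ par M P, la g = k → X p g - Y p g ∈ II D hv) (x : H) :
    Xi D P la k X x - Xi D P la k Y x ∈ II D hv := by
  have hx : x ∈ Submodule.span LP (Set.range D.C) := by
    rw [D.C.span_eq]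
    exact Submodule.mem_top
  refine Submodule.span_induction (p := fun (x : H) _ =>
    Xi D P la k X x - Xi D P la k Y x ∈ II D hv) ?_ ?_ ?_ ?_ hx
  · rintro _ ⟨w, rfl⟩
    rw [← xr_mul_xp P w]
    by_cases hk : la (xp P w) = k
    · rw [Xi_C D X (xr_mem P w) (xp_mem P w) hk, Xi_C D Y (xr_mem P w) (xp_mem P w) hk]
      exact h _ (xr_mem P w) _ (xp_mem P w) hk
    · rw [Xi_C_ne D X (xr_mem P w) (xp_mem P w) hk, Xi_C_ne D Y (xr_mem P w) (xp_mem P w) hk,
        sub_zero]
      exact Submodule.zero_mem _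
  · rw [map_zero, map_zero, sub_zero]
    exact Submodule.zero_mem _
  · intro a b _ _ ha hb
    rw [map_add, map_add, add_sub_add_comm]
    exact Submodule.add_mem _ ha hb
  · intro a b _ hb
    rw [map_smul, map_smul, ← smul_sub]
    exact Submodule.smul_mem _ _ hb

include hI hP hin in
private theorem ap2_phi_Xi (m : ℤ) {b : M.Group} (hb : b ∈ par M P) {x : H}
    (hx : x ∈ LI D P (Sk M P la k)) :
    D.phi m b x - Xi D P la k (ap2Om D P la k m b) x ∈ II D hv := by
  rw [LI_eq D (clL_Sk D hP k)] at hx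
  refine Submodule.span_induction (p := fun (x : H) _ =>
    D.phi m b x - Xi D P la k (ap2Om D P la k m b) x ∈ II D hv) ?_ ?_ ?_ ?_ hx
  · rintro _ ⟨p, hp, g, hg, rfl⟩
    by_cases hk : la g = k
    · rw [Xi_C D _ hp hg.1 hk]
      exact ap2_phi_Om hI hP hin m hb hp hg.1 hk
    · rw [Xi_C_ne D _ hp hg.1 hk, sub_zero]
      have h1 : k + 1 ≤ la g := lt_of_le_of_ne hg.2 (Ne.symm hk)
      exact phi_II hI m b (ap2_LI_II hI hin (ap2_C_LI hP hp hg.1 h1))
  · rw [map_zero, map_zero, sub_zero]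
    exact Submodule.zero_mem _
  · intro a b _ _ ha hb
    rw [map_add, map_add, add_sub_add_comm]
    exact Submodule.add_mem _ ha hb
  · intro a b _ hb
    rw [map_smul, map_smul, ← smul_sub]
    exact Submodule.smul_mem _ _ hb

include hI hP hin in
/-- The coefficients of degree `m` of the right multiplication by an element of the parabolic
subgroup commute with left multiplication. -/
theorem phi_mul (m : ℤ) {b : M.Group} (hb : b ∈ par M P) {p g : M.Group} (hp : p ∈ XR M P)
    (hg : g ∈ par M P) (hk : la g = k) (t : H) :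
    D.phi m b (t * D.C (p * g)) - t * D.phi m b (D.C (p * g)) ∈ II D hv := by
  have h1 := ap2_phi_Xi hI hP hin m hb
    (LI_mul D (clL_Sk D hP k) t (ap2_C_LI (D := D) hP hp hg hk.ge))
  have h2 := (ap2_adm hI hP hin m hb).mulX hI hP hin hp hg hk t
  have h3 := ap2_Xi_sub (D := D) (hv := hv) (P := P) (la := la) (k := k)
    (fun p hp g _ _ => ap2_Xf (D := D) (hv := hv) (k := k) (g := g) hP m b hp) (t * D.C (p * g))
  have h4 := hI.II_mulL t (ap2_Xf (D := D) (hv := hv) (k := k) (g := g) hP m b hp)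
  have h5 := hI.II_mulL t (ap2_phi_Om hI hP hin m hb hp hg hk)
  rw [mul_sub] at h4 h5
  have h6 := Submodule.sub_mem _ (Submodule.sub_mem _ (Submodule.sub_mem _ h1 h3) h2)
    (Submodule.sub_mem _ h5 h4)
  convert h6 using 1
  abel

end ap2

end Pool.Agent.Helper35.AM
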