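import Pool.Agent.Helper35.AM.Ap2

/-!
# Left multiplication by elements of the parabolic subgroups
-/

/- PROOF HINTS (conventions: see Df.lean)
Ap3. fl of E_left / phi_mul (psi_fl, II_fl, fl_mul, fl_C; (g r)^-1 = r^-1 g^-1, r^-1 in XR P).
-/

namespace Pool.Agent.Helper35.AM

open Pool.Agent.Helper35.KL

section ap3

variable {B : Type} {M : CoxeterMatrix B} {L : M.Group → ℤ} {H : Type} [Ring H] [Algebra LP H]
variable {D : KLD M L H} {hv : M.Group → Prop} {P : Set B} {la : M.Group → ℕ} {k : ℕ}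
variable (hI : Idl D hv) (hP : Loc D P la) (hin : ∀ c ∈ par M P, k < la c → hv c)

variable (hinv : ∀ w, hv w → hv w⁻¹)

theorem ap3_fl_Le (hlainv : ∀ z ∈ par M P, la z⁻¹ = la z) (r : M.Group) (x : H) :
    D.fl (Le D P la k (fun g' => D.C (r⁻¹ * g')) x) =
      Le D P la k (fun g' => D.C (g' * r)) (D.fl x) := by
  classical
  rw [← D.C.linearCombination_repr x, Finsupp.linearCombination_apply, Finsupp.sum, map_sum,
    map_sum, map_sum, map_sum]
  refine Finset.sum_congr rfl fun c _ => ?_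
  rw [map_smul, map_smul, map_smul, map_smul, D.fl_C, Le, Le, Module.Basis.constr_basis,
    Module.Basis.constr_basis]
  congr 1
  by_cases h : c ∈ par M P ∧ la c = k
  · have h' : c⁻¹ ∈ par M P ∧ la c⁻¹ = k := ⟨(par M P).inv_mem h.1, by rw [hlainv c h.1, h.2]⟩
    rw [if_pos h, if_pos h', D.fl_C, mul_inv_rev, inv_inv]
  · have h' : ¬ (c⁻¹ ∈ par M P ∧ la c⁻¹ = k) := by
      rintro ⟨h1, h2⟩
      have h3 : c ∈ par M P := by
        rw [← inv_inv c]
        exact (par M P).inv_mem h1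
      exact h ⟨h3, by rw [← hlainv c h3, h2]⟩
    rw [if_neg h, if_neg h', map_zero]

include hI hP hin hinv in
/-- Left multiplication by an element of the parabolic subgroup. -/
theorem E_right {b : M.Group} (hb : b ∈ par M P) {r g : M.Group} (hr : r ∈ XL M P)
    (hg : g ∈ par M P) (hk : la g = k) :
    D.C b * D.C (g * r) - Le D P la k (fun g' => D.C (g' * r)) (D.C b * D.C g) ∈ II D hv := by
  have h1 := E_left hI hP hin ((par M P).inv_mem hb) (inv_mem_XR.2 hr) ((par M P).inv_mem hg)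
    (by rw [hP.lainv g hg, hk])
  have h2 := II_fl hinv h1
  rw [map_sub, D.fl_mul, ap3_fl_Le hP.lainv, D.fl_mul, D.fl_C, D.fl_C, D.fl_C, mul_inv_rev,
    inv_inv, inv_inv, inv_inv] at h2
  exact h2

include hI hP hin hinv in
theorem psi_mul (m : ℤ) {b : M.Group} (hb : b ∈ par M P) {r g : M.Group} (hr : r ∈ XL M P)
    (hg : g ∈ par M P) (hk : la g = k) (t : H) :
    psi D m b (D.C (g * r) * t) - psi D m b (D.C (g * r)) * t ∈ II D hv := by
  have h1 := phi_mul hI hP hin m ((par M P).inv_mem hb) (inv_mem_XR.2 hr) ((par M P).inv_mem hg)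
    (by rw [hP.lainv g hg, hk]) (D.fl t)
  have h2 := II_fl hinv h1
  rw [map_sub, D.fl_mul, psi_fl, psi_fl, D.fl_mul, D.fl_fl, D.fl_C, mul_inv_rev, inv_inv,
    inv_inv, inv_inv] at h2
  exact h2

end ap3

end Pool.Agent.Helper35.AM
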