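import Pool.Agent.Helper35.AM.Cx
import Pool.Agent.Helper35.KL.Pr

/-!
# The trace, and the projection to the Hecke algebra of a parabolic subgroup
-/

/- PROOF HINTS (conventions: see Df.lean)
Tr. repr_TT_one: induction on len x: x = x1 s reduced; T_x T_y = T_{x1}(T_s T_y), T_s T_y = T_{sy} or T_{sy} + xi T_y; xy=1 with x = x1 s > x1 forces y = s x1^-1, sy<y.
 repr_T_eq: both sides linear in x; x = T_w. mem_HQ_C: C_w (w in W_Q) is in HQ: KL/Sub.lean has this for IsPar; here: bar preserves HQ, exists bar-invariant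
 k in T_w + sum_{y in W_Q, len y < len w} q^-1Z[q^-1]T_y (exists_C in KL/SubKLD.lean, or klem in KL/KLem.lean with J = W_Q), bar_unique' gives k = C_w.
-/

namespace Pool.Agent.Helper35.AM

open Pool.Agent.Helper35.KL

section tr

variable {B : Type} {M : CoxeterMatrix B} {L : M.Group → ℤ} {H : Type} [Ring H] [Algebra LP H]
variable (D : KLD M L H) {P Q : Set B}

open scoped Classical in
private theorem tr_aux (w : M.Group) : ∀ y : M.Group,
    D.T.repr (D.T w⁻¹ * D.T y) 1 = if w⁻¹ * y = 1 then 1 else 0 := by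
  induction w using len_induction with
  | h1 =>
    intro y
    rw [inv_one, KLD.T_one, one_mul, one_mul, Module.Basis.repr_self, Finsupp.single_apply]
  | hs b w hl ih =>
    intro y
    have h4 : (sm M b * w)⁻¹ = w⁻¹ * sm M b := by rw [mul_inv_rev, sm_inv]
    have h5 : len M (w⁻¹ * sm M b) = len M w⁻¹ + 1 := by rw [← h4, len_inv, len_inv, hl]
    rw [h4, ← D.T_mul_sm h5, mul_assoc, mul_assoc]
    rcases len_sm_mul b y with h | h
    · rw [D.T_sm_mul h, ih]
    · rw [D.T_sm_mul' h, mul_add, mul_smul_comm, map_add, map_smul, Finsupp.add_apply,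
        Finsupp.smul_apply, ih, ih y]
      have h6 : w⁻¹ * y ≠ 1 := by
        intro h7
        have h8 : y = w := by
          have := mul_eq_one_iff_eq_inv.1 h7
          exact (inv_inj.1 this).symm
        subst h8
        omega
      rw [if_neg h6, smul_zero, add_zero]

open scoped Classical in
theorem repr_TT_one (x y : M.Group) : D.T.repr (D.T x * D.T y) 1 = if x * y = 1 then 1 else 0 := by
  have h := tr_aux D x⁻¹ y
  rwa [inv_inv] at h

theorem repr_T_eq (x : H) (v : M.Group) : D.T.repr x v = D.T.repr (x * D.T v⁻¹) 1 := by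
  classical
  have h3 : x ∈ Submodule.span LP (Set.range D.T) := D.T.mem_span x
  refine Submodule.span_induction (p := fun x _ => D.T.repr x v = D.T.repr (x * D.T v⁻¹) 1)
    ?_ ?_ ?_ ?_ h3
  · rintro _ ⟨y, rfl⟩
    rw [repr_TT_one, Module.Basis.repr_self, Finsupp.single_apply]
    by_cases h : y = v
    · rw [if_pos h, if_pos (by rw [h, mul_inv_cancel])]
    · rw [if_neg h, if_neg (fun h' => h (mul_inv_eq_one.1 h'))]
  · rw [zero_mul, map_zero, Finsupp.zero_apply, Finsupp.zero_apply]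
  · intro a b _ _ ha hb
    rw [add_mul, map_add, map_add, Finsupp.add_apply, Finsupp.add_apply, ha, hb]
  · intro a b _ hb
    rw [smul_mul_assoc, map_smul, map_smul, Finsupp.smul_apply, Finsupp.smul_apply, hb]

theorem mem_HQ {x : H} : x ∈ HQ D Q ↔ ∀ w, w ∉ par M Q → D.T.repr x w = 0 := by
  rw [HQ, Module.Basis.mem_span_image]
  constructor
  · intro h1 w hw
    by_contra hne
    exact hw (h1 (Finsupp.mem_support_iff.2 hne))
  · intro h1 w hw
    by_contra hne
    exact (Finsupp.mem_support_iff.1 hw) (h1 w hne)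

theorem T_mem_HQ {w : M.Group} (h : w ∈ par M Q) : D.T w ∈ HQ D Q :=
  Submodule.subset_span ⟨w, h, rfl⟩

private theorem tr_T_sm_mul {b : B} (hb : b ∈ Q) {y : H} (hy : y ∈ HQ D Q) :
    D.T (sm M b) * y ∈ HQ D Q := by
  refine Submodule.span_induction (p := fun y _ => D.T (sm M b) * y ∈ HQ D Q) ?_ ?_ ?_ ?_ hy
  · rintro _ ⟨v, hv, rfl⟩
    have hv' : sm M b * v ∈ par M Q := Subgroup.mul_mem _ (sm_mem_par hb) hv
    rcases len_sm_mul b v with h | h
    · rw [D.T_sm_mul h]
      exact T_mem_HQ D hv'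
    · rw [D.T_sm_mul' h]
      exact Submodule.add_mem _ (T_mem_HQ D hv') (Submodule.smul_mem _ _ (T_mem_HQ D hv))
  · rw [mul_zero]
    exact Submodule.zero_mem _
  · intro a b _ _ ha hb
    rw [mul_add]
    exact Submodule.add_mem _ ha hb
  · intro a b _ hb
    rw [mul_smul_comm]
    exact Submodule.smul_mem _ _ hb

/-- Induction on the length for the elements of a parabolic subgroup. -/
private theorem tr_par_induction {p : M.Group → Prop} (h1 : p 1)
    (hs : ∀ b ∈ Q, ∀ w ∈ par M Q, len M (sm M b * w) = len M w + 1 → p w → p (sm M b * w)) :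
    ∀ w ∈ par M Q, p w := by
  suffices h : ∀ n, ∀ w ∈ par M Q, len M w = n → p w from fun w hw => h _ w hw rfl
  intro n
  induction n with
  | zero =>
    intro w _ hl
    rw [len_eq_zero] at hl
    rw [hl]
    exact h1
  | succ n ih =>
    intro w hw hl
    have hne : w ≠ 1 := by
      rintro rfl
      rw [len_one] at hl
      omega
    obtain ⟨b, hb, hbw⟩ := exists_descL hw hne
    have h4 : sm M b * w ∈ par M Q := Subgroup.mul_mem _ (sm_mem_par hb) hw
    have h5 := hs b hb (sm M b * w) h4 (by rw [sm_cancel]; omega) (ih _ h4 (by omega))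
    rwa [sm_cancel] at h5

theorem mul_mem_HQ {x y : H} (hx : x ∈ HQ D Q) (hy : y ∈ HQ D Q) : x * y ∈ HQ D Q := by
  have h1 : ∀ w ∈ par M Q, ∀ z ∈ HQ D Q, D.T w * z ∈ HQ D Q := by
    refine tr_par_induction (p := fun w => ∀ z ∈ HQ D Q, D.T w * z ∈ HQ D Q) ?_ ?_
    · intro z hz
      rwa [KLD.T_one, one_mul]
    · intro b hb w _ hl ih z hz
      rw [← D.T_sm_mul hl, mul_assoc]
      exact tr_T_sm_mul D hb (ih z hz)
  refine Submodule.span_induction (p := fun x _ => x * y ∈ HQ D Q) ?_ ?_ ?_ ?_ hx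
  · rintro _ ⟨w, hw, rfl⟩
    exact h1 w hw y hy
  · rw [zero_mul]
    exact Submodule.zero_mem _
  · intro a b _ _ ha hb
    rw [add_mul]
    exact Submodule.add_mem _ ha hb
  · intro a b _ hb
    rw [smul_mul_assoc]
    exact Submodule.smul_mem _ _ hb

theorem HQ_mono (h : Q ⊆ P) : HQ D Q ≤ HQ D P :=
  Submodule.span_mono (Set.image_mono fun _ hw => par_mono h hw)

private theorem tr_bar_T {w : M.Group} (hw : w ∈ par M Q) : D.bar (D.T w) ∈ HQ D Q := by
  have h1 : ∀ w ∈ par M Q, D.bar (D.T w) ∈ HQ D Q := by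
    refine tr_par_induction (p := fun w => D.bar (D.T w) ∈ HQ D Q) ?_ ?_
    · rw [KLD.T_one, map_one, ← KLD.T_one D]
      exact T_mem_HQ D (Subgroup.one_mem _)
    · intro b hb w _ hl ih
      rw [← D.T_sm_mul hl, map_mul, D.bar_T_sm, sub_mul, smul_mul_assoc, one_mul]
      exact Submodule.sub_mem _ (tr_T_sm_mul D hb ih) (Submodule.smul_mem _ _ ih)
  exact h1 w hw

private theorem tr_low {x : H} {n : ℕ} (h1 : x ∈ HQ D Q) (h2 : x ∈ Vl D.T (len M) n) :
    x ∈ Submodule.span LP (D.T '' {y | y ∈ (par M Q : Set M.Group) ∧ len M y < n}) := by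
  rw [Module.Basis.mem_span_image]
  intro y hy
  have hy' := Finsupp.mem_support_iff.1 hy
  refine ⟨?_, (mem_Vl_iff D.T (len M) n x).1 h2 y hy'⟩
  by_contra hne
  exact hy' ((mem_HQ D).1 h1 y hne)

private theorem tr_C_sub {w : M.Group} (h : w ∈ par M Q) :
    D.C w - D.T w ∈ Submodule.span LP
      (D.T '' {y | y ∈ (par M Q : Set M.Group) ∧ len M y < len M w}) := by
  obtain ⟨k, hk1, hk2, hk3⟩ := klem D.T D.bar.toAddMonoidHom (par M Q : Set M.Group) (len M) ⊥
    D.bar_smul D.bar_bar (by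
      intro f hf
      rw [Submodule.mem_bot] at hf ⊢
      rw [hf, map_zero]) (by
      intro f hf w _
      rw [Submodule.mem_bot] at hf
      rw [hf, map_zero, Finsupp.zero_apply]) (by
      intro w hw
      exact Submodule.mem_sup_left
        (tr_low D (Submodule.sub_mem _ (tr_bar_T D hw) (T_mem_HQ D hw)) (D.bar_T_sub w))) w h
  rw [Submodule.mem_bot] at hk3
  have h1 : D.C w = k := by
    refine D.bar_unique' (D.bar_C w) (sub_eq_zero.1 hk3) ?_
    have h2 : D.C w - k = (D.C w - D.T w) - (k - D.T w) := by abel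
    rw [h2]
    exact AddSubgroup.sub_mem _ (D.C_sub_T_neg w) hk2
  rw [h1]
  exact hk1

private theorem tr_span_le (n : ℕ) :
    Submodule.span LP (D.T '' {y | y ∈ (par M Q : Set M.Group) ∧ len M y < n}) ≤ HQ D Q :=
  Submodule.span_mono (Set.image_mono fun _ hy => hy.1)

theorem C_mem_HQ {w : M.Group} (h : w ∈ par M Q) : D.C w ∈ HQ D Q := by
  have h1 : D.C w = D.T w + (D.C w - D.T w) := by abel
  rw [h1]
  exact Submodule.add_mem _ (T_mem_HQ D h) (tr_span_le D _ (tr_C_sub D h))

private theorem tr_T_mem (n : ℕ) : ∀ w ∈ par M Q, len M w < n →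
    D.T w ∈ Submodule.span LP (D.C '' {w | w ∈ par M Q}) := by
  induction n with
  | zero => intro w _ h; omega
  | succ n ih =>
    intro w hw hl
    have h1 : D.T w = D.C w - (D.C w - D.T w) := by abel
    rw [h1]
    refine Submodule.sub_mem _ (Submodule.subset_span ⟨w, hw, rfl⟩) ?_
    have h2 : Submodule.span LP
        (D.T '' {y | y ∈ (par M Q : Set M.Group) ∧ len M y < len M w}) ≤
        Submodule.span LP (D.C '' {w | w ∈ par M Q}) := by
      rw [Submodule.span_le]
      rintro _ ⟨y, ⟨hy1, hy2⟩, rfl⟩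
      exact ih y hy1 (by omega)
    exact h2 (tr_C_sub D hw)

private theorem tr_HQ_eq : HQ D Q = Submodule.span LP (D.C '' {w | w ∈ par M Q}) := by
  refine le_antisymm ?_ ?_
  · rw [HQ, Submodule.span_le]
    rintro _ ⟨w, hw, rfl⟩
    exact tr_T_mem D _ w hw (Nat.lt_succ_self _)
  · rw [Submodule.span_le]
    rintro _ ⟨w, hw, rfl⟩
    exact C_mem_HQ D hw

theorem mem_HQ_C {x : H} : x ∈ HQ D Q ↔ ∀ w, w ∉ par M Q → D.C.repr x w = 0 := by
  rw [tr_HQ_eq, Module.Basis.mem_span_image]
  constructor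
  · intro h1 w hw
    by_contra hne
    exact hw (h1 (Finsupp.mem_support_iff.2 hne))
  · intro h1 w hw
    by_contra hne
    exact (Finsupp.mem_support_iff.1 hw) (h1 w hne)

/-- Induction on the Kazhdan-Lusztig elements. -/
theorem HQ_induction {p : H → Prop} (hC : ∀ w ∈ par M Q, p (D.C w)) (h0 : p 0)
    (hadd : ∀ x y, p x → p y → p (x + y)) (hs : ∀ (a : LP) x, p x → p (a • x)) {x : H}
    (hx : x ∈ HQ D Q) : p x := by
  rw [tr_HQ_eq] at hx
  refine Submodule.span_induction (p := fun x _ => p x) ?_ ?_ ?_ ?_ hx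
  · rintro _ ⟨w, hw, rfl⟩
    exact hC w hw
  · exact h0
  · intro a b _ _ ha hb
    exact hadd a b ha hb
  · intro a b _ hb
    exact hs a b hb

theorem h_mem {x y z : M.Group} (hx : x ∈ par M Q) (hy : y ∈ par M Q) (h : D.h x y z ≠ 0) :
    z ∈ par M Q := by
  by_contra hne
  exact h ((mem_HQ_C D).1 (mul_mem_HQ D (C_mem_HQ D hx) (C_mem_HQ D hy)) z hne)

end tr

end Pool.Agent.Helper35.AM
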