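import Pool.Agent.Helper35.AM.Rs
import Pool.Agent.Helper35.AM.Tr

/-!
# The local properties of a parabolic subgroup with P1-P15
-/

/- PROOF HINTS (conventions: see Df.lean)
Lc. loc_of_core: KL/Pr.lean (h_par, p_par, aPar_par, a_univ: (Dp D).a x = D.aPar P (f x) for f = inc; D.aPar (j '' univ)), the Core facts of KL/Formal.lean (P7', P8', bul_unit ... for unitR: g y d = .. P7 + P2), P15: Core.lus gives P15, KL/Gr.lean P15n for (Dp D), then translate phi. aPar_sub: Core.P12' for (Dp D) and aPar_par.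
-/

namespace Pool.Agent.Helper35.AM

open Pool.Agent.Helper35.KL

section lc

variable {B : Type} {M : CoxeterMatrix B} {L : M.Group → ℤ} {H : Type} [Ring H] [Algebra LP H]
variable (D : KLD M L H) {P Q : Set B}

private theorem Lc_a (x : (res M P).Group) :
    D.aPar P (inc M P x) = (Dp (isPar_inc M P) D).a x := by
  rw [← a_univ, aPar_par, Subtype.coe_image_univ]

private theorem Lc_nu (x : (res M P).Group) :
    nu D (D.aPar P) (inc M P x) = (Dp (isPar_inc M P) D).nn x := by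
  rw [nu, KLD.nn, Lc_a, p_par, map_one]

private theorem Lc_gc (x y z : (res M P).Group) :
    gc D (D.aPar P) (inc M P x) (inc M P y) (inc M P z) =
      (Dp (isPar_inc M P) D).g x y z⁻¹ := by
  rw [gc, KLD.g, Lc_a, h_par, inv_inv]

private theorem Lc_phi (n : ℤ) (b : (res M P).Group) (t : pA (isPar_inc M P) D) :
    D.phi n (inc M P b) (t : H) = ((Dp (isPar_inc M P) D).phi n b t : H) := by
  have h3 : t ∈ Submodule.span LP (Set.range (Dp (isPar_inc M P) D).C) :=
    (Dp (isPar_inc M P) D).C.mem_span t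
  refine Submodule.span_induction (p := fun (t : pA (isPar_inc M P) D) _ =>
    D.phi n (inc M P b) (t : H) = ((Dp (isPar_inc M P) D).phi n b t : H)) ?_ ?_ ?_ ?_ h3
  · rintro _ ⟨g, rfl⟩
    rw [coe_Cp]
    apply D.C.repr.injective
    ext1 w
    by_cases hw : ∃ z, w = inc M P z
    · obtain ⟨z, rfl⟩ := hw
      rw [KLD.repr_phi_C, repr_par, KLD.repr_phi_C, h_par]
    · have h1 : D.h (inc M P g) (inc M P b) w = 0 := by
        by_contra hne
        exact hw (h_par_ne (isPar_inc M P) D g b hne)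
      rw [KLD.repr_phi_C, h1, cf_zero, zero_smul,
        repr_par_ne (isPar_inc M P) D _ (fun z hz => hw ⟨z, hz⟩)]
  · simp only [ZeroMemClass.coe_zero, map_zero]
  · intro x y _ _ hx hy
    rw [Subalgebra.coe_add, map_add, map_add, Subalgebra.coe_add, hx, hy]
  · intro a x _ hx
    rw [Subalgebra.coe_smul, map_smul, map_smul, Subalgebra.coe_smul, hx]

/-- The local properties, from the core properties of the Hecke algebra of a parabolic
subgroup. -/
theorem loc_of_core (hL : IsWeight M L) (hc : (Dp (isPar_inc M P) D).Core) :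
    Loc D P (D.aPar P) where
  bdd := by
    obtain ⟨N, hN⟩ := hc.bdd
    refine ⟨N, fun z hz => ?_⟩
    obtain ⟨z, rfl⟩ := exists_inc hz
    rw [Lc_a, KLD.a]
    refine csSup_le' ?_
    rintro n ⟨x, y, h⟩
    by_contra hlt
    push Not at hlt
    exact h (hN x y z n (by exact_mod_cast hlt))
  lainv z hz := by
    obtain ⟨z, rfl⟩ := exists_inc hz
    rw [← map_inv, Lc_a, Lc_a, KLD.a_inv]
  dle x hx y hy z hz := by
    obtain ⟨x, rfl⟩ := exists_inc hx
    obtain ⟨y, rfl⟩ := exists_inc hy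
    obtain ⟨z, rfl⟩ := exists_inc hz
    rw [Lc_a, ← h_par]
    exact KLD.h_dle hc.bdd x y z
  p4 x hx y hy z h := by
    obtain ⟨x, rfl⟩ := exists_inc hx
    obtain ⟨y, rfl⟩ := exists_inc hy
    obtain ⟨z, rfl⟩ := h_par_ne (isPar_inc M P) D x y h
    rw [← h_par (isPar_inc M P)] at h
    have hL' := isWeight_par (isPar_inc M P) hL
    rw [Lc_a, Lc_a, Lc_a]
    exact ⟨hc.a_leR (KLD.leR_of_h _ hL' h), hc.a_leL (KLD.leL_of_h _ hL' h)⟩
  p1 z hz := by
    obtain ⟨z, rfl⟩ := exists_inc hz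
    have h1 := hc.P1' z
    rwa [p_par, map_one, ← Lc_a] at h1
  p2 x hx y hy z hz h1 h2 := by
    obtain ⟨x, rfl⟩ := exists_inc hx
    obtain ⟨y, rfl⟩ := exists_inc hy
    obtain ⟨z, rfl⟩ := exists_inc hz
    rw [Lc_nu] at h1
    rw [Lc_gc, hc.P6' h1] at h2
    rw [hc.P2' h1 h2, map_inv]
  p3 y hy := by
    obtain ⟨y, rfl⟩ := exists_inc hy
    obtain ⟨z, h1, h2, h3, h4⟩ := hc.P3' y
    refine ⟨inc M P z, inc_mem M P z, ?_, ?_, ?_, ?_⟩
    · rwa [Lc_nu]
    · rw [← map_inv, Lc_gc, Lc_nu, hc.P6' h1, h2]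
    · rwa [Lc_nu]
    · intro z' hz' h5 h6
      obtain ⟨z', rfl⟩ := exists_inc hz'
      rw [Lc_nu] at h5
      rw [← map_inv, Lc_gc, hc.P6' h5] at h6
      rw [h4 z' h5 h6]
  inv z hz h := by
    obtain ⟨z, rfl⟩ := exists_inc hz
    rw [Lc_nu] at h
    rw [← map_inv, hc.P6' h]
  q x hx y hy z hz h := by
    obtain ⟨x, rfl⟩ := exists_inc hx
    obtain ⟨y, rfl⟩ := exists_inc hy
    obtain ⟨z, rfl⟩ := exists_inc hz
    rw [Lc_gc] at h
    have h1 := hc.Q' h
    rw [KLD.a_inv] at h1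
    rwa [Lc_a, Lc_a, Lc_a]
  unitR g hg := by
    have hL' := isWeight_par (isPar_inc M P) hL
    obtain ⟨g, rfl⟩ := exists_inc hg
    obtain ⟨d, h1, h2, h3, h4⟩ := hc.P3' g
    refine ⟨inc M P d, inc_mem M P d, ?_, ?_, ?_, ?_, ?_⟩
    · rwa [Lc_nu]
    · rwa [Lc_nu]
    · rw [← map_inv, Lc_gc, Lc_nu, hc.P6' h1, h2]
    · rw [Lc_gc, Lc_nu, hc.P7' hL', hc.P7' hL', h2]
    · intro c hcP hne
      obtain ⟨c, rfl⟩ := exists_inc hcP
      rw [Lc_gc, ← hc.P7' hL' c⁻¹ g d]
      by_contra h5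
      have h6 := hc.P2' h1 h5
      exact hne (by rw [inv_injective h6])
  p12 I g hg hgI := by
    have h1 := mem_par_inter hg hgI
    have h2 : (Subtype.val : P → B) '' ((Subtype.val : P → B) ⁻¹' I) = P ∩ I := by
      rw [Subtype.image_preimage_coe]
    rw [← h2, ← par_image (isPar_inc M P)] at h1
    obtain ⟨g, hg1, rfl⟩ := h1
    have h3 := hc.P12' _ g hg1
    obtain ⟨N, hN⟩ := hc.bdd
    have h4 : ({n : ℕ | ∃ x ∈ par (res M P) ((Subtype.val : P → B) ⁻¹' I),
        ∃ y ∈ par (res M P) ((Subtype.val : P → B) ⁻¹' I),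
          ((Dp (isPar_inc M P) D).h x y g).coeff n ≠ 0}).Nonempty := by
      refine ⟨0, 1, Subgroup.one_mem _, g, hg1, ?_⟩
      rw [KLD.h_one, if_pos rfl]
      simp
    have h5 : BddAbove ({n : ℕ | ∃ x ∈ par (res M P) ((Subtype.val : P → B) ⁻¹' I),
        ∃ y ∈ par (res M P) ((Subtype.val : P → B) ⁻¹' I),
          ((Dp (isPar_inc M P) D).h x y g).coeff n ≠ 0}) := by
      refine ⟨N, ?_⟩
      rintro n ⟨x, _, y, _, h⟩
      by_contra hlt
      push Not at hlt
      exact h (hN x y g n (by exact_mod_cast hlt))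
    obtain ⟨x, hx, y, hy, h6⟩ := Nat.sSup_mem h4 h5
    have h7 : ∀ x ∈ par (res M P) ((Subtype.val : P → B) ⁻¹' I),
        inc M P x ∈ par M I := by
      intro x hx
      have h8 : inc M P x ∈ (par (res M P) ((Subtype.val : P → B) ⁻¹' I)).map (inc M P) :=
        ⟨x, hx, rfl⟩
      rw [par_image (isPar_inc M P), h2] at h8
      exact Subgroup.closure_mono (Set.image_mono Set.inter_subset_right) h8
    refine ⟨inc M P x, inc_mem M P x, inc M P y, inc_mem M P y, h7 x hx, h7 y hy, ?_⟩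
    have h9 : gc D (D.aPar P) (inc M P x) (inc M P y) (inc M P g) =
        ((Dp (isPar_inc M P) D).h x y g).coeff ((Dp (isPar_inc M P) D).a g) := by
      rw [gc, Lc_a, h_par]
    rw [h9, ← h3]
    exact h6
  p15 n w hw w' hw' x hx y hy h := by
    obtain ⟨w, rfl⟩ := exists_inc hw
    obtain ⟨w', rfl⟩ := exists_inc hw'
    obtain ⟨x, rfl⟩ := exists_inc hx
    obtain ⟨y, rfl⟩ := exists_inc hy
    have hL' := isWeight_par (isPar_inc M P) hL
    rw [Lc_a, Lc_a] at h
    have h1 := KLD.P15n (hc.lus hL') n w w' x y h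
    rw [← repr_par, ← repr_par, Subalgebra.coe_mul, ← Lc_phi, ← Lc_phi, Subalgebra.coe_mul,
      coe_Cp, coe_Cp] at h1
    exact h1

/-- The values for a smaller parabolic subgroup. -/
theorem aPar_sub (hQP : Q ⊆ P) (hc : (Dp (isPar_inc M P) D).Core) {w : M.Group}
    (hw : w ∈ par M Q) : D.aPar Q w = D.aPar P w := by
  have h2 : (Subtype.val : P → B) '' ((Subtype.val : P → B) ⁻¹' Q) = Q := by
    rw [Subtype.image_preimage_coe, Set.inter_eq_right]
    exact hQP
  rw [← h2, ← par_image (isPar_inc M P)] at hw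
  obtain ⟨w, hw1, rfl⟩ := hw
  have h3 := hc.P12' _ w hw1
  rw [aPar_par, h2, ← Lc_a] at h3
  exact h3

/-- The properties only depend on the values on the subgroup. -/
theorem loc_congr {la la' : M.Group → ℕ} (h : ∀ w ∈ par M P, la w = la' w) (hP : Loc D P la) :
    Loc D P la' := by
  have hnu : ∀ z ∈ par M P, nu D la' z = nu D la z := by
    intro z hz
    rw [nu, nu, h z hz]
  have hgc : ∀ x y, ∀ z ∈ par M P, gc D la' x y z = gc D la x y z := by
    intro x y z hz
    rw [gc, gc, h z hz]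
  constructor
  · obtain ⟨N, hN⟩ := hP.bdd
    exact ⟨N, fun z hz => by rw [← h z hz]; exact hN z hz⟩
  · intro z hz
    rw [← h z hz, ← h z⁻¹ (Subgroup.inv_mem _ hz)]
    exact hP.lainv z hz
  · intro x hx y hy z hz
    rw [← h z hz]
    exact hP.dle x hx y hy z hz
  · intro x hx y hy z hz
    rw [← h x hx, ← h y hy, ← h z (h_mem D hx hy hz)]
    exact hP.p4 x hx y hy z hz
  · intro z hz
    rw [← h z hz]
    exact hP.p1 z hz
  · intro x hx y hy z hz h1 h2
    rw [hnu z hz] at h1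
    rw [hgc x y z hz] at h2
    exact hP.p2 x hx y hy z hz h1 h2
  · intro y hy
    obtain ⟨z, hz, h1, h2, h3, h4⟩ := hP.p3 y hy
    refine ⟨z, hz, ?_, ?_, ?_, ?_⟩
    · rwa [hnu z hz]
    · rwa [hnu z hz, hgc _ _ z hz]
    · rwa [hnu z hz]
    · intro z' hz' h5 h6
      rw [hnu z' hz'] at h5
      rw [hgc _ _ z' hz'] at h6
      exact h4 z' hz' h5 h6
  · intro z hz h1
    rw [hnu z hz] at h1
    exact hP.inv z hz h1
  · intro x hx y hy z hz h1
    rw [hgc x y z hz] at h1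
    rw [← h x hx, ← h y hy, ← h z hz]
    exact hP.q x hx y hy z hz h1
  · intro g hg
    obtain ⟨d, hd, h1, h2, h3, h4, h5⟩ := hP.unitR g hg
    refine ⟨d, hd, ?_, ?_, ?_, ?_, ?_⟩
    · rwa [hnu d hd]
    · rwa [hnu d hd]
    · rwa [hnu d hd, hgc _ _ d hd]
    · rwa [hnu d hd, hgc _ _ g hg]
    · intro c hc hne
      rw [hgc _ _ c hc]
      exact h5 c hc hne
  · intro I g hg hgI
    obtain ⟨x, hx, y, hy, h1, h2, h3⟩ := hP.p12 I g hg hgI
    exact ⟨x, hx, y, hy, h1, h2, by rwa [hgc _ _ g hg]⟩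
  · intro n w hw w' hw' x hx y hy h1
    rw [← h x hx, ← h y hy] at h1
    exact hP.p15 n w hw w' hw' x hx y hy h1

end lc

end Pool.Agent.Helper35.AM
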