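import Pool.Agent.Helper35.AM.Ll2

/-!
# Left multiplication commutes with the asymptotic products
-/

/- PROOF HINTS (conventions: see Df.lean)
Ll3. bt_mul: Xf for eta_r = C(. r) is up(tt p g r) (ld_TC), Xf for eta'_r = bt y (C(. r)) is bt y (up(tt p g r)) (ld_TB). mulX for both (admR, admB): t up(tt) = Xi X (t C_{pg}), t bt(up tt) = Xi (bt o X)(t C_{pg}) = bt(Xi X (t C_{pg})) = bt(t up(tt)) mod II (bt_II). So bt_mul holds for up(s), s in TG, in particular for C_x = up(sg x) (sg_mem_TG).
 LL_am: as LL_pos in KL/Main.lean (bet -> bt, al -> D.a), with Core.Lk_apply etc.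
-/

namespace Pool.Agent.Helper35.AM

open Pool.Agent.Helper35.KL

section ll3

variable {B : Type} {M : CoxeterMatrix B} {L : M.Group → ℤ} {H : Type} [Ring H] [Algebra LP H]
variable {D : KLD M L H} {P : Bool → Set B} {la : M.Group → ℕ} (hD : Dat D P la)

variable {k : ℕ}

include hD in
private theorem ll3_Xi {i : Bool} {r : M.Group} (hr : r ∈ XL M (P i)) (y : M.Group) (x : H) :
    Xi D (P i) la k (Xf D (Occ M P la (k + 1)) fun g => bt D P la k y (D.C (g * r))) x =
      bt D P la k y
        (Xi D (P i) la k (Xf D (Occ M P la (k + 1)) fun g => D.C (g * r)) x) := by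
  have hI := idl hD (k + 1)
  have h : Xi D (P i) la k (Xf D (Occ M P la (k + 1)) fun g => bt D P la k y (D.C (g * r))) =
      (bt D P la k y).comp
        (Xi D (P i) la k (Xf D (Occ M P la (k + 1)) fun g => D.C (g * r))) := by
    refine D.C.ext fun w => ?_
    rw [LinearMap.comp_apply, Xi, Xi, Module.Basis.constr_basis, Module.Basis.constr_basis]
    split_ifs with h
    · rw [Xf, Xf, ld_TB hD (xr_mem (P i) w) (xp_mem (P i) w) hr h,
        ld_TC hD hI (xr_mem (P i) w) (xp_mem (P i) w) hr h]
    · rw [map_zero]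
  exact LinearMap.congr_fun h x

include hD in
private theorem ll3_gen {i : Bool} {p g r : M.Group} (hp : p ∈ XR M (P i))
    (hg : g ∈ par M (P i)) (hr : r ∈ XL M (P i)) (hk : la g = k) (y : M.Group) (t : H) :
    t * bt D P la k y (D.up (tt D P la k p g r)) -
      bt D P la k y (t * D.up (tt D P la k p g r)) ∈ II D (Occ M P la (k + 1)) := by
  have hI := idl hD (k + 1)
  have h1 := (admR hD hI hr).mulX hI (hD.loc i) (fun c hc h => Occ_of_mem hc h) hp hg hk t
  have h2 := (admB hD hr y).mulX hI (hD.loc i) (fun c hc h => Occ_of_mem hc h) hp hg hk t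
  have e1 : Xf D (Occ M P la (k + 1)) (fun g => D.C (g * r)) p g = D.up (tt D P la k p g r) := by
    rw [Xf, ld_TC hD hI hp hg hr hk]
  have e2 : Xf D (Occ M P la (k + 1)) (fun g => bt D P la k y (D.C (g * r))) p g =
      bt D P la k y (D.up (tt D P la k p g r)) := by
    rw [Xf, ld_TB hD hp hg hr hk]
  rw [e1] at h1
  rw [e2, ll3_Xi hD hr] at h2
  have h3 := bt_II hD y h1
  rw [map_sub, sub_eq_zero] at h3
  rwa [h3]

include hD in
private theorem ll3_TG {s : M.Group →₀ ℤ} (hs : s ∈ TG D P la k) (y : M.Group) (t : H) :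
    t * bt D P la k y (D.up s) - bt D P la k y (t * D.up s) ∈
      II D (Occ M P la (k + 1)) := by
  unfold TG at hs
  refine AddSubgroup.closure_induction
    (p := fun s _ => t * bt D P la k y (D.up s) - bt D P la k y (t * D.up s) ∈
      II D (Occ M P la (k + 1))) ?_ ?_ ?_ ?_ hs
  · rintro s ⟨i, p, hp, g, hg, r, hr, hk, rfl⟩
    exact ll3_gen hD hp hg hr hk y t
  · have e : D.up (0 : M.Group →₀ ℤ) = 0 := map_zero D.up
    rw [e, map_zero, mul_zero, map_zero, sub_zero]
    exact Submodule.zero_mem _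
  · intro a b _ _ ha hb
    have e : D.up (a + b) = D.up a + D.up b := map_add D.up a b
    rw [e, map_add, mul_add, mul_add, map_add, add_sub_add_comm]
    exact Submodule.add_mem _ ha hb
  · intro a _ ha
    have e : D.up (-a) = -D.up a := map_neg D.up a
    rw [e, map_neg, mul_neg, mul_neg, map_neg, neg_sub_neg, ← neg_sub]
    exact Submodule.neg_mem _ ha

include hD in
/-- Right multiplication in the asymptotic ring commutes with left multiplication. -/
theorem bt_mul {x : M.Group} (hx : D.a x = k) (y : M.Group) (t : H) :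
    t * bt D P la k y (D.C x) - bt D P la k y (t * D.C x) ∈ II D (Occ M P la (k + 1)) := by
  have hI := idl hD (k + 1)
  rw [a_eq_al hD] at hx
  have h1 : ¬ Occ M P la (k + 1) x := by
    rw [Occ_iff hD]
    omega
  have h2 : Occ M P la k x := by
    rw [Occ_iff hD]
    omega
  have h3 : D.C x = D.up (sg D P la k x) := by
    rw [sg, ld_C h1]
    exact (D.up_single x).symm
  rw [h3]
  exact ll3_TG hD (sg_mem_TG hD hI h2) y t

include hD in
private theorem ll3_tp (x y : M.Group) : tp D P la k x y = D.tk k k (D.C x * D.C y) := by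
  classical
  ext z
  rw [KLD.tk_apply]
  split_ifs with h
  · rw [tp_eq hD x y z h.le]
    rfl
  · exact tp_ne hD x y z h

private theorem ll3_Lk_spt (k : ℕ) (m : ℤ) (w : M.Group) (t : D.JJ) {z : M.Group}
    (hz : D.a z ≠ k) : D.Lk k m w t z = 0 := by
  classical
  rw [KLD.Core.sum_single' t, map_sum, Finsupp.finsetSum_apply]
  refine Finset.sum_eq_zero fun c _ => ?_
  rw [map_smul, Finsupp.smul_apply, KLD.Lk_single, KLD.tk_apply, if_neg hz, smul_zero]

private theorem ll3_bul_eq (k : ℕ) (t : D.JJ) (y z : M.Group) :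
    D.bul k t (Finsupp.single y 1) z = ∑ c ∈ t.support, t c * D.tk k k (D.C c * D.C y) z := by
  classical
  conv_lhs => rw [KLD.Core.sum_single' t]
  rw [map_sum, LinearMap.sum_apply, Finsupp.finsetSum_apply]
  refine Finset.sum_congr rfl fun c _ => ?_
  rw [map_smul, LinearMap.smul_apply, Finsupp.smul_apply, KLD.bul_single, smul_eq_mul]

private theorem ll3_up_mul (m : ℤ) (k : ℕ) (w : M.Group) (t : D.JJ) {z : M.Group}
    (hz : D.a z = k) : (D.C.repr (D.C w * D.up t) z).coeff m = D.Lk k m w t z := by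
  rw [KLD.Core.Lk_apply k m w t hz, KLD.up_eq, Finset.mul_sum, map_sum,
    Finsupp.finsetSum_apply, cf_sum]
  refine Finset.sum_congr rfl fun c _ => ?_
  rw [mul_smul_comm, map_zsmul, Finsupp.smul_apply, cf_zsmul]
  rfl

include hD in
private theorem ll3_bt_repr (m : ℤ) (y : M.Group) {s : H}
    (hs : ∀ c, D.C.repr s c ≠ 0 → k ≤ D.a c) (z : M.Group) :
    (D.C.repr (bt D P la k y s) z).coeff m =
      D.bul k (D.tk k m s) (Finsupp.single y 1) z := by
  classical
  rw [ll3_bul_eq]
  have h1 : bt D P la k y s =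
      ∑ c ∈ (D.C.repr s).support, D.C.repr s c • bt D P la k y (D.C c) := by
    conv_lhs => rw [← D.C.linearCombination_repr s]
    rw [Finsupp.linearCombination_apply, Finsupp.sum, map_sum]
    exact Finset.sum_congr rfl fun c _ => map_smul _ _ _
  rw [h1, map_sum, Finsupp.finsetSum_apply, cf_sum]
  have h3 : (D.tk k m s).support ⊆ (D.C.repr s).support := Finsupp.support_onFinset_subset
  rw [Finset.sum_subset h3]
  · refine Finset.sum_congr rfl fun c hc => ?_
    rw [map_smul, Finsupp.smul_apply, smul_eq_mul]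
    by_cases hck : D.a c = k
    · have h4 : ¬ Occ M P la (k + 1) c := by
        rw [Occ_iff hD, ← a_eq_al hD]
        omega
      rw [bt, Module.Basis.constr_basis, if_neg h4, D.repr_up, ll3_tp hD, mul_smul_comm, mul_one,
        cf_zsmul, D.tk_apply k m s, if_pos hck, mul_comm]
    · have h5 := hs c (Finsupp.mem_support_iff.1 hc)
      have h4 : Occ M P la (k + 1) c := by
        rw [Occ_iff hD, ← a_eq_al hD]
        omega
      rw [bt, Module.Basis.constr_basis, if_pos h4, map_zero, Finsupp.zero_apply, mul_zero,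
        cf_zero, D.tk_apply k m s, if_neg hck, zero_mul]
  · intro c _ hc
    rw [Finsupp.notMem_support_iff.1 hc, zero_mul]

include hD in
theorem LL_am (k : ℕ) (m : ℤ) (w x y : M.Group) (hx : D.a x = k) :
    D.Lk k m w (D.bul k (Finsupp.single x 1) (Finsupp.single y 1)) =
      D.bul k (D.Lk k m w (Finsupp.single x 1)) (Finsupp.single y 1) := by
  classical
  ext z
  by_cases hz : D.a z = k
  · have h1 := bt_mul hD hx y (D.C w)
    have hzl : ¬ Occ M P la (k + 1) z := by
      rw [Occ_iff hD, ← a_eq_al hD]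
      omega
    have hxl : ¬ Occ M P la (k + 1) x := by
      rw [Occ_iff hD, ← a_eq_al hD]
      omega
    have h2 := mem_II.1 h1 z hzl
    rw [map_sub, Finsupp.sub_apply, sub_eq_zero] at h2
    have h3 : bt D P la k y (D.C x) = D.up (D.tk k k (D.C x * D.C y)) := by
      rw [bt, Module.Basis.constr_basis, if_neg hxl, ll3_tp hD]
    have h4 : (D.C.repr (D.C w * D.up (D.tk k k (D.C x * D.C y))) z).coeff m =
        (D.C.repr (bt D P la k y (D.C w * D.C x)) z).coeff m := by rw [← h3, h2]
    have hs : ∀ c, D.C.repr (D.C w * D.C x) c ≠ 0 → k ≤ D.a c := by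
      intro c hc
      have h5 := (al_h hD (x := w) (y := x) (z := c) hc).2
      rw [← a_eq_al hD, ← a_eq_al hD] at h5
      omega
    rw [ll3_up_mul m k w _ hz, ll3_bt_repr hD m y hs] at h4
    rw [KLD.bul_single, KLD.Lk_single, h4]
  · rw [ll3_Lk_spt k m w _ hz, ll3_bul_eq]
    refine (Finset.sum_eq_zero fun c _ => ?_).symm
    rw [KLD.tk_apply, if_neg hz, mul_zero]

end ll3

end Pool.Agent.Helper35.AM
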