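import Pool.Agent.Helper35.AM.Dd4
import Pool.Agent.Helper35.AM.Ll3
import Pool.Agent.Helper35.AM.Lc

/-!
# P1-P15 for amalgams
-/

namespace Pool.Agent.Helper35.AM

open Pool.Agent.Helper35.KL

section co

variable {B : Type} {M : CoxeterMatrix B} {L : M.Group → ℤ} {H : Type} [Ring H] [Algebra LP H]
variable {D : KLD M L H} {P : Bool → Set B} {la : M.Group → ℕ} (hD : Dat D P la)

include hD in
/-- The core properties of the amalgam. -/
theorem core_am : D.Core where
  bdd := bounded_am hD
  P1' := P1_am hD
  P2' hz h := P2_am hD hz h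
  P3' := P3_am hD
  P4' h := P4_am hD h
  P6' hz := P6_am hD hz
  Q' h := Q_am hD h
  P12' I _ hw := P12_am hD I hw
  LL k m w x y hx := LL_am hD k m w x y hx

end co

/-- P1-P15 for amalgams of Coxeter groups over parabolic subgroups. -/
theorem lusztig_am {B : Type} {M : CoxeterMatrix B} {P : Bool → Set B} (hA : Am M P)
    {L : M.Group → ℤ} (hL : IsWeight M L)
    (h : ∀ i, Lusztig (res M (P i)) fun x => L (inc M (P i) x)) : Lusztig M L := by
  classical
  intro H _ _ D
  have hc : ∀ i, (Dp (isPar_inc M (P i)) D).Core := by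
    intro i
    have h1 := h i (pA (isPar_inc M (P i)) D) (Dp (isPar_inc M (P i)) D)
    exact h1.2.core (isWeight_par (isPar_inc M (P i)) hL) h1.1
  have h1 : ∀ w ∈ par M (P false),
      (if w ∈ par M (P true) then D.aPar (P true) w else D.aPar (P false) w) =
        D.aPar (P false) w := by
    intro w hw
    split_ifs with h2
    · have h3 : w ∈ par M (PI P) := mem_par_PI true h2 hw
      rw [← aPar_sub D (PI_sub true) (hc true) h3, ← aPar_sub D (PI_sub false) (hc false) h3]
    · rfl
  have hD : Dat D P (fun w => if w ∈ par M (P true) then D.aPar (P true) w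
      else D.aPar (P false) w) := by
    refine ⟨hA, hL, ?_⟩
    intro i
    cases i
    · exact loc_congr D (fun w hw => (h1 w hw).symm) (loc_of_core D hL (hc false))
    · exact loc_congr D (fun w hw => by rw [if_pos hw]) (loc_of_core D hL (hc true))
  have hcore := core_am hD
  exact ⟨hcore.bdd, hcore.lus hL⟩

theorem lusztig_am_iff {B : Type} {M : CoxeterMatrix B} {P : Bool → Set B} (hA : Am M P)
    {L : M.Group → ℤ} (hL : IsWeight M L) :
    Lusztig M L ↔ ∀ i, Lusztig (res M (P i)) fun x => L (inc M (P i) x) :=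
  ⟨fun h i => lusztig_par (isPar_inc M (P i)) hL h, lusztig_am hA hL⟩

end Pool.Agent.Helper35.AM
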