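import Pool.Agent.Helper35.AM.Df

/-!
# Minimal coset representatives
-/

/- PROOF HINTS (conventions: see Df.lean)
Cx (minimal coset representatives), from `exch` (KL/Ex/X1.lean: folding condition; its proof also shows the strong exchange).
Lemma E1 (x*y reduced, i.e. len(xy)=len x+len y; len(y s)=len y+1; len(x y s) < len(x y)) => exists x', len x' < len x, x y s = x' y.
 Induction on len x: x = b x1 (reduced). If (x1 y)s < x1 y use IH and x' := b x1'. Else b(x1 y) > x1 y, (x1 y)s > x1 y and
 len(b x1 y s) <= len(x1 y), so exch gives b(x1 y) = (x1 y)s, x y s = x1 y.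
Lemma E2 (every u in W_P has a reduced word with letters in P). Closure induction on u; for u s with len(us)<len u use the strong exchange
 for words: for a reduced word w of u and len(u s) < len u, u s is the product of w with one letter erased (as in the proof of exch:
 s is in rightInvSeq w by x1_word (parity), then wordProd_mul_getD_rightInvSeq).
Lemma E3: p0 of minimal length in p0 W_P => len(p0 u) = len p0 + len u for u in W_P: induction over the closure (u -> u s, s in P): if us>u and
 p0us<p0u then by E1 p0us = x'u, x' in p0 W_P shorter, contradiction; if us<u: len(p0 us) is between.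
 exists_XR: take p0 minimal. If p in XR P then p = p0 u0; u0 <> 1 has a right descent b in P (E2) and then len(p b) = len p0 + len(u0 b) < len p,
 contradiction; so p = p0 and len_XR_mul follows. XL by inverses. Uniqueness: p u = p' u' => p' = p(u u'^-1) both minimal => equal.
 XR_suf: x y in XR P reduced, b in P, if len(y b) < len y then len(x y b) < len(x y).
-/

namespace Pool.Agent.Helper35.AM

open Pool.Agent.Helper35.KL

section cx

variable {B : Type} {M : CoxeterMatrix B} {P Q : Set B}

private theorem cx_len_mul_sm (w : M.Group) (b : B) :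
    len M (w * sm M b) = len M w + 1 ∨ len M (w * sm M b) + 1 = len M w :=
  M.toCoxeterSystem.length_mul_simple w b

private theorem cx_se {w : M.Group} {b : B} (ω : List B)
    (hω : M.toCoxeterSystem.wordProd ω = w) (h : len M (w * sm M b) < len M w) :
    ∃ j, j < ω.length ∧ w * sm M b = M.toCoxeterSystem.wordProd (ω.eraseIdx j) := by
  classical
  set cs := M.toCoxeterSystem with hcs
  obtain ⟨ν, hν1, hν2⟩ := cs.exists_isReduced (w * sm M b)
  have hprod : cs.wordProd (ν.concat b) = cs.wordProd ω := by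
    rw [cs.wordProd_concat, ← hν2, hω]
    change w * sm M b * sm M b = w
    rw [mul_assoc, sm_sm, mul_one]
  have hred : cs.IsReduced (ν.concat b) := by
    unfold CoxeterSystem.IsReduced
    rw [hprod, List.length_concat, ← hν1.eq, ← hν2, hω]
    change len M w = len M (w * sm M b) + 1
    have h1 := cx_len_mul_sm w b
    omega
  have hmem : sm M b ∈ cs.rightInvSeq (ν.concat b) := by
    rw [cs.rightInvSeq_concat]
    simp only [List.concat_eq_append, List.mem_append, List.mem_singleton]
    exact Or.inr rfl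
  have hc1 : (cs.rightInvSeq (ν.concat b)).count (sm M b) = 1 :=
    List.count_eq_one_of_mem hred.nodup_rightInvSeq hmem
  have k1 := x1_word M (ν.concat b) (sm M b)
  have k2 := x1_word M ω (sm M b)
  rw [← hcs, hprod] at k1
  rw [← hcs, k1] at k2
  have k3 := congrArg Prod.snd k2
  simp only at k3
  rw [hc1, Nat.cast_one] at k3
  have hmem2 : sm M b ∈ cs.rightInvSeq ω := by
    by_contra hn
    rw [List.count_eq_zero_of_not_mem hn, Nat.cast_zero] at k3
    exact one_ne_zero k3
  obtain ⟨j, hj, hj2⟩ := List.getElem_of_mem hmem2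
  refine ⟨j, by simpa using hj, ?_⟩
  have h1 := cs.wordProd_mul_getD_rightInvSeq ω j
  rw [List.getD_eq_getElem _ _ hj, hj2, hω] at h1
  exact h1

theorem sm_mem_par {b : B} (h : b ∈ P) : sm M b ∈ par M P :=
  Subgroup.subset_closure ⟨b, h, rfl⟩

private theorem cx_red {u : M.Group} (hu : u ∈ par M P) :
    ∃ ω : List B, M.toCoxeterSystem.wordProd ω = u ∧ ω.length = len M u ∧ ∀ b ∈ ω, b ∈ P := by
  have key : ∀ (x : M.Group) (b : B), b ∈ P → (∃ ω : List B, M.toCoxeterSystem.wordProd ω = x ∧
      ω.length = len M x ∧ ∀ b ∈ ω, b ∈ P) → ∃ ω : List B,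
      M.toCoxeterSystem.wordProd ω = x * sm M b ∧ ω.length = len M (x * sm M b) ∧
        ∀ b ∈ ω, b ∈ P := by
    rintro x b hb ⟨ω, h1, h2, h3⟩
    rcases cx_len_mul_sm x b with h | h
    · refine ⟨ω.concat b, ?_, ?_, ?_⟩
      · rw [M.toCoxeterSystem.wordProd_concat, h1]
      · rw [List.length_concat, h2, h]
      · intro c hc
        rw [List.concat_eq_append, List.mem_append, List.mem_singleton] at hc
        rcases hc with hc | hc
        · exact h3 c hc
        · rw [hc]
          exact hb
    · obtain ⟨j, hj, hj2⟩ := cx_se ω h1 (b := b) (by omega)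
      refine ⟨ω.eraseIdx j, hj2.symm, ?_, ?_⟩
      · rw [List.length_eraseIdx_of_lt hj]
        omega
      · intro c hc
        exact h3 c (List.mem_of_mem_eraseIdx hc)
  refine Subgroup.closure_induction_right (p := fun x _ => ∃ ω : List B,
    M.toCoxeterSystem.wordProd ω = x ∧ ω.length = len M x ∧ ∀ b ∈ ω, b ∈ P) ?_ ?_ ?_ hu
  · exact ⟨[], M.toCoxeterSystem.wordProd_nil, by rw [len_one]; rfl, by simp⟩
  · rintro x _ _ ⟨b, hb, rfl⟩ h
    exact key x b hb h
  · rintro x _ _ ⟨b, hb, rfl⟩ h
    rw [sm_inv]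
    exact key x b hb h

private theorem cx_descR {w : M.Group} (hw : w ∈ par M P) (h1 : w ≠ 1) :
    ∃ b ∈ P, len M (w * sm M b) + 1 = len M w := by
  obtain ⟨ω, h2, h3, h4⟩ := cx_red hw
  rcases List.eq_nil_or_concat ω with h5 | ⟨ν, b, h5⟩
  · exfalso
    apply h1
    rw [← h2, h5, M.toCoxeterSystem.wordProd_nil]
  · refine ⟨b, h4 b (by rw [h5]; simp), ?_⟩
    have h6 : w * sm M b = M.toCoxeterSystem.wordProd ν := by
      rw [← h2, h5, M.toCoxeterSystem.wordProd_concat]
      change M.toCoxeterSystem.wordProd ν * sm M b * sm M b = _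
      rw [mul_assoc, sm_sm, mul_one]
    have h7 : len M (w * sm M b) ≤ ν.length := by
      rw [h6]
      exact M.toCoxeterSystem.length_wordProd_le ν
    have h8 : ω.length = ν.length + 1 := by
      rw [h5]
      simp
    rcases cx_len_mul_sm w b with h | h <;> omega

private theorem cx_min {p : M.Group} (hp : ∀ u ∈ par M P, len M p ≤ len M (p * u)) :
    ∀ (n : ℕ) (u : M.Group), u ∈ par M P → len M u = n → len M (p * u) = len M p + n := by
  intro n
  induction n with
  | zero =>
    intro u _ h0
    rw [len_eq_zero] at h0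
    rw [h0, mul_one, add_zero]
  | succ n ih =>
    intro u hu hn
    have h1 : u ≠ 1 := by
      rintro rfl
      rw [len_one] at hn
      omega
    obtain ⟨b, hb, h2⟩ := cx_descR hu h1
    have h3 : u * sm M b ∈ par M P := Subgroup.mul_mem _ hu (sm_mem_par hb)
    have h4 := ih (u * sm M b) h3 (by omega)
    have h5 : p * (u * sm M b) * sm M b = p * u := by
      rw [mul_assoc, mul_assoc u, sm_sm, mul_one]
    have h6 := cx_len_mul_sm (p * (u * sm M b)) b
    rw [h5] at h6
    rcases h6 with h6 | h6
    · omega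
    · exfalso
      obtain ⟨α, hα, hα2⟩ := M.toCoxeterSystem.exists_isReduced p
      obtain ⟨β, hβ, hβ2⟩ := M.toCoxeterSystem.exists_isReduced (u * sm M b)
      have h7 : M.toCoxeterSystem.wordProd (α ++ β) = p * (u * sm M b) := by
        rw [M.toCoxeterSystem.wordProd_append, ← hα2, ← hβ2]
      obtain ⟨j, hj, hj2⟩ := cx_se (α ++ β) h7 (b := b) (by rw [h5]; omega)
      rw [h5] at hj2
      rcases lt_or_ge j α.length with h8 | h8
      · rw [List.eraseIdx_append_of_lt_length h8, M.toCoxeterSystem.wordProd_append,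
          ← hβ2] at hj2
        have h9 : M.toCoxeterSystem.wordProd (α.eraseIdx j) = p * (u * (u * sm M b)⁻¹) := by
          rw [← mul_assoc, hj2]
          group
        have h10 := hp (u * (u * sm M b)⁻¹) (Subgroup.mul_mem _ hu (Subgroup.inv_mem _ h3))
        rw [← h9] at h10
        have h11 := M.toCoxeterSystem.length_wordProd_le (α.eraseIdx j)
        rw [List.length_eraseIdx_of_lt h8] at h11
        have h12 := hα.eq
        rw [← hα2] at h12
        change len M p = α.length at h12
        change len M (M.toCoxeterSystem.wordProd (α.eraseIdx j)) ≤ α.length - 1 at h11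
        omega
      · rw [List.eraseIdx_append_of_length_le h8, M.toCoxeterSystem.wordProd_append,
          ← hα2] at hj2
        have h9 : u = M.toCoxeterSystem.wordProd (β.eraseIdx (j - α.length)) :=
          mul_left_cancel hj2
        have h10 : j - α.length < β.length := by
          rw [List.length_append] at hj
          omega
        have h11 := M.toCoxeterSystem.length_wordProd_le (β.eraseIdx (j - α.length))
        rw [List.length_eraseIdx_of_lt h10, ← h9] at h11
        have h12 := hβ.eq
        rw [← hβ2] at h12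
        change len M (u * sm M b) = β.length at h12
        change len M u ≤ β.length - 1 at h11
        omega

private theorem cx_exists (P : Set B) (w : M.Group) :
    ∃ p, (∀ u ∈ par M P, len M p ≤ len M (p * u)) ∧ ∃ u ∈ par M P, w = p * u := by
  classical
  have h1 : ∃ n, ∃ u ∈ par M P, len M (w * u) = n := ⟨_, 1, Subgroup.one_mem _, rfl⟩
  obtain ⟨u, hu, h2⟩ := Nat.find_spec h1
  refine ⟨w * u, ?_, u⁻¹, Subgroup.inv_mem _ hu, by group⟩
  intro v hv
  rw [h2, mul_assoc]
  exact Nat.find_min' h1 ⟨u * v, Subgroup.mul_mem _ hu hv, rfl⟩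

private theorem cx_min_XR {p : M.Group} (hp : ∀ u ∈ par M P, len M p ≤ len M (p * u)) :
    p ∈ XR M P := by
  intro b hb
  exact cx_min hp 1 (sm M b) (sm_mem_par hb) (len_sm b)

private theorem cx_XR_min {p : M.Group} (hp : p ∈ XR M P) :
    ∀ u ∈ par M P, len M p ≤ len M (p * u) := by
  obtain ⟨p0, h1, u0, h2, h3⟩ := cx_exists P p
  by_cases h4 : u0 = 1
  · rw [h4, mul_one] at h3
    rw [h3]
    exact h1
  · exfalso
    obtain ⟨b, hb, h5⟩ := cx_descR h2 h4
    have h6 := hp b hb
    have h7 := cx_min h1 _ u0 h2 rfl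
    have h8 := cx_min h1 _ (u0 * sm M b) (Subgroup.mul_mem _ h2 (sm_mem_par hb)) rfl
    rw [← mul_assoc, ← h3] at h8
    rw [← h3] at h7
    omega

theorem par_mono (h : P ⊆ Q) : par M P ≤ par M Q :=
  Subgroup.closure_mono (Set.image_mono h)

theorem inv_mem_XR {w : M.Group} : w⁻¹ ∈ XR M P ↔ w ∈ XL M P := by
  have h1 : ∀ b, len M (w⁻¹ * sm M b) = len M (sm M b * w) := by
    intro b
    rw [← len_inv, mul_inv_rev, inv_inv, sm_inv]
  constructor
  · intro h b hb
    rw [← h1, h b hb, len_inv]
  · intro h b hb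
    rw [h1, h b hb, len_inv]

theorem inv_mem_XL {w : M.Group} : w⁻¹ ∈ XL M P ↔ w ∈ XR M P := by
  rw [← inv_mem_XR, inv_inv]

theorem one_mem_XR : (1 : M.Group) ∈ XR M P := by
  intro b _
  rw [one_mul, len_sm, len_one]

theorem one_mem_XL : (1 : M.Group) ∈ XL M P := by
  intro b _
  rw [mul_one, len_sm, len_one]

theorem XR_mono (h : P ⊆ Q) : XR M Q ⊆ XR M P := fun _ hp b hb => hp b (h hb)

theorem XL_mono (h : P ⊆ Q) : XL M Q ⊆ XL M P := fun _ hp b hb => hp b (h hb)

theorem len_XR_mul {p u : M.Group} (hp : p ∈ XR M P) (hu : u ∈ par M P) :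
    len M (p * u) = len M p + len M u :=
  cx_min (cx_XR_min hp) _ u hu rfl

theorem len_mul_XL {u r : M.Group} (hu : u ∈ par M P) (hr : r ∈ XL M P) :
    len M (u * r) = len M u + len M r := by
  have h1 := len_XR_mul (inv_mem_XR.2 hr) (Subgroup.inv_mem _ hu)
  rw [← mul_inv_rev, len_inv, len_inv, len_inv] at h1
  omega

theorem exists_XR (P : Set B) (w : M.Group) : ∃ p ∈ XR M P, ∃ u ∈ par M P, w = p * u := by
  obtain ⟨p, h1, u, h2, h3⟩ := cx_exists P w
  exact ⟨p, cx_min_XR h1, u, h2, h3⟩

theorem exists_XL (P : Set B) (w : M.Group) : ∃ u ∈ par M P, ∃ r ∈ XL M P, w = u * r := by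
  obtain ⟨p, h1, u, h2, h3⟩ := exists_XR P w⁻¹
  refine ⟨u⁻¹, Subgroup.inv_mem _ h2, p⁻¹, inv_mem_XL.2 h1, ?_⟩
  rw [← mul_inv_rev, ← h3, inv_inv]

theorem XR_unique {p p' u u' : M.Group} (hp : p ∈ XR M P) (hp' : p' ∈ XR M P)
    (hu : u ∈ par M P) (hu' : u' ∈ par M P) (h : p * u = p' * u') : p = p' ∧ u = u' := by
  have h1 : p = p' * (u' * u⁻¹) := by
    rw [← mul_assoc, ← h]
    group
  have h2 : p' = p * (u * u'⁻¹) := by
    rw [← mul_assoc, h]
    group
  have h3 := len_XR_mul hp' (Subgroup.mul_mem _ hu' (Subgroup.inv_mem _ hu))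
  have h4 := len_XR_mul hp (Subgroup.mul_mem _ hu (Subgroup.inv_mem _ hu'))
  rw [← h1] at h3
  rw [← h2] at h4
  have h5 : len M (u * u'⁻¹) = 0 := by omega
  rw [len_eq_zero] at h5
  have h6 : u = u' := mul_inv_eq_one.1 h5
  rw [h5, mul_one] at h2
  exact ⟨h2.symm, h6⟩

theorem XL_unique {r r' u u' : M.Group} (hu : u ∈ par M P) (hu' : u' ∈ par M P)
    (hr : r ∈ XL M P) (hr' : r' ∈ XL M P) (h : u * r = u' * r') : u = u' ∧ r = r' := by
  have h1 : r⁻¹ * u⁻¹ = r'⁻¹ * u'⁻¹ := by
    rw [← mul_inv_rev, ← mul_inv_rev, h]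
  have h2 := XR_unique (inv_mem_XR.2 hr) (inv_mem_XR.2 hr') (Subgroup.inv_mem _ hu)
    (Subgroup.inv_mem _ hu') h1
  exact ⟨inv_injective h2.2, inv_injective h2.1⟩

theorem XR_suf {x y : M.Group} (h : len M (x * y) = len M x + len M y)
    (hp : x * y ∈ XR M P) : y ∈ XR M P := by
  intro b hb
  have h1 := hp b hb
  rw [mul_assoc] at h1
  have h2 := M.toCoxeterSystem.length_mul_le x (y * sm M b)
  change len M (x * (y * sm M b)) ≤ len M x + len M (y * sm M b) at h2
  rcases cx_len_mul_sm y b with h3 | h3 <;> omega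

theorem XL_pre {x y : M.Group} (h : len M (x * y) = len M x + len M y)
    (hp : x * y ∈ XL M P) : x ∈ XL M P := by
  intro b hb
  have h1 := hp b hb
  rw [← mul_assoc] at h1
  have h2 := M.toCoxeterSystem.length_mul_le (sm M b * x) y
  change len M (sm M b * x * y) ≤ len M (sm M b * x) + len M y at h2
  rcases len_sm_mul b x with h3 | h3 <;> omega

/-- Every element of a parabolic subgroup other than `1` has a right descent in the set. -/
theorem exists_descR {w : M.Group} (hw : w ∈ par M P) (h1 : w ≠ 1) :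
    ∃ b ∈ P, len M (w * sm M b) + 1 = len M w := cx_descR hw h1

theorem exists_descL {w : M.Group} (hw : w ∈ par M P) (h1 : w ≠ 1) :
    ∃ b ∈ P, len M (sm M b * w) + 1 = len M w := by
  obtain ⟨b, hb, h2⟩ := exists_descR (Subgroup.inv_mem _ hw) (inv_ne_one.2 h1)
  refine ⟨b, hb, ?_⟩
  have h3 : len M (w⁻¹ * sm M b) = len M (sm M b * w) := by
    rw [← len_inv, mul_inv_rev, inv_inv, sm_inv]
  rw [h3, len_inv] at h2
  exact h2

/-- The factor of `w` in `XR M P`. -/
noncomputable def xr (P : Set B) (w : M.Group) : M.Group := (exists_XR P w).choose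

/-- The factor of `w` in the parabolic subgroup. -/
noncomputable def xp (P : Set B) (w : M.Group) : M.Group :=
  (exists_XR P w).choose_spec.2.choose

theorem xr_mem (P : Set B) (w : M.Group) : xr P w ∈ XR M P := (exists_XR P w).choose_spec.1

theorem xp_mem (P : Set B) (w : M.Group) : xp P w ∈ par M P :=
  (exists_XR P w).choose_spec.2.choose_spec.1

theorem xr_mul_xp (P : Set B) (w : M.Group) : xr P w * xp P w = w :=
  (exists_XR P w).choose_spec.2.choose_spec.2.symm

theorem xr_mul {p u : M.Group} (hp : p ∈ XR M P) (hu : u ∈ par M P) : xr P (p * u) = p :=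
  (XR_unique (xr_mem P _) hp (xp_mem P _) hu (xr_mul_xp P _)).1

theorem xp_mul {p u : M.Group} (hp : p ∈ XR M P) (hu : u ∈ par M P) : xp P (p * u) = u :=
  (XR_unique (xr_mem P _) hp (xp_mem P _) hu (xr_mul_xp P _)).2

end cx

end Pool.Agent.Helper35.AM
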