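import Pool.Agent.Helper35.AM.Df

/-!
# The order of the product of two simple reflections

The contragredient geometric representation: the simple reflection `b` acts on the functions
`f : B → ℝ` by `f ↦ f - f b • k b` with `k b c = - 2 cos (π / M b c)`.
-/

namespace Pool.Agent.Helper35.AM

open Pool.Agent.Helper35.KL

section ge

variable {B : Type} (M : CoxeterMatrix B)

/-- The entries of the Cartan matrix. -/
noncomputable def geK (b c : B) : ℝ := -2 * Real.cos (Real.pi / M b c)

theorem geK_self (b : B) : geK M b b = 2 := by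
  rw [geK, M.diagonal]
  simp

theorem geK_symm (b c : B) : geK M b c = geK M c b := by
  rw [geK, geK, M.symmetric b c]

/-- The action of a simple reflection. -/
noncomputable def geS (b : B) (f : B → ℝ) : B → ℝ := fun c => f c - geK M b c * f b

theorem geS_invol (b : B) : Function.Involutive (geS M b) := by
  intro f
  funext c
  simp only [geS, geK_self]
  ring

/-- The simple reflections as permutations. -/
noncomputable def geP (b : B) : Equiv.Perm (B → ℝ) := (geS_invol M b).toPerm

theorem geP_apply (b : B) (f : B → ℝ) (c : B) : geP M b f c = f c - geK M b c * f b := rfl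

theorem geP_two (b c : B) (f : B → ℝ) :
    (geP M b * geP M c) f b = -f b + geK M b c * f c ∧
      (geP M b * geP M c) f c = -geK M b c * f b + (geK M b c ^ 2 - 1) * f c := by
  rw [Equiv.Perm.mul_apply]
  simp only [geP_apply, geK_self, geK_symm M c b]
  constructor <;> ring

theorem geP_pow (b c : B) (f : B → ℝ) (n : ℕ) :
    Real.sin (Real.pi / M b c) * ((geP M b * geP M c) ^ n) f b =
        -Real.sin ((2 * n - 1) * (Real.pi / M b c)) * f b -
          Real.sin (2 * n * (Real.pi / M b c)) * f c ∧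
      Real.sin (Real.pi / M b c) * ((geP M b * geP M c) ^ n) f c =
        Real.sin (2 * n * (Real.pi / M b c)) * f b +
          Real.sin ((2 * n + 1) * (Real.pi / M b c)) * f c := by
  set θ := Real.pi / (M b c : ℝ) with hθ
  induction n with
  | zero => simp
  | succ n ih =>
    obtain ⟨h1, h2⟩ := ih
    obtain ⟨e1, e2⟩ := geP_two M b c (((geP M b * geP M c) ^ n) f)
    rw [pow_succ', Equiv.Perm.mul_apply (geP M b * geP M c) ((geP M b * geP M c) ^ n), e1, e2]
    have hk : geK M b c = -2 * Real.cos θ := rfl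
    have hs := Real.sin_sq_add_cos_sq θ
    have a1 : Real.sin ((2 * (n : ℝ) - 1) * θ) = Real.sin (2 * n * θ) * Real.cos θ -
        Real.cos (2 * n * θ) * Real.sin θ := by
      rw [← Real.sin_sub]
      ring_nf
    have a2 : Real.sin ((2 * (n : ℝ) + 1) * θ) = Real.sin (2 * n * θ) * Real.cos θ +
        Real.cos (2 * n * θ) * Real.sin θ := by
      rw [← Real.sin_add]
      ring_nf
    have a3 : Real.sin (2 * ((n + 1 : ℕ) : ℝ) * θ) =
        Real.sin ((2 * (n : ℝ) + 1) * θ) * Real.cos θ +
        Real.cos ((2 * (n : ℝ) + 1) * θ) * Real.sin θ := by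
      rw [← Real.sin_add]
      push_cast
      ring_nf
    have a4 : Real.cos ((2 * (n : ℝ) + 1) * θ) = Real.cos (2 * n * θ) * Real.cos θ -
        Real.sin (2 * n * θ) * Real.sin θ := by
      rw [← Real.cos_add]
      ring_nf
    have a5 : Real.sin ((2 * ((n + 1 : ℕ) : ℝ) - 1) * θ) = Real.sin ((2 * (n : ℝ) + 1) * θ) := by
      push_cast
      ring_nf
    have a6 : Real.cos (2 * ((n + 1 : ℕ) : ℝ) * θ) =
        Real.cos ((2 * (n : ℝ) + 1) * θ) * Real.cos θ -
        Real.sin ((2 * (n : ℝ) + 1) * θ) * Real.sin θ := by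
      rw [← Real.cos_add]
      push_cast
      ring_nf
    have a7 : Real.sin ((2 * ((n + 1 : ℕ) : ℝ) + 1) * θ) =
        Real.sin (2 * ((n + 1 : ℕ) : ℝ) * θ) * Real.cos θ +
        Real.cos (2 * ((n + 1 : ℕ) : ℝ) * θ) * Real.sin θ := by
      rw [← Real.sin_add]
      ring_nf
    set S := Real.sin (2 * (n : ℝ) * θ)
    set C := Real.cos (2 * (n : ℝ) * θ)
    set s := Real.sin θ
    set c' := Real.cos θ
    set X := ((geP M b * geP M c) ^ n) f b
    set Y := ((geP M b * geP M c) ^ n) f c
    rw [a5, a7, a6, a3, a4, a2, hk]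
    rw [a1] at h1
    rw [a2] at h2
    constructor
    · linear_combination (-1 : ℝ) * h1 + (-2 * c') * h2 - (S * f c) * hs
    · linear_combination (2 * c') * h1 + (4 * c' ^ 2 - 1) * h2 +
        (s * C * f c + 3 * c' * S * f c + S * f b) * hs

theorem ge_sin_pos {b c : B} (h0 : M b c ≠ 0) (h1 : M b c ≠ 1) :
    0 < Real.sin (Real.pi / M b c) := by
  have h2 : (2 : ℝ) ≤ M b c := by
    have : 2 ≤ M b c := by omega
    exact_mod_cast this
  refine Real.sin_pos_of_pos_of_lt_pi (div_pos Real.pi_pos (by linarith)) ?_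
  rw [div_lt_iff₀ (by linarith)]
  nlinarith [Real.pi_pos]

/-- The coordinates at the two generators after `M b c` steps. -/
theorem geP_period {b c : B} (h0 : M b c ≠ 0) (h1 : M b c ≠ 1) (f : B → ℝ) :
    ((geP M b * geP M c) ^ (M b c)) f b = f b ∧ ((geP M b * geP M c) ^ (M b c)) f c = f c := by
  obtain ⟨e1, e2⟩ := geP_pow M b c f (M b c)
  have hs := ge_sin_pos M h0 h1
  have hm : (M b c : ℝ) ≠ 0 := by exact_mod_cast h0
  have a1 : (M b c : ℝ) * (Real.pi / M b c) = Real.pi := by field_simp
  have a2 : Real.sin (2 * (M b c : ℝ) * (Real.pi / M b c)) = 0 := by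
    rw [mul_assoc, a1, Real.sin_two_pi]
  have a3 : Real.sin ((2 * (M b c : ℝ) - 1) * (Real.pi / M b c)) =
      -Real.sin (Real.pi / M b c) := by
    rw [show (2 * (M b c : ℝ) - 1) * (Real.pi / M b c) = 2 * Real.pi - Real.pi / M b c by
      rw [sub_mul, mul_assoc, a1, one_mul], Real.sin_two_pi_sub]
  have a4 : Real.sin ((2 * (M b c : ℝ) + 1) * (Real.pi / M b c)) =
      Real.sin (Real.pi / M b c) := by
    rw [show (2 * (M b c : ℝ) + 1) * (Real.pi / M b c) = Real.pi / M b c + 2 * Real.pi by
      rw [add_mul, mul_assoc, a1, one_mul, add_comm], Real.sin_add_two_pi]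
  rw [a2, a3, zero_mul, sub_zero, neg_neg] at e1
  rw [a2, a4, zero_mul, zero_add] at e2
  exact ⟨mul_left_cancel₀ hs.ne' e1, mul_left_cancel₀ hs.ne' e2⟩

theorem geP_fix {b c : B} (d : B) (α β : ℝ) (h1 : 2 * α + geK M b c * β = -geK M b d)
    (h2 : geK M b c * α + 2 * β = -geK M c d) (f : B → ℝ) (n : ℕ) :
    ((geP M b * geP M c) ^ n) f d + α * ((geP M b * geP M c) ^ n) f b +
      β * ((geP M b * geP M c) ^ n) f c = f d + α * f b + β * f c := by
  induction n with
  | zero => simp
  | succ n ih =>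
    obtain ⟨e1, e2⟩ := geP_two M b c (((geP M b * geP M c) ^ n) f)
    have e3 : (geP M b * geP M c) (((geP M b * geP M c) ^ n) f) d =
        ((geP M b * geP M c) ^ n) f d - geK M c d * ((geP M b * geP M c) ^ n) f c -
        geK M b d * (((geP M b * geP M c) ^ n) f b -
          geK M c b * ((geP M b * geP M c) ^ n) f c) := by
      rw [Equiv.Perm.mul_apply]
      simp only [geP_apply]
    rw [pow_succ', Equiv.Perm.mul_apply (geP M b * geP M c) ((geP M b * geP M c) ^ n), e1, e2, e3,
      ← ih, geK_symm M c b]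
    set X := ((geP M b * geP M c) ^ n) f b
    set Y := ((geP M b * geP M c) ^ n) f c
    linear_combination (-X + geK M b c * Y) * h1 - Y * h2

theorem geP_zero {b c : B} (h0 : M b c = 0) (f : B → ℝ) (n : ℕ) :
    ((geP M b * geP M c) ^ n) f b = (1 - 2 * n) * f b - 2 * n * f c ∧
      ((geP M b * geP M c) ^ n) f c = 2 * n * f b + (1 + 2 * n) * f c := by
  have hk : geK M b c = -2 := by simp [geK, h0]
  induction n with
  | zero => simp
  | succ n ih =>
    obtain ⟨h1, h2⟩ := ih
    obtain ⟨e1, e2⟩ := geP_two M b c (((geP M b * geP M c) ^ n) f)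
    rw [pow_succ', Equiv.Perm.mul_apply (geP M b * geP M c) ((geP M b * geP M c) ^ n), e1, e2, hk,
      h1, h2]
    push_cast
    constructor <;> ring

theorem geP_liftable : M.IsLiftable (geP M) := by
  intro b c
  by_cases hbc : b = c
  · subst hbc
    rw [M.diagonal, pow_one]
    refine Equiv.ext fun f => ?_
    rw [Equiv.Perm.mul_apply]
    exact geS_invol M b f
  by_cases h0 : M b c = 0
  · rw [h0, pow_zero]
  have h1 : M b c ≠ 1 := M.off_diagonal b c hbc
  have hs := ge_sin_pos M h0 h1
  have hk : 4 - geK M b c ^ 2 ≠ 0 := by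
    have h2 : 4 - geK M b c ^ 2 = 4 * Real.sin (Real.pi / M b c) ^ 2 := by
      rw [geK]
      have := Real.sin_sq_add_cos_sq (Real.pi / M b c)
      linear_combination (-4) * this
    rw [h2]
    positivity
  refine Equiv.ext fun f => funext fun d => ?_
  obtain ⟨e1, e2⟩ := geP_period M h0 h1 f
  have e3 := geP_fix M (b := b) (c := c) d
    ((-2 * geK M b d + geK M b c * geK M c d) / (4 - geK M b c ^ 2))
    ((-2 * geK M c d + geK M b c * geK M b d) / (4 - geK M b c ^ 2))
    (by field_simp; ring) (by field_simp; ring) f (M b c)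
  rw [e1, e2] at e3
  rw [Equiv.Perm.one_apply]
  linarith

end ge

variable {B : Type} {M : CoxeterMatrix B}

theorem order_dvd {b c : B} {n : ℕ} (h : (sm M b * sm M c) ^ n = 1) : M b c ∣ n := by
  classical
  by_cases hbc : b = c
  · rw [hbc, M.diagonal]
    exact one_dvd n
  have h1 : (geP M b * geP M c) ^ n = 1 := by
    have h2 := congrArg (M.toCoxeterSystem.lift ⟨geP M, geP_liftable M⟩) h
    rw [map_pow, map_mul, map_one, sm, sm,
      M.toCoxeterSystem.lift_apply_simple (geP_liftable M),
      M.toCoxeterSystem.lift_apply_simple (geP_liftable M)] at h2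
    exact h2
  obtain ⟨f, hfb, hfc⟩ : ∃ f : B → ℝ, f b = 1 ∧ f c = 0 :=
    ⟨fun d => if d = b then 1 else 0, by simp, by simp [Ne.symm hbc]⟩
  by_cases h0 : M b c = 0
  · obtain ⟨e1, e2⟩ := geP_zero M h0 f n
    rw [h1, Equiv.Perm.one_apply, hfb, hfc] at e2
    have e3 : (n : ℝ) = 0 := by linarith
    have e4 : n = 0 := by exact_mod_cast e3
    rw [e4]
    exact dvd_zero _
  obtain ⟨e1, e2⟩ := geP_pow M b c f n
  rw [h1, Equiv.Perm.one_apply, hfb, hfc] at e1 e2
  · have hs := ge_sin_pos M h0 (M.off_diagonal b c hbc)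
    set θ := Real.pi / (M b c : ℝ) with hθ
    have a1 : Real.sin (2 * n * θ) = 0 := by linarith
    have a2 : Real.sin ((2 * (n : ℝ) - 1) * θ) = Real.sin (2 * n * θ) * Real.cos θ -
        Real.cos (2 * n * θ) * Real.sin θ := by
      rw [← Real.sin_sub]
      ring_nf
    rw [a2, a1] at e1
    have a3 : Real.cos (2 * n * θ) = 1 := by
      have : Real.sin θ * (Real.cos (2 * n * θ) - 1) = 0 := by linarith
      rcases mul_eq_zero.1 this with h | h
      · exact absurd h hs.ne'
      · linarith
    obtain ⟨k, hk⟩ := (Real.cos_eq_one_iff _).1 a3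
    have hm : (M b c : ℝ) ≠ 0 := by exact_mod_cast h0
    have a4 : (k : ℝ) * M b c = n := by
      rw [hθ] at hk
      field_simp at hk
      have hp := Real.pi_pos
      nlinarith [hk]
    have a5 : (M b c : ℤ) ∣ (n : ℤ) := ⟨k, by
      have : ((k * M b c : ℤ) : ℝ) = ((n : ℤ) : ℝ) := by push_cast; exact a4
      rw [mul_comm]
      exact_mod_cast this.symm⟩
    exact_mod_cast a5

theorem sm_inj : Function.Injective (sm M) := by
  intro b c h
  by_contra hbc
  have h1 : (sm M b * sm M c) ^ 1 = 1 := by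
    rw [pow_one, h]
    exact sm_sm c
  have h2 := order_dvd h1
  exact M.off_diagonal b c hbc (Nat.dvd_one.1 h2)

end Pool.Agent.Helper35.AM
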