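import Pool.Agent.Helper35.AM.Cx
import Pool.Agent.Helper35.AM.Ge

/-!
# Supports of the elements of parabolic subgroups
-/

/- PROOF HINTS (conventions: see Df.lean)
Cy. sm_mem_iff: s_b in W_P: it has a reduced word in P (E2) of length 1, so s_b = s_c, c in P, b = c by sm_inj.
 descL_mem: w in W_P, b w < w: strong exchange for a reduced P-word of w: b w in W_P, so s_b in W_P. par_of_mul: induction on len x:
 x = b x1 reduced, then b is a left descent of xy, so b in P, x1 y = b(xy) in W_P. (For y use inverses.)
 mem_par_inter: w = v w', v in W_{PnQ}, w' in XL(PnQ), w' in W_P n W_Q; if w' <> 1 it has a left descent b in P (exists_descL), b in Q by descL_mem.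
 no_twoR: P = {b,c}; w = p u, u in W_{b,c}; b, c are right descents of u (len(w s) = len p + len(u s)). Every u in W_{b,c} with right descent b is the
 alternating word of length len u ending in b (remove b; the rest has a right descent in {b,c}, not b). So the two alternating words of length n = len u
 ending in b and in c are equal, n >= 1, hence (s_b s_c)^n = 1 and M b c = 0 | n, n = 0, contradiction. no_twoL by inverses.
-/

namespace Pool.Agent.Helper35.AM

open Pool.Agent.Helper35.KL

section cy

variable {B : Type} {M : CoxeterMatrix B} {P Q : Set B}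

theorem sm_mem_iff {b : B} : sm M b ∈ par M P ↔ b ∈ P := by
  constructor
  · intro h
    have hne : sm M b ≠ 1 := by
      intro h1
      have h2 := len_sm (M := M) b
      rw [h1, len_one] at h2
      exact zero_ne_one h2
    obtain ⟨c, hc, h1⟩ := exists_descR h hne
    rw [len_sm] at h1
    have h2 : sm M b * sm M c = 1 := len_eq_zero.1 (by omega)
    have h3 : sm M b = sm M c := by
      rw [← sm_inv c]
      exact eq_inv_of_mul_eq_one_left h2
    rw [sm_inj h3]
    exact hc
  · exact sm_mem_par

/-- multiplication by a simple reflection from the right -/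
private theorem Cy_len_mul_sm (b : B) (w : M.Group) :
    len M (w * sm M b) = len M w + 1 ∨ len M (w * sm M b) + 1 = len M w :=
  M.toCoxeterSystem.length_mul_simple w b

private theorem Cy_sm_XR {b : B} (hb : b ∉ P) : sm M b ∈ XR M P := by
  intro c hc
  rcases Cy_len_mul_sm c (sm M b) with h | h
  · exact h
  · exfalso
    rw [len_sm] at h
    have h2 : sm M b * sm M c = 1 := len_eq_zero.1 (by omega)
    have h3 : sm M b = sm M c := by
      rw [← sm_inv c]
      exact eq_inv_of_mul_eq_one_left h2
    rw [sm_inj h3] at hb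
    exact hb hc

theorem descL_mem {b : B} {w : M.Group} (hw : w ∈ par M P)
    (h : len M (sm M b * w) ≠ len M w + 1) : b ∈ P := by
  by_contra hb
  apply h
  rw [len_XR_mul (Cy_sm_XR hb) hw, len_sm, add_comm]

theorem descR_mem {b : B} {w : M.Group} (hw : w ∈ par M P)
    (h : len M (w * sm M b) ≠ len M w + 1) : b ∈ P := by
  apply descL_mem (w := w⁻¹) (inv_mem hw)
  rw [← KLD.len_mul_sm, len_inv]
  exact h

private theorem Cy_par_of_mul (n : ℕ) : ∀ {x y : M.Group}, len M x = n →
    len M (x * y) = len M x + len M y → x * y ∈ par M P → x ∈ par M P ∧ y ∈ par M P := by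
  induction n with
  | zero =>
    intro x y hx _ hw
    rw [len_eq_zero] at hx
    subst hx
    rw [one_mul] at hw
    exact ⟨one_mem _, hw⟩
  | succ n ih =>
    intro x y hx h hw
    have hne : x ≠ 1 := by
      rintro rfl
      rw [len_one] at hx
      omega
    obtain ⟨b, hb⟩ := M.toCoxeterSystem.exists_leftDescent_of_ne_one hne
    have h2 : len M (sm M b * x) < len M x := hb
    have h3 := len_sm_mul b x
    have h4 : len M (sm M b * x) = n := by omega
    have h5 : len M (sm M b * x * y) ≤ len M (sm M b * x) + len M y :=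
      M.toCoxeterSystem.length_mul_le _ _
    have h6 := len_sm_mul b (x * y)
    rw [← mul_assoc] at h6
    have hbP : b ∈ P := by
      apply descL_mem hw
      rw [← mul_assoc]
      omega
    have h7 : sm M b * x * y ∈ par M P := by
      rw [mul_assoc]
      exact mul_mem (sm_mem_par hbP) hw
    obtain ⟨h8, h9⟩ := ih h4 (by omega) h7
    refine ⟨?_, h9⟩
    have h10 := mul_mem (sm_mem_par hbP) h8
    rwa [sm_cancel] at h10

theorem par_of_mul {x y : M.Group} (h : len M (x * y) = len M x + len M y)
    (hw : x * y ∈ par M P) : x ∈ par M P ∧ y ∈ par M P := Cy_par_of_mul _ rfl h hw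

private theorem Cy_inter (n : ℕ) : ∀ {w : M.Group}, len M w = n → w ∈ par M P → w ∈ par M Q →
    w ∈ par M (P ∩ Q) := by
  induction n with
  | zero =>
    intro w hw _ _
    rw [len_eq_zero] at hw
    subst hw
    exact one_mem _
  | succ n ih =>
    intro w hw h1 h2
    have hne : w ≠ 1 := by
      rintro rfl
      rw [len_one] at hw
      omega
    obtain ⟨b, hb, h3⟩ := exists_descL h1 hne
    have hbQ : b ∈ Q := descL_mem h2 (by omega)
    have h4 := ih (w := sm M b * w) (by omega) (mul_mem (sm_mem_par hb) h1)
      (mul_mem (sm_mem_par hbQ) h2)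
    have h5 := mul_mem (sm_mem_par (M := M) (P := P ∩ Q) ⟨hb, hbQ⟩) h4
    rwa [sm_cancel] at h5

theorem mem_par_inter {w : M.Group} (h1 : w ∈ par M P) (h2 : w ∈ par M Q) :
    w ∈ par M (P ∩ Q) := Cy_inter _ rfl h1 h2

/-- The alternating product of `n` letters with last letter `x`. -/
private noncomputable def Cy_alt (M : CoxeterMatrix B) : ℕ → B → B → M.Group
  | 0, _, _ => 1
  | n + 1, x, y => Cy_alt M n y x * sm M x

private theorem Cy_alt_pow (n : ℕ) : ∀ x y : B,
    (Cy_alt M n x y)⁻¹ * Cy_alt M n y x = (sm M x * sm M y) ^ n := by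
  induction n with
  | zero =>
    intro x y
    simp [Cy_alt]
  | succ n ih =>
    intro x y
    change (Cy_alt M n y x * sm M x)⁻¹ * (Cy_alt M n x y * sm M y) = _
    rw [mul_inv_rev, sm_inv]
    calc sm M x * (Cy_alt M n y x)⁻¹ * (Cy_alt M n x y * sm M y)
        = sm M x * ((Cy_alt M n y x)⁻¹ * Cy_alt M n x y) * sm M y := by
          simp only [mul_assoc]
      _ = sm M x * (sm M y * sm M x) ^ n * sm M y := by rw [ih]
      _ = (sm M x * sm M y) ^ (n + 1) := by
          rw [← mul_pow_mul, pow_succ]
          simp only [mul_assoc]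

private theorem Cy_alt_eq (n : ℕ) : ∀ (x y : B) (u : M.Group), P = {x, y} → u ∈ par M P →
    len M u = n + 1 → len M (u * sm M x) + 1 = len M u → u = Cy_alt M (n + 1) x y := by
  induction n with
  | zero =>
    intro x y u _ _ hl h1
    have h2 : u * sm M x = 1 := len_eq_zero.1 (by omega)
    change u = 1 * sm M x
    rw [one_mul, ← sm_inv x]
    exact eq_inv_of_mul_eq_one_left h2
  | succ n ih =>
    intro x y u hP hu hl h1
    have hx : x ∈ P := by rw [hP]; simp
    have hv : u * sm M x ∈ par M P := mul_mem hu (sm_mem_par hx)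
    have hvl : len M (u * sm M x) = n + 1 := by omega
    have hne : u * sm M x ≠ 1 := by
      intro h
      rw [h, len_one] at hvl
      omega
    have hcan : u * sm M x * sm M x = u := by rw [mul_assoc, sm_sm, mul_one]
    obtain ⟨c, hc, h2⟩ := exists_descR hv hne
    have hcy : c = y := by
      rw [hP] at hc
      rcases hc with rfl | hc
      · exfalso
        rw [hcan] at h2
        omega
      · exact hc
    subst hcy
    have h3 := ih c x (u * sm M x) (by rw [hP, Set.pair_comm]) hv hvl h2
    change u = Cy_alt M (n + 1) c x * sm M x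
    rw [← h3, hcan]

theorem no_twoR {b c : B} (h : M b c = 0) {w : M.Group} (h1 : len M (w * sm M b) ≠ len M w + 1)
    (h2 : len M (w * sm M c) ≠ len M w + 1) : False := by
  obtain ⟨p, hp, u, hu, rfl⟩ := exists_XR ({b, c} : Set B) w
  have hb : b ∈ ({b, c} : Set B) := by simp
  have hc : c ∈ ({b, c} : Set B) := by simp
  rw [mul_assoc, len_XR_mul hp hu, len_XR_mul hp (mul_mem hu (sm_mem_par hb))] at h1
  rw [mul_assoc, len_XR_mul hp hu, len_XR_mul hp (mul_mem hu (sm_mem_par hc))] at h2
  have h3 : len M (u * sm M b) + 1 = len M u := by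
    rcases Cy_len_mul_sm b u with h | h
    · omega
    · exact h
  have h4 : len M (u * sm M c) + 1 = len M u := by
    rcases Cy_len_mul_sm c u with h | h
    · omega
    · exact h
  obtain ⟨n, hn⟩ : ∃ n, len M u = n + 1 := ⟨len M u - 1, by omega⟩
  have h5 := Cy_alt_eq n b c u rfl hu hn h3
  have h6 := Cy_alt_eq n c b u (Set.pair_comm b c) hu hn h4
  have h7 := Cy_alt_pow (M := M) (n + 1) b c
  rw [← h5, ← h6, inv_mul_cancel] at h7
  have h8 := order_dvd h7.symm
  rw [h, zero_dvd_iff] at h8
  omega

theorem no_twoL {b c : B} (h : M b c = 0) {w : M.Group} (h1 : len M (sm M b * w) ≠ len M w + 1)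
    (h2 : len M (sm M c * w) ≠ len M w + 1) : False := by
  refine no_twoR h (w := w⁻¹) ?_ ?_
  · rw [KLD.len_mul_sm, inv_inv, len_inv]
    exact h1
  · rw [KLD.len_mul_sm, inv_inv, len_inv]
    exact h2

end cy

end Pool.Agent.Helper35.AM
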