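import Pool.Agent.Helper35.AM.Lo2

/-!
# The leading coefficients of the projections
-/

/- PROOF HINTS (conventions: see Df.lean)
Lo3. pi_nu: Id2 with the left unit d' = v' y' of c = x v: sum_c' gc(d',c,c') pi(u,c') = nu(d') pi(u,c) = [y'x=1] gc(v',v,u) <> 0; so y' = x^-1, and p2 in W_Q (nu u <> 0): v' = v^-1; so
 d' = v^-1 x^-1 = (x v)^-1; nu d' <> 0 so d'^-1 = d', x v = d'. pi_gc: Id2 with (x v)^-1 = v^-1 x^-1 and x v: sum_c' gc(..,c') pi(u,c') = gc v^-1 v u; a term with pi <> 0 has nu c' <> 0 (pi_nu), so c' = c by the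
 uniqueness in p3; so the sum is gc(..,c) pi(u,c) <> 0. nu_eq: p 1 c = T.repr(EQ C_c) 1 = sum ps(u,c) p 1 u; cf_mul_lead.
-/

namespace Pool.Agent.Helper35.AM

open Pool.Agent.Helper35.KL

section lo3

variable {B : Type} {M : CoxeterMatrix B} {L : M.Group → ℤ} {H : Type} [Ring H] [Algebra LP H]
variable (D : KLD M L H) {P Q : Set B} (hQP : Q ⊆ P) {la : M.Group → ℕ}
variable (hP : Loc D P la)

open scoped Classical in
theorem ps_mem {u c : M.Group} (hc : c ∈ par M Q) : ps D Q u c = if u = c then 1 else 0 := by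
  rw [ps, EQ_of_mem D (C_mem_HQ D hc), Module.Basis.repr_self, Finsupp.single_apply]
  by_cases h : u = c
  · rw [if_pos h, if_pos h.symm]
  · rw [if_neg h, if_neg (fun h' => h h'.symm)]

/-- The coordinates of the projection of `C c` are negative if `c` is not in the subgroup. -/
theorem ps_neg {u c : M.Group} (hc : c ∉ par M Q) : Dle (-1) (ps D Q u c) := by
  classical
  have h1 : EQ D Q (D.C c) ∈ Lat D.T (-1) := by
    intro w
    rw [repr_EQ]
    split_ifs with hw
    · have h2 := D.C_T c w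
      have h3 : w ≠ c := fun h => hc (h ▸ hw)
      have h4 : D.T.repr (D.C c - D.T c) w = D.T.repr (D.C c) w := by
        rw [map_sub, Finsupp.sub_apply, Module.Basis.repr_self, Finsupp.single_apply,
          if_neg (fun h => h3 h.symm), sub_zero]
      rw [← h4]
      exact h2
    · exact Dle.zero _
  exact (lat_cmp D.T D.C D.T_sub_C_neg h1).1 u

theorem pi_zero {u c : M.Group} (hc : c ∉ par M Q) (h : la u = la c) : pi D Q la u c = 0 := by
  rw [pi, h, sub_self]
  exact ps_neg D hc 0 (by omega)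

private theorem lo3_mem_supp {u c : M.Group} (h : u ∈ (D.C.repr (EQ D Q (D.C c))).support) :
    u ∈ par M Q := by
  by_contra hne
  exact Finsupp.mem_support_iff.1 h ((mem_HQ_C D).1 (EQ_mem D _) u hne)

include hQP hP in
theorem nu_eq {c : M.Group} (hc : c ∈ par M P) :
    nu D la c = ∑ u ∈ (D.C.repr (EQ D Q (D.C c))).support, pi D Q la u c * nu D la u := by
  classical
  have h1 : D.p 1 c = ∑ u ∈ (D.C.repr (EQ D Q (D.C c))).support, ps D Q u c * D.p 1 u := by
    have h2 : D.p 1 c = D.T.repr (EQ D Q (D.C c)) 1 := by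
      rw [repr_EQ, if_pos (Subgroup.one_mem _)]
      rfl
    have h3 : EQ D Q (D.C c) = ∑ u ∈ (D.C.repr (EQ D Q (D.C c))).support,
        ps D Q u c • D.C u := by
      conv_lhs => rw [← D.C.linearCombination_repr (EQ D Q (D.C c))]
      rw [Finsupp.linearCombination_apply, Finsupp.sum]
      rfl
    rw [h2]
    conv_lhs => rw [h3]
    rw [map_sum, Finsupp.finsetSum_apply]
    refine Finset.sum_congr rfl fun u _ => ?_
    rw [map_smul, Finsupp.smul_apply, smul_eq_mul]
    rfl
  rw [nu, h1, cf_sum]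
  refine Finset.sum_congr rfl fun u hu => ?_
  have hu' := lo3_mem_supp D hu
  have h2 : (-(la c : ℤ)) = ((la u : ℤ) - la c) + (-(la u : ℤ)) := by ring
  rw [h2, cf_mul_lead (L2a D hQP hP hu' hc) (hP.p1 u (par_mono hQP hu'))]
  rfl

include hQP hP in
/-- If `u` and `c` are related and `u` is distinguished, then `c` is distinguished. -/
theorem pi_nu {x v u : M.Group} (hx : x ∈ XR M Q) (hx' : x ∈ par M P) (hv : v ∈ par M Q)
    (hu : u ∈ par M Q) (h1 : pi D Q la u (x * v) ≠ 0) (h2 : nu D la u ≠ 0) :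
    nu D la (x * v) ≠ 0 ∧ (x * v)⁻¹ = x * v ∧ gc D la v⁻¹ v u ≠ 0 := by
  classical
  have hvP : v ∈ par M P := par_mono hQP hv
  have hc : x * v ∈ par M P := Subgroup.mul_mem _ hx' hvP
  obtain ⟨d, hd, hd1, -, -, hd4, hd5⟩ := unitL D hP hc
  obtain ⟨v', hv', y', hy', hdv⟩ := exists_XL Q d
  have hy'P : y' ∈ par M P := by
    have h3 : y' = v'⁻¹ * d := by rw [hdv]; group
    rw [h3]
    exact Subgroup.mul_mem _ (Subgroup.inv_mem _ (par_mono hQP hv')) hd
  have h3 := Id2 D hQP hP hv' hy' hy'P hx hx' hv hu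
  rw [← hdv] at h3
  have h4 : ∑ c ∈ (D.C.repr (D.C d * D.C (x * v))).support,
      gc D la d (x * v) c * pi D Q la u c = nu D la d * pi D Q la u (x * v) := by
    rw [Finset.sum_eq_single (x * v)]
    · rw [hd4]
    · intro c hcs hne
      have h5 : c ∈ par M P := h_mem D hd hc (Finsupp.mem_support_iff.1 hcs)
      rw [hd5 c h5 hne, zero_mul]
    · intro hns
      have h5 : D.h d (x * v) (x * v) = 0 := Finsupp.notMem_support_iff.1 hns
      have h6 : gc D la d (x * v) (x * v) = 0 := by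
        rw [gc, h5, cf_zero]
      rw [h6, zero_mul]
  rw [h4] at h3
  have h5 : nu D la d * pi D Q la u (x * v) ≠ 0 := mul_ne_zero hd1 h1
  have h6 : y' * x = 1 := by
    by_contra hne
    rw [if_neg hne] at h3
    exact h5 h3
  rw [if_pos h6] at h3
  have h7 : gc D la v' v u ≠ 0 := by
    rw [← h3]
    exact h5
  have h8 : v' = v⁻¹ := (loc_sub D hQP hP).p2 v' hv' v hv u hu h2 h7
  have h9 : y' = x⁻¹ := eq_inv_of_mul_eq_one_left h6
  have h10 : d = (x * v)⁻¹ := by rw [hdv, h8, h9, mul_inv_rev]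
  have h11 : (x * v)⁻¹ = x * v := by
    have h12 := hP.inv d hd hd1
    rw [h10, inv_inv] at h12
    exact h12.symm
  refine ⟨?_, h11, ?_⟩
  · rw [← h11, ← h10]
    exact hd1
  · rw [← h8]
    exact h7

include hQP hP in
theorem pi_gc {x v u c : M.Group} (hx : x ∈ XR M Q) (hx' : x ∈ par M P) (hv : v ∈ par M Q)
    (hc : c ∈ par M P) (hc' : nu D la c ≠ 0) (h : gc D la (x * v)⁻¹ (x * v) c ≠ 0)
    (hu : u ∈ par M Q) (h1 : pi D Q la u c ≠ 0) (h2 : nu D la u ≠ 0) :
    gc D la v⁻¹ v u ≠ 0 := by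
  classical
  have hvP : v ∈ par M P := par_mono hQP hv
  have hxv : x * v ∈ par M P := Subgroup.mul_mem _ hx' hvP
  have h3 := Id2 D hQP hP (Subgroup.inv_mem _ hv) (inv_mem_XL.2 hx) (Subgroup.inv_mem _ hx')
    hx hx' hv hu
  rw [if_pos (inv_mul_cancel x), ← mul_inv_rev] at h3
  have h4 : ∑ c' ∈ (D.C.repr (D.C (x * v)⁻¹ * D.C (x * v))).support,
      gc D la (x * v)⁻¹ (x * v) c' * pi D Q la u c' =
      gc D la (x * v)⁻¹ (x * v) c * pi D Q la u c := by
    rw [Finset.sum_eq_single c]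
    · intro c' hcs hne
      have h5 : c' ∈ par M P :=
        h_mem D (Subgroup.inv_mem _ hxv) hxv (Finsupp.mem_support_iff.1 hcs)
      by_contra hne'
      have h6 : pi D Q la u c' ≠ 0 := fun h' => hne' (by rw [h', mul_zero])
      have h7 : gc D la (x * v)⁻¹ (x * v) c' ≠ 0 := fun h' => hne' (by rw [h', zero_mul])
      obtain ⟨x'', hx'', v'', hv'', hcx⟩ := exists_XR Q c'
      have hx''P : x'' ∈ par M P := by
        have h8 : x'' = c' * v''⁻¹ := by rw [hcx]; group
        rw [h8]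
        exact Subgroup.mul_mem _ h5 (Subgroup.inv_mem _ (par_mono hQP hv''))
      have h8 : nu D la c' ≠ 0 := by
        rw [hcx]
        exact (pi_nu D hQP hP hx'' hx''P hv'' hu (by rw [← hcx]; exact h6) h2).1
      obtain ⟨z, -, -, -, -, hz⟩ := hP.p3 (x * v) hxv
      exact hne ((hz c' h5 h8 h7).trans (hz c hc hc' h).symm)
    · intro hns
      have h5 : D.h (x * v)⁻¹ (x * v) c = 0 := Finsupp.notMem_support_iff.1 hns
      exact absurd (by rw [gc, h5, cf_zero]) h
  rw [← h3, h4]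
  exact mul_ne_zero h h1

end lo3

end Pool.Agent.Helper35.AM
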