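import Pool.Agent.Helper35.AM.Ep2
import Pool.Agent.Helper35.AM.Lo3

/-!
# The distinguished elements of the amalgam
-/

/- PROOF HINTS (conventions: see Df.lean)
Dd. nn_three: k = la g = a z >= 1 (z <> 1), N = k. nn z = -(ep_N T_z).coeff(-N) (ep_T_lead). 0 = ep(T_pC_gT_r) = ep T_z + sum_{g1 not in W_I, g1<>g} (negative) ep T_{pg1r} (Dle(-N-1) or 0) + sum_u ps(u,g) ep(T_pC_uT_r). So nn z = sum_u pi(u,g) e_u with e_u = [r p=1][not Occ N (p u)] nu u
 (ep_TCT_lead) (u with la u >= N give 0). If nn z <> 0 some term is <> 0; pi_nu gives nu g <> 0.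
-/

namespace Pool.Agent.Helper35.AM

open Pool.Agent.Helper35.KL

section dd

variable {B : Type} {M : CoxeterMatrix B} {L : M.Group → ℤ} {H : Type} [Ring H] [Algebra LP H]
variable {D : KLD M L H} {P : Bool → Set B} {la : M.Group → ℕ} (hD : Dat D P la)

/-- The coordinate of `C g` at `T g`. -/
private theorem Dd_repr_self (g : M.Group) : D.T.repr (D.C g) g = 1 := by
  have h1 := (mem_Vl_iff D.T (len M) _ _).1 (D.C_sub_T g) g
  have h2 : D.T.repr (D.C g - D.T g) g = 0 := by
    by_contra h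
    exact lt_irrefl _ (h1 h)
  rw [map_sub, Finsupp.sub_apply, Module.Basis.repr_self, Finsupp.single_eq_same] at h2
  exact sub_eq_zero.1 h2

private theorem Dd_repr_ne {g g1 : M.Group} (h : g1 ≠ g) : Dle (-1) (D.T.repr (D.C g) g1) := by
  have h1 := D.C_T g g1
  rw [map_sub, Finsupp.sub_apply, Module.Basis.repr_self, Finsupp.single_eq_of_ne h,
    sub_zero] at h1
  exact h1

/-- The part of `C g` outside of the parabolic subgroup. -/
private theorem Dd_split (Q : Set B) (x : H) [DecidablePred (· ∈ par M Q)] :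
    x = EQ D Q x + ∑ g1 ∈ (D.T.repr x).support.filter (fun w => ¬ w ∈ par M Q),
      D.T.repr x g1 • D.T g1 := by
  classical
  apply D.T.repr.injective
  ext w
  rw [map_add, Finsupp.add_apply, repr_EQ, map_sum, Finsupp.finsetSum_apply]
  simp_rw [map_smul, Finsupp.smul_apply, Module.Basis.repr_self, Finsupp.single_apply, smul_eq_mul,
    mul_ite, mul_one, mul_zero]
  rw [Finset.sum_ite_eq']
  by_cases h : w ∈ par M Q
  · rw [if_pos h, if_neg, add_zero]
    intro h1
    exact (Finset.mem_filter.1 h1).2 h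
  · rw [if_neg h, zero_add]
    by_cases h2 : D.T.repr x w = 0
    · rw [h2, ite_self]
    · rw [if_pos (Finset.mem_filter.2 ⟨Finsupp.mem_support_iff.2 h2, h⟩)]

include hD in
/-- The distinguished elements, in terms of a syllable with maximal value. -/
theorem nn_three {i : Bool} {p g r : M.Group} (hp : p ∈ XR M (P i)) (hg : g ∈ par M (P i))
    (hg' : g ∉ par M (PI P)) (hr : r ∈ XL M (P i)) (hk : la g = D.a (p * g * r))
    (h : D.nn (p * g * r) ≠ 0) :
    r * p = 1 ∧ nu D la g ≠ 0 ∧ ∃ u ∈ par M (PI P), nu D la u ≠ 0 ∧ pi D (PI P) la u g ≠ 0 ∧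
      ¬ Occ M P la (la g) (p * u) := by
  classical
  have hlen : ∀ g1 ∈ par M (P i), g1 ∉ par M (PI P) → p * g1 * r ≠ 1 := by
    intro g1 h1 h2 h3
    have h4 := len_three hD.am hp h1 h2 hr
    rw [h3, len_one] at h4
    have h5 : len M g1 = 0 := by omega
    rw [len_eq_zero] at h5
    exact h2 (h5 ▸ one_mem _)
  have hN : 0 < la g := by
    rw [hk]
    exact D.a_pos hD.wt (bounded_am hD) (hlen g hg hg')
  have hal : al M P la (p * g * r) = la g := by
    rw [← a_eq_al hD, hk]
  have hPI : PI P ⊆ P i := PI_sub i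
  have hp' : p ∈ XR M (PI P) := XR_mono hPI hp
  have hr' : r ∈ XL M (PI P) := XL_mono hPI hr
  -- the linear form
  let φ : H →ₗ[LP] LP := (ep hD (la g)).comp
    ((LinearMap.mulRight LP (D.T r)).comp (LinearMap.mulLeft LP (D.T p)))
  have hφ : ∀ x, φ x = ep hD (la g) (D.T p * x * D.T r) := fun x => rfl
  have h0 : φ (D.C g) = 0 := by
    rw [hφ]
    apply ep_II
    have hI := idl hD (la g)
    exact hI.II_mulR _ (hI.II_mulL _ (C_mem_II (Occ_of_mem hg le_rfl)))
  have hCg : ∀ g1, D.T.repr (D.C g) g1 ≠ 0 → g1 ∈ par M (P i) := by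
    intro g1 h1
    by_contra h2
    exact h1 ((mem_HQ D).1 (C_mem_HQ D hg) g1 h2)
  -- the first part
  have h1 : (∑ g1 ∈ (D.T.repr (D.C g)).support.filter (fun w => ¬ w ∈ par M (PI P)),
      D.T.repr (D.C g) g1 * φ (D.T g1)).coeff (-(la g : ℤ)) = -D.nn (p * g * r) := by
    rw [cf_sum, Finset.sum_eq_single g]
    · rw [Dd_repr_self, one_mul, hφ, hD.T_three hp hg hg' hr]
      exact ep_T_lead hD hN hal
    · intro g1 h2 h3
      rw [Finset.mem_filter, Finsupp.mem_support_iff] at h2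
      have h4 := hCg g1 h2.1
      rw [hφ, hD.T_three hp h4 h2.2 hr]
      have h5 : Dle (-(la g : ℤ)) (ep hD (la g) (D.T (p * g1 * r))) := by
        by_cases h6 : Occ M P la (la g) (p * g1 * r)
        · exact ep_T_dle hD hN h6
        · rw [ep_T hD hN h6, if_neg (hlen g1 h4 h2.2)]
          exact Dle.zero _
      exact (Dd_repr_ne h3).mul h5 _ (by omega)
    · intro h2
      exfalso
      apply h2
      rw [Finset.mem_filter, Finsupp.mem_support_iff, Dd_repr_self]
      exact ⟨one_ne_zero, hg'⟩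
  -- the second part
  have h2 : (φ (EQ D (PI P) (D.C g))).coeff (-(la g : ℤ)) =
      ∑ u ∈ (D.C.repr (EQ D (PI P) (D.C g))).support, pi D (PI P) la u g *
        (if r * p = 1 ∧ ¬ Occ M P la (la g) (p * u) then nu D la u else 0) := by
    conv_lhs => rw [← D.C.linearCombination_repr (EQ D (PI P) (D.C g))]
    rw [Finsupp.linearCombination_apply, Finsupp.sum, map_sum, cf_sum]
    refine Finset.sum_congr rfl fun u hu => ?_
    rw [Finsupp.mem_support_iff] at hu
    have hu' : u ∈ par M (PI P) := by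
      by_contra h3
      exact hu ((mem_HQ_C D).1 (EQ_mem D _) u h3)
    rw [map_smul, smul_eq_mul, hφ]
    have h4 := cf_mul_lead (L2a D hPI (hD.loc i) hu' hg) (ep_TCT hD hN hp' hr' hu')
    rw [show (la u : ℤ) - la g + -la u = -(la g : ℤ) by ring] at h4
    rw [ep_TCT_lead hD hN hp' hr' hu'] at h4
    exact h4
  have h3 : φ (D.C g) = φ (EQ D (PI P) (D.C g)) +
      ∑ g1 ∈ (D.T.repr (D.C g)).support.filter (fun w => ¬ w ∈ par M (PI P)),
        D.T.repr (D.C g) g1 * φ (D.T g1) := by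
    conv_lhs => rw [Dd_split (D := D) (PI P) (D.C g)]
    rw [map_add, map_sum]
    simp_rw [map_smul, smul_eq_mul]
  have h4 := congrArg (fun a : LP => a.coeff (-(la g : ℤ))) h3
  simp only [h0, cf_add, h1, h2, cf_zero] at h4
  have h5 : ∑ u ∈ (D.C.repr (EQ D (PI P) (D.C g))).support, pi D (PI P) la u g *
      (if r * p = 1 ∧ ¬ Occ M P la (la g) (p * u) then nu D la u else 0) ≠ 0 := by
    intro h6
    rw [h6] at h4
    apply h
    omega
  obtain ⟨u, hu, h6⟩ := Finset.exists_ne_zero_of_sum_ne_zero h5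
  rw [Finsupp.mem_support_iff] at hu
  have hu' : u ∈ par M (PI P) := by
    by_contra h3
    exact hu ((mem_HQ_C D).1 (EQ_mem D _) u h3)
  have h7 : pi D (PI P) la u g ≠ 0 := left_ne_zero_of_mul h6
  have h8 := right_ne_zero_of_mul h6
  have h9 : r * p = 1 ∧ ¬ Occ M P la (la g) (p * u) := by
    by_contra h10
    exact h8 (if_neg h10)
  rw [if_pos h9] at h8
  refine ⟨h9.1, ?_, u, hu', h8, h7, h9.2⟩
  obtain ⟨x, hx, v, hv, hxv⟩ := exists_XR (PI P) g
  have hx' : x ∈ par M (P i) := by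
    have h10 : x = g * v⁻¹ := by rw [hxv, mul_assoc, mul_inv_cancel, mul_one]
    rw [h10]
    exact mul_mem hg (inv_mem (par_mono hPI hv))
  rw [hxv] at h7 ⊢
  exact (pi_nu D hPI (hD.loc i) hx hx' hv hu' h7 h8).1

end dd

end Pool.Agent.Helper35.AM
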