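import Pool.Agent.Helper35.AM.Lq

/-!
# Products in a filtration with leading terms: removing the middle syllables
-/

/- PROOF HINTS (conventions: see Df.lean)
Lq2. peel: g = v y, g' = x u. C_gC_g' = sum_c h_c C_c. la c >= N: in II. la c < N: h_c is Dle(la c), use R1: modulo Lam(kappa-1): h_c T_pC_cT_r = [c not in W_Q] h_c T_{pcr} + h_c T_pEQ(C_c)T_r. It remains
 T_p s' T_r with s' = sum_{la c<N} h_c EQ(C_c) minus [yx=1] C_vC_u: apply exp_mem with m = -1: for w in W_Q, la w < N: C.repr(s') w = C.repr(EQ(C_gC_g')) w - sum_{la c>=N} h_c ps(w,c); the last sum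
 is Dle(la w) with coefficient sum gc(g,g',c) pi(w,c) = 0 (q: gc <> 0 => la c = la g < N); by Id1 the first has leading coefficient [yx=1] gc v u w, equal to that of [yx=1] C_vC_u.
-/

namespace Pool.Agent.Helper35.AM

open Pool.Agent.Helper35.KL

section lq2

variable {B : Type} {M : CoxeterMatrix B} {L : M.Group → ℤ} {H : Type} [Ring H] [Algebra LP H]
variable (D : KLD M L H) {hv : M.Group → Prop} {A : Type} [AddCommGroup A] (F : Lf D hv A)
variable {P Q : Set B} (hQP : Q ⊆ P) {la : M.Group → ℕ} (hP : Loc D P la) (hI : Idl D hv)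
variable {N : ℕ} {κ T0 : ℤ} (hin : ∀ c ∈ par M P, N ≤ la c → hv c)
variable (hκ : ∀ m : ℕ, m < N → T0 ≤ κ - m)
variable {p r : M.Group}
variable (hT : ∀ g ∈ par M P, g ∉ par M Q → D.T p * D.T g * D.T r = D.T (p * g * r) ∧
  D.T (p * g * r) ∈ F.Lam T0)
variable (hU : ∀ u ∈ par M Q, la u < N → D.T p * D.C u * D.T r ∈ F.Lam (κ - la u))

theorem lq2_EQ (X : H) (w : M.Group) : D.C.repr (EQ D Q X) w =
    ∑ c ∈ (D.C.repr X).support, D.C.repr X c * ps D Q w c := by
  conv_lhs => rw [← D.C.linearCombination_repr X]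
  rw [Finsupp.linearCombination_apply, Finsupp.sum, map_sum, map_sum, Finsupp.finsetSum_apply]
  refine Finset.sum_congr rfl fun c _ => ?_
  rw [map_smul, map_smul, Finsupp.smul_apply, smul_eq_mul, ps]

include hQP hP hI hin hκ hT hU in
open scoped Classical in
/-- The main terms of `T p * C (v * y) * C (x * u) * T r`. -/
theorem peel {v y x u : M.Group} (hv' : v ∈ par M Q) (hy : y ∈ XL M Q) (hy' : y ∈ par M P)
    (hx : x ∈ XR M Q) (hx' : x ∈ par M P) (hu : u ∈ par M Q) (hN : la (v * y) < N) :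
    D.T p * (D.C (v * y) * D.C (x * u)) * D.T r -
      (∑ c ∈ (D.C.repr (D.C (v * y) * D.C (x * u))).support,
        if c ∉ par M Q ∧ la c < N then D.h (v * y) (x * u) c • D.T (p * c * r) else 0) -
      (if y * x = 1 then D.T p * (D.C v * D.C u) * D.T r else 0) ∈ F.Lam (κ - 1) := by
  have hg : v * y ∈ par M P := (par M P).mul_mem (par_mono hQP hv') hy'
  have hg' : x * u ∈ par M P := (par M P).mul_mem hx' (par_mono hQP hu)
  set X := D.C (v * y) * D.C (x * u) with hX
  set S := (D.C.repr X).support with hS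
  have hcP : ∀ c ∈ S, c ∈ par M P := by
    intro c hc
    exact h_mem D hg hg' (Finsupp.mem_support_iff.1 hc)
  have hh : ∀ c, D.C.repr X c = D.h (v * y) (x * u) c := fun c => rfl
  -- the elements of the Hecke algebra of the small parabolic subgroup
  obtain ⟨s1, hs1⟩ : ∃ s1, s1 = ∑ c ∈ S, if la c < N then D.C.repr X c • EQ D Q (D.C c) else 0 :=
    ⟨_, rfl⟩
  obtain ⟨s0, hs0⟩ : ∃ s0, s0 = if y * x = 1 then D.C v * D.C u else 0 := ⟨_, rfl⟩
  have m1 : s1 ∈ HQ D Q := by
    rw [hs1]
    refine Submodule.sum_mem _ fun c _ => ?_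
    split_ifs
    · exact Submodule.smul_mem _ _ (EQ_mem D _)
    · exact Submodule.zero_mem _
  have m0 : s0 ∈ HQ D Q := by
    rw [hs0]
    split_ifs
    · exact mul_mem_HQ D (C_mem_HQ D hv') (C_mem_HQ D hu)
    · exact Submodule.zero_mem _
  -- their coordinates
  have k1 : ∀ w ∈ par M Q, la w < N → Dle (la w + (-1)) (D.C.repr (s1 - s0) w) := by
    intro w hw hwN
    have e1 : D.C.repr s1 w = D.C.repr (EQ D Q X) w -
        ∑ c ∈ S, if la c < N then 0 else D.C.repr X c * ps D Q w c := by
      rw [hs1, lq2_EQ, ← hS, ← Finset.sum_sub_distrib, map_sum, Finsupp.finsetSum_apply]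
      refine Finset.sum_congr rfl fun c _ => ?_
      split_ifs
      · rw [map_smul, Finsupp.smul_apply, smul_eq_mul, sub_zero, ps]
      · rw [map_zero, Finsupp.zero_apply, sub_self]
    have e2 := Id1 D hQP hP hv' hy hy' hx hx' hu hw
    rw [← hX] at e2
    have e3 : ∀ c ∈ S, Dle (la w) (if la c < N then 0 else D.C.repr X c * ps D Q w c) ∧
        (if la c < N then 0 else D.C.repr X c * ps D Q w c).coeff (la w) = 0 := by
      intro c hc
      split_ifs with hcN
      · exact ⟨Dle.zero _, cf_zero _⟩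
      · have d1 : Dle (la c) (D.C.repr X c) := hP.dle _ hg _ hg' c (hcP c hc)
        have d2 := L2a D hQP hP hw (hcP c hc)
        refine ⟨d1.mul_of_eq d2 (by omega), ?_⟩
        have d3 := cf_mul_lead d1 d2
        rw [show (la c : ℤ) + (la w - la c) = la w by ring] at d3
        rw [d3]
        have d4 : (D.C.repr X c).coeff (la c) = 0 := by
          by_contra hne
          have d5 := hP.q _ hg _ hg' c (hcP c hc) hne
          omega
        rw [d4, zero_mul]
    have e4 : Dle (la w) (∑ c ∈ S, if la c < N then 0 else D.C.repr X c * ps D Q w c) :=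
      Dle.sum _ fun c hc => (e3 c hc).1
    have e5 : (∑ c ∈ S, if la c < N then 0 else D.C.repr X c * ps D Q w c).coeff (la w) = 0 := by
      rw [cf_sum]
      exact Finset.sum_eq_zero fun c hc => (e3 c hc).2
    have e6 : Dle (la w) (D.C.repr s0 w) ∧ (D.C.repr s0 w).coeff (la w) =
        if y * x = 1 then gc D la v u w else 0 := by
      rw [hs0]
      have hvP := par_mono hQP hv'
      have huP := par_mono hQP hu
      have hwP := par_mono hQP hw
      split_ifs
      · exact ⟨hP.dle v hvP u huP w hwP, rfl⟩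
      · rw [map_zero, Finsupp.zero_apply]
        exact ⟨Dle.zero _, cf_zero _⟩
    have e7 : D.C.repr (s1 - s0) w = D.C.repr (EQ D Q X) w -
        (∑ c ∈ S, if la c < N then 0 else D.C.repr X c * ps D Q w c) - D.C.repr s0 w := by
      rw [map_sub, Finsupp.sub_apply, e1]
    have e8 : Dle (la w) (D.C.repr (s1 - s0) w) := by
      rw [e7]
      exact (e2.1.sub e4).sub e6.1
    have e9 : (D.C.repr (s1 - s0) w).coeff (la w) = 0 := by
      rw [e7, cf_sub, cf_sub, e5, e6.2, e2.2]
      ring
    exact e8.of_lead e9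
  have k2 := exp_mem D F hI hin hU hQP (Submodule.sub_mem _ m1 m0) k1
  -- the expansion
  have k3 : D.T p * X * D.T r -
      (∑ c ∈ S, if c ∉ par M Q ∧ la c < N then D.h (v * y) (x * u) c • D.T (p * c * r) else 0) -
      D.T p * s1 * D.T r ∈ F.Lam (κ - 1) := by
    have e1 : D.T p * s1 * D.T r = ∑ c ∈ S, if la c < N then
        D.C.repr X c • (D.T p * EQ D Q (D.C c) * D.T r) else 0 := by
      rw [hs1, Finset.mul_sum, Finset.sum_mul]
      refine Finset.sum_congr rfl fun c _ => ?_
      split_ifs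
      · rw [mul_smul_comm, smul_mul_assoc]
      · rw [mul_zero, zero_mul]
    rw [e1, lq_expand D.C (D.T p) (D.T r) X, ← hS, ← Finset.sum_sub_distrib,
      ← Finset.sum_sub_distrib]
    refine AddSubgroup.sum_mem _ fun c hc => ?_
    by_cases hcN : la c < N
    · have r1 := R1 D F hQP hP hI hin hκ hT hU (hcP c hc) hcN
      have d1 : Dle (la c) (D.C.repr X c) := hP.dle _ hg _ hg' c (hcP c hc)
      have r2 := F.smul d1 r1
      rw [show (la c : ℤ) + (κ - la c - 1) = κ - 1 by ring] at r2
      rw [if_pos hcN]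
      by_cases hcQ : c ∈ par M Q
      · rw [if_neg (fun h => h.1 hcQ), sub_zero]
        rw [if_pos hcQ, sub_zero, smul_sub] at r2
        exact r2
      · rw [if_pos ⟨hcQ, hcN⟩, ← hh c]
        rw [if_neg hcQ, smul_sub, smul_sub] at r2
        exact r2
    · rw [if_neg (fun h => hcN h.2), if_neg hcN, sub_zero, sub_zero]
      exact F.mem (Submodule.smul_mem _ _ (lq_II D hI (hin c (hcP c hc) (by omega)) _ _)) _
  have k4 : D.T p * s0 * D.T r = if y * x = 1 then D.T p * (D.C v * D.C u) * D.T r else 0 := by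
    rw [hs0]
    split_ifs
    · rfl
    · rw [mul_zero, zero_mul]
  have k5 := AddSubgroup.add_mem _ k3 k2
  rw [← k4]
  convert k5 using 1
  noncomm_ring

end lq2

end Pool.Agent.Helper35.AM
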