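import Pool.Agent.Helper35.AM.Dd
import Pool.Agent.Helper35.AM.Lq2

/-!
# The products at distinguished elements
-/

/- PROOF HINTS (conventions: see Df.lean)
Dd2. P2_aux: k = a z; k = 0: z = 1, h_ne_one. Induction on len y; two_cases x y. (different) x = p u, y = v r: coefficient of z in ld k (T_pC_uC_vT_r) = sum_w gc(u,v,w) tt(p,w,r) z, tt_diff: z = p w r, la w = k, gc(u,v,w) <> 0. If p = r = 1: Loc.p2 in W_I. If p <> 1: p = p'k1 (group !i), g := k1 w, z = p' g r,
 la g = k (>= by la_mul, <= because z is light), nn_three: nu g <> 0 and u0 with pi(u0,g) <> 0, nu u0 <> 0; pi_nu (g = k1 w): gc(w^-1,w,u0) <> 0, so la u0 = la w = k = la g, pi_zero: contradiction. If p = 1, r <> 1: z^-1 = r^-1 w^-1, nn z^-1 = nn z: previous case for z^-1.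
 (same) x = p g, y = g' r, peel with F = LfC, N = k+1, kappa = k (la g <= k as x is light: al_h): (h x y z).coeff k = sum_{c not in W_I, la c = k} gc(g,g',c)[z = p c r] + [y'x'=1] (h (p v) (u r) z).coeff k. First: nn_three: r p = 1, nu c <> 0; Loc.p2: g g' = 1. Second: IH: p v u r = 1, so x y = p v y' x' u r = 1.
-/

namespace Pool.Agent.Helper35.AM

open Pool.Agent.Helper35.KL

section dd2

variable {B : Type} {M : CoxeterMatrix B} {L : M.Group → ℤ} {H : Type} [Ring H] [Algebra LP H]

private theorem dd2_LatL (D : KLD M L H) {Q : Set B} {p : M.Group} (hp : p ∈ XR M Q) {x : H}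
    (hx : x ∈ HQ D Q) {n : ℤ} (hn : x ∈ Lat D.T n) : D.T p * x ∈ Lat D.T n := by
  rw [← D.T.linearCombination_repr x, Finsupp.linearCombination_apply, Finsupp.sum,
    Finset.mul_sum]
  refine AddSubgroup.sum_mem _ fun w _ => ?_
  rw [mul_smul_comm]
  by_cases hw : w ∈ par M Q
  · rw [← D.T_mul _ _ (len_XR_mul hp hw)]
    have h1 := smul_Lat D.T (hn w) (basis_mem_Lat D.T (p * w))
    rwa [add_zero] at h1
  · rw [(mem_HQ D).1 hx w hw, zero_smul]
    exact AddSubgroup.zero_mem _

private theorem dd2_LatR (D : KLD M L H) {Q : Set B} {r : M.Group} (hr : r ∈ XL M Q) {x : H}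
    (hx : x ∈ HQ D Q) {n : ℤ} (hn : x ∈ Lat D.T n) : x * D.T r ∈ Lat D.T n := by
  rw [← D.T.linearCombination_repr x, Finsupp.linearCombination_apply, Finsupp.sum,
    Finset.sum_mul]
  refine AddSubgroup.sum_mem _ fun w _ => ?_
  rw [smul_mul_assoc]
  by_cases hw : w ∈ par M Q
  · rw [← D.T_mul _ _ (len_mul_XL hw hr)]
    have h1 := smul_Lat D.T (hn w) (basis_mem_Lat D.T (w * r))
    rwa [add_zero] at h1
  · rw [(mem_HQ D).1 hx w hw, zero_smul]
    exact AddSubgroup.zero_mem _

private theorem dd2_subL (D : KLD M L H) {Q : Set B} {p g : M.Group} (hp : p ∈ XR M Q)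
    (hg : g ∈ par M Q) : D.C (p * g) - D.T p * D.C g ∈ Lat D.T (-1) := by
  have h1 := dd2_LatL D hp (Submodule.sub_mem _ (C_mem_HQ D hg) (T_mem_HQ D hg))
    (D.C_sub_T_neg g)
  rw [mul_sub, ← D.T_mul _ _ (len_XR_mul hp hg)] at h1
  have h2 : D.C (p * g) - D.T p * D.C g =
      (D.C (p * g) - D.T (p * g)) - (D.T p * D.C g - D.T (p * g)) := by abel
  rw [h2]
  exact AddSubgroup.sub_mem _ (D.C_sub_T_neg _) h1

private theorem dd2_subR (D : KLD M L H) {Q : Set B} {r g : M.Group} (hg : g ∈ par M Q)
    (hr : r ∈ XL M Q) : D.C (g * r) - D.C g * D.T r ∈ Lat D.T (-1) := by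
  have h1 := dd2_LatR D hr (Submodule.sub_mem _ (C_mem_HQ D hg) (T_mem_HQ D hg))
    (D.C_sub_T_neg g)
  rw [sub_mul, ← D.T_mul _ _ (len_mul_XL hg hr)] at h1
  have h2 : D.C (g * r) - D.C g * D.T r =
      (D.C (g * r) - D.T (g * r)) - (D.C g * D.T r - D.T (g * r)) := by abel
  rw [h2]
  exact AddSubgroup.sub_mem _ (D.C_sub_T_neg _) h1

variable {D : KLD M L H} {P : Bool → Set B} {la : M.Group → ℕ} (hD : Dat D P la)

include hD in
private theorem dd2_CC (k : ℕ) {i j : Bool} {p g g' r : M.Group} (hp : p ∈ XR M (P i))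
    (hg : g ∈ par M (P i)) (hg' : g' ∈ par M (P j)) (hr : r ∈ XL M (P j)) :
    D.C (p * g) * D.C (g' * r) - D.T p * (D.C g * D.C g') * D.T r ∈
      LL D (Occ M P la (k + 1)) ((k : ℤ) - 1) := by
  have hI := idl hD (k + 1)
  have hk : ∀ x y, D.C x * D.C y ∈ LL D (Occ M P la (k + 1)) (k : ℤ) := by
    intro x y
    exact LL_mono (by push_cast; omega) (CC_LL hD hI x y)
  have h1 : D.C (p * g) - D.T p * D.C g ∈ LL D (Occ M P la (k + 1)) (-1) :=
    LatT_LL (dd2_subL D hp hg)
  have h2 : D.C (g' * r) - D.C g' * D.T r ∈ LL D (Occ M P la (k + 1)) (-1) :=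
    LatT_LL (dd2_subR D hg' hr)
  have h3 : D.T p * D.C g ∈ LL D (Occ M P la (k + 1)) 0 := by
    have e : D.T p * D.C g = D.C (p * g) - (D.C (p * g) - D.T p * D.C g) := by abel
    rw [e]
    exact AddSubgroup.sub_mem _ (C_LL _) (LL_mono (by omega) h1)
  have h4 := mul_LL hI hk h1 (C_LL (g' * r))
  have h5 := mul_LL hI hk h3 h2
  have e : D.C (p * g) * D.C (g' * r) - D.T p * (D.C g * D.C g') * D.T r =
      (D.C (p * g) - D.T p * D.C g) * D.C (g' * r) +
        D.T p * D.C g * (D.C (g' * r) - D.C g' * D.T r) := by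
    noncomm_ring
  rw [e]
  exact AddSubgroup.add_mem _ (LL_mono (by omega) h4) (LL_mono (by omega) h5)

private theorem dd2_ld (k : ℕ) {x y z : M.Group} (hz : ¬ Occ M P la (k + 1) z) :
    ld D (Occ M P la (k + 1)) k (D.C x * D.C y) z = (D.h x y z).coeff k := by
  classical
  rw [ld_apply, if_neg hz]
  rfl

private theorem dd2_sg {k : ℕ} {w z : M.Group}
    (h : ld D (Occ M P la (k + 1)) 0 (D.C w) z ≠ 0) : z = w := by
  classical
  by_contra hne
  apply h
  rw [ld_apply]
  split_ifs
  · rfl
  · rw [Module.Basis.repr_self, Finsupp.single_apply, if_neg (fun h' => hne h'.symm), cf_zero]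

private theorem dd2_nn_inv (z : M.Group) : D.nn z⁻¹ = D.nn z := by
  rw [KLD.nn, KLD.nn, D.a_inv, D.p_inv 1 z⁻¹, inv_inv, inv_one]

include hD in
private theorem dd2_no {i : Bool} {p w r : M.Group} (hp : p ∈ XR M (P i)) (hp1 : p ≠ 1)
    (hw : w ∈ par M (PI P)) (hr : r ∈ XL M (P (!i))) (hk : la w = D.a (p * w * r)) :
    D.nn (p * w * r) = 0 := by
  by_contra h
  obtain ⟨p', hp', k1, hk1, hk1X, hk1I, hpk, -, -⟩ := splitR hD.am hp hp1
  have hw' : w ∈ par M (P (!i)) := par_mono (PI_sub (!i)) hw
  have hg : k1 * w ∈ par M (P (!i)) := mul_mem hk1 hw'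
  have hg' : k1 * w ∉ par M (PI P) := fun h2 => hk1I (by simpa using mul_mem h2 (inv_mem hw))
  have e : p * w * r = p' * (k1 * w) * r := by
    rw [hpk]
    group
  rw [e] at hk h
  have h1 : la w ≤ la (k1 * w) := (hD.hmono (!i) k1 hk1 w hw' (len_XR_mul hk1X hw)).2
  have h2 : la (k1 * w) ≤ D.a (p' * (k1 * w) * r) := by
    rw [a_eq_al hD, ← Occ_iff hD]
    exact Or.inr ⟨!i, p', hp', k1 * w, hg, hg', r, hr, rfl, le_rfl⟩
  have h3 : la (k1 * w) = D.a (p' * (k1 * w) * r) := le_antisymm h2 (hk ▸ h1)
  obtain ⟨-, -, u0, hu0, hu1, hu2, -⟩ := nn_three hD hp' hg hg' hr h3 h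
  obtain ⟨-, -, h4⟩ := pi_nu D (PI_sub (!i)) (hD.loc (!i)) hk1X hk1 hw hu0 hu2 hu1
  have h5 := (hD.locI.q w⁻¹ (inv_mem hw) w hw u0 hu0 h4).2
  exact hu2 (pi_zero D hg' (by rw [← h5, hk, h3]))

include hD in
/-- The products at distinguished elements. -/
theorem P2_aux {x y z : M.Group} (hz : D.nn z ≠ 0) (h : (D.h x y z).coeff (D.a z) ≠ 0) :
    x * y = 1 := by
  classical
  obtain ⟨k, hk⟩ : ∃ k, D.a z = k := ⟨_, rfl⟩
  rw [hk] at h
  have hal : al M P la z = k := by rw [← a_eq_al hD, hk]
  have hzl : ¬ Occ M P la (k + 1) z := by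
    rw [Occ_iff hD, hal]
    omega
  have hI := idl hD (k + 1)
  obtain ⟨n, hn⟩ : ∃ n, len M y < n := ⟨_, Nat.lt_succ_self _⟩
  induction n generalizing x y with
  | zero => omega
  | succ n ih =>
    have h0 : ld D (Occ M P la (k + 1)) k (D.C x * D.C y) z ≠ 0 := by
      rw [dd2_ld k hzl]
      exact h
    rcases two_cases hD.am x y with ⟨i, p, hp, u, hu, v, hv, r, hr, hx, hy⟩ |
      ⟨i, p, hp, g, hg, hgI, g', hg', hgI', r, hr, hx, hy⟩
    · -- different groups
      have hc := dd2_CC hD k hp (par_mono (PI_sub i) hu) (par_mono (PI_sub (!i)) hv) hr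
      rw [hx, hy, ld_congr hc] at h0
      have e : D.T p * (D.C u * D.C v) * D.T r =
          ∑ w ∈ (D.C.repr (D.C u * D.C v)).support,
            D.h u v w • (D.T p * D.C w * D.T r) := by
        conv_lhs => rw [← D.C.linearCombination_repr (D.C u * D.C v)]
        rw [Finsupp.linearCombination_apply, Finsupp.sum, Finset.mul_sum, Finset.sum_mul]
        refine Finset.sum_congr rfl fun w _ => ?_
        rw [mul_smul_comm, smul_mul_assoc]
        rfl
      rw [e, map_sum, Finsupp.finsetSum_apply] at h0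
      obtain ⟨w, hw, hwz⟩ := Finset.exists_ne_zero_of_sum_ne_zero h0
      have hwI : w ∈ par M (PI P) := h_mem D hu hv (Finsupp.mem_support_iff.1 hw)
      have hwk : la w ≤ k := by
        by_contra hwk
        apply hwz
        have h1 : D.C w ∈ II D (Occ M P la (k + 1)) := C_mem_II (Or.inl ⟨hwI, by omega⟩)
        have h2 := hI.II_mulR (D.T r) (hI.II_mulL (D.T p) h1)
        rw [ld_II (Submodule.smul_mem _ _ h2), Finsupp.zero_apply]
      have h1 : D.T p * D.C w * D.T r ∈ LL D (Occ M P la (k + 1)) ((k : ℤ) - la w) :=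
        LL_mono (by push_cast; omega) (A_low hD hI (XR_mono (PI_sub i) hp)
          (XL_mono (PI_sub (!i)) hr) hwI (show la w < k + 1 by omega))
      have h2 := ld_smul (hD.locI.dle u hu v hv w hwI) h1
      rw [show (la w : ℤ) + ((k : ℤ) - la w) = k by ring] at h2
      rw [h2, Finsupp.smul_apply, smul_eq_mul] at hwz
      have hgc : gc D la u v w ≠ 0 := left_ne_zero_of_mul hwz
      have htt : tt D P la k p w r z ≠ 0 := right_ne_zero_of_mul hwz
      rw [tt_diff hD hp hwI hr hwk] at htt
      have hlk : la w = k := by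
        by_contra hne
        rw [if_neg hne] at htt
        exact htt rfl
      rw [if_pos hlk] at htt
      have hzw : z = p * w * r := dd2_sg htt
      by_cases hp1 : p = 1
      · by_cases hr1 : r = 1
        · rw [hp1, hr1, one_mul, mul_one] at hzw
          subst hzw
          have h3 : nu D la z ≠ 0 := by
            have h4 := nn_al hD z
            rw [nu, al_mem hD (par_mono (PI_sub i) hwI)] at h4
            rw [nu, ← h4]
            exact hz
          have h5 := hD.locI.p2 u hu v hv z hwI h3 hgc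
          rw [hx, hy, hp1, hr1, one_mul, mul_one, h5, inv_mul_cancel]
        · exfalso
          have h6 : z⁻¹ = r⁻¹ * w⁻¹ * 1 := by
            rw [hzw, hp1]
            group
          have h7 : la w⁻¹ = D.a (r⁻¹ * w⁻¹ * 1) := by
            rw [← h6, D.a_inv, hk, ← hlk]
            exact hD.locI.lainv w hwI
          have h8 := dd2_no hD (i := !i) (inv_mem_XR.2 hr) (inv_ne_one.2 hr1) (inv_mem hwI)
            (one_mem_XL) h7
          rw [← h6, dd2_nn_inv] at h8
          exact hz h8
      · exfalso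
        have h8 := dd2_no hD hp hp1 hwI hr (by rw [← hzw, hk, hlk])
        rw [← hzw] at h8
        exact hz h8
    · -- the same group
      obtain ⟨v, hv, y', hy', hgv⟩ := exists_XL (PI P) g
      obtain ⟨x', hx', u, hu, hgu⟩ := exists_XR (PI P) g'
      have hvi : v ∈ par M (P i) := par_mono (PI_sub i) hv
      have hui : u ∈ par M (P i) := par_mono (PI_sub i) hu
      have hy'' : y' ∈ par M (P i) := by
        have e : y' = v⁻¹ * g := by
          rw [hgv]
          group
        rw [e]
        exact mul_mem (inv_mem hvi) hg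
      have hx'' : x' ∈ par M (P i) := by
        have e : x' = g' * u⁻¹ := by
          rw [hgu]
          group
        rw [e]
        exact mul_mem hg' (inv_mem hui)
      have hgk : la g < k + 1 := by
        have hne : D.h x y z ≠ 0 := by
          intro h1
          rw [h1, cf_zero] at h
          exact h rfl
        have h1 := (al_h hD hne).1
        have h2 : la g ≤ al M P la x := by
          rw [← Occ_iff hD]
          exact Or.inr ⟨i, p, hp, g, hg, hgI, 1, one_mem_XL, by rw [hx, mul_one], le_rfl⟩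
        omega
      have hpeel := peel D (LfC D (Occ M P la (k + 1))) (PI_sub i) (hD.loc i) hI (N := k + 1)
        (κ := k) (T0 := 0) (p := p) (r := r) (fun c hc h => Occ_of_mem hc h)
        (fun m hm => by omega)
        (fun g hg hg' => ⟨hD.T_three hp hg hg' hr, T_LL _⟩)
        (fun u hu huN => LL_mono (by push_cast; omega) (A_low hD hI (XR_mono (PI_sub i) hp)
          (XL_mono (PI_sub i) hr) hu huN)) hv hy' hy'' hx' hx'' hu (by rw [← hgv]; exact hgk)
      rw [← hgv, ← hgu, sub_sub] at hpeel
      have hc := dd2_CC hD k hp hg hg' hr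
      have hpe : ld D (Occ M P la (k + 1)) k (D.T p * (D.C g * D.C g') * D.T r) = _ :=
        ld_congr hpeel
      rw [hx, hy, ld_congr hc, hpe, map_add, Finsupp.add_apply] at h0
      by_cases hlast : y' * x' = 1 ∧
          ld D (Occ M P la (k + 1)) k (D.T p * (D.C v * D.C u) * D.T r) z ≠ 0
      · obtain ⟨hyx, hl⟩ := hlast
        rw [← ld_congr (dd2_CC hD k hp hvi hui hr), dd2_ld k hzl] at hl
        have hx1 : x' ≠ 1 := by
          intro h1
          rw [h1, one_mul] at hgu
          exact hgI' (by rw [hgu]; exact hu)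
        have l1 : len M y = len M g' + len M r := by rw [hy]; exact len_mul_XL hg' hr
        have l2 : len M g' = len M x' + len M u := by rw [hgu]; exact len_XR_mul hx' hu
        have l3 : len M (u * r) = len M u + len M r := len_mul_XL hui hr
        have l4 : len M x' ≠ 0 := fun h1 => hx1 (len_eq_zero.1 h1)
        have h1 := ih hl (by omega)
        calc x * y = p * v * (y' * x') * (u * r) := by
              rw [hx, hy, hgv, hgu]
              group
          _ = 1 := by rw [hyx, mul_one, h1]
      · have h2 : ld D (Occ M P la (k + 1)) k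
            (if y' * x' = 1 then D.T p * (D.C v * D.C u) * D.T r else 0) z = 0 := by
          split_ifs with hyx
          · by_contra h3
            exact hlast ⟨hyx, h3⟩
          · rw [map_zero, Finsupp.zero_apply]
        rw [h2, add_zero, map_sum, Finsupp.finsetSum_apply] at h0
        obtain ⟨c, hcs, hcz⟩ := Finset.exists_ne_zero_of_sum_ne_zero h0
        have hh : D.h g g' c ≠ 0 := Finsupp.mem_support_iff.1 hcs
        have hci : c ∈ par M (P i) := h_mem D hg hg' hh
        have hcond : c ∉ par M (PI P) ∧ la c < k + 1 := by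
          by_contra hne
          rw [if_neg hne, map_zero, Finsupp.zero_apply] at hcz
          exact hcz rfl
        rw [if_pos hcond] at hcz
        have hd := (hD.loc i).dle g hg g' hg' c hci
        have hT : D.T (p * c * r) ∈ LL D (Occ M P la (k + 1)) 0 := T_LL _
        have hck : la c = k := by
          by_contra hne
          apply hcz
          have h3 := smul_LL hd hT
          rw [ld_lt (by omega) h3, Finsupp.zero_apply]
        have h4 := ld_smul hd hT
        rw [add_zero, hck] at h4
        rw [h4, ld_T, Finsupp.smul_apply, smul_eq_mul] at hcz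
        have hgc : gc D la g g' c ≠ 0 := by
          rw [gc, hck]
          exact left_ne_zero_of_mul hcz
        have hzc : z = p * c * r := dd2_sg (right_ne_zero_of_mul hcz)
        obtain ⟨h5, h6, -⟩ := nn_three hD hp hci hcond.1 hr (by rw [← hzc, hk, hck])
          (by rw [← hzc]; exact hz)
        have h7 := (hD.loc i).p2 g hg g' hg' c hci h6 hgc
        have h8 : p * r = 1 := by
          rw [mul_eq_one_iff_eq_inv] at h5 ⊢
          rw [h5, inv_inv]
        calc x * y = p * (g * g') * r := by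
              rw [hx, hy]
              group
          _ = 1 := by rw [h7, inv_mul_cancel, mul_one, h8]

end dd2

end Pool.Agent.Helper35.AM
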