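import Pool.Agent.Helper35.AM.Ep2

/-!
# The trace form
-/

/- PROOF HINTS (conventions: see Df.lean)
Ep3. star: ep_TT for N = k+1 and N = k (k = 0: empty sum, ep_T..: all z <> 1 ... treat k=0 directly or define the sum for N=0 as 0) with C instead of T: (ep_N(C_xC_y)).coeff 0 = sum_{z light} (h x y z).coeff(al z) nn z; subtract. Q_am: g x y z <> 0, k = a z (= a z^-1). Let w = z^-1. Put for t in
 level k: coefficient of t_w in t_x.t_y = by star applied to (z', w^-1): e((t_x.t_y).t_{w^-1}) where e(t) = sum t_z nn z; by associativity (coefficient of degree 2k of C_xC_yC_{w^-1}) = e(t_x.(t_y.t_{w^-1})) = sum_z (t_y.t_{w^-1})_z star(x,z) which vanishes unless a x = k. (All products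
 t.t' = leading coefficients of degree k at elements with a = k; Dle bounds from h_dle_al.) For y by inverses (g_inv).
-/

namespace Pool.Agent.Helper35.AM

open Pool.Agent.Helper35.KL

section ep3

variable {B : Type} {M : CoxeterMatrix B} {L : M.Group → ℤ} {H : Type} [Ring H] [Algebra LP H]
variable {D : KLD M L H} {P : Bool → Set B} {la : M.Group → ℕ} (hD : Dat D P la)

include hD in
private theorem ep3_h (x y z : M.Group) : Dle (D.a z) (D.h x y z) := by
  rw [a_eq_al hD]
  exact h_dle_al hD x y z

include hD in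
private theorem ep3_a {x y z : M.Group} (h : D.h x y z ≠ 0) : D.a x ≤ D.a z ∧ D.a y ≤ D.a z := by
  rw [a_eq_al hD, a_eq_al hD, a_eq_al hD]
  exact al_h hD h

include hD in
open scoped Classical in
private theorem ep3_sum (N : ℕ) (x y : M.Group) :
    ∑ z ∈ (D.C.repr (D.C x * D.C y)).support,
      (if D.a z < N then (D.h x y z).coeff (D.a z) * D.nn z else 0) =
        if x * y = 1 ∧ D.a x < N then 1 else 0 := by
  rcases Nat.eq_zero_or_pos N with hN | hN
  · subst hN
    rw [if_neg (by rintro ⟨-, h⟩; omega)]
    refine Finset.sum_eq_zero fun z _ => ?_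
    rw [if_neg (by omega)]
  have h0 := (ep_TT hD hN x y).2
  have hO : ∀ z, ¬ Occ M P la N z ↔ D.a z < N := by
    intro z
    rw [Occ_iff hD, a_eq_al hD, not_le]
  have h1 : ep hD N (D.T x * D.T y) =
      ∑ z ∈ (D.C.repr (D.T x * D.T y)).support ∪ (D.C.repr (D.C x * D.C y)).support,
        D.C.repr (D.T x * D.T y) z * ep hD N (D.C z) := by
    conv_lhs => rw [← D.C.linearCombination_repr (D.T x * D.T y)]
    rw [Finsupp.linearCombination_apply, Finsupp.sum, map_sum]
    rw [Finset.sum_subset Finset.subset_union_left]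
    · refine Finset.sum_congr rfl fun z _ => ?_
      rw [map_smul, smul_eq_mul]
    · intro z _ hz
      rw [Finsupp.notMem_support_iff.1 hz, zero_smul, map_zero]
  have h2 : ∀ z, (D.C.repr (D.T x * D.T y) z * ep hD N (D.C z)).coeff 0 =
      if D.a z < N then (D.h x y z).coeff (D.a z) * D.nn z else 0 := by
    intro z
    split_ifs with hz
    · have h3 := TT_dle_al hD x y z
      have h4 := ep_C hD hN ((hO z).2 hz)
      rw [a_eq_al hD]
      have h5 := cf_mul_lead h3.1 h4.1
      rw [add_neg_cancel] at h5
      rw [h5, h3.2, h4.2]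
    · have h3 : Occ M P la N z := by
        by_contra h3
        exact hz ((hO z).1 h3)
      rw [ep_II hD (Submodule.subset_span ⟨z, h3, rfl⟩), mul_zero, cf_zero]
  rw [h1, cf_sum] at h0
  simp only [h2, hO] at h0
  rw [← h0]
  refine Finset.sum_subset Finset.subset_union_right ?_
  intro z _ hz
  have h3 : D.h x y z = 0 := Finsupp.notMem_support_iff.1 hz
  rw [h3, cf_zero, zero_mul, ite_self]

include hD in
open scoped Classical in
/-- The trace form on the level `k`. -/
theorem star (k : ℕ) (x y : M.Group) :
    ∑ z ∈ (D.C.repr (D.C x * D.C y)).support.filter (fun z => D.a z = k),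
      (D.h x y z).coeff k * D.nn z = if x * y = 1 ∧ D.a x = k then 1 else 0 := by
  have h1 := ep3_sum hD (k + 1) x y
  have h2 := ep3_sum hD k x y
  have h3 : ∑ z ∈ (D.C.repr (D.C x * D.C y)).support.filter (fun z => D.a z = k),
      (D.h x y z).coeff k * D.nn z =
      ∑ z ∈ (D.C.repr (D.C x * D.C y)).support,
        (if D.a z < k + 1 then (D.h x y z).coeff (D.a z) * D.nn z else 0) -
      ∑ z ∈ (D.C.repr (D.C x * D.C y)).support,
        (if D.a z < k then (D.h x y z).coeff (D.a z) * D.nn z else 0) := by
    rw [← Finset.sum_sub_distrib, Finset.sum_filter]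
    refine Finset.sum_congr rfl fun z _ => ?_
    by_cases hz : D.a z = k
    · rw [if_pos hz, if_pos (by omega), if_neg (by omega), sub_zero, hz]
    · rw [if_neg hz]
      by_cases hz2 : D.a z < k
      · rw [if_pos (by omega), if_pos hz2, sub_self]
      · rw [if_neg (by omega), if_neg hz2, sub_self]
  rw [h3, h1, h2]
  by_cases hx : D.a x = k
  · by_cases hxy : x * y = 1
    · rw [if_pos ⟨hxy, by omega⟩, if_neg (by rintro ⟨-, h⟩; omega), if_pos ⟨hxy, hx⟩, sub_zero]
    · rw [if_neg (fun h => hxy h.1), if_neg (fun h => hxy h.1), if_neg (fun h => hxy h.1),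
        sub_zero]
  · have h4 : ¬ (x * y = 1 ∧ D.a x = k) := fun h => hx h.2
    rw [if_neg h4]
    by_cases hx2 : D.a x < k
    · by_cases hxy : x * y = 1
      · have h5 : x * y = 1 ∧ D.a x < k + 1 := ⟨hxy, by omega⟩
        have h6 : x * y = 1 ∧ D.a x < k := ⟨hxy, hx2⟩
        rw [if_pos h5, if_pos h6, sub_self]
      · rw [if_neg (fun h => hxy h.1), if_neg (fun h => hxy h.1), sub_self]
    · have h5 : ¬ (x * y = 1 ∧ D.a x < k + 1) := by
        rintro ⟨-, h⟩
        omega
      have h6 : ¬ (x * y = 1 ∧ D.a x < k) := fun h => hx2 h.2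
      rw [if_neg h5, if_neg h6, sub_self]

include hD in
open scoped Classical in
private theorem ep3_star {S : Finset M.Group} {k : ℕ} {x y : M.Group}
    (hS : (D.C.repr (D.C x * D.C y)).support ⊆ S) :
    ∑ z ∈ S, (if D.a z = k then (D.h x y z).coeff k * D.nn z else 0) =
      if x * y = 1 ∧ D.a x = k then 1 else 0 := by
  rw [← star hD, Finset.sum_filter]
  symm
  refine Finset.sum_subset hS ?_
  intro z _ hz
  have h3 : D.h x y z = 0 := Finsupp.notMem_support_iff.1 hz
  rw [h3, cf_zero, zero_mul, ite_self]

include hD in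
open scoped Classical in
private theorem ep3_assoc {k : ℕ} {x y v u : M.Group} (hu : D.a u = k) :
    ∑ c ∈ (D.C.repr (D.C x * D.C y)).support,
      (if D.a c = k then (D.h x y c).coeff k * (D.h c v u).coeff k else 0) =
    ∑ c ∈ (D.C.repr (D.C y * D.C v)).support,
      (if D.a c = k then (D.h y v c).coeff k * (D.h x c u).coeff k else 0) := by
  have h1 := congrArg (fun a : LP => a.coeff ((k : ℤ) + k)) (D.assoc_h x y v u)
  simp only [cf_sum] at h1
  have h2 : ∀ a b c : M.Group, ∀ d : LP, Dle k d → (d ≠ 0 → D.a c ≤ k) →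
      (D.h a b c * d).coeff ((k : ℤ) + k) =
        if D.a c = k then (D.h a b c).coeff k * d.coeff k else 0 := by
    intro a b c d hd hd2
    have h3 := ep3_h hD a b c
    split_ifs with hc
    · rw [hc] at h3
      exact cf_mul_lead h3 hd
    · by_cases h4 : d = 0
      · rw [h4, mul_zero, cf_zero]
      · have h5 := hd2 h4
        exact (h3.mul hd) _ (by omega)
  have h3 : ∀ a b : M.Group, Dle k (D.h a b u) := by
    intro a b
    have h4 := ep3_h hD a b u
    rwa [hu] at h4
  rw [Finset.sum_congr rfl fun c _ => h2 x y c _ (h3 c v)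
    (fun h => by have := (ep3_a hD h).1; omega),
    Finset.sum_congr rfl fun c _ => h2 y v c _ (h3 x c)
    (fun h => by have := (ep3_a hD h).2; omega)] at h1
  exact h1

include hD in
open scoped Classical in
private theorem ep3_Q {k : ℕ} {x y w : M.Group} (hw : D.a w = k) (h : (D.h x y w).coeff k ≠ 0) :
    D.a x = k := by
  by_contra hx
  apply h
  set S := ((D.C.repr (D.C x * D.C y)).support.biUnion fun c =>
    (D.C.repr (D.C c * D.C w⁻¹)).support) ∪
    ((D.C.repr (D.C y * D.C w⁻¹)).support.biUnion fun c =>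
    (D.C.repr (D.C x * D.C c)).support) with hS
  have h1 : ∑ u ∈ S, (if D.a u = k then (∑ c ∈ (D.C.repr (D.C x * D.C y)).support,
      (if D.a c = k then (D.h x y c).coeff k * (D.h c w⁻¹ u).coeff k else 0)) * D.nn u
        else 0) = (D.h x y w).coeff k := by
    have h2 : ∀ u ∈ S, (if D.a u = k then (∑ c ∈ (D.C.repr (D.C x * D.C y)).support,
        (if D.a c = k then (D.h x y c).coeff k * (D.h c w⁻¹ u).coeff k else 0)) * D.nn u
          else 0) = ∑ c ∈ (D.C.repr (D.C x * D.C y)).support, (if D.a c = k then
            (D.h x y c).coeff k * (if D.a u = k then (D.h c w⁻¹ u).coeff k * D.nn u else 0)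
              else 0) := by
      intro u _
      split_ifs with hu
      · rw [Finset.sum_mul]
        refine Finset.sum_congr rfl fun c _ => ?_
        split_ifs
        · ring
        · ring
      · symm
        refine Finset.sum_eq_zero fun c _ => ?_
        rw [mul_zero, ite_self]
    rw [Finset.sum_congr rfl h2, Finset.sum_comm]
    have h3 : ∀ c ∈ (D.C.repr (D.C x * D.C y)).support, ∑ u ∈ S, (if D.a c = k then
            (D.h x y c).coeff k * (if D.a u = k then (D.h c w⁻¹ u).coeff k * D.nn u else 0)
              else 0) = if c = w then (D.h x y w).coeff k else 0 := by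
      intro c hc
      by_cases hck : D.a c = k
      · simp only [if_pos hck]
        rw [← Finset.mul_sum, ep3_star hD (by
          intro u hu
          rw [hS, Finset.mem_union, Finset.mem_biUnion]
          exact Or.inl ⟨c, hc, hu⟩)]
        by_cases hcw : c = w
        · subst hcw
          rw [if_pos ⟨mul_inv_cancel c, hck⟩, if_pos rfl, mul_one]
        · rw [if_neg (fun h => hcw (mul_inv_eq_one.1 h.1)), if_neg hcw, mul_zero]
      · simp only [if_neg hck]
        rw [Finset.sum_const_zero, if_neg]
        rintro rfl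
        exact hck hw
    rw [Finset.sum_congr rfl h3, Finset.sum_ite_eq']
    split_ifs with h4
    · rfl
    · have h5 : D.h x y w = 0 := Finsupp.notMem_support_iff.1 h4
      rw [h5, cf_zero]
  rw [← h1]
  have h2 : ∀ u ∈ S, (if D.a u = k then (∑ c ∈ (D.C.repr (D.C x * D.C y)).support,
      (if D.a c = k then (D.h x y c).coeff k * (D.h c w⁻¹ u).coeff k else 0)) * D.nn u
        else 0) = ∑ c ∈ (D.C.repr (D.C y * D.C w⁻¹)).support, (if D.a c = k then
          (D.h y w⁻¹ c).coeff k * (if D.a u = k then (D.h x c u).coeff k * D.nn u else 0)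
            else 0) := by
    intro u _
    split_ifs with hu
    · rw [ep3_assoc hD hu, Finset.sum_mul]
      refine Finset.sum_congr rfl fun c _ => ?_
      split_ifs
      · ring
      · ring
    · symm
      refine Finset.sum_eq_zero fun c _ => ?_
      rw [mul_zero, ite_self]
  rw [Finset.sum_congr rfl h2, Finset.sum_comm]
  refine Finset.sum_eq_zero fun c hc => ?_
  by_cases hck : D.a c = k
  · simp only [if_pos hck]
    rw [← Finset.mul_sum, ep3_star hD (by
      intro u hu
      rw [hS, Finset.mem_union, Finset.mem_biUnion, Finset.mem_biUnion]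
      exact Or.inr ⟨c, hc, hu⟩), if_neg (fun h => hx h.2), mul_zero]
  · simp only [if_neg hck]
    rw [Finset.sum_const_zero]

include hD in
theorem Q_am {x y z : M.Group} (h : D.g x y z ≠ 0) : D.a x = D.a z ∧ D.a y = D.a z := by
  have key : ∀ {x y z : M.Group}, D.g x y z ≠ 0 → D.a x = D.a z := by
    intro x y z h
    have h1 := ep3_Q hD (k := D.a z⁻¹) rfl h
    rw [h1, D.a_inv]
  refine ⟨key h, ?_⟩
  rw [D.g_inv] at h
  have h1 := key h
  rwa [D.a_inv, D.a_inv] at h1

end ep3

end Pool.Agent.Helper35.AM
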