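import Pool.Agent.Helper35.AM.Dd2
import Pool.Agent.Helper35.AM.Ep3

/-!
# Uniqueness of the distinguished elements
-/

/- PROOF HINTS (conventions: see Df.lean)
Dd3. P3_aux: induction on len x, two_cases x^-1 x. (different): as in Dd2 p = r = 1, x in W_I, z, z' in W_I, p3 uniqueness. (same): x = g' r, x^-1 = r^-1 g'^-1, so p = r^-1, g = g'^-1 (XR_unique/one_sideR); g' = x' u, g = u^-1 x'^-1. If Occ k (u r): a D-element z = p c r from the first sum of peel has (nn_three) u0 with
 pi(u0,c) <> 0, nu u0 <> 0, not Occ k (p u0); pi_gc: gc(u^-1,u,u0) <> 0, h_pu: h (p u^-1) u (p u0) <> 0, al_h: al(p u0) >= al(p u^-1) = al((u r)^-1) >= k: contradiction. So both z, z' come from (h (p u^-1) (u r) .).coeff k, IH for u r. If not Occ k (u r): the second term vanishes (Q_am), z = p c r, z' = p c' r,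
 with nu c, nu c' <> 0 (nn_three), gc(g'^-1,g',c), gc(g'^-1,g',c') <> 0: c = c' by p3.
-/

namespace Pool.Agent.Helper35.AM

open Pool.Agent.Helper35.KL

section dd3

variable {B : Type} {M : CoxeterMatrix B} {L : M.Group → ℤ} {H : Type} [Ring H] [Algebra LP H]
variable {D : KLD M L H} {P : Bool → Set B} {la : M.Group → ℕ} (hD : Dat D P la)

private theorem dd3_T_mul_Lat {Q : Set B} {k : M.Group} (hk : k ∈ XR M Q) {x : H}
    (hx : x ∈ HQ D Q) {n : ℤ} (hx' : x ∈ Lat D.T n) : D.T k * x ∈ Lat D.T n := by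
  rw [← D.T.linearCombination_repr x, Finsupp.linearCombination_apply, Finsupp.sum,
    Finset.mul_sum]
  refine AddSubgroup.sum_mem _ fun v hv => ?_
  have hv' : v ∈ par M Q := by
    by_contra h
    exact (Finsupp.mem_support_iff.1 hv) ((mem_HQ D).1 hx v h)
  rw [mul_smul_comm, ← D.T_mul _ _ (len_XR_mul hk hv')]
  have h1 := smul_Lat D.T (hx' v) (basis_mem_Lat D.T (k * v))
  rwa [add_zero] at h1

private theorem dd3_mul_T_Lat {Q : Set B} {k : M.Group} (hk : k ∈ XL M Q) {x : H}
    (hx : x ∈ HQ D Q) {n : ℤ} (hx' : x ∈ Lat D.T n) : x * D.T k ∈ Lat D.T n := by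
  rw [← D.T.linearCombination_repr x, Finsupp.linearCombination_apply, Finsupp.sum,
    Finset.sum_mul]
  refine AddSubgroup.sum_mem _ fun v hv => ?_
  have hv' : v ∈ par M Q := by
    by_contra h
    exact (Finsupp.mem_support_iff.1 hv) ((mem_HQ D).1 hx v h)
  rw [smul_mul_assoc, ← D.T_mul _ _ (len_mul_XL hv' hk)]
  have h1 := smul_Lat D.T (hx' v) (basis_mem_Lat D.T (v * k))
  rwa [add_zero] at h1

/-- `C (p * g)` and `T p * C g`. -/
private theorem dd3_CL {hv : M.Group → Prop} {Q : Set B} {p g : M.Group} (hp : p ∈ XR M Q)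
    (hg : g ∈ par M Q) : D.C (p * g) - D.T p * D.C g ∈ LL D hv (-1) := by
  have h1 : D.T p * (D.C g - D.T g) ∈ Lat D.T (-1) :=
    dd3_T_mul_Lat hp (Submodule.sub_mem _ (C_mem_HQ D hg) (T_mem_HQ D hg)) (D.C_sub_T_neg g)
  have h2 : D.C (p * g) - D.T p * D.C g =
      (D.C (p * g) - D.T (p * g)) - D.T p * (D.C g - D.T g) := by
    rw [D.T_mul _ _ (len_XR_mul hp hg), mul_sub]
    abel
  rw [h2]
  exact LatT_LL (AddSubgroup.sub_mem _ (D.C_sub_T_neg (p * g)) h1)

private theorem dd3_CR {hv : M.Group → Prop} {Q : Set B} {g r : M.Group} (hr : r ∈ XL M Q)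
    (hg : g ∈ par M Q) : D.C (g * r) - D.C g * D.T r ∈ LL D hv (-1) := by
  have h1 : (D.C g - D.T g) * D.T r ∈ Lat D.T (-1) :=
    dd3_mul_T_Lat hr (Submodule.sub_mem _ (C_mem_HQ D hg) (T_mem_HQ D hg)) (D.C_sub_T_neg g)
  have h2 : D.C (g * r) - D.C g * D.T r =
      (D.C (g * r) - D.T (g * r)) - (D.C g - D.T g) * D.T r := by
    rw [D.T_mul _ _ (len_mul_XL hg hr), sub_mul]
    abel
  rw [h2]
  exact LatT_LL (AddSubgroup.sub_mem _ (D.C_sub_T_neg (g * r)) h1)

include hD in
/-- The product of `C (p * g)` and `C (g' * r)`, up to lower terms. -/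
private theorem dd3_red {k : ℕ} {Q Q' : Set B} {p g g' r : M.Group} (hp : p ∈ XR M Q)
    (hg : g ∈ par M Q) (hr : r ∈ XL M Q') (hg' : g' ∈ par M Q') :
    D.C (p * g) * D.C (g' * r) - D.T p * (D.C g * D.C g') * D.T r ∈
      LL D (Occ M P la (k + 1)) ((k : ℤ) - 1) := by
  have hI := idl hD (k + 1)
  have hCC : ∀ x y, D.C x * D.C y ∈ LL D (Occ M P la (k + 1)) (k : ℤ) := by
    intro x y
    have h1 := CC_LL hD hI x y
    have e : ((k + 1 : ℕ) : ℤ) - 1 = k := by push_cast; ring
    rwa [e] at h1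
  have h1 : D.C (p * g) - D.T p * D.C g ∈ LL D (Occ M P la (k + 1)) (-1) := dd3_CL hp hg
  have h2 : D.C (g' * r) - D.C g' * D.T r ∈ LL D (Occ M P la (k + 1)) (-1) := dd3_CR hr hg'
  have h3 : D.T p * D.C g ∈ LL D (Occ M P la (k + 1)) 0 := by
    have e : D.T p * D.C g = D.C (p * g) - (D.C (p * g) - D.T p * D.C g) := by abel
    rw [e]
    exact AddSubgroup.sub_mem _ (C_LL _) (LL_mono (by norm_num) h1)
  have h4 := mul_LL hI hCC h1 (C_LL (D := D) (hv := Occ M P la (k + 1)) (g' * r))
  have h5 := mul_LL hI hCC h3 h2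
  have e1 : (-1 : ℤ) + 0 + k = (k : ℤ) - 1 := by ring
  have e2 : (0 : ℤ) + -1 + k = (k : ℤ) - 1 := by ring
  rw [e1] at h4
  rw [e2] at h5
  have e3 : D.C (p * g) * D.C (g' * r) - D.T p * (D.C g * D.C g') * D.T r =
      (D.C (p * g) - D.T p * D.C g) * D.C (g' * r) +
        D.T p * D.C g * (D.C (g' * r) - D.C g' * D.T r) := by
    noncomm_ring
  rw [e3]
  exact AddSubgroup.add_mem _ h4 h5

include hD in
/-- The coefficients of a product of two elements with syllables of the same kind. -/
private theorem dd3_main {i : Bool} {p v y x u r : M.Group} (hp : p ∈ XR M (P i))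
    (hr : r ∈ XL M (P i)) (hv : v ∈ par M (PI P)) (hy : y ∈ XL M (PI P))
    (hy' : y ∈ par M (P i)) (hx : x ∈ XR M (PI P)) (hx' : x ∈ par M (P i))
    (hu : u ∈ par M (PI P)) {k : ℕ} (hk : la (v * y) ≤ k) {z : M.Group} (hz : D.a z = k)
    (h : (D.h (p * (v * y)) (x * u * r) z).coeff k ≠ 0) :
    (∃ c ∈ par M (P i), c ∉ par M (PI P) ∧ la c = k ∧ gc D la (v * y) (x * u) c ≠ 0 ∧
      z = p * c * r) ∨ (D.h (p * v) (u * r) z).coeff k ≠ 0 := by
  classical
  have hI := idl hD (k + 1)
  have hlight : ¬ Occ M P la (k + 1) z := by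
    rw [Occ_iff hD, ← a_eq_al hD, hz]
    omega
  have hvi : v ∈ par M (P i) := par_mono (PI_sub i) hv
  have hui : u ∈ par M (P i) := par_mono (PI_sub i) hu
  have hg : v * y ∈ par M (P i) := Subgroup.mul_mem _ hvi hy'
  have hg' : x * u ∈ par M (P i) := Subgroup.mul_mem _ hx' hui
  have hco : ∀ a b : M.Group, ld D (Occ M P la (k + 1)) k (D.C a * D.C b) z =
      (D.h a b z).coeff k := by
    intro a b
    rw [ld_apply, if_neg hlight]
    rfl
  by_contra hcon
  push Not at hcon
  obtain ⟨hcon1, hcon2⟩ := hcon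
  apply h
  rw [← hco]
  have h1 := ld_congr (dd3_red hD (k := k) hp hg hr hg')
  rw [h1]
  have h2 := peel D (LfC D (Occ M P la (k + 1))) (PI_sub i) (hD.loc i) hI (N := k + 1)
    (κ := k) (T0 := 0) (p := p) (r := r) (fun c hc hc' => Occ_of_mem hc hc')
    (fun m hm => by omega)
    (fun g hg1 hg2 => ⟨hD.T_three hp hg1 hg2 hr, T_LL _⟩)
    (fun w hw hw' => by
      have h3 := A_low hD hI (XR_mono (PI_sub i) hp) (XL_mono (PI_sub i) hr) hw hw'
      have e : ((k + 1 : ℕ) : ℤ) - 1 - la w = (k : ℤ) - la w := by push_cast; ring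
      rwa [e] at h3) hv hy hy' hx hx' hu (by omega)
  rw [sub_sub] at h2
  have h3 : ld D (Occ M P la (k + 1)) k (D.T p * (D.C (v * y) * D.C (x * u)) * D.T r) =
      ld D (Occ M P la (k + 1)) k ((∑ c ∈ (D.C.repr (D.C (v * y) * D.C (x * u))).support,
        if c ∉ par M (PI P) ∧ la c < k + 1 then
          D.h (v * y) (x * u) c • D.T (p * c * r) else 0) +
        (if y * x = 1 then D.T p * (D.C v * D.C u) * D.T r else 0)) := ld_congr h2
  rw [h3, map_add, map_sum, Finsupp.add_apply, Finsupp.finsetSum_apply]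
  have h4 : ∀ c ∈ (D.C.repr (D.C (v * y) * D.C (x * u))).support,
      (ld D (Occ M P la (k + 1)) k (if c ∉ par M (PI P) ∧ la c < k + 1 then
        D.h (v * y) (x * u) c • D.T (p * c * r) else 0)) z = 0 := by
    intro c hc
    have hc0 : D.h (v * y) (x * u) c ≠ 0 := Finsupp.mem_support_iff.1 hc
    have hcP : c ∈ par M (P i) := h_mem D hg hg' hc0
    have hdle : Dle (la c) (D.h (v * y) (x * u) c) := (hD.loc i).dle _ hg _ hg' _ hcP
    split_ifs with h5
    · rcases Nat.lt_or_ge (la c) k with h6 | h6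
      · have h7 := smul_LL (hv := Occ M P la (k + 1)) hdle (T_LL (D := D) (p * c * r))
        rw [add_zero] at h7
        rw [ld_lt (by exact_mod_cast h6) h7]
        rfl
      · have h8 : la c = k := by omega
        rw [h8] at hdle
        have h9 := ld_smul (hv := Occ M P la (k + 1)) hdle (T_LL (D := D) (p * c * r))
        rw [add_zero] at h9
        rw [h9, Finsupp.smul_apply, ld_T, ld_apply, if_neg hlight, Module.Basis.repr_self,
          Finsupp.single_apply]
        split_ifs with h10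
        · have h11 : gc D la (v * y) (x * u) c = 0 := by
            by_contra hne
            exact hcon1 c hcP h5.1 h8 hne h10.symm
          unfold gc at h11
          rw [h8] at h11
          rw [h11, zero_smul]
        · rw [cf_zero, smul_zero]
    · rw [map_zero]
      rfl
  rw [Finset.sum_eq_zero h4, zero_add]
  split_ifs with h5
  · have h6 := ld_congr (dd3_red hD (k := k) hp hvi hr hui)
    rw [← h6, hco]
    exact hcon2
  · rw [map_zero]
    rfl

include hD in
/-- An element of a parabolic subgroup, the function `la` and the function `a`. -/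
private theorem dd3_nu {i : Bool} {z : M.Group} (hz : z ∈ par M (P i)) :
    D.a z = la z ∧ D.nn z = nu D la z := by
  have h1 : al M P la z = la z := al_mem hD hz
  refine ⟨by rw [a_eq_al hD, h1], ?_⟩
  rw [nn_al hD]
  unfold nu
  rw [h1]

include hD in
/-- At most one distinguished element occurs in the product. -/
theorem P3_aux {x z z' : M.Group} (hk : D.a z = D.a z') (hz : D.nn z ≠ 0) (hz' : D.nn z' ≠ 0)
    (h : (D.h x⁻¹ x z).coeff (D.a z) ≠ 0) (h' : (D.h x⁻¹ x z').coeff (D.a z') ≠ 0) :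
    z = z' := by
  suffices key : ∀ (n : ℕ) (x : M.Group), len M x < n →
      (D.h x⁻¹ x z).coeff (D.a z) ≠ 0 → (D.h x⁻¹ x z').coeff (D.a z') ≠ 0 → z = z' from
    key _ x (Nat.lt_succ_self _) h h'
  clear h h' x
  intro n
  induction n with
  | zero =>
    intro x hx
    omega
  | succ n ih =>
    intro x hxn h h'
    have hne : D.h x⁻¹ x z ≠ 0 := by
      intro h0
      rw [h0, cf_zero] at h
      exact h rfl
    have hne' : D.h x⁻¹ x z' ≠ 0 := by
      intro h0
      rw [h0, cf_zero] at h'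
      exact h' rfl
    rcases two_cases hD.am x⁻¹ x with ⟨i, p, hp, u, hu, v, hv, r, hr, e1, e2⟩ |
      ⟨i, p, hp, g, hg, hgI, g', hg', hgI', r, hr, e1, e2⟩
    · -- `x` lies in the intersection
      have e3 : p * u = r⁻¹ * v⁻¹ := by
        rw [← e1, e2, mul_inv_rev]
      have hr' : r⁻¹ ∈ XR M (P (!i)) := inv_mem_XR.2 hr
      obtain ⟨e4, e5⟩ := XR_unique (XR_mono (PI_sub i) hp) (XR_mono (PI_sub (!i)) hr') hu
        (Subgroup.inv_mem _ hv) e3
      have hp1 : p = 1 := XR_both hD.am i hp (by rw [e4]; exact hr')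
      have hr1 : r = 1 := by
        rw [hp1] at e4
        exact inv_eq_one.1 e4.symm
      have hxI : x ∈ par M (PI P) := by
        rw [e2, hr1, mul_one]
        exact hv
      have hzI : z ∈ par M (PI P) := h_mem D (Subgroup.inv_mem _ hxI) hxI hne
      have hzI' : z' ∈ par M (PI P) := h_mem D (Subgroup.inv_mem _ hxI) hxI hne'
      obtain ⟨a1, a2⟩ := dd3_nu hD (i := true) (par_mono (PI_sub true) hzI)
      obtain ⟨b1, b2⟩ := dd3_nu hD (i := true) (par_mono (PI_sub true) hzI')
      obtain ⟨z0, -, -, -, -, h6⟩ := hD.locI.p3 x hxI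
      rw [h6 z hzI (by rw [← a2]; exact hz) (by unfold gc; rw [← a1]; exact h),
        h6 z' hzI' (by rw [← b2]; exact hz') (by unfold gc; rw [← b1]; exact h')]
    · -- the main case
      have e3 : p * g = r⁻¹ * g'⁻¹ := by
        rw [← e1, e2, mul_inv_rev]
      obtain ⟨e4, e5⟩ := XR_unique hp (inv_mem_XR.2 hr) hg (Subgroup.inv_mem _ hg') e3
      obtain ⟨x', hx', u, hu, e6⟩ := exists_XR (PI P) g'
      have hui : u ∈ par M (P i) := par_mono (PI_sub i) hu
      have hxi : x' ∈ par M (P i) := by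
        have e7 : x' = g' * u⁻¹ := by
          rw [e6]
          group
        rw [e7]
        exact Subgroup.mul_mem _ hg' (Subgroup.inv_mem _ hui)
      have e7 : g = u⁻¹ * x'⁻¹ := by
        rw [e5, e6, mul_inv_rev]
      have hlag : la (u⁻¹ * x'⁻¹) ≤ D.a z := by
        rw [← e7, ← al_mem hD hg, a_eq_al hD]
        have h1 := (al_mul hD (x := p) (y := g) (len_XR_mul hp hg)).2
        rw [← e1] at h1
        exact h1.trans (al_h hD hne).1
      have ex : x = x' * u * r := by
        rw [e2, e6]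
      have exi : x⁻¹ = p * (u⁻¹ * x'⁻¹) := by
        rw [e1, e7]
      have m1 := dd3_main hD hp hr (Subgroup.inv_mem _ hu) (inv_mem_XL.2 hx')
        (Subgroup.inv_mem _ hxi) hx' hxi hu hlag rfl (by rw [← exi, ← ex]; exact h)
      have m2 := dd3_main hD hp hr (Subgroup.inv_mem _ hu) (inv_mem_XL.2 hx')
        (Subgroup.inv_mem _ hxi) hx' hxi hu (k := D.a z') (hk ▸ hlag) rfl
        (by rw [← exi, ← ex]; exact h')
      have epu : p * u⁻¹ = (u * r)⁻¹ := by
        rw [e4, mul_inv_rev]
      have egi : u⁻¹ * x'⁻¹ = (x' * u)⁻¹ := by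
        rw [mul_inv_rev]
      by_cases hO : Occ M P la (D.a z) (u * r)
      · -- the elements come from the product of `(u * r)⁻¹` and `u * r`
        have key : ∀ w : M.Group, D.a w = D.a z → D.nn w ≠ 0 →
            ((∃ c ∈ par M (P i), c ∉ par M (PI P) ∧ la c = D.a w ∧
              gc D la (u⁻¹ * x'⁻¹) (x' * u) c ≠ 0 ∧ w = p * c * r) ∨
              (D.h (p * u⁻¹) (u * r) w).coeff (D.a w) ≠ 0) →
            (D.h (u * r)⁻¹ (u * r) w).coeff (D.a w) ≠ 0 := by
          intro w hw hwn hm
          rcases hm with ⟨c, hc, hcI, hck, hgc, hwc⟩ | hm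
          · exfalso
            obtain ⟨-, hnc, u0, hu0, hnu0, hpi, hOc⟩ := nn_three hD hp hc hcI hr
              (by rw [← hwc]; exact hck) (by rw [← hwc]; exact hwn)
            rw [egi] at hgc
            have h1 := pi_gc D (PI_sub i) (hD.loc i) hx' hxi hu hc hnc hgc hu0 hpi hnu0
            have h2 : D.h u⁻¹ u u0 ≠ 0 := by
              intro h0
              unfold gc at h1
              rw [h0, cf_zero] at h1
              exact h1 rfl
            rw [← h_pu D (XR_mono (PI_sub i) hp) (Subgroup.inv_mem _ hu) hu hu0] at h2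
            have h3 := (al_h hD h2).1
            rw [epu, al_inv hD] at h3
            apply hOc
            rw [Occ_iff hD]
            rw [Occ_iff hD] at hO
            omega
          · rw [← epu]
            exact hm
        have hlen : len M (u * r) < n := by
          have h1 := len_mul_XL hg' hr
          have h2 := len_XR_mul hx' hu
          have h3 := len_mul_XL hu (XL_mono (PI_sub i) hr)
          rw [← e2] at h1
          rw [← e6] at h2
          have h4 : len M x' ≠ 0 := by
            intro h0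
            rw [len_eq_zero] at h0
            rw [h0, one_mul] at e6
            rw [e6] at hgI'
            exact hgI' hu
          omega
        exact ih (u * r) hlen (key z rfl hz m1) (key z' hk.symm hz' m2)
      · -- the elements come from the product of `g'⁻¹` and `g'`
        have key : ∀ w : M.Group, D.a w = D.a z → D.nn w ≠ 0 →
            ((∃ c ∈ par M (P i), c ∉ par M (PI P) ∧ la c = D.a w ∧
              gc D la (u⁻¹ * x'⁻¹) (x' * u) c ≠ 0 ∧ w = p * c * r) ∨
              (D.h (p * u⁻¹) (u * r) w).coeff (D.a w) ≠ 0) →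
            ∃ c ∈ par M (P i), nu D la c ≠ 0 ∧ gc D la g'⁻¹ g' c ≠ 0 ∧ w = p * c * r := by
          intro w hw hwn hm
          rcases hm with ⟨c, hc, hcI, hck, hgc, hwc⟩ | hm
          · obtain ⟨-, hnc, -⟩ := nn_three hD hp hc hcI hr
              (by rw [← hwc]; exact hck) (by rw [← hwc]; exact hwn)
            refine ⟨c, hc, hnc, ?_, hwc⟩
            rw [e6, ← egi]
            exact hgc
          · exfalso
            have h1 : D.g (p * u⁻¹) (u * r) w⁻¹ ≠ 0 := by
              unfold KLD.g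
              rw [inv_inv]
              exact hm
            have h2 := (Q_am hD h1).2
            rw [D.a_inv] at h2
            apply hO
            rw [Occ_iff hD, ← a_eq_al hD, h2, hw]
        obtain ⟨c, hc, hnc, hgc, hzc⟩ := key z rfl hz m1
        obtain ⟨c', hc', hnc', hgc', hzc'⟩ := key z' hk.symm hz' m2
        obtain ⟨z0, -, -, -, -, h6⟩ := (hD.loc i).p3 g' hg'
        rw [hzc, hzc', h6 c hc hnc hgc, h6 c' hc' hnc' hgc']

end dd3

end Pool.Agent.Helper35.AM
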