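import Pool.Agent.Helper35.AM.Dd3

/-!
# P2, P3 and P6 for the amalgam
-/

/- PROOF HINTS (conventions: see Df.lean)
Dd4. P6: al_attained (univ): x, y with (h x y z).coeff k <> 0; P2_aux: x = y^-1. h_inv: also for z^-1 (nn z^-1 = nn z); P3_aux. P2: g x y z is the coefficient at z^-1. P3: star (x = y^-1): sum over z, a z = a y = k of (..)nn z = 1; by P3_aux exactly one term is <> 0; coefficient * nn z = 1, integers.
-/

namespace Pool.Agent.Helper35.AM

open Pool.Agent.Helper35.KL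

section dd4

variable {B : Type} {M : CoxeterMatrix B} {L : M.Group → ℤ} {H : Type} [Ring H] [Algebra LP H]
variable {D : KLD M L H} {P : Bool → Set B} {la : M.Group → ℕ} (hD : Dat D P la)

private theorem Dd4_nn_inv (z : M.Group) : D.nn z⁻¹ = D.nn z := by
  rw [KLD.nn, KLD.nn, KLD.a_inv, D.p_inv 1 z, inv_one]

include hD in
theorem P6_am {z : M.Group} (hz : D.nn z ≠ 0) : z⁻¹ = z := by
  obtain ⟨x, y, h⟩ := KLD.a_attained (bounded_am hD) z
  have h1 := P2_aux hD hz h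
  have h2 : x = y⁻¹ := eq_inv_of_mul_eq_one_left h1
  subst h2
  have h3 : (D.h y⁻¹ y z⁻¹).coeff (D.a z⁻¹) ≠ 0 := by
    rw [KLD.a_inv]
    rw [D.h_inv, inv_inv] at h
    exact h
  exact P3_aux hD (KLD.a_inv D z) (by rw [Dd4_nn_inv]; exact hz) hz h3 h

include hD in
theorem P2_am {x y z : M.Group} (hz : D.nn z ≠ 0) (h : D.g x y z ≠ 0) : x = y⁻¹ := by
  have h1 : (D.h x y z⁻¹).coeff (D.a z⁻¹) ≠ 0 := h
  exact eq_inv_of_mul_eq_one_left (P2_aux hD (by rw [Dd4_nn_inv]; exact hz) h1)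

include hD in
theorem P3_am (y : M.Group) : ∃ z, D.nn z ≠ 0 ∧ D.g y⁻¹ y z = D.nn z ∧
    (D.nn z = 1 ∨ D.nn z = -1) ∧ ∀ z', D.nn z' ≠ 0 → D.g y⁻¹ y z' ≠ 0 → z' = z := by
  classical
  have h1 := star hD (D.a y) y⁻¹ y
  rw [if_pos ⟨inv_mul_cancel y, KLD.a_inv D y⟩] at h1
  have h2 : ∃ z ∈ (D.C.repr (D.C y⁻¹ * D.C y)).support.filter (fun z => D.a z = D.a y),
      (D.h y⁻¹ y z).coeff (D.a y) * D.nn z ≠ 0 := by
    by_contra hcon
    push Not at hcon
    rw [Finset.sum_eq_zero hcon] at h1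
    exact zero_ne_one h1
  obtain ⟨z, hz, hz2⟩ := h2
  have hza : D.a z = D.a y := (Finset.mem_filter.1 hz).2
  have hz3 : D.nn z ≠ 0 := right_ne_zero_of_mul hz2
  have hz4 : (D.h y⁻¹ y z).coeff (D.a z) ≠ 0 := by
    rw [hza]
    exact left_ne_zero_of_mul hz2
  have h3 : (D.h y⁻¹ y z).coeff (D.a y) * D.nn z = 1 := by
    have h4 : ∀ w ∈ (D.C.repr (D.C y⁻¹ * D.C y)).support.filter (fun z => D.a z = D.a y),
        w ≠ z → (D.h y⁻¹ y w).coeff (D.a y) * D.nn w = 0 := by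
      intro w hw hne
      by_contra h4
      have hwa : D.a w = D.a y := (Finset.mem_filter.1 hw).2
      refine hne (P3_aux hD (by rw [hwa, hza]) (right_ne_zero_of_mul h4) hz3 ?_ hz4)
      rw [hwa]
      exact left_ne_zero_of_mul h4
    rw [Finset.sum_eq_single z h4 (fun h => absurd hz h)] at h1
    exact h1
  have hzi : z⁻¹ = z := P6_am hD hz3
  have hg : D.g y⁻¹ y z = (D.h y⁻¹ y z).coeff (D.a y) := by
    rw [KLD.g, hzi, hza]
  have h5 := Int.eq_one_or_neg_one_of_mul_eq_one' h3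
  refine ⟨z, hz3, ?_, ?_, ?_⟩
  · rw [hg]
    rcases h5 with ⟨h6, h7⟩ | ⟨h6, h7⟩
    · rw [h6, h7]
    · rw [h6, h7]
  · rcases h5 with ⟨_, h7⟩ | ⟨_, h7⟩
    · exact Or.inl h7
    · exact Or.inr h7
  · intro z' hz' hg'
    have hzi' : z'⁻¹ = z' := P6_am hD hz'
    have h6 : (D.h y⁻¹ y z').coeff (D.a z') ≠ 0 := by
      rw [KLD.g, hzi'] at hg'
      exact hg'
    have h7 := (Q_am hD hg').2
    exact P3_aux hD (by rw [← h7, hza]) hz' hz3 h6 hz4

end dd4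

end Pool.Agent.Helper35.AM
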