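import Pool.Agent.Helper35.KL.Tf
import Pool.Agent.Helper35.KL.Ex.X1
import Pool.Agent.Helper35.KL.Cg

/-!
# P1-P15 for amalgams of Coxeter groups over parabolic subgroups: definitions
-/

/-
THEOREM. W Coxeter group, S = J u K, I = J n K, m_st = oo for s in J\I, t in K\I. L positive weight function.
(W,L) is bounded and satisfies P1-P15 iff (W_J,L) and (W_K,L) do.
COROLLARY (S finite). (W,L) bounded + P1-P15 iff (W_T,L) is, for all T with all m_st finite.

HOW TO WORK ON A FILE OF THIS DIRECTORY (captain helper35): own one file, replace every sorry in it, change no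
statement, name or import order (extra imports without cycles are fine). Everything in the imported files may be used.
Auxiliary results: private or with a name that starts with the file name. When it builds without sorry: land only your file.

CONVENTIONS. M Coxeter matrix on B, D : KLD M L H (Hecke algebra, T basis, C = Kazhdan-Lusztig basis, bar, fl = the
anti-automorphism T_w -> T_{w^-1}; see KL/Basic.lean: fl_mul, fl_C, repr_C_fl, h_inv, p_inv, T_sm_mul, bar_T_sub ...).
Dle n a : degree of the Laurent polynomial a is <= n (KL/Laurent.lean: Dle.add, Dle.mul, Dle.mul_of_eq, cf_mul_lead, Dle.of_lead).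
Lat b n = elements with all coordinates in the basis b of degree <= n (KL/Tri.lean), Vl b len n = span of b_w, len w < n.
D.C_T, D.C_sub_T_neg : C_w - T_w in Lat T (-1);  D.T_sub_C_neg : T_w - C_w in Lat C (-1);  D.C_sub_T, D.T_sub_C: in Vl (len w).
XR P = elements without right descent in P (= minimal in wW_P), XL P = no left descent in P. par M P = W_P.
P : Bool -> Set B the two sets, PI P = P true n P false, W_i = par M (P i), W_I = par M (PI P).
la : W -> N the function that is the a-function of W_i on W_i. gc x y z = coefficient of q^la(z) in h x y z.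
nu z = coefficient of q^-la(z) in p 1 z. EQ Q = projection H -> H_Q (kills T_w, w not in W_Q). ps u c = coordinate of EQ(C_c) at
C_u, pi u c = its coefficient of degree la u - la c.
hv = a predicate ('heavy'), II = span of the C_w, hv w; Idl: II is a two-sided ideal. x in LL n: all coordinates C.repr x z,
z light (not hv), have degree <= n. ld n x = the function z -> coefficient of degree n of C.repr x z (z light), 0 at heavy z.
II is in LL n for all n, ld n kills II. In the main part hv = Occ N = 'w has a syllable g with la g >= N'.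
-/

namespace Pool.Agent.Helper35.AM

open Pool.Agent.Helper35.KL

section cox

variable {B : Type}

/-- The elements without right descent in `P`. -/
def XR (M : CoxeterMatrix B) (P : Set B) : Set M.Group :=
  {p | ∀ b ∈ P, len M (p * sm M b) = len M p + 1}

/-- The elements without left descent in `P`. -/
def XL (M : CoxeterMatrix B) (P : Set B) : Set M.Group :=
  {r | ∀ b ∈ P, len M (sm M b * r) = len M r + 1}

/-- The intersection of the two sets of generators. -/
def PI (P : Bool → Set B) : Set B := P true ∩ P false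

/-- The group is the amalgam of its parabolic subgroups `P true` and `P false` over their
intersection. -/
structure Am (M : CoxeterMatrix B) (P : Bool → Set B) : Prop where
  cover : ∀ b, b ∈ P true ∨ b ∈ P false
  inf : ∀ b c, b ∈ P true → b ∉ P false → c ∈ P false → c ∉ P true → M b c = 0

/-- `w` has a syllable `g` with `la g ≥ N`. -/
def Occ (M : CoxeterMatrix B) (P : Bool → Set B) (la : M.Group → ℕ) (N : ℕ) (w : M.Group) :
    Prop :=
  (w ∈ par M (PI P) ∧ N ≤ la w) ∨
    ∃ i, ∃ p ∈ XR M (P i), ∃ g ∈ par M (P i), g ∉ par M (PI P) ∧ ∃ r ∈ XL M (P i),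
      w = p * g * r ∧ N ≤ la g

end cox

section hecke

variable {B : Type} {M : CoxeterMatrix B} {L : M.Group → ℤ} {H : Type} [Ring H] [Algebra LP H]

/-- The span of the `C w` with `hv w`. -/
noncomputable def II (D : KLD M L H) (hv : M.Group → Prop) : Submodule LP H :=
  Submodule.span LP (D.C '' {w | hv w})

/-- The elements whose coordinates at the `C z` with `¬ hv z` have degree at most `n`. -/
noncomputable def LL (D : KLD M L H) (hv : M.Group → Prop) (n : ℤ) : AddSubgroup H where
  carrier := {x | ∀ z, ¬ hv z → Dle n (D.C.repr x z)}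
  add_mem' := by
    intro x y hx hy z hz
    rw [map_add, Finsupp.add_apply]
    exact (hx z hz).add (hy z hz)
  zero_mem' := by
    intro z _
    rw [map_zero]
    exact Dle.zero n
  neg_mem' := by
    intro x hx z hz
    rw [map_neg, Finsupp.neg_apply]
    exact (hx z hz).neg

open scoped Classical in
/-- The coefficients of degree `n` of the coordinates at the `C z` with `¬ hv z`. -/
noncomputable def ld (D : KLD M L H) (hv : M.Group → Prop) (n : ℤ) : H →+ (M.Group →₀ ℤ) where
  toFun x := Finsupp.onFinset (D.C.repr x).support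
    (fun z => if hv z then 0 else (D.C.repr x z).coeff n) (by
      intro z hz
      rw [Finsupp.mem_support_iff]
      intro h
      apply hz
      rw [h, cf_zero, ite_self])
  map_zero' := by
    ext z
    rw [Finsupp.onFinset_apply, map_zero, Finsupp.zero_apply, cf_zero, ite_self,
      Finsupp.zero_apply]
  map_add' x y := by
    ext z
    rw [Finsupp.add_apply, Finsupp.onFinset_apply, Finsupp.onFinset_apply,
      Finsupp.onFinset_apply, map_add, Finsupp.add_apply, cf_add]
    split_ifs <;> simp

/-- The span of the `C w` with `hv w` is an ideal. -/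
structure Idl (D : KLD M L H) (hv : M.Group → Prop) : Prop where
  mulL : ∀ w, hv w → ∀ y : H, y * D.C w ∈ II D hv
  mulR : ∀ w, hv w → ∀ y : H, D.C w * y ∈ II D hv

/-- The leading coefficient of `h x y z`. -/
noncomputable def gc (D : KLD M L H) (la : M.Group → ℕ) (x y z : M.Group) : ℤ :=
  (D.h x y z).coeff (la z)

/-- The leading coefficient of `p 1 z`. -/
noncomputable def nu (D : KLD M L H) (la : M.Group → ℕ) (z : M.Group) : ℤ :=
  (D.p 1 z).coeff (-la z)

open scoped Classical in
/-- The projection to the Hecke algebra of a parabolic subgroup. -/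
noncomputable def EQ (D : KLD M L H) (Q : Set B) : H →ₗ[LP] H :=
  D.T.constr LP fun w => if w ∈ par M Q then D.T w else 0

/-- The Hecke algebra of a parabolic subgroup, as a submodule. -/
noncomputable def HQ (D : KLD M L H) (Q : Set B) : Submodule LP H :=
  Submodule.span LP (D.T '' {w | w ∈ par M Q})

/-- The coordinate of the projection of `C c` at `C u`. -/
noncomputable def ps (D : KLD M L H) (Q : Set B) (u c : M.Group) : LP :=
  D.C.repr (EQ D Q (D.C c)) u

/-- The leading coefficient of `ps u c`. -/
noncomputable def pi (D : KLD M L H) (Q : Set B) (la : M.Group → ℕ) (u c : M.Group) : ℤ :=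
  (ps D Q u c).coeff ((la u : ℤ) - la c)

/-- The properties P1-P15 of a parabolic subgroup, in terms of the function `la`. -/
structure Loc (D : KLD M L H) (P : Set B) (la : M.Group → ℕ) : Prop where
  bdd : ∃ N : ℕ, ∀ z ∈ par M P, la z ≤ N
  lainv : ∀ z ∈ par M P, la z⁻¹ = la z
  dle : ∀ x ∈ par M P, ∀ y ∈ par M P, ∀ z ∈ par M P, Dle (la z) (D.h x y z)
  p4 : ∀ x ∈ par M P, ∀ y ∈ par M P, ∀ z, D.h x y z ≠ 0 → la x ≤ la z ∧ la y ≤ la z
  p1 : ∀ z ∈ par M P, Dle (-la z) (D.p 1 z)
  p2 : ∀ x ∈ par M P, ∀ y ∈ par M P, ∀ z ∈ par M P, nu D la z ≠ 0 → gc D la x y z ≠ 0 → x = y⁻¹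
  p3 : ∀ y ∈ par M P, ∃ z ∈ par M P, nu D la z ≠ 0 ∧ gc D la y⁻¹ y z = nu D la z ∧
    (nu D la z = 1 ∨ nu D la z = -1) ∧
    ∀ z' ∈ par M P, nu D la z' ≠ 0 → gc D la y⁻¹ y z' ≠ 0 → z' = z
  inv : ∀ z ∈ par M P, nu D la z ≠ 0 → z⁻¹ = z
  q : ∀ x ∈ par M P, ∀ y ∈ par M P, ∀ z ∈ par M P, gc D la x y z ≠ 0 → la x = la z ∧ la y = la z
  unitR : ∀ g ∈ par M P, ∃ d ∈ par M P, nu D la d ≠ 0 ∧ (nu D la d = 1 ∨ nu D la d = -1) ∧
    gc D la g⁻¹ g d = nu D la d ∧ gc D la g d g = nu D la d ∧
    ∀ c ∈ par M P, c ≠ g → gc D la g d c = 0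
  p12 : ∀ I : Set B, ∀ g ∈ par M P, g ∈ par M I → ∃ x ∈ par M P, ∃ y ∈ par M P,
    x ∈ par M I ∧ y ∈ par M I ∧ gc D la x y g ≠ 0
  p15 : ∀ (n : ℤ), ∀ w ∈ par M P, ∀ w' ∈ par M P, ∀ x ∈ par M P, ∀ y ∈ par M P, la x = la y →
    D.C.repr (D.C w * D.phi n w' (D.C x)) y = D.C.repr (D.phi n w' (D.C w * D.C x)) y

/-- A filtration of the Hecke algebra with leading terms in an abelian group. -/
structure Lf (D : KLD M L H) (hv : M.Group → Prop) (A : Type) [AddCommGroup A] where
  /-- the filtration -/
  Lam : ℤ → AddSubgroup H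
  /-- the leading terms -/
  ld : ℤ → H →+ A
  mono : ∀ {m n : ℤ}, m ≤ n → Lam m ≤ Lam n
  lt : ∀ {m n : ℤ} {x : H}, m < n → x ∈ Lam m → ld n x = 0
  smul : ∀ {m n : ℤ} {a : LP} {x : H}, Dle m a → x ∈ Lam n → a • x ∈ Lam (m + n)
  ldsmul : ∀ {m n : ℤ} {a : LP} {x : H}, Dle m a → x ∈ Lam n →
    ld (m + n) (a • x) = a.coeff m • ld n x
  mem : ∀ {x : H}, x ∈ II D hv → ∀ n, x ∈ Lam n

/-- Combinations of the `T p * C g` with negative coefficients, `p` of length less than `n`. -/
noncomputable def NegL (D : KLD M L H) (P : Set B) (S : Set M.Group) (n : ℕ) : AddSubgroup H :=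
  AddSubgroup.closure {x | ∃ (a : LP), ∃ p ∈ XR M P, ∃ g ∈ S, Dle (-1) a ∧ len M p < n ∧
    x = a • (D.T p * D.C g)}

/-- Combinations of the `C g * T r` with negative coefficients, `r` of length less than `n`. -/
noncomputable def NegR (D : KLD M L H) (P : Set B) (S : Set M.Group) (n : ℕ) : AddSubgroup H :=
  AddSubgroup.closure {x | ∃ (a : LP), ∃ r ∈ XL M P, ∃ g ∈ S, Dle (-1) a ∧ len M r < n ∧
    x = a • (D.C g * D.T r)}

/-- A set of elements of a parabolic subgroup that is closed under left multiplication. -/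
structure ClL (D : KLD M L H) (P : Set B) (S : Set M.Group) : Prop where
  sub : ∀ g ∈ S, g ∈ par M P
  cl : ∀ x ∈ par M P, ∀ g ∈ S, ∀ g', D.h x g g' ≠ 0 → g' ∈ S

/-- A set of elements of a parabolic subgroup that is closed under right multiplication. -/
structure ClR (D : KLD M L H) (P : Set B) (S : Set M.Group) : Prop where
  sub : ∀ g ∈ S, g ∈ par M P
  cl : ∀ x ∈ par M P, ∀ g ∈ S, ∀ g', D.h g x g' ≠ 0 → g' ∈ S

open scoped Classical in
/-- The linear map that sends `C g` to `η g` if `g` is in the parabolic subgroup and `la g = k`. -/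
noncomputable def Le (D : KLD M L H) (P : Set B) (la : M.Group → ℕ) (k : ℕ)
    (η : M.Group → H) : H →ₗ[LP] H :=
  D.C.constr LP fun g => if g ∈ par M P ∧ la g = k then η g else 0

/-- The conditions on the images of the `C g`. -/
structure AdmL (D : KLD M L H) (hv : M.Group → Prop) (P : Set B) (la : M.Group → ℕ) (k : ℕ)
    (η : M.Group → H) : Prop where
  mul : ∀ b ∈ par M P, ∀ g ∈ par M P, la g = k →
    D.C b * η g - Le D P la k η (D.C b * D.C g) ∈ II D hv
  bar : ∀ g ∈ par M P, la g = k → D.bar (η g) - η g ∈ II D hv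
  lam : ∀ p ∈ XR M P, ∀ g ∈ par M P, la g = k → D.T p * η g ∈ LL D hv 0

end hecke

end Pool.Agent.Helper35.AM
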