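import Pool.Agent.Helper35.AM.Id2

/-!
# The coordinates at `T 1` modulo the ideals
-/

namespace Pool.Agent.Helper35.AM

open Pool.Agent.Helper35.KL

section ep

variable {B : Type} {M : CoxeterMatrix B} {L : M.Group → ℤ} {H : Type} [Ring H] [Algebra LP H]
variable {D : KLD M L H} {P : Bool → Set B} {la : M.Group → ℕ} (hD : Dat D P la)

/-- The filtration by the ideals. -/
noncomputable def FN (hD : Dat D P la) (N : ℕ) : Fil D where
  E := D.C
  hv := Occ M P la N
  E_sub := D.C_sub_T
  bar_E := D.bar_C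
  mulL := fun x w hw => (idl hD N).mulL w hw x
  mulR := fun x w hw => (idl hD N).mulR w hw x

/-- The coordinate at `T 1` modulo the ideal. -/
noncomputable def ep (hD : Dat D P la) (N : ℕ) : H →ₗ[LP] LP :=
  (Finsupp.lapply 1).comp (FN hD N).cc

theorem ep_II {N : ℕ} {x : H} (hx : x ∈ II D (Occ M P la N)) : ep hD N x = 0 := by
  change (FN hD N).cc x 1 = 0
  rw [(FN hD N).cc_I hx, Finsupp.zero_apply]

open scoped Classical in
theorem ep_T {N : ℕ} (hN : 0 < N) {w : M.Group} (hw : ¬ Occ M P la N w) :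
    ep hD N (D.T w) = if w = 1 then 1 else 0 := by
  change (FN hD N).cc (D.T w) 1 = _
  rw [(FN hD N).cc_T hw, Finsupp.single_apply]

theorem ep_al_one (hD : Dat D P la) : al M P la 1 = 0 := by
  rw [al_mem hD (i := true) (par M (P true)).one_mem, la_one D hD.locI hD.wt]

theorem ep_not_one (hD : Dat D P la) {N : ℕ} (hN : 0 < N) : ¬ Occ M P la N (1 : M.Group) := by
  rw [Occ_iff hD, ep_al_one hD]
  omega

theorem ep_expand (b : Module.Basis M.Group LP H) (p r : H) (φ : H →ₗ[LP] LP) (x : H) :
    φ (p * x * r) = ∑ y ∈ (b.repr x).support, b.repr x y * φ (p * b y * r) := by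
  conv_lhs => rw [← b.linearCombination_repr x]
  rw [Finsupp.linearCombination_apply, Finsupp.sum, Finset.mul_sum, Finset.sum_mul, map_sum]
  refine Finset.sum_congr rfl fun y _ => ?_
  rw [mul_smul_comm, smul_mul_assoc, map_smul, smul_eq_mul]

theorem ep_expand_one (b : Module.Basis M.Group LP H) (φ : H →ₗ[LP] LP) (x : H) :
    φ x = ∑ y ∈ (b.repr x).support, b.repr x y * φ (b y) := by
  have h1 := ep_expand b 1 1 φ x
  simpa only [one_mul, mul_one] using h1

/-- The estimate for the elements of length less than `n`. -/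
def Qb (hD : Dat D P la) (n : ℕ) : Prop :=
  ∀ N : ℕ, 0 < N → ∀ w, Occ M P la N w → len M w < n → Dle (-N) (ep hD N (D.T w))

theorem ep_near {n N : ℕ} (hQ : Qb hD n) (hN : 0 < N) {x : H} (hx : x ∈ Vl D.T (len M) n)
    {m : ℤ} (h : ∀ y, Occ M P la N y → Dle m (D.T.repr x y)) :
    Dle (m - N) (ep hD N x - D.T.repr x 1) := by
  classical
  rw [ep_expand_one D.T (ep hD N) x]
  have h4 : ∀ y ∈ (D.T.repr x).support, y ≠ 1 →
      Dle (m - N) (D.T.repr x y * ep hD N (D.T y)) := by
    intro y hy hy1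
    by_cases hyN : Occ M P la N y
    · exact (h y hyN).mul_of_eq (hQ N hN y hyN
        ((mem_Vl_iff D.T (len M) _ _).1 hx y (Finsupp.mem_support_iff.1 hy))) (by omega)
    · rw [ep_T hD hN hyN, if_neg hy1, mul_zero]
      exact Dle.zero _
  by_cases h1s : (1 : M.Group) ∈ (D.T.repr x).support
  · rw [← Finset.sum_erase_add _ _ h1s, ep_T hD hN (ep_not_one hD hN), if_pos rfl, mul_one,
      add_sub_cancel_right]
    refine Dle.sum _ fun y hy => ?_
    rw [Finset.mem_erase] at hy
    exact h4 y hy.2 hy.1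
  · rw [Finsupp.notMem_support_iff.1 h1s, sub_zero]
    refine Dle.sum _ fun y hy => h4 y hy ?_
    rintro rfl
    exact h1s hy

theorem ep_C_Vl (D : KLD M L H) (z : M.Group) : D.C z ∈ Vl D.T (len M) (len M z + 1) := by
  have h1 : D.C z = (D.C z - D.T z) + D.T z := by abel
  rw [h1]
  exact Submodule.add_mem _ (Vl_mono _ _ (Nat.le_succ _) (D.C_sub_T z))
    (mem_Vl _ _ (Nat.lt_succ_self _))

theorem ep_p_zero (D : KLD M L H) (y z : M.Group) : Dle 0 (D.T.repr (D.C z) y) := by
  have h1 : D.C z = (D.C z - D.T z) + D.T z := by abel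
  have h2 : D.C z ∈ Lat D.T 0 := by
    rw [h1]
    exact AddSubgroup.add_mem _ (Lat_mono _ (by norm_num) (D.C_sub_T_neg z))
      (basis_mem_Lat D.T z)
  exact h2 y

theorem ep_p_neg (D : KLD M L H) {y z : M.Group} (h : y ≠ z) : Dle (-1) (D.T.repr (D.C z) y) := by
  have h6 := D.C_T z y
  rwa [map_sub, Finsupp.sub_apply, Module.Basis.repr_self,
    Finsupp.single_eq_of_ne h, sub_zero] at h6

theorem ep_P1 {n : ℕ} (hQ : Qb hD n) {z : M.Group} (hz : len M z < n) :
    Dle (-(al M P la z : ℤ)) (D.p 1 z) := by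
  rcases Nat.eq_zero_or_pos (al M P la z) with h0 | h0
  · rw [h0]
    exact ep_p_zero D 1 z
  · have h1 := ep_near hD hQ h0 (Vl_mono _ _ hz (ep_C_Vl D z)) (m := 0)
      (fun y _ => ep_p_zero D y z)
    rw [ep_II hD (C_mem_II ((Occ_iff hD).2 le_rfl)), zero_sub, zero_sub] at h1
    have h2 := h1.neg
    rwa [neg_neg] at h2

theorem ep_E3 {n N : ℕ} (hQ : Qb hD n) (hN : 0 < N) {z : M.Group} (hz : len M z < n)
    (hl : ¬ Occ M P la N z) : Dle (-(al M P la z : ℤ)) (ep hD N (D.C z)) ∧
      (ep hD N (D.C z)).coeff (-(al M P la z : ℤ)) = (D.p 1 z).coeff (-(al M P la z : ℤ)) := by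
  have h1 := ep_near hD hQ hN (Vl_mono _ _ hz (ep_C_Vl D z)) (m := -1)
    (fun y hy => ep_p_neg D (fun h => hl (h ▸ hy)))
  have h2 := ep_P1 hD hQ hz
  have h3 : al M P la z < N := by
    by_contra h
    exact hl ((Occ_iff hD).2 (by omega))
  have h4 : ep hD N (D.C z) = (ep hD N (D.C z) - D.T.repr (D.C z) 1) + D.p 1 z := by
    rw [KLD.p, sub_add_cancel]
  refine ⟨?_, ?_⟩
  · rw [h4]
    exact (h1.mono (by omega)).add h2
  · rw [h4, cf_add, h1 _ (by omega), zero_add]

theorem ep_E2 {n N : ℕ} (hQ : Qb hD n) (hN : 0 < N) {p r u : M.Group} (hp : p ∈ XR M (PI P))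
    (hr : r ∈ XL M (PI P)) (hu : u ∈ par M (PI P)) (hl : len M p + len M u + len M r < n) :
    Dle (-la u) (ep hD N (D.T p * D.C u * D.T r)) := by
  rw [ep_expand_one D.C (ep hD N)]
  refine Dle.sum _ fun z hz => ?_
  by_cases hzN : Occ M P la N z
  · rw [ep_II hD (C_mem_II hzN), mul_zero]
    exact Dle.zero _
  · have h1 := TCT_dle_al hD hp hr hu z
    have h2 : D.T p * D.C u * D.T r ∈ Vl D.T (len M) (len M p + len M u + len M r + 1) := by
      have h3 := D.mul_Vl (mem_Vl D.T (len M) (w := p) (Nat.lt_succ_self _)) (ep_C_Vl D u)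
      have h4 := D.mul_Vl h3 (mem_Vl D.T (len M) (w := r) (Nat.lt_succ_self _))
      exact Vl_mono _ _ (by omega) h4
    rw [← Vl_eq D.T (len M) D.C D.C_sub_T, mem_Vl_iff] at h2
    have h3 := h2 z (Finsupp.mem_support_iff.1 hz)
    exact h1.mul_of_eq (ep_E3 hD hQ hN (by omega) hzN).1 (by omega)

theorem ep_Q (n : ℕ) : Qb hD n := by
  classical
  induction n with
  | zero => intro N _ w _ h; omega
  | succ n ih =>
    intro N hN w hw hl
    by_cases hln : len M w < n
    · exact ih N hN w hw hln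
    have hw1 : w ≠ 1 := fun h => ep_not_one hD hN (h ▸ hw)
    have hlw : len M w = n := by omega
    have hw' := hw
    rcases hw with ⟨h1, h2⟩ | ⟨i, p, hp, g, hg, hg', r, hr, hpgr, hgN⟩
    · have h3 := ep_near hD ih hN (x := D.C w - D.T w) (hlw ▸ D.C_sub_T w) (m := -1)
        (fun y _ => D.C_T w y)
      have h4 : D.T.repr (D.C w - D.T w) 1 = D.p 1 w := by
        rw [map_sub, Finsupp.sub_apply, Module.Basis.repr_self,
          Finsupp.single_eq_of_ne (Ne.symm hw1), sub_zero, KLD.p]
      rw [h4, map_sub, ep_II hD (C_mem_II hw'), zero_sub] at h3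
      have h5 := hD.locI.p1 w h1
      have h6 : ep hD N (D.T w) = -((-ep hD N (D.T w) - D.p 1 w) + D.p 1 w) := by ring
      rw [h6]
      exact ((h3.mono (by omega)).add (h5.mono (by omega))).neg
    · have hT := hD.T_three hp hg hg' hr
      have hlen := len_three hD.am hp hg hg' hr
      rw [← hpgr] at hT hlen
      have hg1 : g ≠ 1 := fun h => hg' (h ▸ (par M (PI P)).one_mem)
      -- the element of the ideal
      have h1 : ep hD N (D.T p * D.C g * D.T r) = 0 :=
        ep_II hD ((idl hD N).II_mulR _ ((idl hD N).II_mulL _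
          (C_mem_II (Occ_of_mem hg hgN))))
      obtain ⟨s, hs⟩ : ∃ s, s = D.C g - D.T g - EQ D (PI P) (D.C g) := ⟨_, rfl⟩
      have h2 : D.T p * D.C g * D.T r = D.T w + D.T p * s * D.T r +
          D.T p * EQ D (PI P) (D.C g) * D.T r := by
        rw [hs, ← hT]
        noncomm_ring
      -- the coordinates of `s`
      have h3 : ∀ g1, D.T.repr s g1 ≠ 0 → g1 ∈ par M (P i) ∧ g1 ∉ par M (PI P) ∧
          len M g1 < len M g ∧ Dle (-1) (D.T.repr s g1) := by
        intro g1 hne
        have h4 : D.T.repr s g1 = D.T.repr (D.C g - D.T g) g1 -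
            (if g1 ∈ par M (PI P) then D.T.repr (D.C g) g1 else 0) := by
          rw [hs, map_sub, Finsupp.sub_apply, repr_EQ]
        have h5 : g1 ∉ par M (PI P) := by
          intro h
          have h10 : g1 ≠ g := fun h' => hg' (h' ▸ h)
          apply hne
          rw [h4, if_pos h, map_sub, Finsupp.sub_apply, Module.Basis.repr_self,
            Finsupp.single_eq_of_ne h10, sub_zero, sub_self]
        rw [h4, if_neg h5, sub_zero] at hne ⊢
        refine ⟨?_, h5, ?_, D.C_T g g1⟩
        · by_contra hn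
          apply hne
          exact (mem_HQ D).1 (Submodule.sub_mem _ (C_mem_HQ D hg) (T_mem_HQ D hg)) g1 hn
        · exact (mem_Vl_iff D.T (len M) _ _).1 (D.C_sub_T g) g1 hne
      have h4 : Dle (-N) (ep hD N (D.T p * s * D.T r)) := by
        rw [ep_expand D.T]
        refine Dle.sum _ fun g1 hg1' => ?_
        obtain ⟨h5, h6, h7, h8⟩ := h3 g1 (Finsupp.mem_support_iff.1 hg1')
        rw [hD.T_three hp h5 h6 hr]
        have h9 := len_three hD.am hp h5 h6 hr
        by_cases hN1 : Occ M P la N (p * g1 * r)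
        · exact h8.mul_of_eq (ih N hN _ hN1 (by omega)) (by omega)
        · rw [ep_T hD hN hN1, if_neg, mul_zero]
          · exact Dle.zero _
          · intro h
            rw [h, len_one] at h9
            have h10 : g1 = 1 := len_eq_zero.1 (by omega)
            exact h6 (h10 ▸ (par M (PI P)).one_mem)
      have h5 : Dle (-N) (ep hD N (D.T p * EQ D (PI P) (D.C g) * D.T r)) := by
        rw [ep_expand D.C]
        refine Dle.sum _ fun u hu => ?_
        have hu' := Finsupp.mem_support_iff.1 hu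
        have h6 : u ∈ par M (PI P) := by
          by_contra hn
          exact hu' ((mem_HQ_C D).1 (EQ_mem D (D.C g)) u hn)
        have h7 : len M u < len M g := by
          have h8 : EQ D (PI P) (D.C g) ∈ Vl D.T (len M) (len M g) := by
            rw [mem_Vl_iff]
            intro y hy
            rw [repr_EQ] at hy
            split_ifs at hy with h9
            · have h10 : y ≠ g := fun h => hg' (h ▸ h9)
              have h11 : D.T.repr (D.C g - D.T g) y ≠ 0 := by
                rwa [map_sub, Finsupp.sub_apply, Module.Basis.repr_self,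
                  Finsupp.single_eq_of_ne h10, sub_zero]
              exact (mem_Vl_iff D.T (len M) _ _).1 (D.C_sub_T g) y h11
            · exact absurd rfl hy
          rw [← Vl_eq D.T (len M) D.C D.C_sub_T, mem_Vl_iff] at h8
          exact h8 u hu'
        have h8 := L2a D (PI_sub i) (hD.loc i) h6 hg
        have h9 := ep_E2 hD ih hN (XR_mono (PI_sub i) hp) (XL_mono (PI_sub i) hr) h6
          (by omega)
        exact h8.mul_of_eq h9 (by omega)
      rw [h2, map_add, map_add] at h1
      have h6 : ep hD N (D.T w) = -(ep hD N (D.T p * s * D.T r) +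
          ep hD N (D.T p * EQ D (PI P) (D.C g) * D.T r)) := by
        rw [eq_neg_iff_add_eq_zero, ← h1]
        ring
      rw [h6]
      exact (h4.add h5).neg

/-- The coordinates of the elements of the standard basis in the ideal. -/
theorem ep_T_dle {N : ℕ} (hN : 0 < N) {w : M.Group} (hw : Occ M P la N w) :
    Dle (-N) (ep hD N (D.T w)) := ep_Q hD _ N hN w hw (Nat.lt_succ_self _)

include hD in
theorem P1_al (z : M.Group) : Dle (-(al M P la z : ℤ)) (D.p 1 z) :=
  ep_P1 hD (ep_Q hD _) (Nat.lt_succ_self _)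

include hD in
theorem P1_am (z : M.Group) : Dle (-D.a z) (D.p 1 z) := by
  rw [a_eq_al hD]
  exact P1_al hD z

include hD in
theorem nn_al (z : M.Group) : D.nn z = nu D (al M P la) z := by
  rw [KLD.nn, nu, a_eq_al hD]

/-- The leading coefficient of the coordinate of `T z` for the level of `z`. -/
theorem ep_T_lead {N : ℕ} (hN : 0 < N) {z : M.Group} (hz : al M P la z = N) :
    (ep hD N (D.T z)).coeff (-N) = -D.nn z := by
  have hz' : Occ M P la N z := (Occ_iff hD).2 hz.ge
  have hw1 : z ≠ 1 := fun h => ep_not_one hD hN (h ▸ hz')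
  have h3 := ep_near hD (ep_Q hD _) hN (x := D.C z - D.T z) (D.C_sub_T z) (m := -1)
    (fun y _ => D.C_T z y)
  have h4 : D.T.repr (D.C z - D.T z) 1 = D.p 1 z := by
    rw [map_sub, Finsupp.sub_apply, Module.Basis.repr_self,
      Finsupp.single_eq_of_ne (Ne.symm hw1), sub_zero, KLD.p]
  rw [h4, map_sub, ep_II hD (C_mem_II hz'), zero_sub] at h3
  have h5 := h3 (-N) (by omega)
  rw [cf_sub, cf_neg] at h5
  rw [nn_al hD, nu, hz]
  linarith

theorem ep_C {N : ℕ} (hN : 0 < N) {z : M.Group} (hz : ¬ Occ M P la N z) :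
    Dle (-(al M P la z : ℤ)) (ep hD N (D.C z)) ∧
      (ep hD N (D.C z)).coeff (-(al M P la z : ℤ)) = D.nn z := by
  rw [nn_al hD]
  exact ep_E3 hD (ep_Q hD _) hN (Nat.lt_succ_self _) hz

end ep

end Pool.Agent.Helper35.AM
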