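import Pool.Agent.Helper35.AM.Ep
import Pool.Agent.Helper35.AM.Lq2

/-!
# The coordinates at `T 1` of products
-/

/- PROOF HINTS (conventions: see Df.lean)
Ep2. ep_TCT: E2 for all lengths. ep_TT: Dle 0: expand T_xT_y in C_z: Dle(al z) (TT_dle_al) times Dle(-al z). Put st(x,y) = (ep(T_xT_y)).coeff 0. If x' - T_x and y' - T_y are in Lat T(-1) then x'y' has the same coefficient. Use Lf with A = Z: Lam n = {x | Dle n (ep x)}, ld n x = (ep x).coeff n,
 kappa = 0, T0 = -N. Induction on len y, two_cases x y: (different) x = p u, y = v r: st = sum_w gc(u,v,w) e_w, e_w = (ep(T_pC_wT_r)).coeff(-la w) over la w < N, T_pC_wT_r = sum p_{v',w}T_{pv'r}: if p = r = 1: e_w = nu w, else 0 (all T_{pv'r} are <> T_1: light 0, heavy Dle(-N) < -la w).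
 So st = [p=r=1] sum_{la w<N} gc(u,v,w) nu(w) = [p=r=1][u v=1][la u<N] (p2, p3, q in W_I). (same) x = p g, y = g' r, g = v y', g' = x' u (y' in XL PI, x' in XR PI): peel (la g < N): the T_{pcr} terms are Dle(la c - N) <= -1 and vanish in degree 0: st(x,y) = [la g<N][y'x'=1] st(p v, u r), IH
 (len(u r) < len y since x' <> 1); la g >= N: x heavy, T_pC_g in II, st = 0. Then [la g<N][not Occ N (p v)] = [not Occ N (p g)] by OccR and Occ monotone (al_mul). ep_TCT_lead: d = right unit of u in W_I: T_pC_uC_dT_r: coefficient 0 of ep is nu(d)... = gc(u,d,u) e_u = nu(d) e_u, and it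
 is st(p u, d r) = [p u d r = 1][not Occ N (p u)]; p u d r = 1 <=> r = p^-1 and d = u^-1 (XR_unique), and then d = u, nu d = nu u; if nu u <> 0 then d = u^-1 = u (p3 uniqueness: gc u^-1 u d <> 0; u itself: unit property).
-/

namespace Pool.Agent.Helper35.AM

open Pool.Agent.Helper35.KL

section ep2

variable {B : Type} {M : CoxeterMatrix B} {L : M.Group → ℤ} {H : Type} [Ring H] [Algebra LP H]
variable {D : KLD M L H} {P : Bool → Set B} {la : M.Group → ℕ} (hD : Dat D P la)

private theorem Ep2_exp (b : Module.Basis M.Group LP H) (f : H →ₗ[LP] LP) (x : H) :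
    f x = ∑ z ∈ (b.repr x).support, b.repr x z * f (b z) := by
  conv_lhs => rw [← b.linearCombination_repr x]
  rw [Finsupp.linearCombination_apply, Finsupp.sum, map_sum]
  exact Finset.sum_congr rfl fun z _ => by rw [map_smul, smul_eq_mul]

theorem ep_TCT {N : ℕ} (hN : 0 < N) {p r u : M.Group} (hp : p ∈ XR M (PI P))
    (hr : r ∈ XL M (PI P)) (hu : u ∈ par M (PI P)) :
    Dle (-la u) (ep hD N (D.T p * D.C u * D.T r)) := by
  rw [Ep2_exp D.C (ep hD N) (D.T p * D.C u * D.T r)]
  refine Dle.sum _ fun z _ => ?_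
  by_cases hz : Occ M P la N z
  · rw [ep_II hD (C_mem_II hz), mul_zero]
    exact Dle.zero _
  · exact (TCT_dle_al hD hp hr hu z).mul_of_eq (ep_C hD hN hz).1 (by omega)

private theorem Ep2_TT {N : ℕ} (hN : 0 < N) (x y : M.Group) :
    Dle 0 (ep hD N (D.T x * D.T y)) := by
  rw [Ep2_exp D.C (ep hD N) (D.T x * D.T y)]
  refine Dle.sum _ fun z _ => ?_
  by_cases hz : Occ M P la N z
  · rw [ep_II hD (C_mem_II hz), mul_zero]
    exact Dle.zero _
  · exact (TT_dle_al hD x y z).1.mul_of_eq (ep_C hD hN hz).1 (by omega)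

private theorem Ep2_Lat {N : ℕ} (hN : 0 < N) {m n : ℤ} {x y : H} (hx : x ∈ Lat D.T m)
    (hy : y ∈ Lat D.T n) : Dle (m + n) (ep hD N (x * y)) := by
  have h1 : ∀ w, Dle n (ep hD N (D.T w * y)) := by
    intro w
    have e := Ep2_exp D.T ((ep hD N).comp (LinearMap.mulLeft LP (D.T w))) y
    simp only [LinearMap.comp_apply, LinearMap.mulLeft_apply] at e
    rw [e]
    exact Dle.sum _ fun z _ => (hy z).mul_of_eq (Ep2_TT hD hN w z) (by omega)
  have e := Ep2_exp D.T ((ep hD N).comp (LinearMap.mulRight LP y)) x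
  simp only [LinearMap.comp_apply, LinearMap.mulRight_apply] at e
  rw [e]
  exact Dle.sum _ fun z _ => (hx z).mul_of_eq (h1 z) le_rfl

private theorem Ep2_cf {N : ℕ} (hN : 0 < N) {x x' y y' : H} (hx : x ∈ Lat D.T 0)
    (hy' : y' ∈ Lat D.T 0) (h1 : x - x' ∈ Lat D.T (-1)) (h2 : y - y' ∈ Lat D.T (-1)) :
    (ep hD N (x * y)).coeff 0 = (ep hD N (x' * y')).coeff 0 := by
  have e : x * y = x' * y' + (x * (y - y') + (x - x') * y') := by
    rw [mul_sub, sub_mul]
    abel
  have h3 := (Ep2_Lat hD hN hx h2) 0 (by norm_num)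
  have h4 := (Ep2_Lat hD hN h1 hy') 0 (by norm_num)
  rw [e, map_add, map_add, cf_add, cf_add, h3, h4, add_zero, add_zero]

private theorem Ep2_T_mul {Q : Set B} {p : M.Group} (hp : p ∈ XR M Q) {n : ℤ} {y : H}
    (hy : y ∈ HQ D Q) (hy' : y ∈ Lat D.T n) : D.T p * y ∈ Lat D.T n := by
  have h1 : y = ∑ z ∈ (D.T.repr y).support, D.T.repr y z • D.T z := by
    conv_lhs => rw [← D.T.linearCombination_repr y]
    rw [Finsupp.linearCombination_apply, Finsupp.sum]
  rw [h1, Finset.mul_sum]
  refine AddSubgroup.sum_mem _ fun z hz => ?_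
  have hz' : z ∈ par M Q := by
    by_contra h
    exact Finsupp.mem_support_iff.1 hz ((mem_HQ D).1 hy z h)
  rw [mul_smul_comm, ← D.T_mul p z (len_XR_mul hp hz')]
  have := smul_Lat D.T (hy' z) (basis_mem_Lat D.T (p * z))
  rwa [add_zero] at this

private theorem Ep2_mul_T {Q : Set B} {r : M.Group} (hr : r ∈ XL M Q) {n : ℤ} {y : H}
    (hy : y ∈ HQ D Q) (hy' : y ∈ Lat D.T n) : y * D.T r ∈ Lat D.T n := by
  have h1 : y = ∑ z ∈ (D.T.repr y).support, D.T.repr y z • D.T z := by
    conv_lhs => rw [← D.T.linearCombination_repr y]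
    rw [Finsupp.linearCombination_apply, Finsupp.sum]
  rw [h1, Finset.sum_mul]
  refine AddSubgroup.sum_mem _ fun z hz => ?_
  have hz' : z ∈ par M Q := by
    by_contra h
    exact Finsupp.mem_support_iff.1 hz ((mem_HQ D).1 hy z h)
  rw [smul_mul_assoc, ← D.T_mul z r (len_mul_XL hz' hr)]
  have := smul_Lat D.T (hy' z) (basis_mem_Lat D.T (z * r))
  rwa [add_zero] at this

private theorem Ep2_C_Lat (w : M.Group) : D.C w ∈ Lat D.T 0 := by
  have h := AddSubgroup.add_mem _ (Lat_mono D.T (show (-1 : ℤ) ≤ 0 by norm_num)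
    (D.C_sub_T_neg w)) (basis_mem_Lat D.T w)
  rwa [sub_add_cancel] at h

private theorem Ep2_TC {Q : Set B} {p u : M.Group} (hp : p ∈ XR M Q) (hu : u ∈ par M Q) :
    D.T p * D.C u ∈ Lat D.T 0 ∧ D.T p * D.C u - D.T (p * u) ∈ Lat D.T (-1) := by
  refine ⟨Ep2_T_mul hp (C_mem_HQ D hu) (Ep2_C_Lat u), ?_⟩
  rw [D.T_mul p u (len_XR_mul hp hu), ← mul_sub]
  exact Ep2_T_mul hp (Submodule.sub_mem _ (C_mem_HQ D hu) (T_mem_HQ D hu)) (D.C_sub_T_neg u)

private theorem Ep2_CT {Q : Set B} {r u : M.Group} (hr : r ∈ XL M Q) (hu : u ∈ par M Q) :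
    D.C u * D.T r ∈ Lat D.T 0 ∧ D.C u * D.T r - D.T (u * r) ∈ Lat D.T (-1) := by
  refine ⟨Ep2_mul_T hr (C_mem_HQ D hu) (Ep2_C_Lat u), ?_⟩
  rw [D.T_mul u r (len_mul_XL hu hr), ← sub_mul]
  exact Ep2_mul_T hr (Submodule.sub_mem _ (C_mem_HQ D hu) (T_mem_HQ D hu)) (D.C_sub_T_neg u)

/-- the product with one factor in the basis `C` -/
private theorem Ep2_TCCT {N : ℕ} (hN : 0 < N) {Q Q' : Set B} {p u v r : M.Group}
    (hp : p ∈ XR M Q) (hu : u ∈ par M Q) (hr : r ∈ XL M Q') (hv : v ∈ par M Q') :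
    (ep hD N (D.T p * (D.C u * D.C v) * D.T r)).coeff 0 =
      (ep hD N (D.T (p * u) * D.T (v * r))).coeff 0 := by
  have e : D.T p * (D.C u * D.C v) * D.T r = D.T p * D.C u * (D.C v * D.T r) := by
    simp only [mul_assoc]
  rw [e]
  exact Ep2_cf hD hN (Ep2_TC hp hu).1 (basis_mem_Lat D.T _) (Ep2_TC hp hu).2 (Ep2_CT hr hv).2

include hD in
private theorem Ep2_occ {N : ℕ} {i : Bool} {g : M.Group} (hg : g ∈ par M (P i)) :
    Occ M P la N g ↔ N ≤ la g := by
  rw [Occ_iff hD, al_mem hD hg]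

private theorem Ep2_TCT_II {N : ℕ} {p r u : M.Group} (h : Occ M P la N u) :
    ep hD N (D.T p * D.C u * D.T r) = 0 :=
  ep_II hD ((idl hD N).II_mulR _ ((idl hD N).II_mulL _ (C_mem_II h)))

private theorem Ep2_T_ne {N : ℕ} (hN : 0 < N) {w : M.Group} (hw : w ≠ 1) :
    Dle (-N) (ep hD N (D.T w)) := by
  by_cases h : Occ M P la N w
  · exact ep_T_dle hD hN h
  · rw [ep_T hD hN h, if_neg hw]
    exact Dle.zero _

private theorem Ep2_ne_one {w : M.Group} (h : len M w ≠ 0) : w ≠ 1 := by
  rintro rfl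
  exact h len_one

open scoped Classical in
private theorem Ep2_e {N : ℕ} (hN : 0 < N) {i : Bool} {p r w : M.Group} (hp : p ∈ XR M (P i))
    (hr : r ∈ XL M (P (!i))) (hw : w ∈ par M (PI P)) :
    (ep hD N (D.T p * D.C w * D.T r)).coeff (-la w) =
      if p = 1 ∧ r = 1 then (if la w < N then nu D la w else 0) else 0 := by
  have hwi : w ∈ par M (P true) := par_mono (PI_sub true) hw
  by_cases h1 : N ≤ la w
  · rw [Ep2_TCT_II hD ((Ep2_occ hD hwi).2 h1), cf_zero, if_neg (not_lt.2 h1), ite_self]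
  · have h1' : la w < N := not_le.1 h1
    by_cases h2 : p = 1 ∧ r = 1
    · obtain ⟨rfl, rfl⟩ := h2
      have h3 := (ep_C hD hN (z := w) (fun h => h1 ((Ep2_occ hD hwi).1 h))).2
      rw [if_pos ⟨rfl, rfl⟩, if_pos h1', D.T_one, one_mul, mul_one]
      rw [nn_al hD, nu, al_mem hD hwi] at h3
      exact h3
    · rw [if_neg h2]
      have e := Ep2_exp D.T ((ep hD N).comp ((LinearMap.mulRight LP (D.T r)).comp
        (LinearMap.mulLeft LP (D.T p)))) (D.C w)
      simp only [LinearMap.comp_apply, LinearMap.mulLeft_apply, LinearMap.mulRight_apply] at e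
      rw [e]
      have h3 : Dle (-N) (∑ z ∈ (D.T.repr (D.C w)).support,
          D.T.repr (D.C w) z * ep hD N (D.T p * D.T z * D.T r)) := by
        refine Dle.sum _ fun z hz => ?_
        have hz' : z ∈ par M (PI P) := by
          by_contra h
          exact Finsupp.mem_support_iff.1 hz ((mem_HQ D).1 (C_mem_HQ D hw) z h)
        rw [hD.T_diff hp hz' hr]
        have h4 : p * z * r ≠ 1 := by
          apply Ep2_ne_one
          rw [len_diff hD.am hp hz' hr]
          intro h5
          apply h2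
          rw [← len_eq_zero, ← len_eq_zero (w := r)]
          omega
        exact (Ep2_C_Lat w z).mul_of_eq (Ep2_T_ne hD hN h4) (by omega)
      exact h3 _ (by omega)

include hD in
open scoped Classical in
private theorem Ep2_sum {u v : M.Group} (N : ℕ) (hu : u ∈ par M (PI P))
    (hv : v ∈ par M (PI P)) :
    ∑ w ∈ (D.C.repr (D.T u * D.T v)).support,
      gc D la u v w * (if la w < N then nu D la w else 0) =
      if u * v = 1 ∧ la u < N then 1 else 0 := by
  have hl := hD.locI
  have hpar : ∀ w ∈ (D.C.repr (D.T u * D.T v)).support, w ∈ par M (PI P) := by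
    intro w hw
    by_contra h
    exact Finsupp.mem_support_iff.1 hw ((mem_HQ_C D).1
      (mul_mem_HQ D (T_mem_HQ D hu) (T_mem_HQ D hv)) w h)
  by_cases huv : u * v = 1
  · have hu' : u = v⁻¹ := eq_inv_of_mul_eq_one_left huv
    obtain ⟨z, hz, hz1, hz2, hz3, hz4⟩ := hl.p3 v hv
    rw [← hu'] at hz2 hz4
    have hgz : gc D la u v z ≠ 0 := by
      rw [hz2]
      exact hz1
    obtain ⟨hq, -⟩ := hl.q u hu v hv z hz hgz
    rw [Finset.sum_eq_single z]
    · rw [hz2]
      by_cases h1 : la u < N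
      · rw [if_pos (by omega), if_pos ⟨huv, h1⟩]
        rcases hz3 with h | h
        · rw [h, mul_one]
        · rw [h]
          norm_num
      · rw [if_neg (by omega), mul_zero, if_neg (fun h => h1 h.2)]
    · intro w hw hne
      by_cases h1 : gc D la u v w = 0
      · rw [h1, zero_mul]
      · by_cases h2 : nu D la w = 0
        · rw [h2, ite_self, mul_zero]
        · exact absurd (hz4 w (hpar w hw) h2 h1) hne
    · intro hz'
      exfalso
      apply hgz
      have h1 := (TT_lead D hl hu hv hz).2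
      rw [Finsupp.notMem_support_iff.1 hz', cf_zero] at h1
      exact h1.symm
  · rw [if_neg (fun h => huv h.1)]
    refine Finset.sum_eq_zero fun w hw => ?_
    by_cases h1 : gc D la u v w = 0
    · rw [h1, zero_mul]
    · by_cases h2 : nu D la w = 0
      · rw [h2, ite_self, mul_zero]
      · exfalso
        apply huv
        rw [hl.p2 u hu v hv w (hpar w hw) h2 h1, inv_mul_cancel]

open scoped Classical in
private theorem Ep2_diff {N : ℕ} (hN : 0 < N) {i : Bool} {p u v r : M.Group}
    (hp : p ∈ XR M (P i)) (hu : u ∈ par M (PI P)) (hv : v ∈ par M (PI P))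
    (hr : r ∈ XL M (P (!i))) :
    (ep hD N (D.T (p * u) * D.T (v * r))).coeff 0 =
      if (p * u) * (v * r) = 1 ∧ ¬ Occ M P la N (p * u) then 1 else 0 := by
  have hl := hD.locI
  have e1 : D.T (p * u) * D.T (v * r) = D.T p * (D.T u * D.T v) * D.T r := by
    rw [D.T_mul p u (len_XR_mul hp (par_mono (PI_sub i) hu)),
      D.T_mul v r (len_mul_XL (par_mono (PI_sub (!i)) hv) hr)]
    simp only [mul_assoc]
  have hpar : ∀ w ∈ (D.C.repr (D.T u * D.T v)).support, w ∈ par M (PI P) := by
    intro w hw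
    by_contra h
    exact Finsupp.mem_support_iff.1 hw ((mem_HQ_C D).1
      (mul_mem_HQ D (T_mem_HQ D hu) (T_mem_HQ D hv)) w h)
  have e := Ep2_exp D.C ((ep hD N).comp ((LinearMap.mulRight LP (D.T r)).comp
    (LinearMap.mulLeft LP (D.T p)))) (D.T u * D.T v)
  simp only [LinearMap.comp_apply, LinearMap.mulLeft_apply, LinearMap.mulRight_apply] at e
  rw [e1, e, cf_sum]
  have h1 : ∀ w ∈ (D.C.repr (D.T u * D.T v)).support,
      (D.C.repr (D.T u * D.T v) w * ep hD N (D.T p * D.C w * D.T r)).coeff 0 =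
      gc D la u v w *
        (if p = 1 ∧ r = 1 then (if la w < N then nu D la w else 0) else 0) := by
    intro w hw
    have hw' := hpar w hw
    have h2 := TT_lead D hl hu hv hw'
    have h3 := ep_TCT hD hN (XR_mono (PI_sub i) hp) (XL_mono (PI_sub (!i)) hr) hw'
    have h4 := cf_mul_lead h2.1 h3
    rw [add_neg_cancel, h2.2, Ep2_e hD hN hp hr hw'] at h4
    exact h4
  rw [Finset.sum_congr rfl h1]
  by_cases h2 : p = 1 ∧ r = 1
  · obtain ⟨rfl, rfl⟩ := h2
    have h3 : ∀ w ∈ (D.C.repr (D.T u * D.T v)).support, gc D la u v w *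
        (if (1 : M.Group) = 1 ∧ (1 : M.Group) = 1 then (if la w < N then nu D la w else 0)
          else 0) = gc D la u v w * (if la w < N then nu D la w else 0) := by
      intro w _
      rw [if_pos ⟨rfl, rfl⟩]
    rw [Finset.sum_congr rfl h3, Ep2_sum hD N hu hv, one_mul, mul_one]
    have h4 : Occ M P la N u ↔ N ≤ la u := Ep2_occ hD (par_mono (PI_sub true) hu)
    simp only [h4, not_le]
  · have h3 : ∀ w ∈ (D.C.repr (D.T u * D.T v)).support, gc D la u v w *
        (if p = 1 ∧ r = 1 then (if la w < N then nu D la w else 0) else 0) = 0 := by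
      intro w _
      rw [if_neg h2, mul_zero]
    rw [Finset.sum_eq_zero h3, if_neg]
    rintro ⟨h4, -⟩
    apply h2
    have h5 : p * (u * v) * r = 1 := by
      rw [← h4]
      simp only [mul_assoc]
    have h6 := len_diff hD.am hp (mul_mem hu hv) hr
    rw [h5, len_one] at h6
    rw [← len_eq_zero, ← len_eq_zero (w := r)]
    omega

/-- The filtration by the degree of the coordinate at `T 1`. -/
private noncomputable def Ep2_F (N : ℕ) : Lf D (Occ M P la N) ℤ where
  Lam n :=
    { carrier := {x | Dle n (ep hD N x)}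
      add_mem' := by
        intro a b ha hb
        change Dle n (ep hD N (a + b))
        rw [map_add]
        exact Dle.add ha hb
      zero_mem' := by
        change Dle n (ep hD N 0)
        rw [map_zero]
        exact Dle.zero _
      neg_mem' := by
        intro a ha
        change Dle n (ep hD N (-a))
        rw [map_neg]
        exact Dle.neg ha }
  ld n := (cfH n).toAddMonoidHom.comp (ep hD N).toAddMonoidHom
  mono := by
    intro m n h x hx
    exact Dle.mono hx h
  lt := by
    intro m n x h hx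
    exact hx n h
  smul := by
    intro m n a x ha hx
    change Dle (m + n) (ep hD N (a • x))
    rw [map_smul, smul_eq_mul]
    exact ha.mul hx
  ldsmul := by
    intro m n a x ha hx
    change (ep hD N (a • x)).coeff (m + n) = a.coeff m • (ep hD N x).coeff n
    rw [map_smul, smul_eq_mul, smul_eq_mul]
    exact cf_mul_lead ha hx
  mem := by
    intro x hx n
    change Dle n (ep hD N x)
    rw [ep_II hD hx]
    exact Dle.zero _

open scoped Classical in
private theorem Ep2_same {N : ℕ} (hN : 0 < N) {i : Bool} {p g g' r : M.Group}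
    (hp : p ∈ XR M (P i)) (hg : g ∈ par M (P i)) (hgI : g ∉ par M (PI P))
    (hg' : g' ∈ par M (P i)) (hgI' : g' ∉ par M (PI P)) (hr : r ∈ XL M (P i))
    (ih : ∀ x y : M.Group, len M y < len M (g' * r) →
      (ep hD N (D.T x * D.T y)).coeff 0 = if x * y = 1 ∧ ¬ Occ M P la N x then 1 else 0) :
    (ep hD N (D.T (p * g) * D.T (g' * r))).coeff 0 =
      if (p * g) * (g' * r) = 1 ∧ ¬ Occ M P la N (p * g) then 1 else 0 := by
  have hIi : par M (PI P) ≤ par M (P i) := par_mono (PI_sub i)
  rw [← Ep2_TCCT hD hN hp hg hr hg']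
  by_cases hgN : la g < N
  swap
  · -- the element `g` is in the ideal
    have h1 : Occ M P la N g := (Ep2_occ hD hg).2 (not_lt.1 hgN)
    have h2 : ep hD N (D.T p * (D.C g * D.C g') * D.T r) = 0 :=
      ep_II hD ((idl hD N).II_mulR _ ((idl hD N).II_mulL _ ((idl hD N).II_mulR _ (C_mem_II h1))))
    rw [h2, cf_zero, if_neg]
    rintro ⟨-, h3⟩
    apply h3
    rw [Occ_iff hD] at h1 ⊢
    exact h1.trans (al_mul hD (len_XR_mul hp hg)).2
  obtain ⟨v, hv, y', hy', rfl⟩ := exists_XL (PI P) g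
  obtain ⟨x', hx', u, hu, rfl⟩ := exists_XR (PI P) g'
  have hy'P : y' ∈ par M (P i) := by
    have := mul_mem (inv_mem (hIi hv)) hg
    rwa [inv_mul_cancel_left] at this
  have hx'P : x' ∈ par M (P i) := by
    have := mul_mem hg' (inv_mem (hIi hu))
    rwa [mul_inv_cancel_right] at this
  have hx1 : len M x' ≠ 0 := by
    intro h
    rw [len_eq_zero] at h
    subst h
    rw [one_mul] at hgI'
    exact hgI' hu
  have hT : ∀ g ∈ par M (P i), g ∉ par M (PI P) → D.T p * D.T g * D.T r = D.T (p * g * r) ∧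
      D.T (p * g * r) ∈ (Ep2_F hD N).Lam (-N) := by
    intro g hg hgI
    refine ⟨hD.T_three hp hg hgI hr, ?_⟩
    change Dle (-N) (ep hD N (D.T (p * g * r)))
    apply Ep2_T_ne hD hN
    apply Ep2_ne_one
    rw [len_three hD.am hp hg hgI hr]
    have : len M g ≠ 0 := by
      intro h
      rw [len_eq_zero] at h
      rw [h] at hgI
      exact hgI (one_mem _)
    omega
  have hU : ∀ u ∈ par M (PI P), la u < N → D.T p * D.C u * D.T r ∈
      (Ep2_F hD N).Lam (0 - la u) := by
    intro u hu _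
    change Dle (0 - la u) (ep hD N (D.T p * D.C u * D.T r))
    rw [zero_sub]
    exact ep_TCT hD hN (XR_mono (PI_sub i) hp) (XL_mono (PI_sub i) hr) hu
  have hpe := peel D (Ep2_F hD N) (PI_sub i) (hD.loc i) (idl hD N)
    (fun c hc h => (Ep2_occ hD hc).2 h) (κ := 0) (T0 := -N) (fun m hm => by omega)
    hT hU hv hy' hy'P hx' hx'P hu hgN
  have hpe' : (ep hD N (D.T p * (D.C (v * y') * D.C (x' * u)) * D.T r -
      (∑ c ∈ (D.C.repr (D.C (v * y') * D.C (x' * u))).support,
        if c ∉ par M (PI P) ∧ la c < N then D.h (v * y') (x' * u) c • D.T (p * c * r) else 0) -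
      (if y' * x' = 1 then D.T p * (D.C v * D.C u) * D.T r else 0))).coeff 0 = 0 :=
    hpe 0 (by norm_num)
  rw [map_sub, map_sub, cf_sub, cf_sub] at hpe'
  have hsum : (ep hD N (∑ c ∈ (D.C.repr (D.C (v * y') * D.C (x' * u))).support,
        if c ∉ par M (PI P) ∧ la c < N then D.h (v * y') (x' * u) c • D.T (p * c * r)
          else 0)).coeff 0 = 0 := by
    rw [map_sum, cf_sum]
    refine Finset.sum_eq_zero fun c hc => ?_
    split_ifs with h1
    · have hc' : D.h (v * y') (x' * u) c ≠ 0 := Finsupp.mem_support_iff.1 hc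
      have hcP : c ∈ par M (P i) := h_mem D hg hg' hc'
      have h2 : Dle (la c) (D.h (v * y') (x' * u) c) := (hD.loc i).dle _ hg _ hg' _ hcP
      have h3 := (hT c hcP h1.1).2
      change Dle (-N) (ep hD N (D.T (p * c * r))) at h3
      rw [map_smul, smul_eq_mul]
      exact (h2.mul h3) 0 (by have := h1.2; omega)
    · rw [LinearMap.map_zero, cf_zero]
  rw [hsum, sub_zero, sub_eq_zero] at hpe'
  rw [hpe']
  have hlen : len M u + len M r < len M (x' * u * r) := by
    rw [len_mul_XL hg' hr, len_XR_mul hx' hu]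
    omega
  have hur : len M (u * r) < len M (x' * u * r) := by
    have := M.toCoxeterSystem.length_mul_le u r
    exact lt_of_le_of_lt this hlen
  have hpv : len M (p * v * y') = len M (p * v) + len M y' := by
    rw [mul_assoc, len_XR_mul hp hg, len_mul_XL hv hy', len_XR_mul hp (hIi hv), add_assoc]
  by_cases hyx : y' * x' = 1
  · rw [if_pos hyx, Ep2_TCCT hD hN hp (hIi hv) hr (hIi hu), ih (p * v) (u * r) hur]
    have h1 : p * (v * y') * (x' * u * r) = p * v * (u * r) := by
      calc p * (v * y') * (x' * u * r) = p * v * (y' * x') * (u * r) := by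
            simp only [mul_assoc]
        _ = p * v * (u * r) := by rw [hyx, mul_one]
    rw [h1]
    congr 1
    rw [← mul_assoc p v y']
    apply propext
    refine and_congr_right fun _ => not_congr ?_
    constructor
    · intro h
      rw [Occ_iff hD] at h ⊢
      exact h.trans (al_mul hD hpv).1
    · intro h
      rw [mul_assoc] at h
      rcases OccR hD.am hD.hinv hD.hmono hy' hy'P hv hgI hp h with h2 | h2
      · omega
      · exact h2
  · rw [if_neg hyx, LinearMap.map_zero, cf_zero, if_neg]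
    rintro ⟨h1, -⟩
    apply hyx
    have h2 : p * (v * y') = r⁻¹ * (x' * u)⁻¹ := by
      rw [← mul_inv_rev]
      exact eq_inv_of_mul_eq_one_left h1
    obtain ⟨-, h3⟩ := XR_unique hp (inv_mem_XR.2 hr) hg (inv_mem hg') h2
    have h4 : (1 : M.Group) * y' = (v⁻¹ * u⁻¹) * x'⁻¹ := by
      rw [mul_inv_rev] at h3
      rw [one_mul, mul_assoc, ← h3, inv_mul_cancel_left]
    obtain ⟨-, h5⟩ := XL_unique (one_mem _) (mul_mem (inv_mem hv) (inv_mem hu)) hy'
      (inv_mem_XL.2 hx') h4
    rw [h5, inv_mul_cancel]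

open scoped Classical in
/-- The constant terms of the coordinates of the products. -/
theorem ep_TT {N : ℕ} (hN : 0 < N) (x y : M.Group) :
    Dle 0 (ep hD N (D.T x * D.T y)) ∧
      (ep hD N (D.T x * D.T y)).coeff 0 = if x * y = 1 ∧ ¬ Occ M P la N x then 1 else 0 := by
  refine ⟨Ep2_TT hD hN x y, ?_⟩
  obtain ⟨n, hn⟩ : ∃ n, n = len M y := ⟨_, rfl⟩
  induction n using Nat.strong_induction_on generalizing x y with
  | _ n ih =>
    rcases two_cases hD.am x y with ⟨i, p, hp, u, hu, v, hv, r, hr, rfl, rfl⟩ |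
      ⟨i, p, hp, g, hg, hgI, g', hg', hgI', r, hr, rfl, rfl⟩
    · exact Ep2_diff hD hN hp hu hv hr
    · exact Ep2_same hD hN hp hg hgI hg' hgI' hr
        (fun x y hy => ih (len M y) (by omega) x y rfl)

open scoped Classical in
/-- The leading coefficients of the coordinates of `T p * C u * T r`. -/
theorem ep_TCT_lead {N : ℕ} (hN : 0 < N) {p r u : M.Group} (hp : p ∈ XR M (PI P))
    (hr : r ∈ XL M (PI P)) (hu : u ∈ par M (PI P)) :
    (ep hD N (D.T p * D.C u * D.T r)).coeff (-la u) =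
      if r * p = 1 ∧ ¬ Occ M P la N (p * u) then nu D la u else 0 := by
  have hl := hD.locI
  obtain ⟨d, hd, hd1, hd2, -, hd3, hd4⟩ := hl.unitR u hu
  have h1 := Ep2_TCCT hD hN hp hu hr hd
  rw [(ep_TT hD hN _ _).2] at h1
  have e := Ep2_exp D.C ((ep hD N).comp ((LinearMap.mulRight LP (D.T r)).comp
    (LinearMap.mulLeft LP (D.T p)))) (D.C u * D.C d)
  simp only [LinearMap.comp_apply, LinearMap.mulLeft_apply, LinearMap.mulRight_apply] at e
  rw [e, cf_sum] at h1
  have hpar : ∀ w ∈ (D.C.repr (D.C u * D.C d)).support, w ∈ par M (PI P) := by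
    intro w hw
    by_contra h
    exact Finsupp.mem_support_iff.1 hw ((mem_HQ_C D).1
      (mul_mem_HQ D (C_mem_HQ D hu) (C_mem_HQ D hd)) w h)
  have h2 : ∀ w ∈ (D.C.repr (D.C u * D.C d)).support,
      (D.C.repr (D.C u * D.C d) w * ep hD N (D.T p * D.C w * D.T r)).coeff 0 =
      gc D la u d w * (ep hD N (D.T p * D.C w * D.T r)).coeff (-la w) := by
    intro w hw
    have hw' := hpar w hw
    have h4 := cf_mul_lead (hl.dle u hu d hd w hw') (ep_TCT hD hN hp hr hw')
    rw [add_neg_cancel] at h4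
    exact h4
  rw [Finset.sum_congr rfl h2, Finset.sum_eq_single u] at h1
  rotate_left
  · intro w hw hne
    rw [hd4 w (hpar w hw) hne, zero_mul]
  · intro hu'
    have h3 : gc D la u d u = 0 := by
      have h4 : D.h u d u = 0 := Finsupp.notMem_support_iff.1 hu'
      rw [gc, h4, cf_zero]
    rw [h3, zero_mul]
  rw [hd3] at h1
  -- solve for the coefficient
  have hsq : nu D la d * nu D la d = 1 := by
    rcases hd2 with h | h <;> rw [h] <;> norm_num
  have h3 : (ep hD N (D.T p * D.C u * D.T r)).coeff (-la u) =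
      nu D la d * (if p * u * (d * r) = 1 ∧ ¬ Occ M P la N (p * u) then 1 else 0) := by
    rw [← h1, ← mul_assoc, hsq, one_mul]
  rw [h3]
  by_cases h4 : p * u * (d * r) = 1
  · have h5 : p * (u * d) = r⁻¹ * 1 := by
      rw [mul_one]
      apply eq_inv_of_mul_eq_one_left
      rw [← h4]
      simp only [mul_assoc]
    obtain ⟨h6, h7⟩ := XR_unique hp (inv_mem_XR.2 hr) (mul_mem hu hd) (one_mem _) h5
    have h8 : u = d := by
      rw [← hl.inv d hd hd1]
      exact eq_inv_of_mul_eq_one_left h7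
    have h9 : r * p = 1 := by rw [h6, mul_inv_cancel]
    by_cases h10 : Occ M P la N (p * u)
    · rw [if_neg (fun h => h.2 h10), if_neg (fun h => h.2 h10), mul_zero]
    · rw [if_pos ⟨h4, h10⟩, if_pos ⟨h9, h10⟩, mul_one, h8]
  · rw [if_neg (fun h => h4 h.1), mul_zero]
    symm
    by_cases h5 : r * p = 1 ∧ ¬ Occ M P la N (p * u)
    · rw [if_pos h5]
      by_contra h6
      apply h4
      have h7 : gc D la u d u ≠ 0 := by
        rw [hd3]
        exact hd1
      have h8 := hl.p2 u hu d hd u hu h6 h7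
      have h9 : u * d = 1 := by rw [h8, inv_mul_cancel]
      calc p * u * (d * r) = p * (u * d) * r := by simp only [mul_assoc]
        _ = p * r := by rw [h9, mul_one]
        _ = 1 := mul_eq_one_comm.1 h5.1
    · rw [if_neg h5]

end ep2

end Pool.Agent.Helper35.AM
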