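import Pool.Agent.Helper35.AM.Tr

/-!
# Kazhdan-Lusztig elements and parabolic subgroups
-/

/- PROOF HINTS (conventions: see Df.lean)
Gp. exists_dl: triB (KL/Tri.lean) for w -> T_{xr w} C_{xp w} (C_u - T_u in Vl(len u); T_p maps T_v to T_{pv}). LI_mul: T_w T_p = sum c_z T_z, z = p' g1, T_{g1} C_g in span{C_g' : g' in S}
 (T_{g1} is in span of the C_x, x in W_P). C_sub_NegL (Geck): klem with basis dl, J = {p g : p in XR, g in S}, l(w) = len(xr w), F = 0: bar(T_p C_g) - T_p C_g = (bar T_p - T_p) C_g, bar T_p - T_p in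
 Vl T len (len p), and T_y C_g for len y < len p is in the span of T_{p'} C_{g'}, len p' < len p, g' in S. So there is a bar-invariant k in T_p C_g + sum neg T_{p'}C_{g'}. T_pC_g - T_{pg} in Lat T(-1), and
 all T_{p'}C_{g'} in Lat T 0, so k - T_{pg} in Lat T (-1) and bar_unique' (KL/Basic.lean) gives k = C_{pg}. Compare KL/Kc.lean (exists_kap, C_sub_dd), which is the same argument.
-/

namespace Pool.Agent.Helper35.AM

open Pool.Agent.Helper35.KL

section gp

variable {B : Type} {M : CoxeterMatrix B} {L : M.Group → ℤ} {H : Type} [Ring H] [Algebra LP H]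
variable (D : KLD M L H) {P : Set B}

/-- The family of the elements `T p * C g`. -/
noncomputable def Gp_f (D : KLD M L H) (P : Set B) (w : M.Group) : H :=
  D.T (xr P w) * D.C (xp P w)

theorem Gp_len (P : Set B) (w : M.Group) : len M w = len M (xr P w) + len M (xp P w) := by
  rw [← len_XR_mul (xr_mem P w) (xp_mem P w), xr_mul_xp]

theorem Gp_T (D : KLD M L H) (P : Set B) (w : M.Group) :
    D.T w = D.T (xr P w) * D.T (xp P w) := by
  rw [← D.T_mul _ _ (len_XR_mul (xr_mem P w) (xp_mem P w)), xr_mul_xp]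

theorem Gp_f_sub (D : KLD M L H) (P : Set B) (w : M.Group) :
    Gp_f D P w - D.T w ∈ Vl D.T (len M) (len M w) := by
  rw [Gp_f, Gp_T D P w, ← mul_sub, Gp_len P w]
  exact D.T_mul_Vl _ (D.C_sub_T _)

/-- The basis of the elements `T p * C g`. -/
theorem exists_dl (D : KLD M L H) (P : Set B) : ∃ b : Module.Basis M.Group LP H,
    ∀ p ∈ XR M P, ∀ g ∈ par M P, b (p * g) = D.T p * D.C g := by
  refine ⟨triB D.T (len M) (Gp_f D P) (Gp_f_sub D P), ?_⟩
  intro p hp g hg
  rw [triB_apply, Gp_f, xr_mul hp hg, xp_mul hp hg]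

/-- The basis of the elements `T p * C g`. -/
noncomputable def dl (D : KLD M L H) (P : Set B) : Module.Basis M.Group LP H :=
  (exists_dl D P).choose

theorem dl_mul {p g : M.Group} (hp : p ∈ XR M P) (hg : g ∈ par M P) :
    dl D P (p * g) = D.T p * D.C g := (exists_dl D P).choose_spec p hp g hg

/-- The left ideal of a closed set. -/
noncomputable def LI (D : KLD M L H) (P : Set B) (S : Set M.Group) : Submodule LP H :=
  Submodule.span LP {x | ∃ p ∈ XR M P, ∃ g ∈ S, x = D.T p * D.C g}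

theorem TC_mem_LI {S : Set M.Group} {p g : M.Group} (hp : p ∈ XR M P) (hg : g ∈ S) :
    D.T p * D.C g ∈ LI D P S := Submodule.subset_span ⟨p, hp, g, hg, rfl⟩

theorem Gp_dl (w : M.Group) : dl D P w = D.T (xr P w) * D.C (xp P w) := by
  have h := dl_mul D (xr_mem P w) (xp_mem P w)
  rwa [xr_mul_xp] at h

/-- The left ideal with a bound for the length of the first factor. -/
noncomputable def Gp_S (D : KLD M L H) (P : Set B) (S : Set M.Group) (n : ℕ) : Submodule LP H :=
  Submodule.span LP (dl D P '' {y | y ∈ {w | xp P w ∈ S} ∧ len M (xr P y) < n})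

theorem Gp_mem_S {S : Set M.Group} (hS : ClL D P S) {n : ℕ} {p g : M.Group} (hp : p ∈ XR M P)
    (hg : g ∈ S) (hn : len M p < n) : D.T p * D.C g ∈ Gp_S D P S n := by
  have hg' := hS.sub g hg
  refine Submodule.subset_span ⟨p * g, ⟨?_, ?_⟩, ?_⟩
  · change xp P (p * g) ∈ S
    rwa [xp_mul hp hg']
  · rwa [xr_mul hp hg']
  · exact dl_mul D hp hg'

theorem Gp_S_le {S : Set M.Group} {n : ℕ} {x : H} (hx : x ∈ Gp_S D P S n) : x ∈ LI D P S := by
  have h : Gp_S D P S n ≤ LI D P S := by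
    rw [Gp_S, Submodule.span_le]
    rintro _ ⟨y, ⟨hy1, -⟩, rfl⟩
    have hy : xp P y ∈ S := hy1
    rw [Gp_dl]
    exact TC_mem_LI D (xr_mem P y) hy
  exact h hx

theorem Gp_mul_S {S : Set M.Group} (hS : ClL D P S) {n : ℕ} {p g : M.Group} (hp : p ∈ XR M P)
    (hg : g ∈ S) (hn : len M p < n) {x : H} (hx : x ∈ HQ D P) :
    D.T p * (x * D.C g) ∈ Gp_S D P S n := by
  refine HQ_induction D (p := fun x => D.T p * (x * D.C g) ∈ Gp_S D P S n) ?_ ?_ ?_ ?_ hx
  · intro w hw
    rw [← D.C.linearCombination_repr (D.C w * D.C g), Finsupp.linearCombination_apply,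
      Finsupp.sum, Finset.mul_sum]
    refine Submodule.sum_mem _ fun g' hg' => ?_
    rw [mul_smul_comm]
    exact Submodule.smul_mem _ _
      (Gp_mem_S D hS hp (hS.cl w hw g hg g' (Finsupp.mem_support_iff.1 hg')) hn)
  · rw [zero_mul, mul_zero]
    exact Submodule.zero_mem _
  · intro a b ha hb
    rw [add_mul, mul_add]
    exact Submodule.add_mem _ ha hb
  · intro a b hb
    rw [smul_mul_assoc, mul_smul_comm]
    exact Submodule.smul_mem _ _ hb

theorem Gp_Vl_mul {S : Set M.Group} (hS : ClL D P S) {n : ℕ} {g : M.Group}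
    (hg : g ∈ S) {x : H} (hx : x ∈ Vl D.T (len M) n) : x * D.C g ∈ Gp_S D P S n := by
  refine Submodule.span_induction (p := fun x _ => x * D.C g ∈ Gp_S D P S n) ?_ ?_ ?_ ?_ hx
  · rintro _ ⟨z, hz, rfl⟩
    have hz' : len M z < n := hz
    rw [Gp_T D P z, mul_assoc]
    refine Gp_mul_S D hS (xr_mem P z) hg ?_ (T_mem_HQ D (xp_mem P z))
    have := Gp_len P z
    omega
  · rw [zero_mul]
    exact Submodule.zero_mem _
  · intro a b _ _ ha hb
    rw [add_mul]
    exact Submodule.add_mem _ ha hb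
  · intro a b _ hb
    rw [smul_mul_assoc]
    exact Submodule.smul_mem _ _ hb

theorem Gp_exists_Vl (t : H) : ∃ n, t ∈ Vl D.T (len M) n := by
  refine ⟨(D.T.repr t).support.sup (len M) + 1, ?_⟩
  rw [mem_Vl_iff]
  intro w hw
  exact Nat.lt_succ_of_le (Finset.le_sup (f := len M) (Finsupp.mem_support_iff.2 hw))

theorem LI_mul {S : Set M.Group} (hS : ClL D P S) (t : H) {x : H} (hx : x ∈ LI D P S) :
    t * x ∈ LI D P S := by
  refine Submodule.span_induction (p := fun x _ => t * x ∈ LI D P S) ?_ ?_ ?_ ?_ hx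
  · rintro _ ⟨p, hp, g, hg, rfl⟩
    rw [← mul_assoc]
    obtain ⟨n, hn⟩ := Gp_exists_Vl D (t * D.T p)
    exact Gp_S_le D (Gp_Vl_mul D hS hg hn)
  · rw [mul_zero]
    exact Submodule.zero_mem _
  · intro a b _ _ ha hb
    rw [mul_add]
    exact Submodule.add_mem _ ha hb
  · intro a b _ hb
    rw [mul_smul_comm]
    exact Submodule.smul_mem _ _ hb

theorem Gp_T_mul_Lat {n : ℤ} {p : M.Group} (hp : p ∈ XR M P) {x : H} (hx : x ∈ HQ D P)
    (hn : x ∈ Lat D.T n) : D.T p * x ∈ Lat D.T n := by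
  rw [← D.T.linearCombination_repr x, Finsupp.linearCombination_apply, Finsupp.sum,
    Finset.mul_sum]
  refine AddSubgroup.sum_mem _ fun v hv => ?_
  have hv' : v ∈ par M P := by
    by_contra h
    exact Finsupp.mem_support_iff.1 hv ((mem_HQ D).1 hx v h)
  rw [mul_smul_comm, ← D.T_mul _ _ (len_XR_mul hp hv')]
  have h := smul_Lat D.T (hn v) (basis_mem_Lat D.T (p * v))
  rwa [add_zero] at h

theorem Gp_TC_Lat {p g : M.Group} (hp : p ∈ XR M P) (hg : g ∈ par M P) :
    D.T p * D.C g ∈ Lat D.T 0 := by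
  refine Gp_T_mul_Lat D hp (C_mem_HQ D hg) ?_
  have h : D.C g = (D.C g - D.T g) + D.T g := by abel
  rw [h]
  exact AddSubgroup.add_mem _ (Lat_mono _ (by norm_num) (D.C_sub_T_neg g)) (basis_mem_Lat _ g)

theorem Gp_TC_sub {p g : M.Group} (hp : p ∈ XR M P) (hg : g ∈ par M P) :
    D.T p * D.C g - D.T (p * g) ∈ Lat D.T (-1) := by
  rw [D.T_mul _ _ (len_XR_mul hp hg), ← mul_sub]
  exact Gp_T_mul_Lat D hp (Submodule.sub_mem _ (C_mem_HQ D hg) (T_mem_HQ D hg))
    (D.C_sub_T_neg g)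

theorem Gp_NegL_Lat {S : Set M.Group} (hS : ClL D P S) {n : ℕ} {x : H}
    (hx : x ∈ NegL D P S n) : x ∈ Lat D.T (-1) := by
  have h : NegL D P S n ≤ Lat D.T (-1) := by
    rw [NegL, AddSubgroup.closure_le]
    rintro _ ⟨a, p, hp, g, hg, ha, -, rfl⟩
    have h2 := smul_Lat D.T ha (Gp_TC_Lat D hp (hS.sub g hg))
    rwa [add_zero] at h2
  exact h hx

/-- The theorem of Geck on induced cells. -/
theorem C_sub_NegL {S : Set M.Group} (hS : ClL D P S) {p g : M.Group} (hp : p ∈ XR M P)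
    (hg : g ∈ S) : D.C (p * g) - D.T p * D.C g ∈ NegL D P S (len M p) := by
  have hgP := hS.sub g hg
  obtain ⟨k, hk1, hk2, hk3⟩ := klem (dl D P) D.bar.toAddMonoidHom {w | xp P w ∈ S}
    (fun w => len M (xr P w)) ⊥ D.bar_smul D.bar_bar (by
      intro f hf
      rw [Submodule.mem_bot] at hf ⊢
      rw [hf, map_zero]) (by
      intro f hf w _
      rw [Submodule.mem_bot] at hf
      rw [hf, map_zero, Finsupp.zero_apply]) (by
      intro w hw
      have hw' : xp P w ∈ S := hw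
      refine Submodule.mem_sup_left ?_
      change D.bar (dl D P w) - dl D P w ∈ Gp_S D P S (len M (xr P w))
      rw [Gp_dl, map_mul, D.bar_C, ← sub_mul]
      exact Gp_Vl_mul D hS hw' (D.bar_T_sub _)) (p * g) (by
      change xp P (p * g) ∈ S
      rwa [xp_mul hp hgP])
  rw [Submodule.mem_bot] at hk3
  have hk4 : D.bar k = k := sub_eq_zero.1 hk3
  rw [dl_mul D hp hgP] at hk1 hk2
  have hk5 : k - D.T p * D.C g ∈ NegL D P S (len M p) := by
    rw [Module.Basis.mem_span_image] at hk1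
    rw [← (dl D P).linearCombination_repr (k - D.T p * D.C g), Finsupp.linearCombination_apply,
      Finsupp.sum]
    refine AddSubgroup.sum_mem _ fun y hy => ?_
    obtain ⟨hy1, hy2⟩ := hk1 hy
    have hy1' : xp P y ∈ S := hy1
    rw [Gp_dl]
    refine AddSubgroup.subset_closure ⟨_, xr P y, xr_mem P y, xp P y, hy1', hk2 y, ?_, rfl⟩
    rwa [xr_mul hp hgP] at hy2
  have hk6 : D.C (p * g) = k := by
    refine D.bar_unique' (D.bar_C _) hk4 ?_
    have h1 : D.C (p * g) - k = (D.C (p * g) - D.T (p * g)) -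
        (D.T p * D.C g - D.T (p * g)) - (k - D.T p * D.C g) := by abel
    rw [h1]
    exact AddSubgroup.sub_mem _ (AddSubgroup.sub_mem _ (D.C_sub_T_neg _) (Gp_TC_sub D hp hgP))
      (Gp_NegL_Lat D hS hk5)
  rw [hk6]
  exact hk5

theorem NegL_le_LI {S : Set M.Group} {n : ℕ} {x : H} (hx : x ∈ NegL D P S n) :
    x ∈ LI D P S := by
  have h : NegL D P S n ≤ (LI D P S).toAddSubgroup := by
    rw [NegL, AddSubgroup.closure_le]
    rintro _ ⟨a, p, hp, g, hg, -, -, rfl⟩
    exact Submodule.smul_mem (LI D P S) a (TC_mem_LI D hp hg)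
  exact h hx

/-- The set of the elements with `la g ≥ k`. -/
def Sk (M : CoxeterMatrix B) (P : Set B) (la : M.Group → ℕ) (k : ℕ) : Set M.Group :=
  {g | g ∈ par M P ∧ k ≤ la g}

theorem clL_Sk {la : M.Group → ℕ} (hP : Loc D P la) (k : ℕ) : ClL D P (Sk M P la k) where
  sub _ hg := hg.1
  cl x hx g hg g' h :=
    ⟨h_mem D hx hg.1 h, le_trans hg.2 (hP.p4 x hx g hg.1 g' h).2⟩

theorem clR_Sk {la : M.Group → ℕ} (hP : Loc D P la) (k : ℕ) : ClR D P (Sk M P la k) where
  sub _ hg := hg.1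
  cl x hx g hg g' h :=
    ⟨h_mem D hg.1 hx h, le_trans hg.2 (hP.p4 g hg.1 x hx g' h).1⟩

end gp

end Pool.Agent.Helper35.AM
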