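import Pool.Agent.Helper35.AM.Gp

/-!
# Kazhdan-Lusztig elements and parabolic subgroups, continued
-/

/- PROOF HINTS (conventions: see Df.lean)
Gp2. C_sub_NegR: apply fl to C_sub_NegL with S^-1. LI_eq: induction on len p. LI_repr: from LI_eq. h_pu: C_{pu}C_v = T_pC_uC_v + sum_{len p'<len p} neg T_{p'}C_{u'}C_v; T_pC_w = C_{pw} - NegL(len p);
 every T_{p'}C_{w'} with len p' < len p is in span{C_{p''w''} : len p'' < len p} (induction), so the coordinate at C_{pw} is h u v w. (S = W_P.)
-/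

namespace Pool.Agent.Helper35.AM

open Pool.Agent.Helper35.KL

section gp2

variable {B : Type} {M : CoxeterMatrix B} {L : M.Group → ℤ} {H : Type} [Ring H] [Algebra LP H]
variable (D : KLD M L H) {P : Set B}

theorem C_sub_NegR {S : Set M.Group} (hS : ClR D P S) {r g : M.Group} (hr : r ∈ XL M P)
    (hg : g ∈ S) : D.C (g * r) - D.C g * D.T r ∈ NegR D P S (len M r) := by
  let S' : Set M.Group := {x | x⁻¹ ∈ S}
  have hS' : ClL D P S' := by
    constructor
    · intro x hx
      have h1 := hS.sub _ hx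
      rwa [inv_mem_iff] at h1
    · intro x hx g hg g' hh
      rw [D.h_inv] at hh
      exact hS.cl x⁻¹ (inv_mem hx) g⁻¹ hg g'⁻¹ hh
  have hg' : g⁻¹ ∈ S' := by
    show g⁻¹⁻¹ ∈ S
    rwa [inv_inv]
  have h1 := C_sub_NegL D hS' (inv_mem_XR.mpr hr) hg'
  have h2 : ∀ (n : ℕ) (x : H), x ∈ NegL D P S' n → D.fl x ∈ NegR D P S n := by
    intro n x hx
    unfold NegL at hx
    induction hx using AddSubgroup.closure_induction with
    | mem x hx =>
      obtain ⟨a, p, hp, g, hg, ha, hl, rfl⟩ := hx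
      refine AddSubgroup.subset_closure ⟨a, p⁻¹, inv_mem_XL.mpr hp, g⁻¹, hg, ha, ?_, ?_⟩
      · rwa [len_inv]
      · rw [map_smul, D.fl_mul, D.fl_T, D.fl_C]
    | zero =>
      rw [map_zero]
      exact AddSubgroup.zero_mem _
    | add x y _ _ hx hy =>
      rw [map_add]
      exact AddSubgroup.add_mem _ hx hy
    | neg x _ hx =>
      rw [map_neg]
      exact AddSubgroup.neg_mem _ hx
  have h3 := h2 _ _ h1
  rwa [map_sub, D.fl_mul, D.fl_T, D.fl_C, D.fl_C, mul_inv_rev, inv_inv, inv_inv, len_inv] at h3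

/-- The span of the `C (p * g)`, `p` of length less than `n`. -/
private noncomputable def Gp2VC (D : KLD M L H) (P : Set B) (S : Set M.Group) (n : ℕ) :
    Submodule LP H :=
  Submodule.span LP {x | ∃ p ∈ XR M P, ∃ g ∈ S, len M p < n ∧ x = D.C (p * g)}

private theorem Gp2VC_mono (S : Set M.Group) {m n : ℕ} (h : m ≤ n) :
    Gp2VC D P S m ≤ Gp2VC D P S n := by
  refine Submodule.span_mono ?_
  rintro x ⟨p, hp, g, hg, hl, rfl⟩
  exact ⟨p, hp, g, hg, lt_of_lt_of_le hl h, rfl⟩

private theorem Gp2_NegL_le {S : Set M.Group} {n : ℕ} {K : Submodule LP H}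
    (h : ∀ p ∈ XR M P, ∀ g ∈ S, len M p < n → D.T p * D.C g ∈ K) {x : H}
    (hx : x ∈ NegL D P S n) : x ∈ K := by
  unfold NegL at hx
  induction hx using AddSubgroup.closure_induction with
  | mem x hx =>
    obtain ⟨a, p, hp, g, hg, -, hl, rfl⟩ := hx
    exact K.smul_mem _ (h p hp g hg hl)
  | zero => exact K.zero_mem
  | add x y _ _ hx hy => exact K.add_mem hx hy
  | neg x _ hx => exact K.neg_mem hx

private theorem Gp2_sub_mem {S : Set M.Group} (hS : ClL D P S) (n : ℕ) :
    ∀ p ∈ XR M P, ∀ g ∈ S, len M p = n → D.C (p * g) - D.T p * D.C g ∈ Gp2VC D P S n := by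
  induction n using Nat.strong_induction_on with
  | _ n ih =>
    intro p hp g hg hn
    have h1 := C_sub_NegL D hS hp hg
    rw [hn] at h1
    refine Gp2_NegL_le D ?_ h1
    intro p' hp' g' hg' hl
    have h2 := ih _ hl p' hp' g' hg' rfl
    have h3 : D.T p' * D.C g' = D.C (p' * g') - (D.C (p' * g') - D.T p' * D.C g') := by abel
    rw [h3]
    refine Submodule.sub_mem _ (Submodule.subset_span ⟨p', hp', g', hg', hl, rfl⟩) ?_
    exact Gp2VC_mono D S hl.le h2

private theorem Gp2_TC_mem {S : Set M.Group} (hS : ClL D P S) {n : ℕ} {p g : M.Group}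
    (hp : p ∈ XR M P) (hg : g ∈ S) (hl : len M p < n) : D.T p * D.C g ∈ Gp2VC D P S n := by
  have h3 : D.T p * D.C g = D.C (p * g) - (D.C (p * g) - D.T p * D.C g) := by abel
  rw [h3]
  refine Submodule.sub_mem _ (Submodule.subset_span ⟨p, hp, g, hg, hl, rfl⟩) ?_
  exact Gp2VC_mono D S hl.le (Gp2_sub_mem D hS _ p hp g hg rfl)

theorem LI_eq {S : Set M.Group} (hS : ClL D P S) :
    LI D P S = Submodule.span LP {x | ∃ p ∈ XR M P, ∃ g ∈ S, x = D.C (p * g)} := by
  apply le_antisymm
  · unfold LI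
    rw [Submodule.span_le]
    rintro x ⟨p, hp, g, hg, rfl⟩
    have h1 := Gp2_TC_mem D hS hp hg (Nat.lt_succ_self (len M p))
    refine (Submodule.span_mono ?_ : Gp2VC D P S _ ≤ _) h1
    rintro x ⟨p', hp', g', hg', -, rfl⟩
    exact ⟨p', hp', g', hg', rfl⟩
  · rw [Submodule.span_le]
    rintro x ⟨p, hp, g, hg, rfl⟩
    have h1 := NegL_le_LI D (C_sub_NegL D hS hp hg)
    have h2 := Submodule.add_mem _ h1 (TC_mem_LI D hp hg)
    rwa [sub_add_cancel] at h2

/-- The coordinates of the elements of the left ideal. -/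
theorem LI_repr {S : Set M.Group} (hS : ClL D P S) {x : H} (hx : x ∈ LI D P S) {z : M.Group}
    (hz : D.C.repr x z ≠ 0) : ∃ p ∈ XR M P, ∃ g ∈ S, z = p * g := by
  rw [LI_eq D hS] at hx
  have h1 : {x | ∃ p ∈ XR M P, ∃ g ∈ S, x = D.C (p * g)} =
      D.C '' {z | ∃ p ∈ XR M P, ∃ g ∈ S, z = p * g} := by
    ext y
    constructor
    · rintro ⟨p, hp, g, hg, rfl⟩
      exact ⟨p * g, ⟨p, hp, g, hg, rfl⟩, rfl⟩
    · rintro ⟨_, ⟨p, hp, g, hg, rfl⟩, rfl⟩
      exact ⟨p, hp, g, hg, rfl⟩
  rw [h1, Module.Basis.mem_span_image] at hx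
  exact hx (Finsupp.mem_support_iff.2 hz)

private theorem Gp2_clL_par : ClL D P (par M P : Set M.Group) :=
  ⟨fun _ hg => hg, fun _ hx _ hg _ hh => h_mem D hx hg hh⟩

/-- The coordinate at `C (p * w)` vanishes on the span of the `C (p' * g)`, `p'` shorter. -/
private theorem Gp2_repr_zero {p w : M.Group} (hp : p ∈ XR M P) (hw : w ∈ par M P) {x : H}
    (hx : x ∈ Gp2VC D P (par M P : Set M.Group) (len M p)) : D.C.repr x (p * w) = 0 := by
  classical
  unfold Gp2VC at hx
  refine Submodule.span_induction (p := fun x _ => D.C.repr x (p * w) = 0) ?_ ?_ ?_ ?_ hx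
  · rintro _ ⟨p', hp', g', hg', hl, rfl⟩
    rw [Module.Basis.repr_self, Finsupp.single_apply, if_neg]
    intro h
    have h1 := (XR_unique hp' hp hg' hw h).1
    rw [h1] at hl
    exact lt_irrefl _ hl
  · rw [map_zero, Finsupp.zero_apply]
  · intro a b _ _ ha hb
    rw [map_add, Finsupp.add_apply, ha, hb, add_zero]
  · intro a b _ hb
    rw [map_smul, Finsupp.smul_apply, hb, smul_zero]

private theorem Gp2_T_mul_mem {n : ℕ} {p : M.Group} (hp : p ∈ XR M P) (hl : len M p < n) {y : H}
    (hy : y ∈ HQ D P) : D.T p * y ∈ Gp2VC D P (par M P : Set M.Group) n := by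
  refine HQ_induction D (p := fun y => D.T p * y ∈ Gp2VC D P (par M P : Set M.Group) n)
    ?_ ?_ ?_ ?_ hy
  · intro w hw
    exact Gp2_TC_mem D (Gp2_clL_par D) hp hw hl
  · rw [mul_zero]
    exact Submodule.zero_mem _
  · intro x y hx hy
    rw [mul_add]
    exact Submodule.add_mem _ hx hy
  · intro a x hx
    rw [mul_smul_comm]
    exact Submodule.smul_mem _ _ hx

private theorem Gp2_repr_T_mul {p w : M.Group} (hp : p ∈ XR M P) (hw : w ∈ par M P) {y : H}
    (hy : y ∈ HQ D P) : D.C.repr (D.T p * y) (p * w) = D.C.repr y w := by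
  classical
  refine HQ_induction D (p := fun y => D.C.repr (D.T p * y) (p * w) = D.C.repr y w)
    ?_ ?_ ?_ ?_ hy
  · intro w' hw'
    have h3 : D.T p * D.C w' = D.C (p * w') - (D.C (p * w') - D.T p * D.C w') := by abel
    rw [h3, map_sub, Finsupp.sub_apply,
      Gp2_repr_zero D hp hw (Gp2_sub_mem D (Gp2_clL_par D) _ p hp w' hw' rfl), sub_zero,
      Module.Basis.repr_self, Module.Basis.repr_self, Finsupp.single_apply, Finsupp.single_apply]
    by_cases h : w' = w
    · rw [if_pos h, if_pos (by rw [h])]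
    · rw [if_neg h, if_neg (fun h' => h (mul_left_cancel h'))]
  · rw [mul_zero, map_zero, Finsupp.zero_apply, Finsupp.zero_apply]
  · intro x y hx hy
    rw [mul_add, map_add, map_add, Finsupp.add_apply, Finsupp.add_apply, hx, hy]
  · intro a x hx
    rw [mul_smul_comm, map_smul, map_smul, Finsupp.smul_apply, Finsupp.smul_apply, hx]

/-- Right multiplication of an induced element by an element of the parabolic subgroup. -/
theorem h_pu {p u v w : M.Group} (hp : p ∈ XR M P) (hu : u ∈ par M P) (hv : v ∈ par M P)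
    (hw : w ∈ par M P) : D.h (p * u) v (p * w) = D.h u v w := by
  have hCv := C_mem_HQ D hv
  have h1 : (D.C (p * u) - D.T p * D.C u) * D.C v ∈
      Gp2VC D P (par M P : Set M.Group) (len M p) := by
    have h2 := C_sub_NegL D (Gp2_clL_par D) hp hu
    have h3 : ∀ x ∈ NegL D P (par M P : Set M.Group) (len M p),
        x * D.C v ∈ Gp2VC D P (par M P : Set M.Group) (len M p) := by
      intro x hx
      unfold NegL at hx
      induction hx using AddSubgroup.closure_induction with
      | mem x hx =>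
        obtain ⟨a, p', hp', g, hg, -, hl, rfl⟩ := hx
        rw [smul_mul_assoc, mul_assoc]
        exact Submodule.smul_mem _ _
          (Gp2_T_mul_mem D hp' hl (mul_mem_HQ D (C_mem_HQ D hg) hCv))
      | zero =>
        rw [zero_mul]
        exact Submodule.zero_mem _
      | add x y _ _ hx hy =>
        rw [add_mul]
        exact Submodule.add_mem _ hx hy
      | neg x _ hx =>
        rw [neg_mul]
        exact Submodule.neg_mem _ hx
    exact h3 _ h2
  have h4 : D.C (p * u) * D.C v = D.T p * (D.C u * D.C v) +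
      (D.C (p * u) - D.T p * D.C u) * D.C v := by
    rw [sub_mul, mul_assoc]
    abel
  rw [KLD.h, KLD.h, h4, map_add, Finsupp.add_apply, Gp2_repr_zero D hp hw h1, add_zero,
    Gp2_repr_T_mul D hp hw (mul_mem_HQ D (C_mem_HQ D hu) hCv)]

end gp2

end Pool.Agent.Helper35.AM
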