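import Pool.Agent.Helper35.AM.Zz4

/-!
# The function `a` of the amalgam
-/

/- PROOF HINTS (conventions: see Df.lean)
Id. idl: downward induction from Dat.bdd (no heavy elements: the zero ideal) with idl_step. Occ_iff: Occ N is monotone in N, Occ 0 is true, bounded. al_h: C_x in II(Occ(al x)), so C_xC_y is, so Occ(al x) z. al_leLR: induction with al_h. h_dle_al: CC_LL for N = al z + 1.
 TCT_dle_al: la u <= al z: A_low with N = al z + 1; la u > al z: C_u is in II(Occ(al z+1)), coordinate 0. TT_dle_al: TT_LL, CC_LL for N = al z + 1 and T_x - C_x in Lat T(-1), mul_LL.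
-/

namespace Pool.Agent.Helper35.AM

open Pool.Agent.Helper35.KL

section al

variable {B : Type} {M : CoxeterMatrix B} {L : M.Group → ℤ} {H : Type} [Ring H] [Algebra LP H]
variable {D : KLD M L H} {P : Bool → Set B} {la : M.Group → ℕ} (hD : Dat D P la)

include hD in
private theorem Id_aux (N0 : ℕ) (h0 : ∀ w, ¬ Occ M P la N0 w) :
    ∀ j N : ℕ, N + j = N0 → Idl D (Occ M P la N) := by
  intro j
  induction j with
  | zero =>
    intro N hN
    have hN' : N = N0 := by omega
    subst hN'
    exact ⟨fun w hw _ => absurd hw (h0 w), fun w hw _ => absurd hw (h0 w)⟩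
  | succ j ih =>
    intro N hN
    exact idl_step hD (ih (N + 1) (by omega))

include hD in
/-- The elements with a syllable with `la ≥ N` span an ideal. -/
theorem idl (N : ℕ) : Idl D (Occ M P la N) := by
  obtain ⟨N0, h0⟩ := hD.bdd
  rcases le_total N N0 with h | h
  · exact Id_aux hD N0 h0 (N0 - N) N (by omega)
  · have h1 : ∀ w, ¬ Occ M P la N w := fun w hw => h0 w (Occ_mono h hw)
    exact ⟨fun w hw _ => absurd hw (h1 w), fun w hw _ => absurd hw (h1 w)⟩

/-- The maximal value of `la` on the syllables. -/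
noncomputable def al (M : CoxeterMatrix B) (P : Bool → Set B) (la : M.Group → ℕ)
    (w : M.Group) : ℕ := sSup {N | Occ M P la N w}

include hD in
theorem Occ_iff {N : ℕ} {w : M.Group} : Occ M P la N w ↔ N ≤ al M P la w := by
  obtain ⟨N0, h0⟩ := hD.bdd
  have hne : {N | Occ M P la N w}.Nonempty := ⟨0, Occ_zero hD.am w⟩
  have hbd : BddAbove {N | Occ M P la N w} := by
    refine ⟨N0, fun N hN => ?_⟩
    by_contra hcon
    exact h0 w (Occ_mono (by omega) hN)
  constructor
  · intro h
    exact le_csSup hbd h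
  · intro h
    have h1 : Occ M P la (al M P la w) w := Nat.sSup_mem hne hbd
    exact Occ_mono h h1

include hD in
theorem al_inv (w : M.Group) : al M P la w⁻¹ = al M P la w := by
  refine eq_of_forall_le_iff fun N => ?_
  rw [← Occ_iff hD, ← Occ_iff hD]
  constructor
  · intro h
    have h1 := Occ_inv hD.hinv h
    rwa [inv_inv] at h1
  · intro h
    exact Occ_inv hD.hinv h

include hD in
theorem al_mem {i : Bool} {g : M.Group} (hg : g ∈ par M (P i)) : al M P la g = la g := by
  refine eq_of_forall_le_iff fun N => ?_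
  rw [← Occ_iff hD]
  exact Occ_mem_iff hD.am hD.hmono hg

include hD in
theorem al_h {x y z : M.Group} (h : D.h x y z ≠ 0) :
    al M P la x ≤ al M P la z ∧ al M P la y ≤ al M P la z := by
  constructor
  · rw [← Occ_iff hD]
    by_contra hcon
    have h1 : D.C x * D.C y ∈ II D (Occ M P la (al M P la x)) :=
      (idl hD _).mulR x ((Occ_iff hD).2 le_rfl) _
    exact h (mem_II.1 h1 z hcon)
  · rw [← Occ_iff hD]
    by_contra hcon
    have h1 : D.C x * D.C y ∈ II D (Occ M P la (al M P la y)) :=
      (idl hD _).mulL y ((Occ_iff hD).2 le_rfl) _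
    exact h (mem_II.1 h1 z hcon)

include hD in
theorem al_leLR {y w : M.Group} (h : D.leLR y w) : al M P la w ≤ al M P la y := by
  refine Relation.ReflTransGen.head_induction_on
    (motive := fun y _ => al M P la w ≤ al M P la y) h le_rfl ?_
  intro a c h1 _ ih
  refine le_trans ih ?_
  rcases h1 with ⟨b, hb1⟩ | ⟨b, hb1⟩
  · exact (al_h hD hb1).2
  · exact (al_h hD hb1).1

include hD in
private theorem Id_up {b : B} {w : M.Group} (h : len M (sm M b * w) = len M w + 1) :
    al M P la w ≤ al M P la (sm M b * w) := by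
  rw [← Occ_iff hD]
  by_contra hcon
  have h1 : D.T (sm M b) * D.C w ∈ II D (Occ M P la (al M P la w)) :=
    (idl hD _).mulL w ((Occ_iff hD).2 le_rfl) _
  have h2 := mem_II.1 h1 _ hcon
  -- the coordinate is `1`
  have h3 : D.T (sm M b) * D.C w - D.C (sm M b * w) ∈
      Vl D.C (len M) (len M (sm M b * w)) := by
    have h4 : D.T (sm M b) * (D.C w - D.T w) ∈ Vl D.T (len M) (len M (sm M b * w)) := by
      rw [h]
      exact D.T_mul_mem_Vl b _ (D.C_sub_T w)
    rw [← Vl_eq D.T (len M) D.C D.C_sub_T] at h4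
    have h5 := D.T_sub_C (sm M b * w)
    have h6 := Submodule.add_mem _ h4 h5
    have h7 : D.T (sm M b) * (D.C w - D.T w) + (D.T (sm M b * w) - D.C (sm M b * w)) =
        D.T (sm M b) * D.C w - D.C (sm M b * w) := by
      rw [mul_sub, D.T_sm_mul h]
      abel
    rwa [h7] at h6
  have h4 : D.C.repr (D.T (sm M b) * D.C w - D.C (sm M b * w)) (sm M b * w) = 0 := by
    by_contra hne
    have := (mem_Vl_iff D.C (len M) _ _).1 h3 _ hne
    omega
  rw [map_sub, Finsupp.sub_apply, h2, Module.Basis.repr_self, Finsupp.single_eq_same,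
    zero_sub, neg_eq_zero] at h4
  exact one_ne_zero h4

include hD in
private theorem Id_mulR (y : M.Group) : ∀ x : M.Group, len M (x * y) = len M x + len M y →
    al M P la y ≤ al M P la (x * y) := by
  intro x
  induction x using len_induction with
  | h1 =>
    intro _
    rw [one_mul]
  | hs b w hw ih =>
    intro h
    have h1 : len M (w * y) ≤ len M w + len M y := M.toCoxeterSystem.length_mul_le w y
    have h2 := len_sm_mul b (w * y)
    rw [mul_assoc] at h
    rw [mul_assoc]
    have h3 : len M (w * y) = len M w + len M y := by omega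
    exact (ih h3).trans (Id_up hD (by omega))

include hD in
theorem al_mul {x y : M.Group} (h : len M (x * y) = len M x + len M y) :
    al M P la x ≤ al M P la (x * y) ∧ al M P la y ≤ al M P la (x * y) := by
  refine ⟨?_, Id_mulR hD y x h⟩
  have h1 : len M (y⁻¹ * x⁻¹) = len M y⁻¹ + len M x⁻¹ := by
    rw [← mul_inv_rev, len_inv, len_inv, len_inv, h]
    ring
  have h2 := Id_mulR hD x⁻¹ y⁻¹ h1
  rwa [← mul_inv_rev, al_inv hD, al_inv hD] at h2

include hD in
private theorem Id_not (z : M.Group) : ¬ Occ M P la (al M P la z + 1) z := by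
  rw [Occ_iff hD]
  omega

include hD in
theorem h_dle_al (x y z : M.Group) : Dle (al M P la z) (D.h x y z) := by
  have h1 := mem_LL.1 (CC_LL hD (idl hD (al M P la z + 1)) x y) z (Id_not hD z)
  have h2 : (((al M P la z + 1 : ℕ) : ℤ) - 1) = (al M P la z : ℤ) := by push_cast; ring
  rw [h2] at h1
  exact h1

include hD in
/-- The degrees of the coordinates of the products `T p * C u * T r`. -/
theorem TCT_dle_al {p r u : M.Group} (hp : p ∈ XR M (PI P)) (hr : r ∈ XL M (PI P))
    (hu : u ∈ par M (PI P)) (z : M.Group) :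
    Dle ((al M P la z : ℤ) - la u) (D.C.repr (D.T p * D.C u * D.T r) z) := by
  rcases le_or_gt (la u) (al M P la z) with h | h
  · have h1 := mem_LL.1 (A_low hD (idl hD (al M P la z + 1)) hp hr hu (by omega)) z (Id_not hD z)
    have h2 : (((al M P la z + 1 : ℕ) : ℤ) - 1 - la u) = (al M P la z : ℤ) - la u := by
      push_cast
      ring
    rw [h2] at h1
    exact h1
  · have h1 : Occ M P la (al M P la z + 1) u :=
      Occ_of_mem (par_mono (PI_sub true) hu) (by omega)
    have h2 : D.T p * D.C u * D.T r ∈ II D (Occ M P la (al M P la z + 1)) :=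
      (idl hD _).II_mulR _ ((idl hD _).mulL u h1 _)
    rw [mem_II.1 h2 z (Id_not hD z)]
    exact Dle.zero _

include hD in
theorem TT_dle_al (x y z : M.Group) : Dle (al M P la z) (D.C.repr (D.T x * D.T y) z) ∧
    (D.C.repr (D.T x * D.T y) z).coeff (al M P la z) = (D.h x y z).coeff (al M P la z) := by
  have hI := idl hD (al M P la z + 1)
  have h2 : (((al M P la z + 1 : ℕ) : ℤ) - 1) = (al M P la z : ℤ) := by push_cast; ring
  constructor
  · have h1 := mem_LL.1 (TT_LL hD hI x y) z (Id_not hD z)
    rw [h2] at h1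
    exact h1
  · have hk : ∀ a b, D.C a * D.C b ∈ LL D (Occ M P la (al M P la z + 1)) (al M P la z : ℤ) := by
      intro a b
      have h3 := CC_LL hD hI a b
      rwa [h2] at h3
    have h4 : D.T x * (D.C y - D.T y) ∈ LL D (Occ M P la (al M P la z + 1))
        (0 + (-1) + (al M P la z : ℤ)) := mul_LL hI hk (T_LL x) (C_sub_T_LL y)
    have h5 : (D.C x - D.T x) * D.C y ∈ LL D (Occ M P la (al M P la z + 1))
        ((-1) + 0 + (al M P la z : ℤ)) := mul_LL hI hk (C_sub_T_LL x) (C_LL y)
    have h6 := mem_LL.1 h4 z (Id_not hD z)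
    have h7 := mem_LL.1 h5 z (Id_not hD z)
    have h8 : D.C x * D.C y = D.T x * D.T y + D.T x * (D.C y - D.T y) +
        (D.C x - D.T x) * D.C y := by noncomm_ring
    have h9 : D.h x y z = D.C.repr (D.T x * D.T y) z +
        D.C.repr (D.T x * (D.C y - D.T y)) z + D.C.repr ((D.C x - D.T x) * D.C y) z := by
      show D.C.repr (D.C x * D.C y) z = _
      rw [h8, map_add, map_add, Finsupp.add_apply, Finsupp.add_apply]
    rw [h9, cf_add, cf_add, h6 _ (by omega), h7 _ (by omega), add_zero, add_zero]

end al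

end Pool.Agent.Helper35.AM
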