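import Pool.Agent.Helper35.AM.Id

/-!
# Boundedness and the function `a` of the amalgam
-/

/- PROOF HINTS (conventions: see Df.lean)
Id2. al_attained: w in W_I: p12 for locI, al w = la w. Else Occ (al w) w: w = p g r, la g = al w =: k (Occ k, not Occ(k+1)); p, g, r in par M I (par_of_mul, len_three). p12 for W_i: x0, y0 in W_i n par I, gc x0 y0 g <> 0. Claim: (h (p x0) (y0 r) w).coeff k = gc x0 y0 g.
 N = k+1: it is ld k (T_p C_x0 C_y0 T_r) w (C_{px0} - T_pC_x0 in LL(-1), mul_LL, CC_LL); C_x0C_y0 = sum h_c C_c, Dle(la c); la c > k: II; so it is sum_c gc(x0,y0,c) tt(p,c,r) w, and by tt_three, tt_ne only c = g contributes: sg(p g r) w = 1.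
 a_eq_al: h_dle_al, al_attained for I = univ, a_eq (KL/Basic.lean). P12: aPar I w = sup of the same kind.
-/

namespace Pool.Agent.Helper35.AM

open Pool.Agent.Helper35.KL

section al2

variable {B : Type} {M : CoxeterMatrix B} {L : M.Group → ℤ} {H : Type} [Ring H] [Algebra LP H]
variable {D : KLD M L H} {P : Bool → Set B} {la : M.Group → ℕ} (hD : Dat D P la)

/-- Multiplication by `T p` preserves the lattice. -/
private theorem Id2_latL {Q : Set B} {n : ℤ} {p : M.Group} (hp : p ∈ XR M Q) {x : H}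
    (hx : x ∈ HQ D Q) (hx' : x ∈ Lat D.T n) : D.T p * x ∈ Lat D.T n := by
  rw [← D.T.linearCombination_repr x, Finsupp.linearCombination_apply, Finsupp.sum,
    Finset.mul_sum]
  refine AddSubgroup.sum_mem _ fun y hy => ?_
  have hy2 : y ∈ par M Q := by
    by_contra hne
    exact (Finsupp.mem_support_iff.1 hy) ((mem_HQ D).1 hx y hne)
  rw [mul_smul_comm, ← D.T_mul p y (len_XR_mul hp hy2)]
  have := smul_Lat D.T (hx' y) (basis_mem_Lat D.T (p * y))
  rwa [add_zero] at this

private theorem Id2_latR {Q : Set B} {n : ℤ} {r : M.Group} (hr : r ∈ XL M Q) {x : H}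
    (hx : x ∈ HQ D Q) (hx' : x ∈ Lat D.T n) : x * D.T r ∈ Lat D.T n := by
  rw [← D.T.linearCombination_repr x, Finsupp.linearCombination_apply, Finsupp.sum,
    Finset.sum_mul]
  refine AddSubgroup.sum_mem _ fun y hy => ?_
  have hy2 : y ∈ par M Q := by
    by_contra hne
    exact (Finsupp.mem_support_iff.1 hy) ((mem_HQ D).1 hx y hne)
  rw [smul_mul_assoc, ← D.T_mul y r (len_mul_XL hy2 hr)]
  have := smul_Lat D.T (hx' y) (basis_mem_Lat D.T (y * r))
  rwa [add_zero] at this

private theorem Id2_subL {Q : Set B} {p x : M.Group} (hp : p ∈ XR M Q) (hx : x ∈ par M Q) :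
    D.C (p * x) - D.T p * D.C x ∈ Lat D.T (-1) := by
  have e : D.C (p * x) - D.T p * D.C x =
      (D.C (p * x) - D.T (p * x)) - D.T p * (D.C x - D.T x) := by
    rw [mul_sub, ← D.T_mul p x (len_XR_mul hp hx)]
    abel
  rw [e]
  refine AddSubgroup.sub_mem _ (D.C_sub_T_neg _) (Id2_latL hp ?_ (D.C_sub_T_neg x))
  exact Submodule.sub_mem _ (C_mem_HQ D hx) (T_mem_HQ D hx)

private theorem Id2_subR {Q : Set B} {r y : M.Group} (hr : r ∈ XL M Q) (hy : y ∈ par M Q) :
    D.C (y * r) - D.C y * D.T r ∈ Lat D.T (-1) := by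
  have e : D.C (y * r) - D.C y * D.T r =
      (D.C (y * r) - D.T (y * r)) - (D.C y - D.T y) * D.T r := by
    rw [sub_mul, ← D.T_mul y r (len_mul_XL hy hr)]
    abel
  rw [e]
  refine AddSubgroup.sub_mem _ (D.C_sub_T_neg _) (Id2_latR hr ?_ (D.C_sub_T_neg y))
  exact Submodule.sub_mem _ (C_mem_HQ D hy) (T_mem_HQ D hy)

private theorem Id2_C0 (x : M.Group) : D.C x ∈ Lat D.T 0 := by
  have e : D.C x = D.T x + (D.C x - D.T x) := by abel
  rw [e]
  exact AddSubgroup.add_mem _ (basis_mem_Lat D.T x)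
    (Lat_mono D.T (by norm_num) (D.C_sub_T_neg x))

include hD in
/-- The value of the leading term of `T p * C c * T r` at `p * g * r`. -/
private theorem Id2_tt {k : ℕ} (hI : Idl D (Occ M P la (k + 1))) {i : Bool} {p g r c : M.Group}
    (hp : p ∈ XR M (P i)) (hg : g ∈ par M (P i)) (hg' : g ∉ par M (PI P)) (hr : r ∈ XL M (P i))
    (hk : la g = k) (hl : ¬ Occ M P la (k + 1) (p * g * r)) (hc : c ∈ par M (P i)) (hne : c ≠ g) :
    tt D P la k p c r (p * g * r) = 0 := by
  classical
  rcases lt_or_ge k (la c) with h | h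
  · rw [tt_gt hD hI hc h, Finsupp.zero_apply]
  · rw [tt_three hD hI hp hc hr h, Finsupp.add_apply, Finsupp.finsetSum_apply]
    have h1 : ∑ u ∈ (D.C.repr (EQ D (PI P) (D.C c))).support,
        (pi D (PI P) la u c • tt D P la k p u r) (p * g * r) = 0 := by
      refine Finset.sum_eq_zero fun u hu => ?_
      have hu' : u ∈ par M (PI P) := by
        by_contra hnu
        exact (Finsupp.mem_support_iff.1 hu) ((mem_HQ_C D).1 (EQ_mem D (D.C c)) u hnu)
      rw [Finsupp.smul_apply, tt_ne hD hI hp hu' hr hg hg', smul_zero]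
    rw [h1, add_zero]
    split_ifs with h2
    · unfold sg
      rw [ld_apply, if_neg hl, Module.Basis.repr_self, Finsupp.single_apply, if_neg, cf_zero]
      intro h3
      apply hne
      have h4 : p * c = p * g := mul_right_cancel h3
      exact mul_left_cancel h4
    · rw [Finsupp.zero_apply]

include hD in
private theorem Id2_tt' {k : ℕ} (hI : Idl D (Occ M P la (k + 1))) {i : Bool} {p g r : M.Group}
    (hp : p ∈ XR M (P i)) (hg : g ∈ par M (P i)) (hg' : g ∉ par M (PI P)) (hr : r ∈ XL M (P i))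
    (hk : la g = k) (hl : ¬ Occ M P la (k + 1) (p * g * r)) :
    tt D P la k p g r (p * g * r) = 1 := by
  classical
  rw [tt_three hD hI hp hg hr hk.le, Finsupp.add_apply, Finsupp.finsetSum_apply]
  have h1 : ∑ u ∈ (D.C.repr (EQ D (PI P) (D.C g))).support,
      (pi D (PI P) la u g • tt D P la k p u r) (p * g * r) = 0 := by
    refine Finset.sum_eq_zero fun u hu => ?_
    have hu' : u ∈ par M (PI P) := by
      by_contra hnu
      exact (Finsupp.mem_support_iff.1 hu) ((mem_HQ_C D).1 (EQ_mem D (D.C g)) u hnu)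
    rw [Finsupp.smul_apply, tt_ne hD hI hp hu' hr hg hg', smul_zero]
  rw [h1, add_zero, if_pos ⟨hg', hk⟩]
  unfold sg
  rw [ld_C hl, Finsupp.single_eq_same]

include hD in
/-- The value is attained inside every parabolic subgroup. -/
theorem al_attained (I : Set B) {w : M.Group} (hw : w ∈ par M I) :
    ∃ x ∈ par M I, ∃ y ∈ par M I, (D.h x y w).coeff (al M P la w) ≠ 0 := by
  classical
  by_cases hwI : w ∈ par M (PI P)
  · obtain ⟨x, _, y, _, hx, hy, h⟩ := (Dat.locI hD).p12 I w hwI hw
    refine ⟨x, hx, y, hy, ?_⟩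
    rw [al_mem hD (i := true) (par_mono (PI_sub true) hwI)]
    exact h
  · obtain ⟨k, hk⟩ : ∃ k, k = al M P la w := ⟨_, rfl⟩
    have hocc : Occ M P la k w := (Occ_iff hD).2 hk.le
    have hl : ¬ Occ M P la (k + 1) w := by
      intro h
      have := (Occ_iff hD).1 h
      omega
    rcases hocc with ⟨h, _⟩ | ⟨i, p, hp, g, hg, hg', r, hr, hw', hkg⟩
    · exact absurd h hwI
    have hgk : la g = k := by
      refine le_antisymm ?_ hkg
      rw [hk]
      refine (Occ_iff hD).1 ?_
      exact Or.inr ⟨i, p, hp, g, hg, hg', r, hr, hw', le_rfl⟩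
    have hl3 := len_three hD.am hp hg hg' hr
    have hl2 := len_XR_mul hp hg
    rw [hw'] at hw hl
    obtain ⟨hpg, hrI⟩ := par_of_mul (by rw [hl3, hl2]) hw
    obtain ⟨hpI, hgI⟩ := par_of_mul hl2 hpg
    obtain ⟨x0, hx0, y0, hy0, hx0I, hy0I, hgc⟩ := (hD.loc i).p12 I g hg hgI
    refine ⟨p * x0, mul_mem hpI hx0I, y0 * r, mul_mem hy0I hrI, ?_⟩
    have hI := idl hD (k + 1)
    have hCC : ∀ x y, D.C x * D.C y ∈ LL D (Occ M P la (k + 1)) (k : ℤ) := by
      intro x y
      have := CC_LL hD hI x y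
      push_cast at this
      rwa [add_sub_cancel_right] at this
    -- the factors
    have a1 : D.C (p * x0) - D.T p * D.C x0 ∈ LL D (Occ M P la (k + 1)) (-1) :=
      LatT_LL (Id2_subL hp hx0)
    have a2 : D.C (y0 * r) - D.C y0 * D.T r ∈ LL D (Occ M P la (k + 1)) (-1) :=
      LatT_LL (Id2_subR hr hy0)
    have a3 : D.T p * D.C x0 ∈ LL D (Occ M P la (k + 1)) 0 :=
      LatT_LL (Id2_latL hp (C_mem_HQ D hx0) (Id2_C0 x0))
    have b1 := mul_LL hI hCC a1 (C_LL (D := D) (hv := Occ M P la (k + 1)) (y0 * r))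
    have b2 := mul_LL hI hCC a3 a2
    have b3 : D.C (p * x0) * D.C (y0 * r) - D.T p * D.C x0 * (D.C y0 * D.T r) ∈
        LL D (Occ M P la (k + 1)) ((k : ℤ) - 1) := by
      have e : D.C (p * x0) * D.C (y0 * r) - D.T p * D.C x0 * (D.C y0 * D.T r) =
          (D.C (p * x0) - D.T p * D.C x0) * D.C (y0 * r) +
            D.T p * D.C x0 * (D.C (y0 * r) - D.C y0 * D.T r) := by
        rw [sub_mul, mul_sub]
        abel
      rw [e]
      refine AddSubgroup.add_mem _ ?_ ?_
      · refine LL_mono ?_ b1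
        omega
      · refine LL_mono ?_ b2
        omega
    have b4 := ld_congr b3
    have b5 : (D.h (p * x0) (y0 * r) (p * g * r)).coeff (k : ℤ) =
        ld D (Occ M P la (k + 1)) (k : ℤ) (D.T p * D.C x0 * (D.C y0 * D.T r)) (p * g * r) := by
      rw [← b4, ld_apply, if_neg hl]
      rfl
    -- the expansion
    have c1 : D.T p * D.C x0 * (D.C y0 * D.T r) =
        ∑ c ∈ (D.C.repr (D.C x0 * D.C y0)).support,
          D.C.repr (D.C x0 * D.C y0) c • (D.T p * D.C c * D.T r) := by
      have e : D.T p * D.C x0 * (D.C y0 * D.T r) = D.T p * (D.C x0 * D.C y0) * D.T r := by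
        simp only [mul_assoc]
      rw [e]
      conv_lhs => rw [← D.C.linearCombination_repr (D.C x0 * D.C y0)]
      rw [Finsupp.linearCombination_apply, Finsupp.sum, Finset.mul_sum, Finset.sum_mul]
      refine Finset.sum_congr rfl fun c _ => ?_
      rw [mul_smul_comm, smul_mul_assoc]
    have c2 : ∀ c ∈ (D.C.repr (D.C x0 * D.C y0)).support,
        ld D (Occ M P la (k + 1)) (k : ℤ)
          (D.C.repr (D.C x0 * D.C y0) c • (D.T p * D.C c * D.T r)) =
          gc D la x0 y0 c • tt D P la k p c r := by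
      intro c hc
      have hcP : c ∈ par M (P i) := h_mem D hx0 hy0 (Finsupp.mem_support_iff.1 hc)
      rcases lt_or_ge k (la c) with h | h
      · have h1 : D.T p * D.C c * D.T r ∈ II D (Occ M P la (k + 1)) := by
          refine hI.II_mulR _ (hI.II_mulL _ (C_mem_II ?_))
          exact Occ_of_mem hcP h
        rw [ld_II (Submodule.smul_mem _ _ h1), tt_gt hD hI hcP h, smul_zero]
      · have h1 := A_high hD hI hp hr hcP (show la c < k + 1 by omega)
        have h2 : D.T p * D.C c * D.T r ∈ LL D (Occ M P la (k + 1)) ((k : ℤ) - la c) := by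
          refine LL_mono ?_ h1
          push_cast
          omega
        have h3 := ld_smul (hv := Occ M P la (k + 1)) ((hD.loc i).dle x0 hx0 y0 hy0 c hcP) h2
        have e : ((la c : ℕ) : ℤ) + ((k : ℤ) - la c) = k := by omega
        rw [e] at h3
        exact h3
    have hkey : (D.h (p * x0) (y0 * r) (p * g * r)).coeff (k : ℤ) = gc D la x0 y0 g := by
      rw [b5, c1, map_sum, Finset.sum_congr rfl c2, Finsupp.finsetSum_apply]
      rw [Finset.sum_eq_single g]
      · rw [Finsupp.smul_apply, Id2_tt' hD hI hp hg hg' hr hgk hl, smul_eq_mul, mul_one]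
      · intro c hc hne
        have hcP : c ∈ par M (P i) := h_mem D hx0 hy0 (Finsupp.mem_support_iff.1 hc)
        rw [Finsupp.smul_apply, Id2_tt hD hI hp hg hg' hr hgk hl hcP hne, smul_zero]
      · intro h
        have h1 : D.h x0 y0 g = 0 := by
          by_contra hne
          exact h (Finsupp.mem_support_iff.2 hne)
        rw [Finsupp.smul_apply]
        unfold gc
        rw [h1, cf_zero, zero_smul]
    rw [← hk, hw', hkey]
    exact hgc

include hD in
theorem bounded_am : D.Bounded := by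
  obtain ⟨N, hN⟩ := Dat.bdd hD
  refine ⟨N, fun x y z => (h_dle_al hD x y z).mono ?_⟩
  have h1 : al M P la z < N := by
    by_contra hlt
    exact hN z ((Occ_iff hD).2 (by omega))
  omega

include hD in
theorem a_eq_al (w : M.Group) : D.a w = al M P la w := by
  have hw : w ∈ par M (Set.univ : Set B) := by
    have h1 : par M (Set.univ : Set B) = ⊤ := by
      unfold par
      rw [Set.image_univ]
      exact M.toCoxeterSystem.subgroup_closure_range_simple
    rw [h1]
    exact Subgroup.mem_top w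
  obtain ⟨x, _, y, _, h⟩ := al_attained hD Set.univ hw
  exact KLD.a_eq (fun x y => h_dle_al hD x y w) ⟨x, y, h⟩

include hD in
theorem P12_am (I : Set B) {w : M.Group} (hw : w ∈ par M I) : D.aPar I w = D.a w := by
  rw [a_eq_al hD]
  obtain ⟨x, hx, y, hy, h⟩ := al_attained hD I hw
  have h1 : IsGreatest {n : ℕ | ∃ x ∈ par M I, ∃ y ∈ par M I, (D.h x y w).coeff n ≠ 0}
      (al M P la w) := by
    refine ⟨⟨x, hx, y, hy, h⟩, ?_⟩
    rintro n ⟨x, _, y, _, hn⟩
    by_contra hlt
    exact hn (h_dle_al hD x y w n (by omega))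
  exact h1.csSup_eq

include hD in
theorem P4_am {y w : M.Group} (h : D.leLR y w) : D.a w ≤ D.a y := by
  rw [a_eq_al hD, a_eq_al hD]
  exact al_leLR hD h

end al2

end Pool.Agent.Helper35.AM
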