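import Pool.Agent.Helper35.AM.Id2

/-!
# The asymptotic products
-/

/- PROOF HINTS (conventions: see Df.lean)
Ll. tp_eq/tp_ne: ld_apply, h_dle_al, a_eq_al, Occ_iff. ld_mul_C: x - up(ld 0 x) in LL(-1) (LL_of_ld, ld_up), mul_LL with CC_LL (N = k+1): x C_y - up(ld 0 x) C_y in LL(k-1).
-/

namespace Pool.Agent.Helper35.AM

open Pool.Agent.Helper35.KL

section ll

variable {B : Type} {M : CoxeterMatrix B} {L : M.Group → ℤ} {H : Type} [Ring H] [Algebra LP H]
variable {D : KLD M L H} {P : Bool → Set B} {la : M.Group → ℕ} (hD : Dat D P la)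

/-- The leading coefficients of the product of `C x` and `C y`. -/
noncomputable def tp (D : KLD M L H) (P : Bool → Set B) (la : M.Group → ℕ) (k : ℕ)
    (x y : M.Group) : M.Group →₀ ℤ :=
  ld D (Occ M P la (k + 1)) k (D.C x * D.C y)

open scoped Classical in
/-- The linear map of right multiplication in the asymptotic ring. -/
noncomputable def bt (D : KLD M L H) (P : Bool → Set B) (la : M.Group → ℕ) (k : ℕ)
    (y : M.Group) : H →ₗ[LP] H :=
  D.C.constr LP fun x => if Occ M P la (k + 1) x then 0 else D.up (tp D P la k x y)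

variable {k : ℕ}

include hD in
theorem tp_eq (x y z : M.Group) (hz : D.a z ≤ k) :
    tp D P la k x y z = (D.h x y z).coeff k := by
  classical
  have h1 : ¬ Occ M P la (k + 1) z := by
    rw [Occ_iff hD, ← a_eq_al hD]
    omega
  rw [tp, ld_apply, if_neg h1]
  rfl

include hD in
theorem tp_ne (x y z : M.Group) (hz : D.a z ≠ k) : tp D P la k x y z = 0 := by
  classical
  rcases lt_or_ge k (D.a z) with h | h
  · rw [tp, ld_apply, if_pos]
    rw [Occ_iff hD, ← a_eq_al hD]
    omega
  · rw [tp_eq hD x y z h]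
    have h1 := h_dle_al hD x y z
    rw [← a_eq_al hD] at h1
    exact h1 k (by omega)

include hD in
/-- The products with `C y`, in terms of the products of the leading coefficients. -/
theorem ld_mul_C {x : H} (hx : x ∈ LL D (Occ M P la (k + 1)) 0) (y : M.Group) :
    x * D.C y ∈ LL D (Occ M P la (k + 1)) k ∧
      D.up (ld D (Occ M P la (k + 1)) k (x * D.C y)) =
        bt D P la k y (D.up (ld D (Occ M P la (k + 1)) 0 x)) := by
  classical
  have hI := idl hD (k + 1)
  set hv := Occ M P la (k + 1) with hhv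
  have hk : ∀ x y, D.C x * D.C y ∈ LL D hv (k : ℤ) := by
    intro x y
    have h := CC_LL hD hI x y
    have e : ((k + 1 : ℕ) : ℤ) - 1 = k := by
      push_cast
      ring
    rwa [e] at h
  set t := ld D hv 0 x with ht
  have hts : ∀ z, t z ≠ 0 → ¬ hv z := fun z hz => ld_supp hz
  have h1 : x - D.up t ∈ LL D hv (-1) := by
    have h2 : x - D.up t ∈ LL D hv 0 := AddSubgroup.sub_mem _ hx (up_LL t)
    have h3 : ld D hv 0 (x - D.up t) = 0 := by
      rw [map_sub, ld_up hts, sub_self]
    have h4 := LL_of_ld h2 h3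
    rwa [zero_sub] at h4
  have h2 : x * D.C y ∈ LL D hv k := by
    have h3 := mul_LL hI hk hx (C_LL (hv := hv) y)
    rwa [zero_add, zero_add] at h3
  refine ⟨h2, ?_⟩
  have h3 : (x - D.up t) * D.C y ∈ LL D hv ((k : ℤ) - 1) := by
    have h4 := mul_LL hI hk h1 (C_LL (hv := hv) y)
    have e : (-1 : ℤ) + 0 + k = k - 1 := by ring
    rwa [e] at h4
  have h4 : ld D hv k (x * D.C y) = ld D hv k (D.up t * D.C y) := by
    refine ld_congr ?_
    rwa [← sub_mul]
  rw [h4, KLD.up_eq D t, Finset.sum_mul, map_sum, map_sum, map_sum]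
  refine Finset.sum_congr rfl fun z hz => ?_
  rw [smul_mul_assoc, map_zsmul, map_zsmul, map_zsmul]
  congr 1
  rw [bt, Module.Basis.constr_basis, if_neg (hts z (Finsupp.mem_support_iff.1 hz))]
  rfl

include hD in
theorem bt_II (y : M.Group) {x : H} (hx : x ∈ II D (Occ M P la (k + 1))) :
    bt D P la k y x = 0 := by
  classical
  have h : II D (Occ M P la (k + 1)) ≤ LinearMap.ker (bt D P la k y) := by
    rw [II, Submodule.span_le]
    rintro _ ⟨w, hw, rfl⟩
    have hw' : Occ M P la (k + 1) w := hw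
    rw [SetLike.mem_coe, LinearMap.mem_ker, bt, Module.Basis.constr_basis, if_pos hw']
  exact h hx

end ll

end Pool.Agent.Helper35.AM
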