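import Pool.Agent.Helper35.AM.Ll

/-!
# The asymptotic products as images of the `C g`
-/

/- PROOF HINTS (conventions: see Df.lean)
Ll2. admB (P i, hv = Occ(k+1)): eta(g) = bt y (C_{gr}) = up(ld k (C_{gr}C_y)). mul: b in W_i. psi_mul (hk: la g = k): psi m b (C_{gr}C_y) = psi m b (C_{gr}) C_y mod II. C_{gr}C_y - q^k up(tp(gr,y)) in LL(k-1) and psi preserves LL, so psi m b (up tp(gr,y)) - bt y (psi m b (C_{gr})) in LL(-1) (use ld_mul_C for psi m b (C_{gr}) in LL 0), both are
 integer combinations of C's (bar-invariant), so it is in II. Sum over m with q^m (psi_sum): C_b eta(g) = bt y (C_bC_{gr}) (bt is linear over LP) mod II, and E_right + bt_II: bt y (C_bC_{gr}) = bt y (Le (C(. r)) (C_bC_g)) = Le eta (C_bC_g). bar: clear. lam: eta(g) is an integer combination of C_z, z light, z = g1 r1 with la g1 = k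
 (C_{gr}C_y is in the right ideal spanned by the C_{g1r1}, la g1 >= k: mirror of LI_repr; la g1 > k => C_z in II => z heavy); T_pC_{g1r1} in LL 0 by admR.lam. ld_TB: T_pC_{gr}C_y: (T_pC_{gr})C_y: ld_mul_C, ld_TC: up(ld k) = bt y (up(tt p g r)); T_p(C_{gr}C_y) = T_p(q^k eta(g) + rest in LL(k-1) supported on z = g1r1): T_p(rest) in LL(k-1); so
 ld k (T_pC_{gr}C_y) = ld 0 (T_p eta(g)).
-/

namespace Pool.Agent.Helper35.AM

open Pool.Agent.Helper35.KL

section ll2

variable {B : Type} {M : CoxeterMatrix B} {L : M.Group → ℤ} {H : Type} [Ring H] [Algebra LP H]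
variable {D : KLD M L H} {P : Bool → Set B} {la : M.Group → ℕ} (hD : Dat D P la)

variable {k : ℕ}

private theorem ll2_bt_C {x : M.Group} (h : ¬ Occ M P la (k + 1) x) (y : M.Group) :
    bt D P la k y (D.C x) = D.up (tp D P la k x y) := by
  rw [bt, Module.Basis.constr_basis, if_neg h]

private theorem ll2_bt_C_hv {x : M.Group} (h : Occ M P la (k + 1) x) (y : M.Group) :
    bt D P la k y (D.C x) = 0 := by
  rw [bt, Module.Basis.constr_basis, if_pos h]

private theorem ll2_bar_bt_C (x y : M.Group) :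
    D.bar (bt D P la k y (D.C x)) = bt D P la k y (D.C x) := by
  by_cases h : Occ M P la (k + 1) x
  · rw [ll2_bt_C_hv h, map_zero]
  · rw [ll2_bt_C h, D.bar_up]

private theorem ll2_psi_C (n : ℤ) (b g : M.Group) : psi D n b (D.C g) =
    ∑ c ∈ (D.C.repr (D.C b * D.C g)).support, (D.h b g c).coeff n • D.C c := by
  rw [psi, Module.Basis.constr_basis]

private theorem ll2_bar_bt_psi (m : ℤ) (b x y : M.Group) :
    D.bar (bt D P la k y (psi D m b (D.C x))) = bt D P la k y (psi D m b (D.C x)) := by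
  rw [ll2_psi_C, map_sum, map_sum]
  refine Finset.sum_congr rfl fun c _ => ?_
  rw [map_zsmul, map_zsmul, ll2_bar_bt_C]

private theorem ll2_bar_psi_C (m : ℤ) (b x : M.Group) :
    D.bar (psi D m b (D.C x)) = psi D m b (D.C x) := by
  rw [ll2_psi_C, map_sum]
  refine Finset.sum_congr rfl fun c _ => ?_
  rw [map_zsmul, D.bar_C]

private theorem ll2_Le_bt (X : M.Group → H) (Q : Set B) (y : M.Group) (x : H) :
    Le D Q la k (fun g => bt D P la k y (X g)) x = bt D P la k y (Le D Q la k X x) := by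
  have h : Le D Q la k (fun g => bt D P la k y (X g)) = (bt D P la k y).comp (Le D Q la k X) := by
    refine D.C.ext fun g => ?_
    rw [LinearMap.comp_apply, Le, Le, Module.Basis.constr_basis, Module.Basis.constr_basis]
    split_ifs with h
    · rfl
    · rw [map_zero]
  exact LinearMap.congr_fun h x

private theorem ll2_qq (n : ℤ) : (qq n * qq (-n) : LP) = 1 := by
  rw [← LaurentPolynomial.T_add, add_neg_cancel, LaurentPolynomial.T_zero]

/-- An element of the lattice is congruent to its leading term. -/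
private theorem ll2_sub {hv : M.Group → Prop} {x : H} {n : ℤ} (hx : x ∈ LL D hv n) :
    x - qq n • D.up (ld D hv n x) ∈ LL D hv (n - 1) := by
  have h1 : qq n • D.up (ld D hv n x) ∈ LL D hv n := by
    have h2 := smul_LL (Dle.qq n) (up_LL (D := D) (hv := hv) (ld D hv n x))
    rwa [add_zero] at h2
  refine LL_of_ld (AddSubgroup.sub_mem _ hx h1) ?_
  have h2 := ld_smul (Dle.qq n) (up_LL (D := D) (hv := hv) (ld D hv n x))
  rw [add_zero, cf_qq, if_pos rfl, one_smul, ld_up (fun z hz => ld_supp hz)] at h2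
  rw [map_sub, h2, sub_self]

include hD in
private theorem ll2_CC (x y : M.Group) :
    D.C x * D.C y ∈ LL D (Occ M P la (k + 1)) k := by
  have h := CC_LL hD (idl hD (k + 1)) x y
  have e : ((k + 1 : ℕ) : ℤ) - 1 = k := by
    push_cast
    ring
  rwa [e] at h

include hD in
private theorem ll2_hin {i : Bool} : ∀ c ∈ par M (P i), k < la c → Occ M P la (k + 1) c :=
  fun _ hc h => Occ_of_mem hc h

include hD in
/-- The degree `m` part of the left multiplication commutes with `bt`. -/
private theorem ll2_psi {i : Bool} {r : M.Group} (hr : r ∈ XL M (P i)) (y : M.Group)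
    {b g : M.Group} (hb : b ∈ par M (P i)) (hg : g ∈ par M (P i)) (hk : la g = k)
    (hx : ¬ Occ M P la (k + 1) (g * r)) (m : ℤ) :
    psi D m b (D.up (tp D P la k (g * r) y)) - bt D P la k y (psi D m b (D.C (g * r))) ∈
      II D (Occ M P la (k + 1)) := by
  have hI := idl hD (k + 1)
  set hv := Occ M P la (k + 1) with hhv
  set x := g * r with hxd
  have h1 : psi D m b (D.C x * D.C y) - psi D m b (D.C x) * D.C y ∈ II D hv :=
    psi_mul hI (hD.loc i) (fun c hc h => Occ_of_mem hc h) (fun _ hw => Occ_inv hD.hinv hw) m hb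
      hr hg hk (D.C y)
  have h2 : D.C x * D.C y - qq k • D.up (tp D P la k x y) ∈ LL D hv (k - 1) :=
    ll2_sub (ll2_CC hD x y)
  have h3 : psi D m b (D.C x * D.C y) - qq k • psi D m b (D.up (tp D P la k x y)) ∈
      LL D hv (k - 1) := by
    have h4 := psi_LL hI m b h2
    rwa [map_sub, map_smul] at h4
  have h4 : psi D m b (D.C x) ∈ LL D hv 0 := psi_LL hI m b (C_LL x)
  obtain ⟨h5, h6⟩ := ld_mul_C hD (k := k) h4 y
  have h7 : bt D P la k y (D.up (ld D hv 0 (psi D m b (D.C x)))) =
      bt D P la k y (psi D m b (D.C x)) := by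
    have h8 : psi D m b (D.C x) - D.up (ld D hv 0 (psi D m b (D.C x))) ∈ II D hv := by
      refine congr_up h4 ?_
      rw [ll2_bar_psi_C, sub_self]
      exact Submodule.zero_mem _
    have h9 := bt_II hD (k := k) y h8
    rw [map_sub, sub_eq_zero] at h9
    exact h9.symm
  have h8 : psi D m b (D.C x) * D.C y - qq k • bt D P la k y (psi D m b (D.C x)) ∈
      LL D hv (k - 1) := by
    have h9 := ll2_sub h5
    rwa [h6, h7] at h9
  have h9 : qq k • (psi D m b (D.up (tp D P la k x y)) - bt D P la k y (psi D m b (D.C x))) ∈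
      LL D hv (k - 1) := by
    have e : qq k • (psi D m b (D.up (tp D P la k x y)) - bt D P la k y (psi D m b (D.C x))) =
        (psi D m b (D.C x) * D.C y - qq k • bt D P la k y (psi D m b (D.C x))) -
        (psi D m b (D.C x * D.C y) - qq k • psi D m b (D.up (tp D P la k x y))) +
        (psi D m b (D.C x * D.C y) - psi D m b (D.C x) * D.C y) := by
      rw [smul_sub]
      abel
    rw [e]
    exact AddSubgroup.add_mem _ (AddSubgroup.sub_mem _ h8 h3) (II_LL h1 _)
  have h10 : psi D m b (D.up (tp D P la k x y)) - bt D P la k y (psi D m b (D.C x)) ∈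
      LL D hv (-1) := by
    have h11 := smul_LL (Dle.qq (-k)) h9
    rw [smul_smul, mul_comm (qq (-(k : ℤ))), ll2_qq, one_smul] at h11
    have e : (-k : ℤ) + (k - 1) = -1 := by ring
    rwa [e] at h11
  refine congr_of_bar ?_ ?_ h10
  · rw [bar_psi_up, sub_self]
    exact Submodule.zero_mem _
  · rw [ll2_bar_bt_psi, sub_self]
    exact Submodule.zero_mem _

include hD in
/-- Left multiplication commutes with `bt`. -/
private theorem ll2_left {i : Bool} {r : M.Group} (hr : r ∈ XL M (P i)) (y : M.Group)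
    {b g : M.Group} (hb : b ∈ par M (P i)) (hg : g ∈ par M (P i)) (hk : la g = k) :
    D.C b * bt D P la k y (D.C (g * r)) - bt D P la k y (D.C b * D.C (g * r)) ∈
      II D (Occ M P la (k + 1)) := by
  have hI := idl hD (k + 1)
  by_cases hx : Occ M P la (k + 1) (g * r)
  · rw [ll2_bt_C_hv hx, mul_zero, bt_II hD y (hI.mulL _ hx (D.C b)), sub_zero]
    exact Submodule.zero_mem _
  · rw [ll2_bt_C hx]
    obtain ⟨S₁, h1⟩ := psi_sum D b (D.up (tp D P la k (g * r) y))
    obtain ⟨S₂, h2⟩ := psi_sum D b (D.C (g * r))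
    have h3 := h1 (S₁ ∪ S₂) Finset.subset_union_left
    have h4 := h2 (S₁ ∪ S₂) Finset.subset_union_right
    rw [← h3, ← h4, map_sum, ← Finset.sum_sub_distrib]
    refine Submodule.sum_mem _ fun m _ => ?_
    rw [map_smul, ← smul_sub]
    exact Submodule.smul_mem _ _ (ll2_psi hD hr y hb hg hk hx m)

include hD in
/-- The support of the products. -/
private theorem ll2_supp {i : Bool} {g r : M.Group} (hg : g ∈ par M (P i))
    (hr : r ∈ XL M (P i)) (hk : k ≤ la g) {y z : M.Group}
    (h : D.C.repr (D.C (g * r) * D.C y) z ≠ 0) :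
    ∃ g1 ∈ par M (P i), k ≤ la g1 ∧ ∃ r1 ∈ XL M (P i), z = g1 * r1 := by
  have hS := clL_Sk D (hD.loc i) k
  have hr' : r⁻¹ ∈ XR M (P i) := inv_mem_XR.2 hr
  have hg' : g⁻¹ ∈ Sk M (P i) la k := by
    refine ⟨(par M (P i)).inv_mem hg, ?_⟩
    rw [hD.hinv i g hg]
    exact hk
  have h1 : D.C (r⁻¹ * g⁻¹) ∈ LI D (P i) (Sk M (P i) la k) := by
    have h2 := NegL_le_LI D (C_sub_NegL D hS hr' hg')
    have h3 := Submodule.add_mem _ h2 (TC_mem_LI D hr' hg')
    rwa [sub_add_cancel] at h3
  have h2 := LI_mul D hS (D.C y⁻¹) h1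
  have h3 : D.C.repr (D.C y⁻¹ * D.C (r⁻¹ * g⁻¹)) z⁻¹ ≠ 0 := by
    have e : D.C y⁻¹ * D.C (r⁻¹ * g⁻¹) = D.fl (D.C (g * r) * D.C y) := by
      rw [D.fl_mul, D.fl_C, D.fl_C, mul_inv_rev]
    rw [e, D.repr_C_fl, inv_inv]
    exact h
  obtain ⟨p, hp, g', hg'', e⟩ := LI_repr D hS h2 h3
  refine ⟨g'⁻¹, (par M (P i)).inv_mem hg''.1, ?_, p⁻¹, inv_mem_XL.2 hp, ?_⟩
  · rw [hD.hinv i g' hg''.1]
    exact hg''.2
  · rw [← mul_inv_rev, ← e, inv_inv]

include hD in
private theorem ll2_T {i : Bool} {p g r : M.Group} (hp : p ∈ XR M (P i)) (hg : g ∈ par M (P i))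
    (hr : r ∈ XL M (P i)) (hk : k ≤ la g) {y z : M.Group}
    (h : D.C.repr (D.C (g * r) * D.C y) z ≠ 0) :
    D.T p * D.C z ∈ LL D (Occ M P la (k + 1)) 0 := by
  have hI := idl hD (k + 1)
  obtain ⟨g1, hg1, hk1, r1, hr1, rfl⟩ := ll2_supp hD hg hr hk h
  rcases eq_or_lt_of_le hk1 with h2 | h2
  · exact (admR hD hI hr1).lam p hp g1 hg1 h2.symm
  · refine II_LL (hI.mulL _ ?_ _) _
    rw [Occ_iff hD]
    have h3 := (al_mul hD (len_mul_XL hg1 hr1)).1
    rw [al_mem hD hg1] at h3
    omega

include hD in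
private theorem ll2_lam {i : Bool} {p g r : M.Group} (hp : p ∈ XR M (P i))
    (hg : g ∈ par M (P i)) (hr : r ∈ XL M (P i)) (hk : la g = k) (y : M.Group) :
    D.T p * bt D P la k y (D.C (g * r)) ∈ LL D (Occ M P la (k + 1)) 0 := by
  by_cases hx : Occ M P la (k + 1) (g * r)
  · rw [ll2_bt_C_hv hx, mul_zero]
    exact AddSubgroup.zero_mem _
  · rw [ll2_bt_C hx, D.up_eq, Finset.mul_sum]
    refine AddSubgroup.sum_mem _ fun z hz => ?_
    rw [mul_smul_comm]
    refine AddSubgroup.zsmul_mem _ ?_ _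
    refine ll2_T hD hp hg hr hk.ge (y := y) ?_
    intro h0
    apply Finsupp.mem_support_iff.1 hz
    classical
    rw [tp, ld_apply, h0, cf_zero, ite_self]

include hD in
/-- The asymptotic products with `y` as images of the `C g`. -/
theorem admB {i : Bool} {r : M.Group} (hr : r ∈ XL M (P i)) (y : M.Group) :
    AdmL D (Occ M P la (k + 1)) (P i) la k fun g => bt D P la k y (D.C (g * r)) where
  mul := fun b hb g hg hk => by
    have hI := idl hD (k + 1)
    have h1 := ll2_left hD hr y hb hg hk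
    have h2 := E_right hI (hD.loc i) (fun c hc h => Occ_of_mem hc h)
      (fun _ hw => Occ_inv hD.hinv hw) hb hr hg hk
    have h3 := bt_II hD y h2
    rw [map_sub, sub_eq_zero] at h3
    rw [ll2_Le_bt (fun g => D.C (g * r)), ← h3]
    exact h1
  bar := fun g _ _ => by
    rw [ll2_bar_bt_C, sub_self]
    exact Submodule.zero_mem _
  lam := fun p hp g hg hk => ll2_lam hD hp hg hr hk y

include hD in
/-- The leading coefficients of the images. -/
theorem ld_TB {i : Bool} {p g r : M.Group} (hp : p ∈ XR M (P i)) (hg : g ∈ par M (P i))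
    (hr : r ∈ XL M (P i)) (hk : la g = k) (y : M.Group) :
    D.up (ld D (Occ M P la (k + 1)) 0 (D.T p * bt D P la k y (D.C (g * r)))) =
      bt D P la k y (D.up (tt D P la k p g r)) := by
  have hI := idl hD (k + 1)
  have hTC := ld_TC hD hI hp hg hr hk
  by_cases hx : Occ M P la (k + 1) (g * r)
  · rw [ll2_bt_C_hv hx, mul_zero, ← hTC, ld_II (hI.mulL _ hx _), map_zero, map_zero, map_zero]
  · obtain ⟨-, h1⟩ := ld_mul_C hD (k := k) ((admR hD hI hr).lam p hp g hg hk) y
    rw [hTC] at h1
    rw [← h1, ll2_bt_C hx]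
    congr 1
    set hv := Occ M P la (k + 1) with hhv
    set rest := D.C (g * r) * D.C y - qq k • D.up (tp D P la k (g * r) y) with hrest
    have h2 : rest ∈ LL D hv (k - 1) := ll2_sub (ll2_CC hD (g * r) y)
    have h3 : ∀ z, D.C.repr rest z ≠ 0 → D.T p * D.C z ∈ LL D hv 0 := by
      intro z hz
      refine ll2_T hD hp hg hr hk.ge (y := y) ?_
      intro h0
      apply hz
      classical
      rw [hrest, map_sub, Finsupp.sub_apply, h0, map_smul, Finsupp.smul_apply, D.repr_up, tp,
        ld_apply, h0, cf_zero, ite_self, zero_smul, smul_zero, sub_zero]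
    have h4 : D.T p * rest ∈ LL D hv (k - 1) := by
      have e : rest = ∑ z ∈ (D.C.repr rest).support, D.C.repr rest z • D.C z := by
        conv_lhs => rw [← D.C.linearCombination_repr rest]
        rw [Finsupp.linearCombination_apply, Finsupp.sum]
      rw [e, Finset.mul_sum]
      refine AddSubgroup.sum_mem _ fun z hz => ?_
      rw [mul_smul_comm]
      by_cases hzv : hv z
      · exact II_LL ((II D hv).smul_mem _ (hI.mulL z hzv _)) _
      · have h5 := smul_LL (h2 z hzv) (h3 z (Finsupp.mem_support_iff.1 hz))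
        rwa [add_zero] at h5
    have h5 : ld D hv k (D.T p * D.C (g * r) * D.C y) =
        ld D hv k (qq k • (D.T p * D.up (tp D P la k (g * r) y))) := by
      refine ld_congr ?_
      have e : D.T p * D.C (g * r) * D.C y - qq k • (D.T p * D.up (tp D P la k (g * r) y)) =
          D.T p * rest := by
        rw [hrest, mul_sub, mul_smul_comm, mul_assoc]
      rw [e]
      exact h4
    have h6 : D.T p * D.up (tp D P la k (g * r) y) ∈ LL D hv 0 := by
      have h7 := ll2_lam hD hp hg hr hk y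
      rwa [ll2_bt_C hx] at h7
    have h7 := ld_smul (Dle.qq (k : ℤ)) h6
    rw [add_zero, cf_qq, if_pos rfl, one_smul] at h7
    rw [h5, h7]

end ll2

end Pool.Agent.Helper35.AM
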