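import Pool.Agent.Helper35.AM.Tr

/-!
# The projection to the Hecke algebra of a parabolic subgroup
-/

/- PROOF HINTS (conventions: see Df.lean)
Tr2. EQ_mulL: y = T_v; by T_s, s in Q: T_s T_w, w not in W_Q: both s w and w are not in W_Q. EQ_mulR by the same on the right (or fl). EQ_TT: coordinate at v in W_Q of
 T_y T_x = tau(T_y T_x T_{v^-1}) = tau(T_y T_{x v^-1}) (len_XR_mul) = [y x v^-1 = 1]; y = v x^-1, y in XL Q and x^-1 in XL Q => v = 1 (XL_unique).
 h_mul: C.repr(T_x T_y)(xy) = 1 and C_x C_y - T_x T_y in Vl (len(xy)) (T_mul_mem_Vl etc. in KL/Basic.lean), T_{xy} = C_{xy} + Vl(len).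
-/

namespace Pool.Agent.Helper35.AM

open Pool.Agent.Helper35.KL

section tr2

variable {B : Type} {M : CoxeterMatrix B} {L : M.Group → ℤ} {H : Type} [Ring H] [Algebra LP H]
variable (D : KLD M L H) {P Q : Set B}

open scoped Classical in
private theorem tr2_EQ_T (w : M.Group) : EQ D Q (D.T w) = if w ∈ par M Q then D.T w else 0 := by
  unfold EQ
  rw [Module.Basis.constr_basis]

open scoped Classical in
private theorem tr2_repr (x : H) (w : M.Group) :
    D.T.repr (EQ D Q x) w = if w ∈ par M Q then D.T.repr x w else 0 := by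
  have h3 : x ∈ Submodule.span LP (Set.range D.T) := D.T.mem_span x
  refine Submodule.span_induction (p := fun x _ => D.T.repr (EQ D Q x) w =
    if w ∈ par M Q then D.T.repr x w else 0) ?_ ?_ ?_ ?_ h3
  · rintro _ ⟨v, rfl⟩
    rw [tr2_EQ_T]
    by_cases hv : v ∈ par M Q
    · rw [if_pos hv]
      by_cases hw : w ∈ par M Q
      · rw [if_pos hw]
      · rw [if_neg hw, Module.Basis.repr_self, Finsupp.single_apply, if_neg]
        rintro rfl
        exact hw hv
    · rw [if_neg hv, map_zero, Finsupp.zero_apply]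
      by_cases hw : w ∈ par M Q
      · rw [if_pos hw, Module.Basis.repr_self, Finsupp.single_apply, if_neg]
        rintro rfl
        exact hv hw
      · rw [if_neg hw]
  · rw [map_zero, map_zero, Finsupp.zero_apply, ite_self]
  · intro x y _ _ hx hy
    rw [map_add, map_add, Finsupp.add_apply, hx, hy, map_add, Finsupp.add_apply]
    split_ifs
    · rfl
    · rw [add_zero]
  · intro a x _ hx
    rw [map_smul, map_smul, Finsupp.smul_apply, hx, map_smul, Finsupp.smul_apply]
    split_ifs
    · rfl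
    · rw [smul_zero]

theorem EQ_mem (x : H) : EQ D Q x ∈ HQ D Q := by
  rw [mem_HQ]
  intro w hw
  rw [tr2_repr, if_neg hw]

theorem EQ_of_mem {x : H} (hx : x ∈ HQ D Q) : EQ D Q x = x := by
  apply D.T.repr.injective
  ext w
  rw [tr2_repr]
  by_cases hw : w ∈ par M Q
  · rw [if_pos hw]
  · rw [if_neg hw, (mem_HQ D).1 hx w hw]

open scoped Classical in
theorem repr_EQ (x : H) (w : M.Group) :
    D.T.repr (EQ D Q x) w = if w ∈ par M Q then D.T.repr x w else 0 := tr2_repr D x w

private theorem tr2_sm {b : B} (hb : b ∈ Q) (x : H) :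
    EQ D Q (D.T (sm M b) * x) = D.T (sm M b) * EQ D Q x := by
  classical
  have hs : sm M b ∈ par M Q := sm_mem_par hb
  have h3 : x ∈ Submodule.span LP (Set.range D.T) := D.T.mem_span x
  refine Submodule.span_induction (p := fun x _ => EQ D Q (D.T (sm M b) * x) =
    D.T (sm M b) * EQ D Q x) ?_ ?_ ?_ ?_ h3
  · rintro _ ⟨w, rfl⟩
    by_cases hw : w ∈ par M Q
    · rw [EQ_of_mem D (T_mem_HQ D hw),
        EQ_of_mem D (mul_mem_HQ D (T_mem_HQ D hs) (T_mem_HQ D hw))]
    · have hsw : sm M b * w ∉ par M Q := fun h => hw (((par M Q).mul_mem_cancel_left hs).1 h)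
      rw [tr2_EQ_T, if_neg hw, mul_zero]
      rcases len_sm_mul b w with h | h
      · rw [D.T_sm_mul h, tr2_EQ_T, if_neg hsw]
      · rw [D.T_sm_mul' h, map_add, map_smul, tr2_EQ_T, tr2_EQ_T, if_neg hsw, if_neg hw,
          smul_zero, add_zero]
  · rw [mul_zero, map_zero, mul_zero]
  · intro x y _ _ hx hy
    rw [mul_add, map_add, hx, hy, map_add, mul_add]
  · intro a x _ hx
    rw [mul_smul_comm, map_smul, hx, map_smul, mul_smul_comm]

private theorem tr2_T : ∀ (n : ℕ) {v : M.Group}, v ∈ par M Q → len M v = n → ∀ x : H,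
    EQ D Q (D.T v * x) = D.T v * EQ D Q x := by
  intro n
  induction n with
  | zero =>
    intro v _ hn x
    rw [len_eq_zero.1 hn, D.T_one, one_mul, one_mul]
  | succ n ih =>
    intro v hv hn x
    have h1 : v ≠ 1 := by
      rintro rfl
      rw [len_one] at hn
      omega
    obtain ⟨b, hb, hlen⟩ := exists_descL hv h1
    have hs : sm M b ∈ par M Q := sm_mem_par hb
    have e : D.T v = D.T (sm M b) * D.T (sm M b * v) := by
      rw [D.T_sm_mul (by rw [sm_cancel]; omega), sm_cancel]
    rw [e, mul_assoc, tr2_sm D hb, ih ((par M Q).mul_mem hs hv) (by omega), mul_assoc]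

theorem EQ_mulL {y : H} (hy : y ∈ HQ D Q) (x : H) : EQ D Q (y * x) = y * EQ D Q x := by
  refine Submodule.span_induction (p := fun y _ => EQ D Q (y * x) = y * EQ D Q x) ?_ ?_ ?_ ?_ hy
  · rintro _ ⟨v, hv, rfl⟩
    exact tr2_T D _ hv rfl x
  · rw [zero_mul, map_zero, zero_mul]
  · intro a b _ _ ha hb
    rw [add_mul, map_add, ha, hb, add_mul]
  · intro a b _ hb
    rw [smul_mul_assoc, map_smul, hb, smul_mul_assoc]

private theorem tr2_fl (x : H) : D.fl (EQ D Q x) = EQ D Q (D.fl x) := by
  classical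
  apply D.T.repr.injective
  ext w
  rw [D.repr_fl, tr2_repr, tr2_repr, D.repr_fl]
  simp only [inv_mem_iff]

private theorem tr2_fl_mem {x : H} (hx : x ∈ HQ D Q) : D.fl x ∈ HQ D Q := by
  rw [← EQ_of_mem D hx, tr2_fl]
  exact EQ_mem D _

theorem EQ_mulR {y : H} (hy : y ∈ HQ D Q) (x : H) : EQ D Q (x * y) = EQ D Q x * y := by
  have h1 : D.fl (EQ D Q (x * y)) = D.fl (EQ D Q x * y) := by
    rw [tr2_fl, D.fl_mul, EQ_mulL D (tr2_fl_mem D hy), D.fl_mul, tr2_fl]
  rw [← D.fl_fl (EQ D Q (x * y)), h1, D.fl_fl]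

open scoped Classical in
theorem EQ_TT {x y : M.Group} (hy : y ∈ XL M Q) (hx : x ∈ XR M Q) :
    EQ D Q (D.T y * D.T x) = if y * x = 1 then 1 else 0 := by
  apply D.T.repr.injective
  ext v
  have h1 : D.T.repr (if y * x = 1 then (1 : H) else 0) v =
      if y * x = 1 ∧ v = 1 then 1 else 0 := by
    by_cases h : y * x = 1
    · rw [if_pos h, ← D.T_one, Module.Basis.repr_self, Finsupp.single_apply]
      by_cases hv : v = 1
      · rw [if_pos hv.symm, if_pos ⟨h, hv⟩]
      · rw [if_neg fun h => hv h.symm, if_neg fun h => hv h.2]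
    · rw [if_neg h, map_zero, Finsupp.zero_apply, if_neg fun h' => h h'.1]
  rw [h1, tr2_repr]
  by_cases hv : v ∈ par M Q
  · rw [if_pos hv, repr_T_eq]
    have hv' : v⁻¹ ∈ par M Q := inv_mem hv
    rw [mul_assoc, ← D.T_mul x v⁻¹ (len_XR_mul hx hv'), repr_TT_one]
    have h2 : y * (x * v⁻¹) = 1 ↔ y * x = 1 ∧ v = 1 := by
      constructor
      · intro h
        have h3 : (1 : M.Group) * y = v * x⁻¹ := by
          rw [one_mul]
          have h4 : y = (x * v⁻¹)⁻¹ := eq_inv_of_mul_eq_one_left h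
          rw [h4, mul_inv_rev, inv_inv]
        obtain ⟨h5, h6⟩ := XL_unique (one_mem _) hv hy (inv_mem_XL.2 hx) h3
        exact ⟨by rw [h6, inv_mul_cancel], h5.symm⟩
      · rintro ⟨h, rfl⟩
        rw [inv_one, mul_one, h]
    simp only [h2]
  · rw [if_neg hv, if_neg]
    rintro ⟨_, rfl⟩
    exact hv (one_mem _)

private theorem tr2_Vl (v : M.Group) : ∀ (n : ℕ) {x : H}, x ∈ Vl D.T (len M) n →
    D.T v * x ∈ Vl D.T (len M) (len M v + n) := by
  induction v using len_induction with
  | h1 =>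
    intro n x hx
    rw [D.T_one, one_mul, len_one, zero_add]
    exact hx
  | hs b w hl ih =>
    intro n x hx
    rw [← D.T_sm_mul hl, mul_assoc, hl]
    have h1 := D.T_mul_mem_Vl b _ (ih n hx)
    have e : len M w + 1 + n = len M w + n + 1 := by omega
    rw [e]
    exact h1

/-- The coordinate of a longest product: `C (x * y)` occurs in `C x * C y`. -/
theorem h_mul {x y : M.Group} (h : len M (x * y) = len M x + len M y) : D.h x y (x * y) ≠ 0 := by
  have hCy : D.C y ∈ Vl D.T (len M) (len M y + 1) := by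
    have e : D.C y = D.T y + (D.C y - D.T y) := by abel
    rw [e]
    exact Submodule.add_mem _ (mem_Vl _ _ (Nat.lt_succ_self _))
      (Vl_mono _ _ (Nat.le_succ _) (D.C_sub_T y))
  have h1 : (D.C x - D.T x) * D.C y ∈ Vl D.T (len M) (len M x + len M y) := by
    refine Submodule.span_induction (p := fun z _ => z * D.C y ∈
      Vl D.T (len M) (len M x + len M y)) ?_ ?_ ?_ ?_ (D.C_sub_T x)
    · rintro _ ⟨u, hu, rfl⟩
      have hu' : len M u < len M x := hu
      exact Vl_mono _ _ (by omega) (tr2_Vl D u _ hCy)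
    · rw [zero_mul]
      exact Submodule.zero_mem _
    · intro a b _ _ ha hb
      rw [add_mul]
      exact Submodule.add_mem _ ha hb
    · intro a b _ hb
      rw [smul_mul_assoc]
      exact Submodule.smul_mem _ _ hb
  have h2 : D.T x * (D.C y - D.T y) ∈ Vl D.T (len M) (len M x + len M y) :=
    tr2_Vl D x _ (D.C_sub_T y)
  have h3 : D.C x * D.C y - D.C (x * y) ∈ Vl D.T (len M) (len M (x * y)) := by
    have e : D.C x * D.C y - D.C (x * y) =
        (D.C x - D.T x) * D.C y + D.T x * (D.C y - D.T y) - (D.C (x * y) - D.T (x * y)) := by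
      rw [D.T_mul x y h, sub_mul, mul_sub]
      abel
    rw [e]
    refine Submodule.sub_mem _ ?_ (D.C_sub_T (x * y))
    rw [h]
    exact Submodule.add_mem _ h1 h2
  rw [← Vl_eq D.T (len M) D.C D.C_sub_T, mem_Vl_iff] at h3
  have h4 : D.C.repr (D.C x * D.C y - D.C (x * y)) (x * y) = 0 := by
    by_contra hne
    exact absurd (h3 _ hne) (lt_irrefl _)
  rw [map_sub, Finsupp.sub_apply, Module.Basis.repr_self, Finsupp.single_eq_same, sub_eq_zero]
    at h4
  unfold KLD.h
  rw [h4]
  exact one_ne_zero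

end tr2

end Pool.Agent.Helper35.AM
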