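import Pool.Agent.Helper35.AM.Tr
import Pool.Agent.Helper35.AM.Cy
import Pool.Agent.Helper35.AM.Tr2

/-!
# Degrees in a parabolic subgroup with P1-P15
-/

/- PROOF HINTS (conventions: see Df.lean)
Lo. loc_sub: all fields restrict; p3, unitR: the element z (resp. d) is in W_Q because h y^-1 y z <> 0 (h_mem); p12 for I n Q (mem_par_inter).
 unitL: unitR for g^-1 and h_inv (D.h x y z = D.h y^-1 x^-1 z^-1), d^-1 = d, nu(d) same, lainv. mul_dle: expand x, y in the basis C (all C_a, a in W_P, mem_HQ_C; degree <= m, n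
 in the basis C by lat_cmp), dle. TT_lead: T_xT_y = C_xC_y + (T_x-C_x)T_y + C_x(T_y-C_y). la_mul: h_mul + p4. la_one: p12 gives gc x y 1 <> 0, so h x y 1 <> 0, x=y=1 (h_ne_one in
 KL/Descent.lean), h 1 1 1 = 1 has a nonzero coefficient of degree la 1 only if la 1 = 0.
 L1a: put b(u) = C.repr(T_k1 C_u T_k2) c, u in W_Q. Start: Dle (la c) b(u), so Dle (n0 - la u) b(u) for n0 = la c + bound of la. Claim: if n > la c and Dle (n - la u) b(u) for ALL u in W_Q then
 Dle (n-1-la u) b(u) for all u. Proof: d = right unit of u in W_Q (unitR of loc_sub). T_k1 C_u C_d T_k2 = sum_{u'} h(u,d,u') T_k1 C_u' T_k2, its coordinate at c is sum h(u,d,u') b(u'), with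
 Dle (la u') and Dle (n - la u'): the coefficient of degree n is sum gc(u,d,u') b(u').coeff(n - la u') = +-b(u).coeff(n - la u). On the other hand it is the product of
 T_k1 C_u and C_d T_k2, both in HQ P and in Lat T 0 (k1 in XR Q, k2 in XL Q: T_k1 T_v = T_{k1 v}), so Dle (la c) < n by mul_dle: coefficient 0.
-/

namespace Pool.Agent.Helper35.AM

open Pool.Agent.Helper35.KL

section lo

variable {B : Type} {M : CoxeterMatrix B} {L : M.Group → ℤ} {H : Type} [Ring H] [Algebra LP H]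
variable (D : KLD M L H) {P Q : Set B} (hQP : Q ⊆ P) {la : M.Group → ℕ}

private theorem Lo_h_ne {x y z : M.Group} (h : gc D la x y z ≠ 0) : D.h x y z ≠ 0 := by
  intro h0
  apply h
  rw [gc, h0, cf_zero]

private theorem Lo_gc_inv (hP : Loc D P la) {x y z : M.Group} (hz : z ∈ par M P) :
    gc D la x y z = gc D la y⁻¹ x⁻¹ z⁻¹ := by
  rw [gc, gc, D.h_inv x y z, hP.lainv z hz]

private theorem Lo_repr_mul (x y : H) (z : M.Group) :
    D.C.repr (x * y) z = ∑ a ∈ (D.C.repr x).support, ∑ b ∈ (D.C.repr y).support,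
      D.C.repr x a * D.C.repr y b * D.h a b z := by
  conv_lhs => rw [← D.C.linearCombination_repr x, ← D.C.linearCombination_repr y]
  rw [Finsupp.linearCombination_apply, Finsupp.linearCombination_apply, Finsupp.sum, Finsupp.sum,
    Finset.sum_mul_sum, map_sum, Finsupp.finsetSum_apply]
  refine Finset.sum_congr rfl fun a _ => ?_
  rw [map_sum, Finsupp.finsetSum_apply]
  refine Finset.sum_congr rfl fun b _ => ?_
  rw [smul_mul_smul_comm, map_smul, Finsupp.smul_apply, smul_eq_mul]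
  rfl

private theorem Lo_T_sub_C (w : M.Group) : D.T w - D.C w ∈ Lat D.T (-1) := by
  rw [← neg_sub]
  exact AddSubgroup.neg_mem _ (D.C_sub_T_neg w)

private theorem Lo_C_Lat (w : M.Group) : D.C w ∈ Lat D.T 0 := by
  have h : D.C w = D.T w + (D.C w - D.T w) := by abel
  rw [h]
  exact AddSubgroup.add_mem _ (basis_mem_Lat D.T w) (Lat_mono _ (by norm_num) (D.C_sub_T_neg w))

private theorem Lo_T_mul_Lat {k : M.Group} (hk : k ∈ XR M Q) {x : H} (hx : x ∈ HQ D Q) {n : ℤ}
    (hx' : x ∈ Lat D.T n) : D.T k * x ∈ Lat D.T n := by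
  rw [← D.T.linearCombination_repr x, Finsupp.linearCombination_apply, Finsupp.sum,
    Finset.mul_sum]
  refine AddSubgroup.sum_mem _ fun v hv => ?_
  have hv' : v ∈ par M Q := by
    by_contra h
    exact (Finsupp.mem_support_iff.1 hv) ((mem_HQ D).1 hx v h)
  rw [mul_smul_comm, ← D.T_mul _ _ (len_XR_mul hk hv')]
  have h1 := smul_Lat D.T (hx' v) (basis_mem_Lat D.T (k * v))
  rwa [add_zero] at h1

private theorem Lo_mul_T_Lat {k : M.Group} (hk : k ∈ XL M Q) {x : H} (hx : x ∈ HQ D Q) {n : ℤ}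
    (hx' : x ∈ Lat D.T n) : x * D.T k ∈ Lat D.T n := by
  rw [← D.T.linearCombination_repr x, Finsupp.linearCombination_apply, Finsupp.sum,
    Finset.sum_mul]
  refine AddSubgroup.sum_mem _ fun v hv => ?_
  have hv' : v ∈ par M Q := by
    by_contra h
    exact (Finsupp.mem_support_iff.1 hv) ((mem_HQ D).1 hx v h)
  rw [smul_mul_assoc, ← D.T_mul _ _ (len_mul_XL hv' hk)]
  have h1 := smul_Lat D.T (hx' v) (basis_mem_Lat D.T (v * k))
  rwa [add_zero] at h1

include hQP in
/-- The properties of a parabolic subgroup are inherited by smaller parabolic subgroups. -/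
theorem loc_sub (hP : Loc D P la) : Loc D Q la := by
  have hm : ∀ z ∈ par M Q, z ∈ par M P := fun z hz => par_mono hQP hz
  exact
  { bdd := by
      obtain ⟨N, hN⟩ := hP.bdd
      exact ⟨N, fun z hz => hN z (hm z hz)⟩
    lainv := fun z hz => hP.lainv z (hm z hz)
    dle := fun x hx y hy z hz => hP.dle x (hm x hx) y (hm y hy) z (hm z hz)
    p4 := fun x hx y hy z h => hP.p4 x (hm x hx) y (hm y hy) z h
    p1 := fun z hz => hP.p1 z (hm z hz)
    p2 := fun x hx y hy z hz => hP.p2 x (hm x hx) y (hm y hy) z (hm z hz)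
    p3 := by
      intro y hy
      obtain ⟨z, hz, h1, h2, h3, h4⟩ := hP.p3 y (hm y hy)
      exact ⟨z, h_mem D (inv_mem hy) hy (Lo_h_ne D (by rw [h2]; exact h1)), h1, h2, h3,
        fun z' hz' => h4 z' (hm z' hz')⟩
    inv := fun z hz => hP.inv z (hm z hz)
    q := fun x hx y hy z hz => hP.q x (hm x hx) y (hm y hy) z (hm z hz)
    unitR := by
      intro g hg
      obtain ⟨d, hd, h1, h2, h3, h4, h5⟩ := hP.unitR g (hm g hg)
      exact ⟨d, h_mem D (inv_mem hg) hg (Lo_h_ne D (by rw [h3]; exact h1)), h1, h2, h3, h4,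
        fun c hc => h5 c (hm c hc)⟩
    p12 := by
      intro I g hg hI
      obtain ⟨x, hx, y, hy, hx', hy', h⟩ := hP.p12 (Q ∩ I) g (hm g hg) (mem_par_inter hg hI)
      exact ⟨x, par_mono Set.inter_subset_left hx', y, par_mono Set.inter_subset_left hy',
        par_mono Set.inter_subset_right hx', par_mono Set.inter_subset_right hy', h⟩
    p15 := fun n w hw w' hw' x hx y hy h =>
      hP.p15 n w (hm w hw) w' (hm w' hw') x (hm x hx) y (hm y hy) h }

variable (hP : Loc D P la)

include hP in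
/-- The unit on the left. -/
theorem unitL {g : M.Group} (hg : g ∈ par M P) : ∃ d ∈ par M P, nu D la d ≠ 0 ∧
    (nu D la d = 1 ∨ nu D la d = -1) ∧ gc D la g g⁻¹ d = nu D la d ∧
    gc D la d g g = nu D la d ∧ ∀ c ∈ par M P, c ≠ g → gc D la d g c = 0 := by
  obtain ⟨d, hd, h1, h2, h3, h4, h5⟩ := hP.unitR g⁻¹ (inv_mem hg)
  have hdi := hP.inv d hd h1
  refine ⟨d, hd, h1, h2, ?_, ?_, ?_⟩
  · rwa [inv_inv] at h3
  · rw [Lo_gc_inv D hP hg, hdi]
    exact h4
  · intro c hc hne
    rw [Lo_gc_inv D hP hc, hdi]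
    exact h5 c⁻¹ (inv_mem hc) (fun h => hne (inv_injective h))

include hP in
/-- Products of elements of the lattice. -/
theorem mul_dle {m n : ℤ} {x y : H} (hx : x ∈ HQ D P) (hy : y ∈ HQ D P) (hx' : x ∈ Lat D.T m)
    (hy' : y ∈ Lat D.T n) {z : M.Group} (hz : z ∈ par M P) :
    Dle (m + n + la z) (D.C.repr (x * y) z) := by
  rw [Lo_repr_mul]
  have hx1 := (lat_cmp D.T D.C D.T_sub_C_neg hx').1
  have hy1 := (lat_cmp D.T D.C D.T_sub_C_neg hy').1
  refine Dle.sum _ fun a ha => Dle.sum _ fun b hb => ?_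
  have ha' : a ∈ par M P := by
    by_contra h
    exact (Finsupp.mem_support_iff.1 ha) ((mem_HQ_C D).1 hx a h)
  have hb' : b ∈ par M P := by
    by_contra h
    exact (Finsupp.mem_support_iff.1 hb) ((mem_HQ_C D).1 hy b h)
  exact ((hx1 a).mul (hy1 b)).mul (hP.dle a ha' b hb' z hz)

include hP in
/-- The leading coefficients of products of elements of the standard basis. -/
theorem TT_lead {x y z : M.Group} (hx : x ∈ par M P) (hy : y ∈ par M P) (hz : z ∈ par M P) :
    Dle (la z) (D.C.repr (D.T x * D.T y) z) ∧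
      (D.C.repr (D.T x * D.T y) z).coeff (la z) = gc D la x y z := by
  have hxy : D.T x * D.T y =
      D.C x * D.C y + (D.T x - D.C x) * D.T y + D.C x * (D.T y - D.C y) := by
    rw [sub_mul, mul_sub]
    abel
  have h1 := mul_dle D hP ((HQ D P).sub_mem (T_mem_HQ D hx) (C_mem_HQ D hx)) (T_mem_HQ D hy)
    (Lo_T_sub_C D x) (basis_mem_Lat D.T y) hz
  have h2 := mul_dle D hP (C_mem_HQ D hx) ((HQ D P).sub_mem (T_mem_HQ D hy) (C_mem_HQ D hy))
    (Lo_C_Lat D x) (Lo_T_sub_C D y) hz
  have h3 := hP.dle x hx y hy z hz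
  rw [hxy, map_add, map_add, Finsupp.add_apply, Finsupp.add_apply]
  refine ⟨Dle.add (Dle.add h3 (h1.mono (by omega))) (h2.mono (by omega)), ?_⟩
  rw [cf_add, cf_add, h1 (la z) (by omega), h2 (la z) (by omega), add_zero, add_zero]
  rfl

include hP in
theorem la_mul {x y : M.Group} (hx : x ∈ par M P) (hy : y ∈ par M P)
    (h : len M (x * y) = len M x + len M y) : la x ≤ la (x * y) ∧ la y ≤ la (x * y) :=
  hP.p4 x hx y hy (x * y) (h_mul D h)

include hP in
theorem la_one (hL : IsWeight M L) : la 1 = 0 := by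
  classical
  obtain ⟨x, hx, y, hy, -, -, h⟩ := hP.p12 Set.univ 1 (one_mem _) (one_mem _)
  have h0 := Lo_h_ne D h
  obtain ⟨rfl, rfl⟩ := D.h_ne_one hL h0
  by_contra hne
  apply h
  rw [gc, D.h_one, if_pos rfl, cf_one, if_neg (by exact_mod_cast hne)]

include hQP hP in
/-- The degrees of `T k1 * C u * T k2`. -/
theorem L1a {k1 k2 u c : M.Group} (h1 : k1 ∈ XR M Q) (h1' : k1 ∈ par M P) (h2 : k2 ∈ XL M Q)
    (h2' : k2 ∈ par M P) (hu : u ∈ par M Q) (hc : c ∈ par M P) :
    Dle ((la c : ℤ) - la u) (D.C.repr (D.T k1 * D.C u * D.T k2) c) := by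
  have hQ : Loc D Q la := loc_sub D hQP hP
  have hm : ∀ z ∈ par M Q, z ∈ par M P := fun z hz => par_mono hQP hz
  obtain ⟨N, hN⟩ := hP.bdd
  have hx : ∀ u ∈ par M Q, D.T k1 * D.C u ∈ HQ D P ∧ D.T k1 * D.C u ∈ Lat D.T 0 := fun u hu =>
    ⟨mul_mem_HQ D (T_mem_HQ D h1') (C_mem_HQ D (hm u hu)),
      Lo_T_mul_Lat D h1 (C_mem_HQ D hu) (Lo_C_Lat D u)⟩
  have hy : ∀ u ∈ par M Q, D.C u * D.T k2 ∈ HQ D P ∧ D.C u * D.T k2 ∈ Lat D.T 0 := fun u hu =>
    ⟨mul_mem_HQ D (C_mem_HQ D (hm u hu)) (T_mem_HQ D h2'),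
      Lo_mul_T_Lat D h2 (C_mem_HQ D hu) (Lo_C_Lat D u)⟩
  -- one step of the descending induction
  have step : ∀ n : ℤ, (la c : ℤ) < n →
      (∀ u ∈ par M Q, Dle (n - la u) (D.C.repr (D.T k1 * D.C u * D.T k2) c)) →
      ∀ u ∈ par M Q, Dle (n - 1 - la u) (D.C.repr (D.T k1 * D.C u * D.T k2) c) := by
    intro n hn h u hu
    obtain ⟨d, hd, -, e2, -, e4, e5⟩ := hQ.unitR u hu
    have h5 := mul_dle D hP (hx u hu).1 (hy d hd).1 (hx u hu).2 (hy d hd).2 hc
    have h6 : D.C.repr (D.T k1 * D.C u * (D.C d * D.T k2)) c =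
        ∑ v ∈ (D.C.repr (D.C u * D.C d)).support,
          D.h u d v * D.C.repr (D.T k1 * D.C v * D.T k2) c := by
      have e : D.T k1 * D.C u * (D.C d * D.T k2) = D.T k1 * (D.C u * D.C d) * D.T k2 := by
        simp only [mul_assoc]
      rw [e]
      conv_lhs => rw [D.C_mul_eq u d]
      rw [Finset.mul_sum, Finset.sum_mul, map_sum, Finsupp.finsetSum_apply]
      refine Finset.sum_congr rfl fun v _ => ?_
      rw [mul_smul_comm, smul_mul_assoc, map_smul, Finsupp.smul_apply, smul_eq_mul]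
    have h7 : (D.C.repr (D.T k1 * D.C u * (D.C d * D.T k2)) c).coeff n =
        gc D la u d u * (D.C.repr (D.T k1 * D.C u * D.T k2) c).coeff (n - la u) := by
      have lead : ∀ v ∈ par M Q, (D.h u d v * D.C.repr (D.T k1 * D.C v * D.T k2) c).coeff n =
          gc D la u d v * (D.C.repr (D.T k1 * D.C v * D.T k2) c).coeff (n - la v) := by
        intro v hv
        have h8 := cf_mul_lead (hQ.dle u hu d hd v hv) (h v hv)
        rw [show ((la v : ℤ) + (n - la v)) = n by ring] at h8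
        exact h8
      rw [h6, cf_sum, Finset.sum_eq_single u]
      · exact lead u hu
      · intro v hv hne
        have hvQ : v ∈ par M Q := h_mem D hu hd (Finsupp.mem_support_iff.1 hv)
        rw [lead v hvQ, e5 v hvQ hne, zero_mul]
      · intro hv
        have h8 : D.h u d u = 0 := Finsupp.notMem_support_iff.1 hv
        rw [h8, zero_mul, cf_zero]
    rw [h5 n (by omega), e4] at h7
    have h9 : (D.C.repr (D.T k1 * D.C u * D.T k2) c).coeff (n - la u) = 0 := by
      rcases e2 with e | e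
      · rw [e] at h7
        omega
      · rw [e] at h7
        omega
    have h10 := (h u hu).of_lead h9
    have h11 : n - 1 - (la u : ℤ) = n - la u - 1 := by ring
    rw [h11]
    exact h10
  have key : ∀ j : ℕ, j ≤ N → ∀ u ∈ par M Q,
      Dle ((la c : ℤ) + (N - j) - la u) (D.C.repr (D.T k1 * D.C u * D.T k2) c) := by
    intro j
    induction j with
    | zero =>
      intro _ u hu
      have h5 := mul_dle D hP (hx u hu).1 (T_mem_HQ D h2') (hx u hu).2 (basis_mem_Lat D.T k2) hc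
      have h6 := hN u (hm u hu)
      refine h5.mono ?_
      push_cast
      omega
    | succ j ih =>
      intro hj u hu
      have h5 := step ((la c : ℤ) + (N - j)) (by omega) (ih (by omega)) u hu
      refine h5.mono ?_
      push_cast
      omega
  refine (key N le_rfl u hu).mono ?_
  omega

end lo

end Pool.Agent.Helper35.AM
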