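import Pool.Agent.Helper35.AM.Lo
import Pool.Agent.Helper35.AM.Tr2

/-!
# The projection of a product
-/

/- PROOF HINTS (conventions: see Df.lean)
Lo2. Id1: C_{vy} = sum a_w T_w, w = v' y' (v' in W_Q, y' in XL Q; exists_XL), C_{xu} = sum b_w T_w, w = x' u'. EQ(T_{v'y'} T_{x'u'}) = T_{v'} EQ(T_{y'}T_{x'}) T_{u'} = [y'x'=1] T_{v'}T_{u'}: coordinate at w:
 Dle (la w), leading gc v' u' w (TT_lead). a_w, b_w have degree <= -1 except a_{vy} = b_{xu} = 1. (Or: T instead of C first: the difference
 C C - T T is a combination with negative coefficients.) L2a: Start: ps(u,c) has Dle 0. If Dle (n - la c) ps(u,c) for all c in W_P and n > la u, then the same with n-1: d' = left unit of c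
 (unitL); EQ(C_d' C_c) = sum h(d',c,c') EQ(C_c'); coordinate at u: coefficient of degree n is +-ps(u,c).coeff(n - la c); by Id1 (d' = v y, c = x u') it has Dle (la u) < n. Id2: Id1 + expansion,
 Dle (la c) * Dle (la w - la c).
-/

namespace Pool.Agent.Helper35.AM

open Pool.Agent.Helper35.KL

section lo2

variable {B : Type} {M : CoxeterMatrix B} {L : M.Group → ℤ} {H : Type} [Ring H] [Algebra LP H]
variable (D : KLD M L H) {P Q : Set B} (hQP : Q ⊆ P) {la : M.Group → ℕ}
variable (hP : Loc D P la)

private theorem Lo2_C_Lat (w : M.Group) : D.C w ∈ Lat D.T 0 := by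
  have h : D.C w = D.T w + (D.C w - D.T w) := by abel
  rw [h]
  exact AddSubgroup.add_mem _ (basis_mem_Lat D.T w) (Lat_mono _ (by norm_num) (D.C_sub_T_neg w))

open scoped Classical in
/-- the projection of a product of elements of the standard basis -/
private theorem Lo2_TT {v y x u : M.Group} (hv : v ∈ par M Q) (hy : y ∈ XL M Q)
    (hx : x ∈ XR M Q) (hu : u ∈ par M Q) :
    EQ D Q (D.T (v * y) * D.T (x * u)) = if y * x = 1 then D.T v * D.T u else 0 := by
  rw [D.T_mul _ _ (len_mul_XL hv hy), D.T_mul _ _ (len_XR_mul hx hu)]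
  have e : D.T v * D.T y * (D.T x * D.T u) = D.T v * (D.T y * D.T x * D.T u) := by
    simp only [mul_assoc]
  rw [e, EQ_mulL D (T_mem_HQ D hv), EQ_mulR D (T_mem_HQ D hu), EQ_TT D hy hx]
  split_ifs
  · rw [one_mul]
  · rw [zero_mul, mul_zero]

private theorem Lo2_TT_dle (hQ : Loc D Q la) (a b : M.Group) {w : M.Group} (hw : w ∈ par M Q) :
    Dle (la w) (D.C.repr (EQ D Q (D.T a * D.T b)) w) := by
  classical
  obtain ⟨v, hv, y, hy, rfl⟩ := exists_XL Q a
  obtain ⟨x, hx, u, hu, rfl⟩ := exists_XR Q b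
  rw [Lo2_TT D hv hy hx hu]
  split_ifs
  · exact (TT_lead D hQ hv hu hw).1
  · rw [map_zero, Finsupp.zero_apply]
    exact Dle.zero _

private theorem Lo2_mul_dle (hQ : Loc D Q la) {m n : ℤ} {x y : H} (hx : x ∈ Lat D.T m)
    (hy : y ∈ Lat D.T n) {w : M.Group} (hw : w ∈ par M Q) :
    Dle (m + n + la w) (D.C.repr (EQ D Q (x * y)) w) := by
  have e : D.C.repr (EQ D Q (x * y)) w = ∑ a ∈ (D.T.repr x).support, ∑ b ∈ (D.T.repr y).support,
      D.T.repr x a * D.T.repr y b * D.C.repr (EQ D Q (D.T a * D.T b)) w := by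
    conv_lhs => rw [← D.T.linearCombination_repr x, ← D.T.linearCombination_repr y]
    rw [Finsupp.linearCombination_apply, Finsupp.linearCombination_apply, Finsupp.sum,
      Finsupp.sum, Finset.sum_mul_sum, map_sum, map_sum, Finsupp.finsetSum_apply]
    refine Finset.sum_congr rfl fun a _ => ?_
    rw [map_sum, map_sum, Finsupp.finsetSum_apply]
    refine Finset.sum_congr rfl fun b _ => ?_
    rw [smul_mul_smul_comm, map_smul, map_smul, Finsupp.smul_apply, smul_eq_mul]
  rw [e]
  exact Dle.sum _ fun a _ => Dle.sum _ fun b _ => ((hx a).mul (hy b)).mul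
    (Lo2_TT_dle D hQ a b hw)

include hQP hP in
open scoped Classical in
/-- The projection of a product. -/
theorem Id1 {v y x u w : M.Group} (hv : v ∈ par M Q) (hy : y ∈ XL M Q) (hy' : y ∈ par M P)
    (hx : x ∈ XR M Q) (hx' : x ∈ par M P) (hu : u ∈ par M Q) (hw : w ∈ par M Q) :
    Dle (la w) (D.C.repr (EQ D Q (D.C (v * y) * D.C (x * u))) w) ∧
      (D.C.repr (EQ D Q (D.C (v * y) * D.C (x * u))) w).coeff (la w) =
        if y * x = 1 then gc D la v u w else 0 := by
  have hQ : Loc D Q la := loc_sub D hQP hP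
  have e : D.C (v * y) * D.C (x * u) = D.T (v * y) * D.T (x * u) +
      (D.C (v * y) - D.T (v * y)) * D.T (x * u) + D.C (v * y) * (D.C (x * u) - D.T (x * u)) := by
    rw [sub_mul, mul_sub]
    abel
  have h1 := Lo2_mul_dle D hQ (D.C_sub_T_neg (v * y)) (basis_mem_Lat D.T (x * u)) hw
  have h2 := Lo2_mul_dle D hQ (Lo2_C_Lat D (v * y)) (D.C_sub_T_neg (x * u)) hw
  have h3 : Dle (la w) (D.C.repr (EQ D Q (D.T (v * y) * D.T (x * u))) w) ∧
      (D.C.repr (EQ D Q (D.T (v * y) * D.T (x * u))) w).coeff (la w) =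
        if y * x = 1 then gc D la v u w else 0 := by
    rw [Lo2_TT D hv hy hx hu]
    split_ifs
    · exact TT_lead D hQ hv hu hw
    · rw [map_zero, Finsupp.zero_apply]
      exact ⟨Dle.zero _, cf_zero _⟩
  rw [e, map_add, map_add, map_add, map_add, Finsupp.add_apply, Finsupp.add_apply]
  refine ⟨Dle.add (Dle.add h3.1 (h1.mono (by omega))) (h2.mono (by omega)), ?_⟩
  rw [cf_add, cf_add, h1 (la w) (by omega), h2 (la w) (by omega), add_zero, add_zero]
  exact h3.2

private theorem Lo2_expand (a b w : M.Group) : D.C.repr (EQ D Q (D.C a * D.C b)) w =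
    ∑ c ∈ (D.C.repr (D.C a * D.C b)).support, D.h a b c * ps D Q w c := by
  conv_lhs => rw [D.C_mul_eq a b]
  rw [map_sum, map_sum, Finsupp.finsetSum_apply]
  refine Finset.sum_congr rfl fun c _ => ?_
  rw [map_smul, map_smul, Finsupp.smul_apply, smul_eq_mul]
  rfl

include hQP hP in
/-- The degrees of the projections. -/
theorem L2a {u c : M.Group} (hu : u ∈ par M Q) (hc : c ∈ par M P) :
    Dle ((la u : ℤ) - la c) (ps D Q u c) := by
  have hQ : Loc D Q la := loc_sub D hQP hP
  obtain ⟨N, hN⟩ := hP.bdd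
  have start : ∀ c : M.Group, Dle 0 (ps D Q u c) := by
    intro c
    have h1 : EQ D Q (D.C c) ∈ Lat D.T 0 := by
      classical
      intro w
      rw [repr_EQ]
      split_ifs
      · exact Lo2_C_Lat D c w
      · exact Dle.zero _
    exact (lat_cmp D.T D.C D.T_sub_C_neg h1).1 u
  -- one step of the descending induction
  have step : ∀ n : ℤ, (la u : ℤ) < n → (∀ c ∈ par M P, Dle (n - la c) (ps D Q u c)) →
      ∀ c ∈ par M P, Dle (n - 1 - la c) (ps D Q u c) := by
    intro n hn h c hc
    obtain ⟨d, hd, -, e2, -, e4, e5⟩ := unitL D hP hc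
    have h5 := Lo2_mul_dle D hQ (Lo2_C_Lat D d) (Lo2_C_Lat D c) hu
    have h7 : (D.C.repr (EQ D Q (D.C d * D.C c)) u).coeff n =
        gc D la d c c * (ps D Q u c).coeff (n - la c) := by
      have lead : ∀ v ∈ par M P, (D.h d c v * ps D Q u v).coeff n =
          gc D la d c v * (ps D Q u v).coeff (n - la v) := by
        intro v hv
        have h8 := cf_mul_lead (hP.dle d hd c hc v hv) (h v hv)
        rw [show ((la v : ℤ) + (n - la v)) = n by ring] at h8
        exact h8
      rw [Lo2_expand, cf_sum, Finset.sum_eq_single c]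
      · exact lead c hc
      · intro v hv hne
        have hvP : v ∈ par M P := h_mem D hd hc (Finsupp.mem_support_iff.1 hv)
        rw [lead v hvP, e5 v hvP hne, zero_mul]
      · intro hv
        have h8 : D.h d c c = 0 := Finsupp.notMem_support_iff.1 hv
        rw [h8, zero_mul, cf_zero]
    rw [h5 n (by omega), e4] at h7
    have h9 : (ps D Q u c).coeff (n - la c) = 0 := by
      rcases e2 with e | e
      · rw [e] at h7
        omega
      · rw [e] at h7
        omega
    have h10 := (h c hc).of_lead h9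
    have h11 : n - 1 - (la c : ℤ) = n - la c - 1 := by ring
    rw [h11]
    exact h10
  have key : ∀ j : ℕ, j ≤ N → ∀ c ∈ par M P, Dle ((la u : ℤ) + (N - j) - la c) (ps D Q u c) := by
    intro j
    induction j with
    | zero =>
      intro _ c hc
      have h6 := hN c hc
      refine (start c).mono ?_
      push_cast
      omega
    | succ j ih =>
      intro hj c hc
      have h5 := step ((la u : ℤ) + (N - j)) (by omega) (ih (by omega)) c hc
      refine h5.mono ?_
      push_cast
      omega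
  refine (key N le_rfl c hc).mono ?_
  omega

include hQP hP in
open scoped Classical in
/-- The identity for the leading coefficients of the projections. -/
theorem Id2 {v y x u w : M.Group} (hv : v ∈ par M Q) (hy : y ∈ XL M Q) (hy' : y ∈ par M P)
    (hx : x ∈ XR M Q) (hx' : x ∈ par M P) (hu : u ∈ par M Q) (hw : w ∈ par M Q) :
    ∑ c ∈ (D.C.repr (D.C (v * y) * D.C (x * u))).support,
      gc D la (v * y) (x * u) c * pi D Q la w c = if y * x = 1 then gc D la v u w else 0 := by
  have hvP : v * y ∈ par M P := mul_mem (par_mono hQP hv) hy'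
  have huP : x * u ∈ par M P := mul_mem hx' (par_mono hQP hu)
  rw [← (Id1 D hQP hP hv hy hy' hx hx' hu hw).2, Lo2_expand, cf_sum]
  refine Finset.sum_congr rfl fun c hc => ?_
  have hcP : c ∈ par M P := h_mem D hvP huP (Finsupp.mem_support_iff.1 hc)
  have h8 := cf_mul_lead (hP.dle _ hvP _ huP c hcP) (L2a D hQP hP hw hcP)
  rw [show ((la c : ℤ) + ((la w : ℤ) - la c)) = la w by ring] at h8
  rw [h8]
  rfl

end lo2

end Pool.Agent.Helper35.AM
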