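import Pool.Agent.Helper35.AM.Df

/-!
# Ideals spanned by Kazhdan-Lusztig elements, lattices, leading coefficients
-/

/- PROOF HINTS (conventions: see Df.lean)
Lv, Lv2: coordinates in the basis C. bar acts on C.repr by invert (bar C = C), see KL/Tf.lean (up) and eq_zero_of_bar in KL/Laurent.lean.
 Lat T n = Lat C n: lat_cmp in KL/Tri.lean with T_sub_C_neg / C_T. mem_II_of_bar: C.repr(bar x) z = invert(C.repr x z); so for light z the coordinate is invert-invariant and of
 degree <= -1, hence 0. congr_up: x - up(ld 0 x) in LL(-1) by LL_of_ld + ld_up. mul_LL: expand both factors in the basis C; terms with a heavy factor are in II.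
-/

namespace Pool.Agent.Helper35.AM

open Pool.Agent.Helper35.KL

section lv

variable {B : Type} {M : CoxeterMatrix B} {L : M.Group → ℤ} {H : Type} [Ring H] [Algebra LP H]
variable {D : KLD M L H} {hv : M.Group → Prop}

theorem mem_II {x : H} : x ∈ II D hv ↔ ∀ z, ¬ hv z → D.C.repr x z = 0 := by
  rw [II, Module.Basis.mem_span_image]
  constructor
  · intro h z hz
    by_contra hne
    exact hz (h (Finset.mem_coe.2 (Finsupp.mem_support_iff.2 hne)))
  · intro h z hz
    by_contra hne
    exact (Finsupp.mem_support_iff.1 (Finset.mem_coe.1 hz)) (h z hne)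

theorem C_mem_II {w : M.Group} (h : hv w) : D.C w ∈ II D hv :=
  Submodule.subset_span ⟨w, h, rfl⟩

theorem mem_LL {n : ℤ} {x : H} : x ∈ LL D hv n ↔ ∀ z, ¬ hv z → Dle n (D.C.repr x z) := Iff.rfl

theorem LL_mono {m n : ℤ} (h : m ≤ n) : LL D hv m ≤ LL D hv n :=
  fun _ hx z hz => (hx z hz).mono h

theorem II_LL {x : H} (h : x ∈ II D hv) (n : ℤ) : x ∈ LL D hv n := by
  intro z hz
  rw [mem_II.1 h z hz]
  exact Dle.zero n

theorem smul_LL {m n : ℤ} {a : LP} {x : H} (ha : Dle m a) (hx : x ∈ LL D hv n) :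
    a • x ∈ LL D hv (m + n) := by
  intro z hz
  rw [map_smul, Finsupp.smul_apply, smul_eq_mul]
  exact ha.mul (hx z hz)

theorem Lat_LL {n : ℤ} {x : H} (hx : x ∈ Lat D.C n) : x ∈ LL D hv n :=
  fun z _ => hx z

theorem LatT_LL {n : ℤ} {x : H} (hx : x ∈ Lat D.T n) : x ∈ LL D hv n :=
  Lat_LL (lat_cmp D.T D.C D.T_sub_C_neg hx).1

theorem C_LL (w : M.Group) : D.C w ∈ LL D hv 0 :=
  Lat_LL (basis_mem_Lat D.C w)

theorem T_LL (w : M.Group) : D.T w ∈ LL D hv 0 :=
  LatT_LL (basis_mem_Lat D.T w)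

theorem C_sub_T_LL (w : M.Group) : D.C w - D.T w ∈ LL D hv (-1) :=
  LatT_LL (D.C_sub_T_neg w)

theorem T_LL_neg {w : M.Group} (h : hv w) : D.T w ∈ LL D hv (-1) := by
  have e : D.T w = D.C w - (D.C w - D.T w) := by abel
  rw [e]
  exact AddSubgroup.sub_mem _ (II_LL (C_mem_II h) _) (C_sub_T_LL w)

open scoped Classical in
theorem ld_apply (n : ℤ) (x : H) (z : M.Group) :
    ld D hv n x z = if hv z then 0 else (D.C.repr x z).coeff n := rfl

theorem ld_hv (n : ℤ) (x : H) {z : M.Group} (h : hv z) : ld D hv n x z = 0 := by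
  classical
  rw [ld_apply, if_pos h]

theorem ld_lt {m n : ℤ} {x : H} (h : m < n) (hx : x ∈ LL D hv m) : ld D hv n x = 0 := by
  classical
  ext z
  rw [ld_apply, Finsupp.zero_apply]
  split_ifs with hz
  · rfl
  · exact hx z hz n h

theorem ld_II {x : H} (h : x ∈ II D hv) (n : ℤ) : ld D hv n x = 0 :=
  ld_lt (show n - 1 < n by omega) (II_LL h _)

theorem ld_smul {m n : ℤ} {a : LP} {x : H} (ha : Dle m a) (hx : x ∈ LL D hv n) :
    ld D hv (m + n) (a • x) = a.coeff m • ld D hv n x := by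
  classical
  ext z
  rw [ld_apply, Finsupp.smul_apply, ld_apply, smul_eq_mul]
  split_ifs with hz
  · rw [mul_zero]
  · rw [map_smul, Finsupp.smul_apply, smul_eq_mul]
    exact cf_mul_lead ha (hx z hz)

/-- Elements of the lattice with the same leading coefficients. -/
theorem ld_congr {n : ℤ} {x y : H} (h : x - y ∈ LL D hv (n - 1)) :
    ld D hv n x = ld D hv n y := by
  have h1 := ld_lt (show n - 1 < n by omega) h
  rw [map_sub, sub_eq_zero] at h1
  exact h1

theorem LL_of_ld {n : ℤ} {x : H} (hx : x ∈ LL D hv n) (h : ld D hv n x = 0) :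
    x ∈ LL D hv (n - 1) := by
  classical
  intro z hz
  refine (hx z hz).of_lead ?_
  have h1 : ld D hv n x z = 0 := by rw [h, Finsupp.zero_apply]
  rwa [ld_apply, if_neg hz] at h1

theorem ld_C {w : M.Group} (h : ¬ hv w) : ld D hv 0 (D.C w) = Finsupp.single w 1 := by
  classical
  ext z
  rw [ld_apply, Module.Basis.repr_self, Finsupp.single_apply, Finsupp.single_apply]
  by_cases hw : w = z
  · subst hw
    rw [if_neg h, if_pos rfl, if_pos rfl, cf_one, if_pos rfl]
  · rw [if_neg hw, if_neg hw, cf_zero, ite_self]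

theorem ld_T (w : M.Group) : ld D hv 0 (D.T w) = ld D hv 0 (D.C w) := by
  refine ld_congr ?_
  have e : D.T w - D.C w = -(D.C w - D.T w) := by abel
  rw [e]
  exact AddSubgroup.neg_mem _ (C_sub_T_LL w)

end lv

end Pool.Agent.Helper35.AM
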