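import Pool.Agent.Helper35.AM.Lo2
import Pool.Agent.Helper35.AM.Lv

/-!
# Products in a filtration with leading terms
-/

namespace Pool.Agent.Helper35.AM

open Pool.Agent.Helper35.KL

section lq

variable {B : Type} {M : CoxeterMatrix B} {L : M.Group → ℤ} {H : Type} [Ring H] [Algebra LP H]
variable (D : KLD M L H) {hv : M.Group → Prop} {A : Type} [AddCommGroup A] (F : Lf D hv A)
variable {P Q : Set B} (hQP : Q ⊆ P) {la : M.Group → ℕ} (hP : Loc D P la) (hI : Idl D hv)
variable {N : ℕ} {κ T0 : ℤ} (hin : ∀ c ∈ par M P, N ≤ la c → hv c)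
variable (hκ : ∀ m : ℕ, m < N → T0 ≤ κ - m)
variable {p r : M.Group}
variable (hT : ∀ g ∈ par M P, g ∉ par M Q → D.T p * D.T g * D.T r = D.T (p * g * r) ∧
  D.T (p * g * r) ∈ F.Lam T0)
variable (hU : ∀ u ∈ par M Q, la u < N → D.T p * D.C u * D.T r ∈ F.Lam (κ - la u))

theorem lq_expand (b : Module.Basis M.Group LP H) (p r x : H) :
    p * x * r = ∑ y ∈ (b.repr x).support, b.repr x y • (p * b y * r) := by
  conv_lhs => rw [← b.linearCombination_repr x]
  rw [Finsupp.linearCombination_apply, Finsupp.sum, Finset.mul_sum, Finset.sum_mul]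
  refine Finset.sum_congr rfl fun y _ => ?_
  rw [mul_smul_comm, smul_mul_assoc]

theorem lq_II {hv : M.Group → Prop} (hI : Idl D hv) {c : M.Group} (hc : hv c) (p r : H) :
    p * D.C c * r ∈ II D hv := by
  have h2 : ∀ x ∈ II D hv, x * r ∈ II D hv := by
    intro x hx
    refine Submodule.span_induction (p := fun x _ => x * r ∈ II D hv) ?_ ?_ ?_ ?_ hx
    · rintro _ ⟨w, hw, rfl⟩
      exact hI.mulR w hw r
    · rw [zero_mul]
      exact Submodule.zero_mem _
    · intro a b _ _ ha hb
      rw [add_mul]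
      exact Submodule.add_mem _ ha hb
    · intro a b _ hb
      rw [smul_mul_assoc]
      exact Submodule.smul_mem _ _ hb
  exact h2 _ (hI.mulL c hc p)

include hI hin hU in
/-- Products of `T p`, an element of the small parabolic subgroup and `T r`. -/
theorem exp_mem (hQP : Q ⊆ P) {s : H} (hs : s ∈ HQ D Q) {m : ℤ}
    (h : ∀ u ∈ par M Q, la u < N → Dle (la u + m) (D.C.repr s u)) :
    D.T p * s * D.T r ∈ F.Lam (κ + m) := by
  rw [lq_expand D.C]
  refine AddSubgroup.sum_mem _ fun u hu => ?_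
  have hu' : u ∈ par M Q := by
    by_contra hn
    exact (Finsupp.mem_support_iff.1 hu) ((mem_HQ_C D).1 hs u hn)
  by_cases hN : la u < N
  · have h1 := F.smul (h u hu' hN) (hU u hu' hN)
    rwa [show ((la u : ℤ) + m) + (κ - la u) = κ + m by ring] at h1
  · exact F.mem (Submodule.smul_mem _ _ (lq_II D hI (hin u (par_mono hQP hu') (by omega)) _ _)) _

include hQP hP hI hin hκ hT hU in
open scoped Classical in
/-- The main terms of `T p * C c * T r`. -/
theorem R1 {c : M.Group} (hc : c ∈ par M P) (hcN : la c < N) :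
    D.T p * D.C c * D.T r - (if c ∈ par M Q then 0 else D.T (p * c * r)) -
      D.T p * EQ D Q (D.C c) * D.T r ∈ F.Lam (κ - la c - 1) := by
  by_cases hcQ : c ∈ par M Q
  · rw [if_pos hcQ, EQ_of_mem D (C_mem_HQ D hcQ), sub_zero, sub_self]
    exact AddSubgroup.zero_mem _
  · rw [if_neg hcQ]
    obtain ⟨s, hs⟩ : ∃ s, s = D.C c - D.T c - EQ D Q (D.C c) := ⟨_, rfl⟩
    have h1 : D.T p * D.C c * D.T r - D.T (p * c * r) - D.T p * EQ D Q (D.C c) * D.T r =
        D.T p * s * D.T r := by
      rw [hs, ← (hT c hc hcQ).1]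
      noncomm_ring
    rw [h1, lq_expand D.T]
    refine AddSubgroup.sum_mem _ fun g hg => ?_
    have hne := Finsupp.mem_support_iff.1 hg
    have h4 : D.T.repr s g = D.T.repr (D.C c - D.T c) g -
        (if g ∈ par M Q then D.T.repr (D.C c) g else 0) := by
      rw [hs, map_sub, Finsupp.sub_apply, repr_EQ]
    have h5 : g ∉ par M Q := by
      intro h
      have h10 : g ≠ c := fun h' => hcQ (h' ▸ h)
      apply hne
      rw [h4, if_pos h, map_sub, Finsupp.sub_apply, Module.Basis.repr_self,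
        Finsupp.single_eq_of_ne h10, sub_zero, sub_self]
    rw [h4, if_neg h5, sub_zero] at hne ⊢
    have h6 : g ∈ par M P := by
      by_contra hn
      exact hne ((mem_HQ D).1 (Submodule.sub_mem _ (C_mem_HQ D hc) (T_mem_HQ D hc)) g hn)
    rw [(hT g h6 h5).1]
    have h7 := F.smul (D.C_T c g) (hT g h6 h5).2
    have h8 := hκ (la c) hcN
    exact F.mono (by omega) h7

include hQP hP hI hin hU in
theorem lq_REQ {c : M.Group} (hc : c ∈ par M P) (hcN : la c < N) :
    D.T p * EQ D Q (D.C c) * D.T r ∈ F.Lam (κ - la c) := by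
  have h1 := exp_mem D F hI hin hU hQP (EQ_mem D (D.C c)) (m := -(la c : ℤ)) (by
    intro u hu _
    have h2 := L2a D hQP hP hu hc
    rw [sub_eq_add_neg] at h2
    exact h2)
  rwa [← sub_eq_add_neg] at h1

include hQP hP hI hin hκ hT hU in
theorem R1_mem {c : M.Group} (hc : c ∈ par M P) (hcN : la c < N) :
    D.T p * D.C c * D.T r ∈ F.Lam (κ - la c) := by
  classical
  have h1 := F.mono (n := κ - la c) (by omega) (R1 D F hQP hP hI hin hκ hT hU hc hcN)
  have h2 := lq_REQ D F hQP hP hI hin hU hc hcN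
  have h3 : (if c ∈ par M Q then 0 else D.T (p * c * r)) ∈ F.Lam (κ - la c) := by
    split_ifs with h
    · exact AddSubgroup.zero_mem _
    · exact F.mono (hκ (la c) hcN) (hT c hc h).2
  have h4 := AddSubgroup.add_mem _ (AddSubgroup.add_mem _ h1 h2) h3
  convert h4 using 1
  abel

include hQP hP hI hin hκ hT hU in
theorem REQ_mem {c : M.Group} (hc : c ∈ par M P) (hcN : la c < N) :
    D.T p * EQ D Q (D.C c) * D.T r ∈ F.Lam (κ - la c) :=
  lq_REQ D F hQP hP hI hin hU hc hcN

end lq

end Pool.Agent.Helper35.AM
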