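import Pool.Agent.Helper35.AM.Cy
import Pool.Agent.Helper35.KL.As.K

/-!
# The embedding of a parabolic subgroup
-/

/- The map `f : W(M|P) → W` preserves the length, by induction on `n = len x`: let `x = s x'`, and
suppose `len (f x) = n - 1`. Then `w' = f x'` has the left descent `s`, and `x' = t x''` gives the
left descent `t ≠ s`. So `w' = (t s t ...) v` with `m = M s t ≠ 0` letters, reduced. By induction
`x' = (t s t ...) z` with `m` letters, reduced, `= (s t s ...) z`, and `s x'` is shorter than `x'`.
-/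

namespace Pool.Agent.Helper35.AM

open Pool.Agent.Helper35.KL

/-- The alternating product `a * b * a * ...` with `n` factors. -/
def rsA {G : Type} [Group G] (a b : G) : ℕ → G
  | 0 => 1
  | n + 1 => a * rsA b a n

theorem rsA_zero {G : Type} [Group G] (a b : G) : rsA a b 0 = 1 := rfl

theorem rsA_succ {G : Type} [Group G] (a b : G) (n : ℕ) : rsA a b (n + 1) = a * rsA b a n := rfl

theorem rsA_even {G : Type} [Group G] (a b : G) (k : ℕ) :
    rsA a b (2 * k) = (a * b) ^ k ∧ rsA a b (2 * k + 1) = (a * b) ^ k * a := by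
  induction k with
  | zero => exact ⟨by rw [Nat.mul_zero, rsA_zero, pow_zero],
      by rw [rsA_succ, Nat.mul_zero, rsA_zero, mul_one, pow_zero, one_mul]⟩
  | succ k ih =>
    have h1 : ∀ n, rsA a b (n + 2) = a * b * rsA a b n := by
      intro n
      rw [rsA_succ, rsA_succ, mul_assoc]
    refine ⟨?_, ?_⟩
    · rw [show 2 * (k + 1) = 2 * k + 2 by ring, h1, ih.1, pow_succ']
    · rw [show 2 * (k + 1) + 1 = 2 * k + 1 + 2 by ring, h1, ih.2, pow_succ', mul_assoc (a * b)]

theorem rsA_eq {G : Type} [Group G] {a b : G} (ha : a * a = 1) (hb : b * b = 1) {l : ℕ}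
    (h : rsA a b l = rsA b a l) : (a * b) ^ l = 1 := by
  have h1 : b * a = (a * b)⁻¹ := by
    rw [mul_inv_rev, ← eq_inv_of_mul_eq_one_left ha, ← eq_inv_of_mul_eq_one_left hb]
  rcases Nat.even_or_odd' l with ⟨k, hk | hk⟩
  · subst hk
    rw [(rsA_even a b k).1, (rsA_even b a k).1, h1, inv_pow] at h
    rw [two_mul, pow_add]
    nth_rewrite 1 [h]
    rw [inv_mul_cancel]
  · subst hk
    rw [(rsA_even a b k).2, (rsA_even b a k).2] at h
    have h2 : (a * b) ^ k * a * b = (b * a) ^ k := by
      rw [h, mul_assoc, hb, mul_one]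
    rw [mul_assoc, ← pow_succ, h1, inv_pow] at h2
    rw [show 2 * k + 1 = (k + 1) + k by ring, pow_add, h2, inv_mul_cancel]

theorem rsA_comm {G : Type} [Group G] {a b : G} (ha : a * a = 1) (hb : b * b = 1) {m : ℕ}
    (h : (a * b) ^ m = 1) : rsA a b m = rsA b a m := by
  have h1 : b * a = (a * b)⁻¹ := by
    rw [mul_inv_rev, ← eq_inv_of_mul_eq_one_left ha, ← eq_inv_of_mul_eq_one_left hb]
  rcases Nat.even_or_odd' m with ⟨k, hk | hk⟩
  · subst hk
    rw [(rsA_even a b k).1, (rsA_even b a k).1, h1, inv_pow]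
    rw [two_mul, pow_add] at h
    exact eq_inv_of_mul_eq_one_left h
  · subst hk
    rw [(rsA_even a b k).2, (rsA_even b a k).2, h1, inv_pow]
    rw [show 2 * k + 1 = k + (k + 1) by ring, pow_add] at h
    have h2 := eq_inv_of_mul_eq_one_left (b := (a * b) ^ k) (a := (a * b) ^ (k + 1)) (by
      rw [← pow_add, Nat.add_comm (k + 1) k, pow_add]
      exact h)
    rw [← h2, pow_succ]
    rw [mul_assoc ((a * b) ^ k), mul_assoc a b b, hb, mul_one]

section rs

variable {B : Type} {M : CoxeterMatrix B}

theorem rs_mul_le (x y : M.Group) : len M (x * y) ≤ len M x + len M y :=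
  M.toCoxeterSystem.length_mul_le x y

theorem len_rsA_le (s t : B) (n : ℕ) : len M (rsA (sm M s) (sm M t) n) ≤ n := by
  induction n generalizing s t with
  | zero => rw [rsA_zero, len_one]
  | succ n ih =>
    rw [rsA_succ]
    have h1 := rs_mul_le (M := M) (sm M s) (rsA (sm M t) (sm M s) n)
    have h2 := ih t s
    rw [len_sm] at h1
    omega

theorem rsA_split (s t : B) {m l : ℕ} (h : m ≤ l) : ∃ e : M.Group,
    rsA (sm M s) (sm M t) l = rsA (sm M s) (sm M t) m * e ∧ len M e ≤ l - m := by
  induction m generalizing s t l with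
  | zero => exact ⟨_, by rw [rsA_zero, one_mul], len_rsA_le s t l⟩
  | succ m ih =>
    obtain ⟨l, rfl⟩ : ∃ l', l = l' + 1 := ⟨l - 1, by omega⟩
    obtain ⟨e, he, he2⟩ := ih t s (l := l) (by omega)
    exact ⟨e, by rw [rsA_succ, rsA_succ, he, mul_assoc], by omega⟩

/-- An element of the subgroup of `s` and `t` with left descent `t`. -/
theorem rs_alt {s t : B} : ∀ (n : ℕ) {u : M.Group}, len M u = n + 1 →
    u ∈ par M ({s, t} : Set B) → len M (sm M t * u) + 1 = len M u →
    u = rsA (sm M t) (sm M s) (n + 1) := by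
  intro n
  induction n generalizing s t with
  | zero =>
    intro u hu _ hd
    have h1 : len M (sm M t * u) = 0 := by omega
    have h2 := len_eq_zero.1 h1
    rw [rsA_succ, rsA_zero, mul_one]
    calc u = sm M t * (sm M t * u) := (sm_cancel t u).symm
      _ = sm M t := by rw [h2, mul_one]
  | succ n ih =>
    intro u hu hu2 hd
    have h1 : len M (sm M t * u) = n + 1 := by omega
    have h2 : sm M t * u ∈ par M ({s, t} : Set B) :=
      (par M _).mul_mem (sm_mem_par (by simp)) hu2
    have h3 : sm M t * u ≠ 1 := by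
      intro h
      rw [h, len_one] at h1
      omega
    obtain ⟨b, hb, hb2⟩ := exists_descL h2 h3
    have hbs : b = s := by
      rcases hb with hb | hb
      · exact hb
      · exfalso
        have hb' : b = t := hb
        rw [hb', sm_cancel] at hb2
        omega
    rw [hbs] at hb2
    have h4 := ih (s := t) (t := s) h1 (by rwa [Set.pair_comm]) hb2
    rw [rsA_succ, ← h4, sm_cancel]

/-- Two left descents. -/
theorem rs_two {s t : B} {w : M.Group} (h1 : len M (sm M s * w) + 1 = len M w)
    (h2 : len M (sm M t * w) + 1 = len M w) : M s t ≠ 0 ∧ ∃ v,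
      w = rsA (sm M t) (sm M s) (M s t) * v ∧ len M w = M s t + len M v := by
  obtain ⟨u, hu, r, hr, hw⟩ := exists_XL ({s, t} : Set B) w
  have hl := len_mul_XL hu hr
  have hs : sm M s ∈ par M ({s, t} : Set B) := sm_mem_par (by simp)
  have ht : sm M t ∈ par M ({s, t} : Set B) := sm_mem_par (by simp)
  have hls := len_mul_XL ((par M _).mul_mem hs hu) hr
  have hlt := len_mul_XL ((par M _).mul_mem ht hu) hr
  rw [mul_assoc, ← hw] at hls hlt
  rw [← hw] at hl
  have h3 : len M (sm M s * u) + 1 = len M u := by omega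
  have h4 : len M (sm M t * u) + 1 = len M u := by omega
  obtain ⟨n, hn⟩ : ∃ n, len M u = n + 1 := ⟨len M u - 1, by omega⟩
  have h5 := rs_alt n hn hu h4
  have h6 := rs_alt (s := t) (t := s) n hn (by rwa [Set.pair_comm]) h3
  have h7 := rsA_eq (sm_sm s) (sm_sm t) (h6.symm.trans h5)
  have h8 := order_dvd h7
  have h9 : M s t ≠ 0 := by
    intro h0
    rw [h0, Nat.zero_dvd] at h8
    omega
  refine ⟨h9, ?_⟩
  obtain ⟨e, he, he2⟩ := rsA_split (M := M) t s (Nat.le_of_dvd (by omega) h8)
  refine ⟨e * r, ?_, ?_⟩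
  · rw [hw, ← mul_assoc, ← he, ← h5]
  · have h10 := rs_mul_le (M := M) e r
    have h11 := rs_mul_le (M := M) (rsA (sm M t) (sm M s) (M s t)) (e * r)
    have h12 := len_rsA_le (M := M) t s (M s t)
    rw [← mul_assoc, ← he, ← h5, ← hw] at h11
    have h13 := Nat.le_of_dvd (by omega) h8
    omega

end rs

variable {B : Type}

/-- The Coxeter matrix of a parabolic subgroup. -/
abbrev res (M : CoxeterMatrix B) (P : Set B) : CoxeterMatrix P :=
  subM M (Subtype.val : P → B) Subtype.val_injective

/-- The embedding of a parabolic subgroup. -/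
noncomputable def inc (M : CoxeterMatrix B) (P : Set B) : (res M P).Group →* M.Group :=
  gmap (Subtype.val : P → B) (fun _ _ => rfl)

theorem inc_sm (M : CoxeterMatrix B) (P : Set B) (b : P) :
    inc M P (sm (res M P) b) = sm M b.1 := gmap_sm _ _ b

theorem inc_rsA (M : CoxeterMatrix B) (P : Set B) (s t : P) (n : ℕ) :
    inc M P (rsA (sm (res M P) s) (sm (res M P) t) n) = rsA (sm M s.1) (sm M t.1) n := by
  induction n generalizing s t with
  | zero => rw [rsA_zero, rsA_zero, map_one]
  | succ n ih => rw [rsA_succ, rsA_succ, map_mul, inc_sm, ih]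

/-- Reduced words of the image. -/
theorem rs_lift (M : CoxeterMatrix B) (P : Set B) {n : ℕ}
    (hn : ∀ x : (res M P).Group, len (res M P) x ≤ n → len M (inc M P x) = len (res M P) x)
    (k : ℕ) (s t : P) {x : (res M P).Group} (hx : len (res M P) x < n) {v : M.Group}
    (h : inc M P x = rsA (sm M s.1) (sm M t.1) k * v) (h2 : len M (inc M P x) = k + len M v) :
    ∃ z, x = rsA (sm (res M P) s) (sm (res M P) t) k * z ∧
      len (res M P) x = k + len (res M P) z := by
  induction k generalizing s t x with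
  | zero => exact ⟨x, by rw [rsA_zero, one_mul], by rw [Nat.zero_add]⟩
  | succ k ih =>
    have h3 : inc M P (sm (res M P) s * x) = rsA (sm M t.1) (sm M s.1) k * v := by
      rw [map_mul, inc_sm, h, rsA_succ, mul_assoc, sm_cancel]
    have h4 : len M (inc M P (sm (res M P) s * x)) = k + len M v := by
      have h5 := rs_mul_le (M := M) (rsA (sm M t.1) (sm M s.1) k) v
      have h6 := len_rsA_le (M := M) t.1 s.1 k
      have h7 := len_sm_mul (M := M) s.1 (inc M P x)
      rw [map_mul, inc_sm]
      rw [map_mul, inc_sm] at h3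
      rw [← h3] at h5
      omega
    have h8 := len_sm_mul (M := res M P) s x
    have h9 := hn (sm (res M P) s * x) (by omega)
    have h10 := hn x (by omega)
    obtain ⟨z, hz, hz2⟩ := ih t s (x := sm (res M P) s * x) (by omega) h3 h4
    refine ⟨z, ?_, by omega⟩
    rw [rsA_succ, mul_assoc, ← hz, sm_cancel]

theorem rs_len (M : CoxeterMatrix B) (P : Set B) (n : ℕ) :
    ∀ x : (res M P).Group, len (res M P) x ≤ n → len M (inc M P x) = len (res M P) x := by
  induction n with
  | zero =>
    intro x hx
    have h1 : x = 1 := len_eq_zero.1 (by omega)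
    rw [h1, map_one, len_one, len_one]
  | succ n ih =>
    intro x hx
    by_cases hx' : len (res M P) x ≤ n
    · exact ih x hx'
    have hxn : len (res M P) x = n + 1 := by omega
    have hne : x ≠ 1 := by
      intro h
      rw [h, len_one] at hxn
      omega
    obtain ⟨s, hs⟩ := (res M P).toCoxeterSystem.exists_leftDescent_of_ne_one hne
    have hs' : len (res M P) (sm (res M P) s * x) < len (res M P) x := hs
    obtain ⟨x', hx2⟩ : ∃ x', sm (res M P) s * x = x' := ⟨_, rfl⟩
    have hxx : x = sm (res M P) s * x' := by rw [← hx2, sm_cancel]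
    have hd1 := len_sm_mul (M := res M P) s x
    rw [hx2] at hs' hd1
    have hl : len (res M P) x' = n := by omega
    have h1 := ih x' (by omega)
    have h2 := len_sm_mul (M := M) s.1 (inc M P x')
    rw [← inc_sm, ← map_mul, ← hxx] at h2
    rcases h2 with h2 | h2
    · omega
    exfalso
    have hne' : x' ≠ 1 := by
      intro h
      rw [h, map_one, len_one] at h2
      omega
    obtain ⟨t, ht⟩ := (res M P).toCoxeterSystem.exists_leftDescent_of_ne_one hne'
    have ht' : len (res M P) (sm (res M P) t * x') < len (res M P) x' := ht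
    have hd2 := len_sm_mul (M := res M P) t x'
    have h3 := ih (sm (res M P) t * x') (by omega)
    rw [map_mul, inc_sm] at h3
    rw [hxx, map_mul, inc_sm] at h2
    obtain ⟨h4, v, hv, hv2⟩ := rs_two (M := M) (s := s.1) (t := t.1) (w := inc M P x') h2
      (by omega)
    obtain ⟨m, hm⟩ : ∃ m, M s.1 t.1 = m + 1 := ⟨M s.1 t.1 - 1, by omega⟩
    rw [hm] at hv hv2
    rw [rsA_succ, mul_assoc] at hv
    obtain ⟨z, hz, hz2⟩ := rs_lift M P ih m s t (x := sm (res M P) t * x') (v := v) (by omega)
      (by rw [map_mul, inc_sm, hv, sm_cancel]) (by rw [map_mul, inc_sm]; omega)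
    have h5 : x' = rsA (sm (res M P) t) (sm (res M P) s) (m + 1) * z := by
      rw [rsA_succ, mul_assoc, ← hz, sm_cancel]
    have h6 : (sm (res M P) t * sm (res M P) s) ^ (m + 1) = 1 := by
      rw [← hm]
      exact (res M P).toCoxeterSystem.simple_mul_simple_pow' s t
    rw [rsA_comm (sm_sm t) (sm_sm s) h6, rsA_succ, mul_assoc] at h5
    have h7 : x = rsA (sm (res M P) t) (sm (res M P) s) m * z := by
      rw [hxx, h5, sm_cancel]
    have h8 := rs_mul_le (M := res M P) (rsA (sm (res M P) t) (sm (res M P) s) m) z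
    have h9 := len_rsA_le (M := res M P) t s m
    rw [← h7] at h8
    omega

theorem isPar_inc (M : CoxeterMatrix B) (P : Set B) :
    IsPar (inc M P) (Subtype.val : P → B) where
  sm b := inc_sm M P b
  len x := rs_len M P _ x le_rfl

theorem inc_mem (M : CoxeterMatrix B) (P : Set B) (x : (res M P).Group) :
    inc M P x ∈ par M P := by
  induction x using (res M P).toCoxeterSystem.simple_induction_left with
  | one => rw [map_one]; exact (par M P).one_mem
  | mul_simple_left x b ih => 
    rw [map_mul]
    exact (par M P).mul_mem (by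
      have := inc_sm M P b
      change inc M P (sm (res M P) b) ∈ _
      rw [this]
      exact sm_mem_par b.2) ih

theorem exists_inc {M : CoxeterMatrix B} {P : Set B} {w : M.Group} (hw : w ∈ par M P) :
    ∃ x, inc M P x = w := by
  have h1 : par M P ≤ (inc M P).range := by
    rw [par, Subgroup.closure_le]
    rintro _ ⟨b, hb, rfl⟩
    exact ⟨sm (res M P) ⟨b, hb⟩, inc_sm M P ⟨b, hb⟩⟩
  exact h1 hw

end Pool.Agent.Helper35.AM
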