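import Pool.Agent.Helper35.AM.Aa2

/-!
# The leading coefficients of `T p * C c * T r`
-/

/- PROOF HINTS (conventions: see Df.lean)
Zz (N = k+1, kappa = k). tt_gt: C_c in II. tt_diff: T_pC_uT_r = sum p_{v,u}T_{pvr} in LL 0, leading term T_{pur}; ld of degree k - la u > 0 vanishes. tt_three: R1 (T0 = 0), EQ(C_c) = sum ps(u,c) C_u; for la u > k the term is in II.
 tt_same: T_{p k1} = T_pT_k1 etc., expand T_k1C_uT_k2 in C_c (c in W_i), L1a and A_high.
-/

namespace Pool.Agent.Helper35.AM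

open Pool.Agent.Helper35.KL

section zz

variable {B : Type} {M : CoxeterMatrix B} {L : M.Group → ℤ} {H : Type} [Ring H] [Algebra LP H]
variable {D : KLD M L H} {P : Bool → Set B} {la : M.Group → ℕ} (hD : Dat D P la)

/-- The leading coefficients of `T p * C c * T r`. -/
noncomputable def tt (D : KLD M L H) (P : Bool → Set B) (la : M.Group → ℕ) (k : ℕ)
    (p c r : M.Group) : M.Group →₀ ℤ :=
  ld D (Occ M P la (k + 1)) ((k : ℤ) - la c) (D.T p * D.C c * D.T r)

/-- The leading coefficients of `C z`. -/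
noncomputable def sg (D : KLD M L H) (P : Bool → Set B) (la : M.Group → ℕ) (k : ℕ)
    (z : M.Group) : M.Group →₀ ℤ :=
  ld D (Occ M P la (k + 1)) 0 (D.C z)

variable {k : ℕ} (hI : Idl D (Occ M P la (k + 1)))

omit [Ring H] [Algebra LP H] in
private theorem zz_sum {W A : Type} [Ring A] [Algebra LP A] (b : Module.Basis W LP A)
    (x p r : A) : p * x * r = ∑ w ∈ (b.repr x).support, b.repr x w • (p * b w * r) := by
  conv_lhs => rw [← b.linearCombination_repr x]
  rw [Finsupp.linearCombination_apply, Finsupp.sum, Finset.mul_sum, Finset.sum_mul]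
  refine Finset.sum_congr rfl fun w _ => ?_
  rw [mul_smul_comm, smul_mul_assoc]

include hI in
private theorem zz_heavy {p r : H} {a : LP} {c : M.Group} (h : Occ M P la (k + 1) c) (n : ℤ) :
    ld D (Occ M P la (k + 1)) n (a • (p * D.C c * r)) = 0 :=
  ld_II (Submodule.smul_mem _ _ (hI.II_mulR _ (hI.II_mulL _ (C_mem_II h)))) n

include hD hI in
theorem tt_gt {p c r : M.Group} {i : Bool} (hc : c ∈ par M (P i)) (h : k < la c) :
    tt D P la k p c r = 0 := by
  have h1 := zz_heavy hI (D := D) (p := D.T p) (r := D.T r) (a := 1)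
    (Occ_of_mem (N := k + 1) hc h) ((k : ℤ) - la c)
  rw [one_smul] at h1
  exact h1

include hD hI in
private theorem zz_term {p c r : M.Group} {i : Bool} (hc : c ∈ par M (P i)) {a : LP} {m : ℕ}
    (ha : Dle ((la c : ℤ) - m) a)
    (hm : la c < k + 1 → D.T p * D.C c * D.T r ∈
      LL D (Occ M P la (k + 1)) (((k + 1 : ℕ) : ℤ) - 1 - la c)) :
    ld D (Occ M P la (k + 1)) ((k : ℤ) - m) (a • (D.T p * D.C c * D.T r)) =
      a.coeff ((la c : ℤ) - m) • tt D P la k p c r := by
  by_cases h : la c < k + 1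
  · have h1 := hm h
    have h2 : ((k + 1 : ℕ) : ℤ) - 1 - la c = (k : ℤ) - la c := by push_cast; ring
    rw [h2] at h1
    have h3 := ld_smul ha h1
    have h4 : ((la c : ℤ) - m) + ((k : ℤ) - la c) = (k : ℤ) - m := by ring
    rw [h4] at h3
    exact h3
  · rw [tt_gt hD hI hc (by omega), smul_zero]
    exact zz_heavy hI (Occ_of_mem hc (by omega)) _

include hD in
private theorem zz_lat {i : Bool} {p r : M.Group} {hv : M.Group → Prop} {x : H} {n : ℤ}
    (hp : p ∈ XR M (P i)) (hr : r ∈ XL M (P (!i))) (hx : x ∈ HQ D (PI P))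
    (hx' : x ∈ Lat D.T n) : D.T p * x * D.T r ∈ LL D hv n := by
  rw [zz_sum D.T x]
  refine AddSubgroup.sum_mem _ fun w _ => ?_
  by_cases hw : w ∈ par M (PI P)
  · rw [hD.T_diff hp hw hr]
    have h1 := smul_LL (hv := hv) (hx' w) (T_LL (D := D) (p * w * r))
    rwa [add_zero] at h1
  · rw [(mem_HQ D).1 hx w hw, zero_smul]
    exact AddSubgroup.zero_mem _

include hD in
private theorem zz_diff {i : Bool} {p r u : M.Group} {hv : M.Group → Prop}
    (hp : p ∈ XR M (P i)) (hr : r ∈ XL M (P (!i))) (hu : u ∈ par M (PI P)) :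
    D.T p * D.C u * D.T r - D.C (p * u * r) ∈ LL D hv (-1) := by
  have h1 := zz_lat hD (hv := hv) hp hr (Submodule.sub_mem _ (C_mem_HQ D hu) (T_mem_HQ D hu))
    (D.C_sub_T_neg u)
  rw [mul_sub, sub_mul, hD.T_diff hp hu hr] at h1
  have h2 : D.T p * D.C u * D.T r - D.C (p * u * r) =
      (D.T p * D.C u * D.T r - D.T (p * u * r)) - (D.C (p * u * r) - D.T (p * u * r)) := by abel
  rw [h2]
  exact AddSubgroup.sub_mem _ h1 (C_sub_T_LL _)

include hD in
open scoped Classical in
/-- Different groups at the two sides. -/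
theorem tt_diff {i : Bool} {p u r : M.Group} (hp : p ∈ XR M (P i)) (hu : u ∈ par M (PI P))
    (hr : r ∈ XL M (P (!i))) (h : la u ≤ k) :
    tt D P la k p u r = if la u = k then sg D P la k (p * u * r) else 0 := by
  have h1 := zz_diff hD (hv := Occ M P la (k + 1)) hp hr hu
  split_ifs with hk
  · have h2 : ((k : ℤ) - la u) = 0 := by omega
    rw [tt, sg, h2]
    refine ld_congr ?_
    have h3 : (0 : ℤ) - 1 = -1 := by norm_num
    rw [h3]
    exact h1
  · have h2 : D.T p * D.C u * D.T r =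
        (D.T p * D.C u * D.T r - D.C (p * u * r)) + D.C (p * u * r) := by abel
    refine ld_lt (m := 0) (by omega) ?_
    rw [h2]
    exact AddSubgroup.add_mem _ (LL_mono (by norm_num) h1) (C_LL _)

include hD hI in
open scoped Classical in
/-- The main terms of `T p * C c * T r`. -/
theorem tt_three {i : Bool} {p c r : M.Group} (hp : p ∈ XR M (P i)) (hc : c ∈ par M (P i))
    (hr : r ∈ XL M (P i)) (h : la c ≤ k) :
    tt D P la k p c r = (if c ∉ par M (PI P) ∧ la c = k then sg D P la k (p * c * r) else 0) +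
      ∑ u ∈ (D.C.repr (EQ D (PI P) (D.C c))).support, pi D (PI P) la u c • tt D P la k p u r := by
  have hU : ∀ u ∈ par M (PI P), la u < k + 1 → D.T p * D.C u * D.T r ∈
      LL D (Occ M P la (k + 1)) (((k + 1 : ℕ) : ℤ) - 1 - la u) := fun u hu huN =>
    A_low hD hI (XR_mono (PI_sub i) hp) (XL_mono (PI_sub i) hr) hu huN
  have h1 : D.T p * D.C c * D.T r - (if c ∈ par M (PI P) then 0 else D.T (p * c * r)) -
      D.T p * EQ D (PI P) (D.C c) * D.T r ∈
        LL D (Occ M P la (k + 1)) (((k + 1 : ℕ) : ℤ) - 1 - la c - 1) :=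
    R1 D (LfC D (Occ M P la (k + 1))) (PI_sub i) (hD.loc i) hI (N := k + 1)
      (κ := ((k + 1 : ℕ) : ℤ) - 1) (T0 := 0) (fun g hg h => Occ_of_mem hg h)
      (fun m hm => by omega) (fun g hg hg' => ⟨hD.T_three hp hg hg' hr, T_LL _⟩) hU hc (by omega)
  have h2 : ((k + 1 : ℕ) : ℤ) - 1 - la c = (k : ℤ) - la c := by push_cast; ring
  rw [h2] at h1
  have h3 : D.T p * D.C c * D.T r - ((if c ∈ par M (PI P) then 0 else D.T (p * c * r)) +
      D.T p * EQ D (PI P) (D.C c) * D.T r) ∈ LL D (Occ M P la (k + 1)) ((k : ℤ) - la c - 1) := by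
    rw [← sub_sub]
    exact h1
  rw [tt, ld_congr h3, map_add]
  congr 1
  · by_cases hcI : c ∈ par M (PI P)
    · rw [if_pos hcI, if_neg (fun h3 => h3.1 hcI), map_zero]
    · rw [if_neg hcI]
      by_cases hk : la c = k
      · rw [if_pos ⟨hcI, hk⟩, sg, ← ld_T, hk, sub_self]
      · rw [if_neg (fun h3 => hk h3.2)]
        exact ld_lt (m := 0) (by omega) (T_LL _)
  · rw [zz_sum D.C (EQ D (PI P) (D.C c)), map_sum]
    refine Finset.sum_congr rfl fun u hu => ?_
    have huI : u ∈ par M (PI P) := by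
      by_contra hne
      exact (Finsupp.mem_support_iff.1 hu) ((mem_HQ_C D).1 (EQ_mem D _) u hne)
    exact zz_term hD hI (par_mono (PI_sub i) huI)
      (L2a D (PI_sub i) (hD.loc i) huI hc) (hU u huI)

include hD hI in
/-- The same group at the two sides. -/
theorem tt_same {i : Bool} {p k1 u k2 r : M.Group} (hp : p ∈ XR M (P i)) (hr : r ∈ XL M (P i))
    (h1 : k1 ∈ par M (P i)) (h1' : k1 ∈ XR M (PI P)) (h2 : k2 ∈ par M (P i))
    (h2' : k2 ∈ XL M (PI P)) (hu : u ∈ par M (PI P)) (h : la u ≤ k) :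
    tt D P la k (p * k1) u (k2 * r) =
      ∑ c ∈ (D.C.repr (D.T k1 * D.C u * D.T k2)).support,
        (D.C.repr (D.T k1 * D.C u * D.T k2) c).coeff ((la c : ℤ) - la u) • tt D P la k p c r := by
  have e1 : D.T (p * k1) = D.T p * D.T k1 := D.T_mul _ _ (len_XR_mul hp h1)
  have e2 : D.T (k2 * r) = D.T k2 * D.T r := D.T_mul _ _ (len_mul_XL h2 hr)
  have e3 : D.T (p * k1) * D.C u * D.T (k2 * r) =
      D.T p * (D.T k1 * D.C u * D.T k2) * D.T r := by
    rw [e1, e2]
    simp only [mul_assoc]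
  rw [tt, e3, zz_sum D.C (D.T k1 * D.C u * D.T k2), map_sum]
  refine Finset.sum_congr rfl fun c hc => ?_
  have hcP : c ∈ par M (P i) := by
    by_contra hne
    have h3 : D.T k1 * D.C u * D.T k2 ∈ HQ D (P i) :=
      mul_mem_HQ D (mul_mem_HQ D (T_mem_HQ D h1) (HQ_mono D (PI_sub i) (C_mem_HQ D hu)))
        (T_mem_HQ D h2)
    exact (Finsupp.mem_support_iff.1 hc) ((mem_HQ_C D).1 h3 c hne)
  exact zz_term hD hI hcP (L1a D (PI_sub i) (hD.loc i) h1' h1 h2' h2 hu hcP)
    (fun hcN => A_high hD hI hp hr hcP hcN)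

end zz

end Pool.Agent.Helper35.AM
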