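import Pool.Agent.Helper35.AM.Zz

/-!
# Supports of the leading coefficients
-/

/- PROOF HINTS (conventions: see Df.lean)
Zz2. tt_ind: induction on len p + len r. p in XR(P i), r in XL(P j). j = !i (or p = 1 or r = 1): tt_gt/tt_diff and g0. Else p = p'k1, r = k2r' with group !i: tt_same, then for each c: la c > k: 0; else tt_three: g1 and IH + g2.
 tt_supp: G = supported in Occ k (Occ_diff; (p,c,r) is a syllable); then tt_three. tt_ne: G p r = {t : for all y z, z = p y r -> len z = len p+len y+len r -> t z <> 0 -> for all j, p in XR(P j) -> r in XL(P j) -> y in W_{!j}}.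
 g0: y = u. g1 (group i): p c r = (p k1) y (k2 r) => c = k1 y k2 reduced, y in W_i (par_of_mul); p k1 in XR(P j) forces j = !i (k1 <> 1 in W_i). g2: z = p(k1 y k2)r reduced, so k1 y k2 in W_{!i}, so k1 in W_{!i} n W_i = W_I, k1 = 1, contradiction.
-/

namespace Pool.Agent.Helper35.AM

open Pool.Agent.Helper35.KL

section zz2

variable {B : Type} {M : CoxeterMatrix B} {L : M.Group → ℤ} {H : Type} [Ring H] [Algebra LP H]
variable {D : KLD M L H} {P : Bool → Set B} {la : M.Group → ℕ} (hD : Dat D P la)
variable {k : ℕ} (hI : Idl D (Occ M P la (k + 1)))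

private theorem zz2_len_mul_le (x y : M.Group) : len M (x * y) ≤ len M x + len M y :=
  M.toCoxeterSystem.length_mul_le x y

private theorem zz2_XR_par {Q : Set B} {w : M.Group} (h1 : w ∈ XR M Q) (h2 : w ∈ par M Q) :
    w = 1 := by
  have h := XR_unique h1 one_mem_XR (one_mem (par M Q)) h2 (by rw [mul_one, one_mul])
  exact h.1

private theorem zz2_bool (i j : Bool) : j = i ∨ j = !i := by
  cases i <;> cases j <;> simp

private theorem zz2_sg {w z : M.Group} (h : sg D P la k w z ≠ 0) : z = w := by
  classical
  by_contra hne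
  apply h
  have h0 : ¬ w = z := fun h1 => hne h1.symm
  unfold sg
  rw [ld_apply, Module.Basis.repr_self, Finsupp.single_apply]
  split_ifs
  · rfl
  · exact cf_zero _

/-- the group of a reduced product with a nontrivial factor -/
private theorem zz2_side {i j : Bool} {p k1 : M.Group} (hp : p ∈ XR M (P i))
    (h1 : k1 ∈ par M (P i)) (h2 : k1 ≠ 1) (h3 : p * k1 ∈ XR M (P j)) : j = !i := by
  rcases zz2_bool i j with h | h
  · exfalso
    subst h
    have h4 := XR_unique hp h3 h1 (one_mem (par M (P j))) (by rw [mul_one])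
    exact h2 h4.2
  · exact h

include hD hI in
/-- Induction for the leading coefficients. -/
theorem tt_ind (G : M.Group → M.Group → AddSubgroup (M.Group →₀ ℤ))
    (g0 : ∀ i, ∀ p ∈ XR M (P i), ∀ u ∈ par M (PI P), ∀ r ∈ XL M (P (!i)), la u = k →
      sg D P la k (p * u * r) ∈ G p r)
    (g1 : ∀ i, ∀ p ∈ XR M (P i), ∀ r ∈ XL M (P i), ∀ k1 ∈ par M (P i), k1 ∈ XR M (PI P) →
      k1 ≠ 1 → ∀ k2 ∈ par M (P i), k2 ∈ XL M (PI P) → k2 ≠ 1 → ∀ c ∈ par M (P i),
      c ∉ par M (PI P) → la c = k → sg D P la k (p * c * r) ∈ G (p * k1) (k2 * r))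
    (g2 : ∀ i, ∀ p ∈ XR M (P i), ∀ r ∈ XL M (P i), ∀ k1 ∈ par M (P i), k1 ∈ XR M (PI P) →
      k1 ≠ 1 → ∀ k2 ∈ par M (P i), k2 ∈ XL M (PI P) → k2 ≠ 1 → G p r ≤ G (p * k1) (k2 * r))
    {p r u : M.Group} (hp : p ∈ XR M (PI P)) (hr : r ∈ XL M (PI P)) (hu : u ∈ par M (PI P)) :
    tt D P la k p u r ∈ G p r := by
  classical
  obtain ⟨n, hn⟩ : ∃ n, n = len M p + len M r := ⟨_, rfl⟩
  induction n using Nat.strong_induction_on generalizing p r u with
  | _ n ih =>
    rcases lt_or_ge k (la u) with hk | hk
    · rw [tt_gt hD hI (par_mono (PI_sub true) hu) hk]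
      exact zero_mem _
    · have hdiff : ∀ i, p ∈ XR M (P i) → r ∈ XL M (P (!i)) → tt D P la k p u r ∈ G p r := by
        intro i h1 h2
        rw [tt_diff hD h1 hu h2 hk]
        split_ifs with h3
        · exact g0 i p h1 u hu r h2 h3
        · exact zero_mem _
      obtain ⟨i, hi⟩ := XR_or hD.am hp
      obtain ⟨j, hj⟩ := XL_or hD.am hr
      rcases zz2_bool i j with h | h
      · subst h
        by_cases hp1 : p = 1
        · refine hdiff (!j) (by rw [hp1]; exact one_mem_XR) ?_
          rw [Bool.not_not]
          exact hj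
        · by_cases hr1 : r = 1
          · exact hdiff j hi (by rw [hr1]; exact one_mem_XL)
          · obtain ⟨p', hp', k1, hk1, hk1X, hk1P, rfl, -, hl1⟩ := splitR hD.am hi hp1
            obtain ⟨k2, hk2, r', hr', hk2X, hk2P, rfl, -, hl2⟩ := splitL hD.am hj hr1
            have hk11 : k1 ≠ 1 := fun h => hk1P (h ▸ one_mem _)
            have hk21 : k2 ≠ 1 := fun h => hk2P (h ▸ one_mem _)
            rw [tt_same hD hI hp' hr' hk1 hk1X hk2 hk2X hu hk]
            refine sum_mem fun c hc => AddSubgroup.zsmul_mem _ ?_ _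
            have hcP : c ∈ par M (P (!j)) := by
              by_contra hne
              apply Finsupp.mem_support_iff.1 hc
              exact (mem_HQ_C D).1 (mul_mem_HQ D (mul_mem_HQ D (T_mem_HQ D hk1)
                (C_mem_HQ D (par_mono (PI_sub (!j)) hu))) (T_mem_HQ D hk2)) c hne
            rcases lt_or_ge k (la c) with hkc | hkc
            · rw [tt_gt hD hI hcP hkc]
              exact zero_mem _
            · rw [tt_three hD hI hp' hcP hr' hkc]
              refine add_mem ?_ (sum_mem fun u' hu' => AddSubgroup.zsmul_mem _ ?_ _)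
              · split_ifs with h3
                · exact g1 (!j) p' hp' r' hr' k1 hk1 hk1X hk11 k2 hk2 hk2X hk21 c hcP h3.1 h3.2
                · exact zero_mem _
              · have hu'P : u' ∈ par M (PI P) := by
                  by_contra hne
                  apply Finsupp.mem_support_iff.1 hu'
                  exact (mem_HQ_C D).1 (EQ_mem D (Q := PI P) (D.C c)) u' hne
                refine g2 (!j) p' hp' r' hr' k1 hk1 hk1X hk11 k2 hk2 hk2X hk21 ?_
                exact ih (len M p' + len M r') (by omega) (XR_mono (PI_sub _) hp')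
                  (XL_mono (PI_sub _) hr') hu'P rfl
      · subst h
        exact hdiff i hi hj

include hD hI in
/-- The leading coefficients are supported in the elements with a syllable with `la = k`. -/
theorem tt_supp {i : Bool} {p c r z : M.Group} (hp : p ∈ XR M (P i)) (hc : c ∈ par M (P i))
    (hr : r ∈ XL M (P i)) (h : tt D P la k p c r z ≠ 0) : Occ M P la k z := by
  classical
  set S : AddSubgroup (M.Group →₀ ℤ) :=
    { carrier := {t | ∀ z, t z ≠ 0 → Occ M P la k z}
      add_mem' := by
        intro a b ha hb z hz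
        by_cases h1 : a z = 0
        · refine hb z fun h2 => hz ?_
          rw [Finsupp.add_apply, h1, h2, add_zero]
        · exact ha z h1
      zero_mem' := by
        intro z hz
        exact absurd rfl hz
      neg_mem' := by
        intro a ha z hz
        refine ha z fun h1 => hz ?_
        rw [Finsupp.neg_apply, h1, neg_zero] } with hS
  have hsg : ∀ w, Occ M P la k w → sg D P la k w ∈ S := by
    intro w hw z hz
    rw [zz2_sg hz]
    exact hw
  have hind : ∀ {p r u : M.Group}, p ∈ XR M (PI P) → r ∈ XL M (PI P) → u ∈ par M (PI P) →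
      tt D P la k p u r ∈ S := by
    intro p r u hp hr hu
    refine tt_ind hD hI (fun _ _ => S) ?_ ?_ ?_ hp hr hu
    · intro i p hp u hu r hr h1
      exact hsg _ (Occ_diff hD.am hD.hmono hp hu hr h1.ge)
    · intro i p hp r hr k1 _ _ _ k2 _ _ _ c hc hc' h1
      exact hsg _ (Or.inr ⟨i, p, hp, c, hc, hc', r, hr, rfl, h1.ge⟩)
    · intro i p hp r hr k1 _ _ _ k2 _ _ _
      exact le_refl _
  have hmem : tt D P la k p c r ∈ S := by
    rcases lt_or_ge k (la c) with hk | hk
    · rw [tt_gt hD hI hc hk]
      exact zero_mem _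
    · rw [tt_three hD hI hp hc hr hk]
      refine add_mem ?_ (sum_mem fun u' hu' => AddSubgroup.zsmul_mem _ ?_ _)
      · split_ifs with h3
        · exact hsg _ (Or.inr ⟨i, p, hp, c, hc, h3.1, r, hr, rfl, h3.2.ge⟩)
        · exact zero_mem _
      · have hu'P : u' ∈ par M (PI P) := by
          by_contra hne
          apply Finsupp.mem_support_iff.1 hu'
          exact (mem_HQ_C D).1 (EQ_mem D (Q := PI P) (D.C c)) u' hne
        exact hind (XR_mono (PI_sub _) hp) (XL_mono (PI_sub _) hr) hu'P
  exact hmem z h

include hD hI in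
/-- The products of four factors do not occur. -/
theorem tt_ne {i : Bool} {p u r g : M.Group} (hp : p ∈ XR M (P i)) (hu : u ∈ par M (PI P))
    (hr : r ∈ XL M (P i)) (hg : g ∈ par M (P i)) (hg' : g ∉ par M (PI P)) :
    tt D P la k p u r (p * g * r) = 0 := by
  classical
  set G : M.Group → M.Group → AddSubgroup (M.Group →₀ ℤ) := fun p r =>
    { carrier := {t | ∀ y z, z = p * y * r → len M z = len M p + len M y + len M r → t z ≠ 0 →
        ∀ j, p ∈ XR M (P j) → r ∈ XL M (P j) → y ∈ par M (P (!j))}
      add_mem' := by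
        intro a b ha hb y z h1 h2 hz
        by_cases h3 : a z = 0
        · refine hb y z h1 h2 fun h4 => hz ?_
          rw [Finsupp.add_apply, h3, h4, add_zero]
        · exact ha y z h1 h2 h3
      zero_mem' := by
        intro y z _ _ hz
        exact absurd rfl hz
      neg_mem' := by
        intro a ha y z h1 h2 hz
        refine ha y z h1 h2 fun h3 => hz ?_
        rw [Finsupp.neg_apply, h3, neg_zero] } with hG
  have key : tt D P la k p u r ∈ G p r := by
    refine tt_ind hD hI G ?_ ?_ ?_ (XR_mono (PI_sub _) hp) (XL_mono (PI_sub _) hr) hu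
    · intro i p hp u hu r hr _ y z hy _ hz j _ _
      have h1 := zz2_sg hz
      rw [hy] at h1
      have h2 : y = u := by
        have h3 := mul_right_cancel h1
        exact mul_left_cancel h3
      rw [h2]
      exact par_mono (PI_sub _) hu
    · intro i p hp r hr k1 hk1 _ hk11 k2 hk2 _ hk21 c hc hc' _ y z hy hlz hz j hj _
      have hji := zz2_side hp hk1 hk11 hj
      subst hji
      rw [Bool.not_not]
      have h1 := zz2_sg hz
      rw [hy] at h1
      have h2 : c = k1 * y * k2 := by
        have h3 : p * (k1 * y * k2) * r = p * c * r := by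
          rw [← h1]
          group
        exact (mul_left_cancel (mul_right_cancel h3)).symm
      have hl1 := len_XR_mul hp hk1
      have hl2 := len_mul_XL hk2 hr
      have hl3 := len_three hD.am hp hc hc' hr
      rw [hy, h1, hl3] at hlz
      have hl4 := zz2_len_mul_le k1 y
      have hl5 := zz2_len_mul_le (k1 * y) k2
      rw [← h2] at hl5
      have h4 : len M (k1 * y * k2) = len M (k1 * y) + len M k2 := by
        rw [← h2]
        omega
      have h5 := par_of_mul h4 (by rw [← h2]; exact hc)
      have h6 : len M (k1 * y) = len M k1 + len M y := by omega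
      exact (par_of_mul h6 h5.1).2
    · intro i p hp r hr k1 hk1 hk1X hk11 k2 hk2 _ hk21 t ht y z hy hlz hz j hj _
      exfalso
      have hl1 := len_XR_mul hp hk1
      have hl2 := len_mul_XL hk2 hr
      have hz2 : z = p * (k1 * (y * k2)) * r := by
        rw [hy]
        group
      have hl3 := zz2_len_mul_le (p * (k1 * (y * k2))) r
      have hl4 := zz2_len_mul_le p (k1 * (y * k2))
      have hl5 := zz2_len_mul_le k1 (y * k2)
      have hl6 := zz2_len_mul_le y k2
      rw [← hz2] at hl3
      have h1 := ht (k1 * (y * k2)) z hz2 (by omega) hz i hp hr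
      have h2 : len M (k1 * (y * k2)) = len M k1 + len M (y * k2) := by omega
      have h3 := (par_of_mul h2 h1).1
      exact hk11 (zz2_XR_par hk1X (mem_par_PI i hk1 h3))
  by_contra hne
  have h1 := key g (p * g * r) rfl (len_three hD.am hp hg hg' hr) hne i hp hr
  exact hg' (mem_par_PI i hg h1)

end zz2

end Pool.Agent.Helper35.AM
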