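import Pool.Agent.Helper35.AM.Zz

/-!
# The group generated by the leading coefficients
-/

/- PROOF HINTS (conventions: see Df.lean)
Zz3. tt_mem_TG: strong induction on len p + len r; p in XR(P i), r in XL(P j). Case j = !i (or can be chosen): la u <> k: 0. la u = k: if p = 1 (use group j) or r = 1 (group i): tt p u r is a generator. Else p <> 1: p = p'k1 (group !i),
 tt p u r = sg(p u r) = sg(p'(k1 u) r), r in XL(P(!i)); la(k1u) >= k; > k: 0; = k: tt_three: sg = tt p'(k1u) r - sum pi tt(p',u',r): generator minus IH. Case j = i, p, r <> 1: tt_same, then each tt p' c r' with la c = k is a generator, with la c < k is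
 sum pi tt(p',u',r') (IH), la c > k: 0. sg_mem_TG: z heavy (Occ (k+1)): 0. z in W_I: tt 1 z 1. Else z = p g r, la g = k: tt_three and tt_mem_TG.
-/

namespace Pool.Agent.Helper35.AM

open Pool.Agent.Helper35.KL

section zz3

variable {B : Type} {M : CoxeterMatrix B} {L : M.Group → ℤ} {H : Type} [Ring H] [Algebra LP H]
variable {D : KLD M L H} {P : Bool → Set B} {la : M.Group → ℕ} (hD : Dat D P la)
variable {k : ℕ} (hI : Idl D (Occ M P la (k + 1)))

/-- The group generated by the leading coefficients. -/
noncomputable def TG (D : KLD M L H) (P : Bool → Set B) (la : M.Group → ℕ) (k : ℕ) :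
    AddSubgroup (M.Group →₀ ℤ) :=
  AddSubgroup.closure {t | ∃ i, ∃ p ∈ XR M (P i), ∃ g ∈ par M (P i), ∃ r ∈ XL M (P i),
    la g = k ∧ t = tt D P la k p g r}

theorem zz3_gen {i : Bool} {p g r : M.Group} (hp : p ∈ XR M (P i)) (hg : g ∈ par M (P i))
    (hr : r ∈ XL M (P i)) (hk : la g = k) : tt D P la k p g r ∈ TG D P la k :=
  AddSubgroup.subset_closure ⟨i, p, hp, g, hg, r, hr, hk, rfl⟩

theorem zz3_heavy {z : M.Group} (hz : Occ M P la (k + 1) z) : sg D P la k z = 0 :=
  ld_II (C_mem_II hz) 0

theorem zz3_supp {Q : Set B} {x : H} {u : M.Group} (hu : u ∈ (D.C.repr (EQ D Q x)).support) :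
    u ∈ par M Q := by
  by_contra hne
  exact (Finsupp.mem_support_iff.1 hu) ((mem_HQ_C D).1 (EQ_mem D x) u hne)

include hD hI in
/-- From the generators to the leading coefficients of the basis elements. -/
theorem zz3_sg {i : Bool} {p c r : M.Group} (hp : p ∈ XR M (P i)) (hc : c ∈ par M (P i))
    (hc' : c ∉ par M (PI P)) (hr : r ∈ XL M (P i)) (hk : k ≤ la c)
    (h : ∀ u ∈ par M (PI P), tt D P la k p u r ∈ TG D P la k) :
    sg D P la k (p * c * r) ∈ TG D P la k := by
  classical
  rcases lt_or_ge k (la c) with hlt | hge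
  · rw [zz3_heavy (D := D) (Or.inr ⟨i, p, hp, c, hc, hc', r, hr, rfl, hlt⟩)]
    exact zero_mem _
  · have hkc : la c = k := le_antisymm hge hk
    have h1 := tt_three hD hI hp hc hr hge
    rw [if_pos ⟨hc', hkc⟩] at h1
    have h2 := eq_sub_of_add_eq h1.symm
    rw [h2]
    refine sub_mem (zz3_gen hp hc hr hkc) (sum_mem fun u hu => AddSubgroup.zsmul_mem _ ?_ _)
    exact h u (zz3_supp hu)

include hD hI in
theorem tt_mem_TG {p u r : M.Group} (hp : p ∈ XR M (PI P)) (hr : r ∈ XL M (PI P))
    (hu : u ∈ par M (PI P)) : tt D P la k p u r ∈ TG D P la k := by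
  classical
  obtain ⟨n, hn⟩ : ∃ n, n = len M p + len M r := ⟨_, rfl⟩
  induction n using Nat.strong_induction_on generalizing p r u with
  | _ n ih =>
    rcases lt_or_ge k (la u) with hk | hk
    · rw [tt_gt hD hI (par_mono (PI_sub true) hu) hk]
      exact zero_mem _
    · have hdiff : ∀ i, p ∈ XR M (P i) → r ∈ XL M (P (!i)) →
          tt D P la k p u r ∈ TG D P la k := by
        intro i h1 h2
        by_cases hku : la u = k
        · by_cases hp1 : p = 1
          · exact zz3_gen (by rw [hp1]; exact one_mem_XR) (par_mono (PI_sub (!i)) hu) h2 hku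
          · rw [tt_diff hD h1 hu h2 hk, if_pos hku]
            obtain ⟨p', hp', k1, hk1, hk1X, hk1P, rfl, -, hl1⟩ := splitR hD.am h1 hp1
            rw [mul_assoc p' k1 u]
            refine zz3_sg hD hI hp' ((par M _).mul_mem hk1 (par_mono (PI_sub (!i)) hu)) ?_ h2 ?_ ?_
            · intro h
              apply hk1P
              have h3 := (par M (PI P)).mul_mem h ((par M (PI P)).inv_mem hu)
              rwa [mul_assoc, mul_inv_cancel, mul_one] at h3
            · rw [← hku]
              exact (hD.hmono (!i) k1 hk1 u (par_mono (PI_sub (!i)) hu)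
                (len_XR_mul hk1X hu)).2
            · intro u' hu'
              exact ih (len M p' + len M r) (by omega) (XR_mono (PI_sub _) hp')
                hr hu' rfl
        · rw [tt_diff hD h1 hu h2 hk, if_neg hku]
          exact zero_mem _
      have hbool : ∀ i j : Bool, j = i ∨ j = !i := by decide
      obtain ⟨i, hi⟩ := XR_or hD.am hp
      obtain ⟨j, hj⟩ := XL_or hD.am hr
      rcases hbool i j with h | h
      · subst h
        by_cases hp1 : p = 1
        · refine hdiff (!j) (by rw [hp1]; exact one_mem_XR) ?_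
          rw [Bool.not_not]
          exact hj
        · by_cases hr1 : r = 1
          · exact hdiff j hi (by rw [hr1]; exact one_mem_XL)
          · obtain ⟨p', hp', k1, hk1, hk1X, hk1P, rfl, -, hl1⟩ := splitR hD.am hi hp1
            obtain ⟨k2, hk2, r', hr', hk2X, hk2P, rfl, -, hl2⟩ := splitL hD.am hj hr1
            rw [tt_same hD hI hp' hr' hk1 hk1X hk2 hk2X hu hk]
            refine sum_mem fun c hc => AddSubgroup.zsmul_mem _ ?_ _
            have hcP : c ∈ par M (P (!j)) := by
              by_contra hne
              apply Finsupp.mem_support_iff.1 hc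
              exact (mem_HQ_C D).1 (mul_mem_HQ D (mul_mem_HQ D (T_mem_HQ D hk1)
                (C_mem_HQ D (par_mono (PI_sub (!j)) hu))) (T_mem_HQ D hk2)) c hne
            rcases lt_trichotomy k (la c) with hkc | hkc | hkc
            · rw [tt_gt hD hI hcP hkc]
              exact zero_mem _
            · exact zz3_gen hp' hcP hr' hkc.symm
            · rw [tt_three hD hI hp' hcP hr' hkc.le, if_neg (fun h => absurd h.2 (by omega)),
                zero_add]
              refine sum_mem fun u' hu' => AddSubgroup.zsmul_mem _ ?_ _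
              exact ih (len M p' + len M r') (by omega) (XR_mono (PI_sub _) hp')
                (XL_mono (PI_sub _) hr') (zz3_supp hu') rfl
      · subst h
        exact hdiff i hi hj

include hD hI in
theorem sg_mem_TG {z : M.Group} (hz : Occ M P la k z) : sg D P la k z ∈ TG D P la k := by
  by_cases hz1 : Occ M P la (k + 1) z
  · rw [zz3_heavy (D := D) hz1]
    exact zero_mem _
  · rcases hz with ⟨h1, h2⟩ | ⟨i, p, hp, g, hg, hg', r, hr, rfl, h2⟩
    · have h3 : la z = k := by
        by_contra hne
        exact hz1 (Or.inl ⟨h1, by omega⟩)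
      have h4 : sg D P la k z = tt D P la k 1 z 1 := by
        rw [sg, tt, h3, sub_self, D.T_one, one_mul, mul_one]
      rw [h4]
      exact zz3_gen (i := true) one_mem_XR (par_mono (PI_sub true) h1) one_mem_XL h3
    · exact zz3_sg hD hI hp hg hg' hr h2 fun u hu =>
        tt_mem_TG hD hI (XR_mono (PI_sub i) hp) (XL_mono (PI_sub i) hr) hu

end zz3

end Pool.Agent.Helper35.AM
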