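import Pool.Agent.Helper35.AM.Zz2
import Pool.Agent.Helper35.AM.Zz3
import Pool.Agent.Helper35.AM.Ap3

/-!
# The ideals
-/

/- PROOF HINTS (conventions: see Df.lean)
Zz4. admR: mul = E_right (hin: la c > k => Occ (k+1) c; hinv: Occ_inv). bar: clear. lam: C_{gr} - C_gT_r in NegR (S = Sk k): T_p C_{g'}T_{r'} in LL(k - la g') = LL 0 if la g' = k (A_high), in II if la g' > k. ld_TC: the same. idl_step: mulL: let z with Occ k z. If Occ(k+1) z:
 hI and II(Occ(k+1)) <= II(Occ k). Else C_z = up(sg z), sg z in TG; so it is enough: t * up(tt p g r) in II(Occ k) for the generators: up(tt p g r) = Xf (C(. r)) p g (ld_TC), mulX: = Xi(t C_{pg}) mod II(Occ(k+1)), a combination of Xf p' g' = up(tt p' g' r), supported in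
 Occ k (tt_supp). mulR: fl and Occ_inv.
-/

namespace Pool.Agent.Helper35.AM

open Pool.Agent.Helper35.KL

section zz4

variable {B : Type} {M : CoxeterMatrix B} {L : M.Group → ℤ} {H : Type} [Ring H] [Algebra LP H]
variable {D : KLD M L H} {P : Bool → Set B} {la : M.Group → ℕ} (hD : Dat D P la)
variable {k : ℕ} (hI : Idl D (Occ M P la (k + 1)))

private theorem zz4_hin {i : Bool} : ∀ c ∈ par M (P i), k < la c → Occ M P la (k + 1) c :=
  fun _ hc h => Occ_of_mem hc h

private theorem zz4_II_le {x : H} (hx : x ∈ II D (Occ M P la (k + 1))) :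
    x ∈ II D (Occ M P la k) :=
  mem_II.2 fun z hz => mem_II.1 hx z fun h => hz (Occ_mono (Nat.le_succ k) h)

include hD hI in
private theorem zz4_neg {i : Bool} {p : M.Group} (hp : p ∈ XR M (P i)) {n : ℕ} {x : H}
    (hx : x ∈ NegR D (P i) (Sk M (P i) la k) n) :
    D.T p * x ∈ LL D (Occ M P la (k + 1)) (-1) := by
  unfold NegR at hx
  refine AddSubgroup.closure_induction
    (p := fun x _ => D.T p * x ∈ LL D (Occ M P la (k + 1)) (-1)) ?_ ?_ ?_ ?_ hx
  · rintro x ⟨a, r', hr', g, hg, ha, _, rfl⟩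
    have e : D.T p * (a • (D.C g * D.T r')) = a • (D.T p * D.C g * D.T r') := by
      rw [Algebra.mul_smul_comm, mul_assoc]
    rw [e]
    rcases Nat.lt_or_ge k (la g) with h | h
    · have h1 : D.C g ∈ II D (Occ M P la (k + 1)) := C_mem_II (Occ_of_mem hg.1 h)
      have h2 := hI.II_mulR (D.T r') (hI.II_mulL (D.T p) h1)
      exact II_LL ((II D (Occ M P la (k + 1))).smul_mem a h2) _
    · have h1 := A_high hD hI hp hr' hg.1 (Nat.lt_succ_of_le h)
      have h2 : la g = k := le_antisymm h hg.2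
      have h3 : ((k + 1 : ℕ) : ℤ) - 1 - la g = 0 := by
        rw [h2]
        push_cast
        ring
      rw [h3] at h1
      have h4 := smul_LL ha h1
      rwa [add_zero] at h4
  · rw [mul_zero]
    exact AddSubgroup.zero_mem _
  · intro x y _ _ hx hy
    rw [mul_add]
    exact AddSubgroup.add_mem _ hx hy
  · intro x _ hx
    rw [mul_neg]
    exact AddSubgroup.neg_mem _ hx

include hD hI in
private theorem zz4_sub {i : Bool} {p g r : M.Group} (hp : p ∈ XR M (P i)) (hg : g ∈ par M (P i))
    (hr : r ∈ XL M (P i)) (hk : la g = k) :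
    D.T p * D.C (g * r) - D.T p * D.C g * D.T r ∈ LL D (Occ M P la (k + 1)) (-1) := by
  have h1 := C_sub_NegR D (clR_Sk D (hD.loc i) k) hr (show g ∈ Sk M (P i) la k from ⟨hg, hk.ge⟩)
  have h2 := zz4_neg hD hI hp h1
  rwa [mul_sub, ← mul_assoc] at h2

include hD hI in
private theorem zz4_zero {i : Bool} {p g r : M.Group} (hp : p ∈ XR M (P i))
    (hg : g ∈ par M (P i)) (hr : r ∈ XL M (P i)) (hk : la g = k) :
    D.T p * D.C g * D.T r ∈ LL D (Occ M P la (k + 1)) 0 := by
  have h1 := A_high hD hI hp hr hg (by omega)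
  have h3 : ((k + 1 : ℕ) : ℤ) - 1 - la g = 0 := by
    rw [hk]
    push_cast
    ring
  rwa [h3] at h1

include hD hI in
/-- The elements `C (g * r)` as images of the `C g`. -/
theorem admR {i : Bool} {r : M.Group} (hr : r ∈ XL M (P i)) :
    AdmL D (Occ M P la (k + 1)) (P i) la k fun g => D.C (g * r) where
  mul := fun b hb g hg hk =>
    E_right hI (hD.loc i) zz4_hin (fun _ hw => Occ_inv hD.hinv hw) hb hr hg hk
  bar := fun g _ _ => by
    rw [D.bar_C, sub_self]
    exact Submodule.zero_mem _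
  lam := fun p hp g hg hk => by
    have h1 := AddSubgroup.add_mem _ (LL_mono (by norm_num) (zz4_sub hD hI hp hg hr hk))
      (zz4_zero hD hI hp hg hr hk)
    rwa [sub_add_cancel] at h1

include hD hI in
theorem ld_TC {i : Bool} {p g r : M.Group} (hp : p ∈ XR M (P i)) (hg : g ∈ par M (P i))
    (hr : r ∈ XL M (P i)) (hk : la g = k) :
    ld D (Occ M P la (k + 1)) 0 (D.T p * D.C (g * r)) = tt D P la k p g r := by
  have h1 : ld D (Occ M P la (k + 1)) 0 (D.T p * D.C (g * r)) =
      ld D (Occ M P la (k + 1)) 0 (D.T p * D.C g * D.T r) :=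
    ld_congr (by rw [zero_sub]; exact zz4_sub hD hI hp hg hr hk)
  rw [h1, tt, hk, sub_self]

include hD hI in
private theorem zz4_Xf {i : Bool} {p g r : M.Group} (hp : p ∈ XR M (P i))
    (hg : g ∈ par M (P i)) (hr : r ∈ XL M (P i)) (hk : la g = k) :
    Xf D (Occ M P la (k + 1)) (fun g => D.C (g * r)) p g = D.up (tt D P la k p g r) := by
  rw [Xf, ld_TC hD hI hp hg hr hk]

private theorem zz4_up {t : M.Group →₀ ℤ} (h : ∀ z, t z ≠ 0 → Occ M P la k z) :
    D.up t ∈ II D (Occ M P la k) := by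
  refine mem_II.2 fun z hz => ?_
  rw [D.repr_up]
  have h1 : t z = 0 := by
    by_contra hne
    exact hz (h z hne)
  rw [h1, zero_smul]

include hD hI in
private theorem zz4_gen {i : Bool} {p g r : M.Group} (hp : p ∈ XR M (P i))
    (hg : g ∈ par M (P i)) (hr : r ∈ XL M (P i)) (hk : la g = k) (t : H) :
    t * D.up (tt D P la k p g r) ∈ II D (Occ M P la k) := by
  have h1 := (admR hD hI hr).mulX hI (hD.loc i) zz4_hin hp hg hk t
  rw [zz4_Xf hD hI hp hg hr hk] at h1
  have h2 : Xi D (P i) la k (Xf D (Occ M P la (k + 1)) (fun g => D.C (g * r)))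
      (t * D.C (p * g)) ∈ II D (Occ M P la k) := by
    rw [Xi, Module.Basis.constr_apply, Finsupp.sum]
    refine Submodule.sum_mem _ fun w _ => Submodule.smul_mem _ _ ?_
    split_ifs with hw
    · rw [zz4_Xf hD hI (xr_mem (P i) w) (xp_mem (P i) w) hr hw]
      exact zz4_up fun z hz => tt_supp hD hI (xr_mem (P i) w) (xp_mem (P i) w) hr hz
    · exact Submodule.zero_mem _
  have h3 := Submodule.add_mem _ (zz4_II_le h1) h2
  rwa [sub_add_cancel] at h3

include hD hI in
private theorem zz4_TG {s : M.Group →₀ ℤ} (hs : s ∈ TG D P la k) (t : H) :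
    t * D.up s ∈ II D (Occ M P la k) := by
  unfold TG at hs
  refine AddSubgroup.closure_induction
    (p := fun s _ => t * D.up s ∈ II D (Occ M P la k)) ?_ ?_ ?_ ?_ hs
  · rintro s ⟨i, p, hp, g, hg, r, hr, hk, rfl⟩
    exact zz4_gen hD hI hp hg hr hk t
  · have e : D.up (0 : M.Group →₀ ℤ) = 0 := map_zero D.up
    rw [e, mul_zero]
    exact Submodule.zero_mem _
  · intro x y _ _ hx hy
    have e : D.up (x + y) = D.up x + D.up y := map_add D.up x y
    rw [e, mul_add]
    exact Submodule.add_mem _ hx hy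
  · intro x _ hx
    have e : D.up (-x) = -D.up x := map_neg D.up x
    rw [e, mul_neg]
    exact Submodule.neg_mem _ hx

include hD hI in
private theorem zz4_left (w : M.Group) (hw : Occ M P la k w) (y : H) :
    y * D.C w ∈ II D (Occ M P la k) := by
  by_cases h : Occ M P la (k + 1) w
  · exact zz4_II_le (hI.mulL w h y)
  · have h1 : D.C w = D.up (sg D P la k w) := by
      rw [sg, ld_C h]
      exact (D.up_single w).symm
    rw [h1]
    exact zz4_TG hD hI (sg_mem_TG hD hI hw) y

include hD hI in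
/-- The step of the downward induction. -/
theorem idl_step : Idl D (Occ M P la k) where
  mulL := fun w hw y => zz4_left hD hI w hw y
  mulR := fun w hw y => by
    have h1 := zz4_left hD hI w⁻¹ (Occ_inv hD.hinv hw) (D.fl y)
    have h2 := II_fl (fun _ hw => Occ_inv hD.hinv hw) h1
    rwa [D.fl_mul, D.fl_C, inv_inv, D.fl_fl] at h2

end zz4

end Pool.Agent.Helper35.AM
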